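import Mathlib
import Pool.Agent.Lib.RiemannMapping

/-!
# Steklov isospectral plane domains: basic definitions
-/

set_option autoImplicit false

open Complex Metric Set MeasureTheory
open scoped ComplexConjugate
open Pool.Agent.Lib.RiemannMapping (mob)

namespace Pool.Agent.Steklov

/-- the polynomial `x^7 + 7 p x^4 + 7 (p - 3) x - (1 + I)`, used for the two roots `p` of
`p^2 - p + 2 = 0` -/
noncomputable def FF (p x : ℂ) : ℂ := x ^ 7 + 7 * p * x ^ 4 + 7 * (p - 3) * x - (1 + I)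

/-- the incidence factor (points and lines of the Fano plane) -/
noncomputable def AA (p x y : ℂ) : ℂ :=
  x ^ 3 + p * x ^ 2 * y - (1 - p) * x * y ^ 2 - y ^ 3 + (2 * p - 1)

/-- the complementary factor -/
noncomputable def CC (p x y : ℂ) : ℂ :=
  x ^ 4 - p * x ^ 3 * y - x ^ 2 * y ^ 2 - (1 - p) * x * y ^ 3 + y ^ 4 + (5 * p + 1) * x
    + (6 - 5 * p) * y

/-- the radius of the base disc -/
noncomputable def RR : ℝ := 10 ^ 21

/-- Blaschke product of degree 7 -/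
noncomputable def Bl (u : ℂ) (a : Fin 7 → ℂ) (z : ℂ) : ℂ := u * ∏ j, mob (a j) z

/-- a function whose modulus on the unit circle is that of the derivative of the Blaschke
product, up to a constant -/
noncomputable def dpsi (a : Fin 7 → ℂ) (c : Fin 6 → ℂ) (z : ℂ) : ℂ :=
  (∏ j, (1 - conj (c j) * z)) ^ 2 / (∏ j, (1 - conj (a j) * z)) ^ 2

/-- the disc model of the sublevel set `{‖F‖ < R}` of a polynomial of degree 7 -/
structure BModel (F : ℂ → ℂ) where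
  /-- Riemann map from the disc -/
  α : ℂ → ℂ
  /-- its inverse -/
  β : ℂ → ℂ
  /-- zeros of the Blaschke product -/
  a : Fin 7 → ℂ
  /-- critical points of the Blaschke product -/
  c : Fin 6 → ℂ
  /-- unimodular constant -/
  u : ℂ
  /-- positive constant -/
  κ : ℝ
  hα : DifferentiableOn ℂ α (ball 0 1)
  hβ : DifferentiableOn ℂ β {x | ‖F x‖ < RR}
  hαm : ∀ z, ‖z‖ < 1 → ‖F (α z)‖ < RR
  hβm : ∀ x, ‖F x‖ < RR → ‖β x‖ < 1
  hβα : ∀ z, ‖z‖ < 1 → β (α z) = z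
  hαβ : ∀ x, ‖F x‖ < RR → α (β x) = x
  ha : ∀ j, ‖a j‖ ≤ 1 / 200
  hc : ∀ j, ‖c j‖ ≤ 1 / 200
  hu : ‖u‖ = 1
  hκ : 0 < κ
  hB : ∀ z, ‖z‖ < 1 → F (α z) = RR * Bl u a z
  hderiv : ∀ z, ‖z‖ < 2 → HasDerivAt (Bl u a)
    (u * κ * ((∏ j, (z - c j)) * (∏ j, (1 - conj (c j) * z))) /
      (∏ j, (1 - conj (a j) * z)) ^ 2) z

/-- boundary norm with density `‖B'‖` -/
noncomputable def bdryN (u : ℂ) (a : Fin 7 → ℂ) (h : ℂ → ℝ) : ℝ :=
  ∫ θ in (0:ℝ)..2 * Real.pi, h (exp (θ * I)) ^ 2 * ‖deriv (Bl u a) (exp (θ * I))‖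

/-- Dirichlet energy of `Re V`, as a boundary integral -/
noncomputable def dirE (V : ℂ → ℂ) : ℝ :=
  ∫ θ in (0:ℝ)..2 * Real.pi, (V (exp (θ * I))).re * (exp (θ * I) * deriv V (exp (θ * I))).re

/-- Lipschitz boundary in the sense of the frozen statement, in the complex plane -/
def LipBdry (Ω : Set ℂ) : Prop :=
  ∀ p ∈ frontier Ω, ∃ r : ℝ, 0 < r ∧ ∃ a b : ℂ, ‖a‖ = 1 ∧ ‖b‖ = 1 ∧ inner ℝ a b = 0 ∧
    ∃ g : ℝ → ℝ, ∃ K : NNReal, LipschitzWith K g ∧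
      ∀ x ∈ Metric.ball p r, (x ∈ Ω ↔ g (inner ℝ (x - p) a) < inner ℝ (x - p) b)

/-- the Dirichlet energy on a plane set -/
noncomputable def engy (Ω : Set ℂ) (u : ℂ → ℝ) : ℝ := ∫ x in Ω, ‖fderiv ℝ u x‖ ^ 2

/-- the boundary norm on a plane set -/
noncomputable def bdry (Ω : Set ℂ) (u : ℂ → ℝ) : ℝ := ∫ x in frontier Ω, u x ^ 2 ∂μH[1]

/-- the set of suprema of Rayleigh quotients over `(k+1)`-dimensional spaces -/
def raySet (Ω : Set ℂ) (k : ℕ) : Set ℝ :=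
  {s : ℝ | ∃ V : Submodule ℝ (ℂ → ℝ),
    (∀ u ∈ V, ContDiff ℝ 1 u) ∧ Module.finrank ℝ V = k + 1 ∧
    (∀ u ∈ V, u ≠ 0 → 0 < bdry Ω u) ∧
    s = sSup {t : ℝ | ∃ u ∈ V, u ≠ 0 ∧ t = engy Ω u / bdry Ω u}}

end Pool.Agent.Steklov
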