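import Mathlib
import Pool.Agent.Steklov.Defs

/-!
# Seventh root of a Blaschke product as an annulus coordinate: the structure
-/

set_option autoImplicit false

open Complex Metric Set MeasureTheory

namespace Pool.Agent.Steklov

/-- a coordinate `L` with `L^7 = B` near the unit circle, with inverse `K` and boundary lift `τ` -/
structure AnnCoord (u : ℂ) (a : Fin 7 → ℂ) where
  /-- the coordinate -/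
  L : ℂ → ℂ
  /-- its inverse -/
  K : ℂ → ℂ
  /-- the lift of the boundary map to the real line -/
  τ : ℝ → ℝ
  hL : DifferentiableOn ℂ L {z | 1 / 2 < ‖z‖ ∧ ‖z‖ < 2}
  hL7 : ∀ z, 1 / 2 < ‖z‖ → ‖z‖ < 2 → L z ^ 7 = Bl u a z
  hK : DifferentiableOn ℂ K {W | 9 / 10 < ‖W‖ ∧ ‖W‖ < 11 / 10}
  hKmem : ∀ W, 9 / 10 < ‖W‖ → ‖W‖ < 11 / 10 → 1 / 2 < ‖K W‖ ∧ ‖K W‖ < 2
  hLK : ∀ W, 9 / 10 < ‖W‖ → ‖W‖ < 11 / 10 → L (K W) = W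
  hLmem : ∀ z, 19 / 20 < ‖z‖ → ‖z‖ < 21 / 20 → 9 / 10 < ‖L z‖ ∧ ‖L z‖ < 11 / 10
  hKL : ∀ z, 19 / 20 < ‖z‖ → ‖z‖ < 21 / 20 → K (L z) = z
  hL1 : ∀ z, 1 / 2 < ‖z‖ → ‖z‖ < 2 → (‖L z‖ < 1 ↔ ‖z‖ < 1)
  hτ : ∀ θ : ℝ, HasDerivAt τ (‖deriv (Bl u a) (exp (θ * I))‖ / 7) θ
  hτper : ∀ θ : ℝ, τ (θ + 2 * Real.pi) = τ θ + 2 * Real.pi
  hLτ : ∀ θ : ℝ, L (exp (θ * I)) = exp (τ θ * I)

end Pool.Agent.Steklov
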