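import Mathlib
import Pool.Agent.Steklov.AnnDefs

/-!
# Seventh root of a Blaschke product as an annulus coordinate (module M2)
-/

set_option autoImplicit false

open Complex Metric Set MeasureTheory Filter Topology
open scoped ComplexConjugate
open Pool.Agent.Lib.RiemannMapping (mob sq_norm_den_sub_sq_norm_num)

namespace Pool.Agent.Steklov

namespace Ann

/-- logarithm of the normalised Blaschke factor divided by `z` -/
noncomputable def e1 (a z : ℂ) : ℂ := log (1 - a / z) - log (1 - conj a * z)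

/-- derivative of `e1` -/
noncomputable def de1 (a z : ℂ) : ℂ :=
  (a / z ^ 2) / (1 - a / z) + conj a / (1 - conj a * z)

theorem norm_div_le {a z : ℂ} (ha : ‖a‖ ≤ 1 / 200) (hz : 1 / 2 < ‖z‖) : ‖a / z‖ ≤ 1 / 100 := by
  rw [norm_div, div_le_iff₀ (by linarith)]
  nlinarith

theorem norm_cmul_le {a z : ℂ} (ha : ‖a‖ ≤ 1 / 200) (hz : ‖z‖ < 2) :
    ‖conj a * z‖ ≤ 1 / 100 := by
  rw [norm_mul, RCLike.norm_conj]
  nlinarith [norm_nonneg a, norm_nonneg z]

theorem slit {w : ℂ} (hw : ‖w‖ ≤ 1 / 100) : 1 - w ∈ slitPlane := by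
  have := mem_slitPlane_of_norm_lt_one (z := -w) (by rw [norm_neg]; linarith)
  simpa [sub_eq_add_neg] using this

theorem ne0 {w : ℂ} (hw : ‖w‖ ≤ 1 / 100) : 1 - w ≠ 0 := slitPlane_ne_zero (slit hw)

theorem norm_one_sub_ge {w : ℂ} (hw : ‖w‖ ≤ 1 / 100) : 99 / 100 ≤ ‖1 - w‖ := by
  have := norm_sub_norm_le (1 : ℂ) w
  rw [norm_one] at this
  linarith

theorem norm_log_le {w : ℂ} (hw : ‖w‖ ≤ 1 / 100) : ‖log (1 - w)‖ ≤ 101 / 10000 := by
  have h := norm_log_one_add_le (z := -w) (by rw [norm_neg]; linarith)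
  rw [norm_neg, ← sub_eq_add_neg] at h
  refine h.trans ?_
  have h0 := norm_nonneg w
  have h1 : (1 - ‖w‖)⁻¹ ≤ 100 / 99 := by
    rw [inv_le_comm₀ (by linarith) (by norm_num)]
    norm_num
    linarith
  have h2 : ‖w‖ ^ 2 * (1 - ‖w‖)⁻¹ ≤ (1 / 100) ^ 2 * (100 / 99) := by
    apply mul_le_mul _ h1 (inv_nonneg.mpr (by linarith)) (by positivity)
    exact pow_le_pow_left₀ h0 hw 2
  linarith

theorem norm_e1_le {a z : ℂ} (ha : ‖a‖ ≤ 1 / 200) (hz : 1 / 2 < ‖z‖) (hz2 : ‖z‖ < 2) :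
    ‖e1 a z‖ ≤ 202 / 10000 := by
  unfold e1
  refine (norm_sub_le _ _).trans ?_
  have h1 := norm_log_le (norm_div_le ha hz)
  have h2 := norm_log_le (norm_cmul_le ha hz2)
  linarith

theorem hasDerivAt_e1 {a z : ℂ} (ha : ‖a‖ ≤ 1 / 200) (hz : 1 / 2 < ‖z‖) (hz2 : ‖z‖ < 2) :
    HasDerivAt (e1 a) (de1 a z) z := by
  have hz0 : z ≠ 0 := by
    intro h
    rw [h, norm_zero] at hz
    norm_num at hz
  have h1 : HasDerivAt (fun z : ℂ => 1 - a / z) (a / z ^ 2) z := by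
    have h := ((hasDerivAt_inv hz0).const_mul a).const_sub 1
    have h' : HasDerivAt (fun z : ℂ => 1 - a / z) (-(a * -(z ^ 2)⁻¹)) z := h
    refine h'.congr_deriv ?_
    rw [div_eq_mul_inv]
    ring
  have h2 : HasDerivAt (fun z : ℂ => 1 - conj a * z) (-conj a) z := by
    have := ((hasDerivAt_id z).const_mul (conj a)).const_sub 1
    simpa using this
  have h3 := h1.clog (slit (norm_div_le ha hz))
  have h4 := h2.clog (slit (norm_cmul_le ha hz2))
  have h5 : HasDerivAt (e1 a) _ z := h3.sub h4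
  refine h5.congr_deriv ?_
  unfold de1
  ring

theorem norm_de1_le {a z : ℂ} (ha : ‖a‖ ≤ 1 / 200) (hz : 1 / 2 < ‖z‖) (hz2 : ‖z‖ < 2) :
    ‖de1 a z‖ ≤ 26 / 1000 := by
  unfold de1
  refine (norm_add_le _ _).trans ?_
  have h1 : ‖a / z ^ 2 / (1 - a / z)‖ ≤ (1 / 50) / (99 / 100) := by
    rw [norm_div]
    apply div_le_div₀ (by norm_num) _ (by norm_num) (norm_one_sub_ge (norm_div_le ha hz))
    rw [norm_div, norm_pow, div_le_iff₀ (by positivity)]
    nlinarith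
  have h2 : ‖conj a / (1 - conj a * z)‖ ≤ (1 / 200) / (99 / 100) := by
    rw [norm_div, RCLike.norm_conj]
    apply div_le_div₀ (by norm_num) ha (by norm_num) (norm_one_sub_ge (norm_cmul_le ha hz2))
  norm_num at h1 h2 ⊢
  linarith

variable (a : Fin 7 → ℂ)

/-- the exponent -/
noncomputable def E (z : ℂ) : ℂ := (1 / 7) * ∑ j, e1 (a j) z

/-- derivative of `E` -/
noncomputable def dE (z : ℂ) : ℂ := (1 / 7) * ∑ j, de1 (a j) z

variable {a}

theorem norm_E_le (ha : ∀ j, ‖a j‖ ≤ 1 / 200) {z : ℂ} (hz : 1 / 2 < ‖z‖) (hz2 : ‖z‖ < 2) :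
    ‖E a z‖ ≤ 202 / 10000 := by
  unfold E
  rw [norm_mul]
  have h : ‖∑ j, e1 (a j) z‖ ≤ ∑ _j : Fin 7, (202 / 10000 : ℝ) :=
    norm_sum_le_of_le _ (fun j _ => norm_e1_le (ha j) hz hz2)
  simp only [Finset.sum_const, Finset.card_univ, Fintype.card_fin, nsmul_eq_mul] at h
  norm_num at h ⊢
  linarith

theorem norm_dE_le (ha : ∀ j, ‖a j‖ ≤ 1 / 200) {z : ℂ} (hz : 1 / 2 < ‖z‖) (hz2 : ‖z‖ < 2) :
    ‖dE a z‖ ≤ 26 / 1000 := by
  unfold dE
  rw [norm_mul]
  have h : ‖∑ j, de1 (a j) z‖ ≤ ∑ _j : Fin 7, (26 / 1000 : ℝ) :=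
    norm_sum_le_of_le _ (fun j _ => norm_de1_le (ha j) hz hz2)
  simp only [Finset.sum_const, Finset.card_univ, Fintype.card_fin, nsmul_eq_mul] at h
  norm_num at h ⊢
  linarith

theorem hasDerivAt_E (ha : ∀ j, ‖a j‖ ≤ 1 / 200) {z : ℂ} (hz : 1 / 2 < ‖z‖) (hz2 : ‖z‖ < 2) :
    HasDerivAt (E a) (dE a z) z := by
  unfold E dE
  apply HasDerivAt.const_mul
  exact HasDerivAt.fun_sum (fun j _ => hasDerivAt_e1 (ha j) hz hz2)

/-- the normalised coordinate -/
noncomputable def G (a : Fin 7 → ℂ) (z : ℂ) : ℂ := z * exp (E a z)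

theorem norm_exp_E_sub_one_le (ha : ∀ j, ‖a j‖ ≤ 1 / 200) {z : ℂ} (hz : 1 / 2 < ‖z‖)
    (hz2 : ‖z‖ < 2) : ‖exp (E a z) - 1‖ ≤ 21 / 1000 := by
  have h := norm_E_le ha hz hz2
  have h0 := norm_nonneg (E a z)
  have h1 := norm_exp_sub_one_sub_id_le (x := E a z) (by linarith)
  have h2 : ‖exp (E a z) - 1‖ ≤ ‖exp (E a z) - 1 - E a z‖ + ‖E a z‖ := by
    have := norm_add_le (exp (E a z) - 1 - E a z) (E a z)
    simpa using this
  nlinarith

theorem hasDerivAt_G (ha : ∀ j, ‖a j‖ ≤ 1 / 200) {z : ℂ} (hz : 1 / 2 < ‖z‖) (hz2 : ‖z‖ < 2) :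
    HasDerivAt (G a) (exp (E a z) * (1 + z * dE a z)) z := by
  have h : HasDerivAt (G a) _ z := (hasDerivAt_id z).mul (hasDerivAt_E ha hz hz2).cexp
  refine h.congr_deriv ?_
  simp only [id]
  ring

theorem norm_deriv_sub_one_le (ha : ∀ j, ‖a j‖ ≤ 1 / 200) {z : ℂ} (hz : 1 / 2 < ‖z‖)
    (hz2 : ‖z‖ < 2) : ‖1 - exp (E a z) * (1 + z * dE a z)‖ ≤ 1 / 10 := by
  have h1 := norm_exp_E_sub_one_le ha hz hz2
  have h2 := norm_dE_le ha hz hz2
  have h3 : ‖exp (E a z)‖ ≤ 1021 / 1000 := by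
    have := norm_add_le (exp (E a z) - 1) 1
    simp only [sub_add_cancel, norm_one] at this
    linarith
  have h4 : 1 - exp (E a z) * (1 + z * dE a z) =
      -(exp (E a z) - 1) - exp (E a z) * (z * dE a z) := by ring
  rw [h4]
  refine (norm_sub_le _ _).trans ?_
  rw [norm_neg, norm_mul, norm_mul]
  have h5 : ‖z‖ * ‖dE a z‖ ≤ 2 * (26 / 1000) :=
    mul_le_mul hz2.le h2 (norm_nonneg _) (by norm_num)
  have h6 : ‖exp (E a z)‖ * (‖z‖ * ‖dE a z‖) ≤ (1021 / 1000) * (2 * (26 / 1000)) :=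
    mul_le_mul h3 h5 (by positivity) (by norm_num)
  linarith

theorem ball_sub {c : ℂ} (hc : 9 / 10 < ‖c‖) (hc2 : ‖c‖ < 11 / 10) {z : ℂ}
    (hz : z ∈ ball c (3 / 10)) : 1 / 2 < ‖z‖ ∧ ‖z‖ < 2 := by
  rw [mem_ball, dist_eq_norm] at hz
  have h1 := norm_sub_norm_le c z
  have h2 := norm_sub_norm_le z c
  rw [norm_sub_rev] at h1
  constructor <;> linarith

theorem lip (ha : ∀ j, ‖a j‖ ≤ 1 / 200) {c : ℂ} (hc : 9 / 10 < ‖c‖) (hc2 : ‖c‖ < 11 / 10)
    {z w : ℂ} (hz : z ∈ ball c (3 / 10)) (hw : w ∈ ball c (3 / 10)) :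
    ‖(w - G a w) - (z - G a z)‖ ≤ 1 / 10 * ‖w - z‖ := by
  have hd : ∀ x ∈ ball c (3 / 10), HasDerivWithinAt (fun x => x - G a x)
      (1 - exp (E a x) * (1 + x * dE a x)) (ball c (3 / 10)) x := by
    intro x hx
    obtain ⟨h1, h2⟩ := ball_sub hc hc2 hx
    exact ((hasDerivAt_id x).sub (hasDerivAt_G ha h1 h2)).hasDerivWithinAt
  exact (convex_ball c (3 / 10)).norm_image_sub_le_of_norm_hasDerivWithin_le hd
    (fun x hx => norm_deriv_sub_one_le ha (ball_sub hc hc2 hx).1 (ball_sub hc hc2 hx).2) hz hw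

theorem norm_sub_G_le (ha : ∀ j, ‖a j‖ ≤ 1 / 200) {z : ℂ} (hz : 1 / 2 < ‖z‖) (hz2 : ‖z‖ < 2) :
    ‖z - G a z‖ ≤ 21 / 1000 * ‖z‖ := by
  have h : z - G a z = -(z * (exp (E a z) - 1)) := by unfold G; ring
  rw [h, norm_neg, norm_mul, mul_comm]
  exact mul_le_mul_of_nonneg_right (norm_exp_E_sub_one_le ha hz hz2) (norm_nonneg _)

/-- existence and uniqueness of the local inverse -/
theorem exists_inv (ha : ∀ j, ‖a j‖ ≤ 1 / 200) {c : ℂ} (hc : 9 / 10 < ‖c‖)
    (hc2 : ‖c‖ < 11 / 10) : ∃ z ∈ closedBall c (1 / 10), G a z = c := by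
  have hsub : ∀ z ∈ closedBall c (1 / 10), z ∈ ball c (3 / 10) := by
    intro z hz
    rw [mem_closedBall] at hz
    rw [mem_ball]
    linarith
  have hmap : MapsTo (fun z => c + (z - G a z)) (closedBall c (1 / 10))
      (closedBall c (1 / 10)) := by
    intro z hz
    obtain ⟨h1, h2⟩ := ball_sub hc hc2 (hsub z hz)
    have h3 := norm_sub_G_le ha h1 h2
    rw [mem_closedBall, dist_eq_norm, add_sub_cancel_left]
    linarith
  have hcomplete : IsComplete (closedBall c (1 / 10)) := isClosed_closedBall.isComplete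
  have hcontr : ContractingWith (1 / 10) (hmap.restrict (fun z => c + (z - G a z))
      (closedBall c (1 / 10)) (closedBall c (1 / 10))) := by
    refine ⟨?_, ?_⟩
    · rw [← NNReal.coe_lt_coe]; norm_num
    · apply LipschitzWith.of_dist_le_mul
      intro x y
      have h := lip ha hc hc2 (hsub y.1 y.2) (hsub x.1 x.2)
      rw [Subtype.dist_eq, Subtype.dist_eq, dist_eq_norm, dist_eq_norm]
      simp only [MapsTo.val_restrict_apply]
      have h2 : (c + (x.1 - G a x.1)) - (c + (y.1 - G a y.1)) =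
        (x.1 - G a x.1) - (y.1 - G a y.1) := by ring
      rw [h2]
      refine h.trans (le_of_eq ?_)
      norm_num
  obtain ⟨z, hz, hfix, -⟩ := ContractingWith.exists_fixedPoint' hcomplete hmap hcontr
    (x := c) (mem_closedBall_self (by norm_num)) (edist_ne_top _ _)
  refine ⟨z, hz, ?_⟩
  have h : c + (z - G a z) = z := hfix
  linear_combination -h

theorem uniq (ha : ∀ j, ‖a j‖ ≤ 1 / 200) {c : ℂ} (hc : 9 / 10 < ‖c‖)
    (hc2 : ‖c‖ < 11 / 10) {z w : ℂ} (hz : z ∈ ball c (3 / 10)) (hw : w ∈ ball c (3 / 10))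
    (h : G a z = G a w) : z = w := by
  have h1 := lip ha hc hc2 hz hw
  have h2 : (w - G a w) - (z - G a z) = w - z := by rw [h]; ring
  rw [h2] at h1
  have h3 : ‖w - z‖ = 0 := by linarith [norm_nonneg (w - z)]
  exact (sub_eq_zero.mp (norm_eq_zero.mp h3)).symm

open Classical in
/-- the inverse of `G` -/
noncomputable def Kf (a : Fin 7 → ℂ) (c : ℂ) : ℂ :=
  if h : ∃ z ∈ closedBall c (1 / 10), G a z = c then h.choose else 0

theorem Kf_spec (ha : ∀ j, ‖a j‖ ≤ 1 / 200) {c : ℂ} (hc : 9 / 10 < ‖c‖)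
    (hc2 : ‖c‖ < 11 / 10) : Kf a c ∈ closedBall c (1 / 10) ∧ G a (Kf a c) = c := by
  have h := exists_inv ha hc hc2
  unfold Kf
  rw [dif_pos h]
  exact h.choose_spec

theorem Kf_cont (ha : ∀ j, ‖a j‖ ≤ 1 / 200) {c : ℂ} (hc : 9 / 10 < ‖c‖)
    (hc2 : ‖c‖ < 11 / 10) : ContinuousAt (Kf a) c := by
  have hopen : ∀ᶠ d in 𝓝 c, 9 / 10 < ‖d‖ ∧ ‖d‖ < 11 / 10 ∧ dist d c < 1 / 10 := by
    have h1 : ∀ᶠ d : ℂ in 𝓝 c, 9 / 10 < ‖d‖ :=
      continuous_norm.continuousAt.eventually (lt_mem_nhds hc)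
    have h2 : ∀ᶠ d : ℂ in 𝓝 c, ‖d‖ < 11 / 10 :=
      continuous_norm.continuousAt.eventually (gt_mem_nhds hc2)
    have h3 : ∀ᶠ d : ℂ in 𝓝 c, dist d c < 1 / 10 := ball_mem_nhds c (by norm_num)
    filter_upwards [h1, h2, h3] with d h1 h2 h3 using ⟨h1, h2, h3⟩
  have hest : ∀ᶠ d in 𝓝 c, dist (Kf a d) (Kf a c) ≤ 10 / 9 * dist d c := by
    filter_upwards [hopen] with d hd
    obtain ⟨k1, k2⟩ := Kf_spec ha hd.1 hd.2.1
    obtain ⟨k3, k4⟩ := Kf_spec ha hc hc2
    rw [mem_closedBall] at k1 k3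
    have m1 : Kf a d ∈ ball c (3 / 10) := by
      rw [mem_ball]
      have := dist_triangle (Kf a d) d c
      linarith [hd.2.2]
    have m2 : Kf a c ∈ ball c (3 / 10) := by
      rw [mem_ball]
      linarith
    have h := lip ha hc hc2 m2 m1
    rw [k2, k4] at h
    have h2 : ‖Kf a d - Kf a c‖ ≤ ‖(Kf a d - d) - (Kf a c - c)‖ + ‖d - c‖ := by
      have := norm_add_le ((Kf a d - d) - (Kf a c - c)) (d - c)
      have h3 : (Kf a d - d) - (Kf a c - c) + (d - c) = Kf a d - Kf a c := by ring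
      rwa [h3] at this
    rw [dist_eq_norm, dist_eq_norm]
    linarith
  rw [Metric.continuousAt_iff']
  intro ε hε
  have h4 : ∀ᶠ d in 𝓝 c, dist d c < 9 / 10 * ε := ball_mem_nhds c (by positivity)
  filter_upwards [hest, h4] with d h1 h2
  linarith

theorem dG_ne (ha : ∀ j, ‖a j‖ ≤ 1 / 200) {z : ℂ} (hz : 1 / 2 < ‖z‖)
    (hz2 : ‖z‖ < 2) : exp (E a z) * (1 + z * dE a z) ≠ 0 := by
  intro h
  have := norm_deriv_sub_one_le ha hz hz2
  rw [h] at this
  norm_num at this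

theorem Kf_deriv (ha : ∀ j, ‖a j‖ ≤ 1 / 200) {c : ℂ} (hc : 9 / 10 < ‖c‖)
    (hc2 : ‖c‖ < 11 / 10) : DifferentiableAt ℂ (Kf a) c := by
  obtain ⟨k3, k4⟩ := Kf_spec ha hc hc2
  rw [mem_closedBall] at k3
  obtain ⟨h1, h2⟩ := ball_sub hc hc2 (z := Kf a c) (by rw [mem_ball]; linarith)
  have hd := hasDerivAt_G ha h1 h2
  refine (HasDerivAt.of_local_left_inverse (Kf_cont ha hc hc2) hd (dG_ne ha h1 h2)
    ?_).differentiableAt
  have h1 : ∀ᶠ d : ℂ in 𝓝 c, 9 / 10 < ‖d‖ :=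
    continuous_norm.continuousAt.eventually (lt_mem_nhds hc)
  have h2 : ∀ᶠ d : ℂ in 𝓝 c, ‖d‖ < 11 / 10 :=
    continuous_norm.continuousAt.eventually (gt_mem_nhds hc2)
  filter_upwards [h1, h2] with d h1 h2 using (Kf_spec ha h1 h2).2

theorem G_pow (ha : ∀ j, ‖a j‖ ≤ 1 / 200) {z : ℂ} (hz : 1 / 2 < ‖z‖) (hz2 : ‖z‖ < 2) :
    G a z ^ 7 = ∏ j, mob (a j) z := by
  have hz0 : z ≠ 0 := by
    intro h
    rw [h, norm_zero] at hz
    norm_num at hz
  have h1 : G a z ^ 7 = z ^ 7 * exp (7 * E a z) := by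
    unfold G
    rw [mul_pow, ← exp_nat_mul]
    norm_num
  have h2 : (7 : ℂ) * E a z = ∑ j, e1 (a j) z := by
    unfold E
    ring
  have h3 : exp (∑ j, e1 (a j) z) = ∏ j, ((1 - a j / z) / (1 - conj (a j) * z)) := by
    rw [exp_sum]
    apply Finset.prod_congr rfl
    intro j _
    unfold e1
    rw [exp_sub, exp_log (ne0 (norm_div_le (ha j) hz)), exp_log (ne0 (norm_cmul_le (ha j) hz2))]
  have h4 : z ^ 7 = ∏ _j : Fin 7, z := by simp
  rw [h1, h2, h3, h4, ← Finset.prod_mul_distrib]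
  apply Finset.prod_congr rfl
  intro j _
  unfold mob
  rw [← mul_div_assoc]
  congr 1
  field_simp

theorem norm_mob_lt_one' {w z : ℂ} (hw : ‖w‖ ≤ 1 / 200) (hz2 : ‖z‖ < 2) (hz : ‖z‖ < 1) :
    ‖mob w z‖ < 1 := by
  have h := sq_norm_den_sub_sq_norm_num w z
  have hd : 0 < ‖1 - conj w * z‖ := by
    linarith [norm_one_sub_ge (norm_cmul_le hw hz2)]
  unfold mob
  rw [norm_div, div_lt_one hd]
  apply lt_of_pow_lt_pow_left₀ 2 hd.le
  have h1 : 0 < (1 - ‖w‖ ^ 2) * (1 - ‖z‖ ^ 2) := by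
    apply mul_pos
    · nlinarith [norm_nonneg w]
    · nlinarith [norm_nonneg z]
  linarith

theorem one_le_norm_mob {w z : ℂ} (hw : ‖w‖ ≤ 1 / 200) (hz2 : ‖z‖ < 2) (hz : 1 ≤ ‖z‖) :
    1 ≤ ‖mob w z‖ := by
  have h := sq_norm_den_sub_sq_norm_num w z
  have hd : 0 < ‖1 - conj w * z‖ := by
    linarith [norm_one_sub_ge (norm_cmul_le hw hz2)]
  unfold mob
  rw [norm_div, one_le_div hd]
  apply (pow_le_pow_iff_left₀ (norm_nonneg _) (norm_nonneg _) two_ne_zero).mp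
  have h1 : 0 ≤ (1 - ‖w‖ ^ 2) * (‖z‖ ^ 2 - 1) := by
    apply mul_nonneg
    · nlinarith [norm_nonneg w]
    · nlinarith [norm_nonneg z]
  nlinarith

theorem prod_lt_one_iff (ha : ∀ j, ‖a j‖ ≤ 1 / 200) {z : ℂ} (hz2 : ‖z‖ < 2) :
    ‖∏ j, mob (a j) z‖ < 1 ↔ ‖z‖ < 1 := by
  rw [norm_prod]
  constructor
  · intro h
    by_contra hz
    push_neg at hz
    have : 1 ≤ ∏ j, ‖mob (a j) z‖ := by
      have := Finset.prod_le_prod (s := Finset.univ) (f := fun _ : Fin 7 => (1 : ℝ))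
        (g := fun j => ‖mob (a j) z‖) (fun _ _ => by norm_num)
        (fun j _ => one_le_norm_mob (ha j) hz2 hz)
      simpa using this
    linarith
  · intro hz
    have h1 : ∀ j, ‖mob (a j) z‖ < 1 := fun j => norm_mob_lt_one' (ha j) hz2 hz
    rw [Fin.prod_univ_succ]
    have h2 : ∏ i : Fin 6, ‖mob (a i.succ) z‖ ≤ 1 :=
      Finset.prod_le_one (fun _ _ => norm_nonneg _) (fun j _ => (h1 _).le)
    calc ‖mob (a 0) z‖ * ∏ i : Fin 6, ‖mob (a i.succ) z‖ ≤ ‖mob (a 0) z‖ * 1 :=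
          mul_le_mul_of_nonneg_left h2 (norm_nonneg _)
      _ < 1 := by rw [mul_one]; exact h1 0

theorem norm_G_lt_one_iff (ha : ∀ j, ‖a j‖ ≤ 1 / 200) {z : ℂ} (hz : 1 / 2 < ‖z‖)
    (hz2 : ‖z‖ < 2) : ‖G a z‖ < 1 ↔ ‖z‖ < 1 := by
  rw [← prod_lt_one_iff ha hz2, ← G_pow ha hz hz2, norm_pow]
  exact (pow_lt_one_iff_of_nonneg (norm_nonneg _) (by norm_num)).symm

/-! ### the circle -/

theorem e1_circle {w z : ℂ} (hw : ‖w‖ ≤ 1 / 200) (hz : ‖z‖ = 1) : (e1 w z).re = 0 := by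
  have hz' : z * conj z = 1 := by
    rw [mul_conj, normSq_eq_norm_sq, hz]
    norm_num
  have hz0 : z ≠ 0 := by
    intro h
    rw [h, norm_zero] at hz
    norm_num at hz
  have h1 : conj w * z = conj (w / z) := by
    rw [map_div₀]
    have hc : conj z ≠ 0 := by simpa using hz0
    field_simp
    rw [mul_assoc, hz', mul_one]
  have h2 : (1 : ℂ) - conj w * z = conj (1 - w / z) := by
    rw [h1, map_sub, map_one]
  unfold e1
  rw [h2, log_conj_eq_ite]
  have hs := slit (norm_div_le hw (by rw [hz]; norm_num : 1 / 2 < ‖z‖))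
  rw [mem_slitPlane_iff_arg] at hs
  rw [if_neg hs.1, sub_re, conj_re, sub_self]

theorem de1_circle {w z : ℂ} (hw : ‖w‖ ≤ 1 / 200) (hz : ‖z‖ = 1) : (z * de1 w z).im = 0 := by
  have hz' : z * conj z = 1 := by
    rw [mul_conj, normSq_eq_norm_sq, hz]
    norm_num
  have hz0 : z ≠ 0 := by
    intro h
    rw [h, norm_zero] at hz
    norm_num at hz
  have hc : conj z ≠ 0 := by simpa using hz0
  have h1 : conj w * z = conj (w / z) := by
    rw [map_div₀]
    field_simp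
    rw [mul_assoc, hz', mul_one]
  have h3 : z * de1 w z = (w / z) / (1 - w / z) + conj ((w / z) / (1 - w / z)) := by
    unfold de1
    rw [map_div₀ _ (w / z), map_sub, map_one, ← h1]
    rw [mul_add]
    congr 1
    · have : z * (w / z ^ 2) = w / z := by field_simp
      rw [← mul_div_assoc, this]
    · rw [← mul_div_assoc, mul_comm z]
  rw [h3, add_im, conj_im]
  ring

theorem E_circle (ha : ∀ j, ‖a j‖ ≤ 1 / 200) {z : ℂ} (hz : ‖z‖ = 1) : (E a z).re = 0 := by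
  unfold E
  have h : (∑ j, e1 (a j) z).re = 0 := by
    rw [re_sum]
    exact Finset.sum_eq_zero (fun j _ => e1_circle (ha j) hz)
  have h2 : ((1 : ℂ) / 7) = ((1 / 7 : ℝ) : ℂ) := by push_cast; ring
  rw [h2, re_ofReal_mul, h, mul_zero]

theorem dE_circle (ha : ∀ j, ‖a j‖ ≤ 1 / 200) {z : ℂ} (hz : ‖z‖ = 1) :
    (z * dE a z).im = 0 := by
  unfold dE
  have h : (∑ j, z * de1 (a j) z).im = 0 := by
    rw [im_sum]
    exact Finset.sum_eq_zero (fun j _ => de1_circle (ha j) hz)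
  have h2 : ((1 : ℂ) / 7) = ((1 / 7 : ℝ) : ℂ) := by push_cast; ring
  rw [← mul_assoc, mul_comm z, mul_assoc, Finset.mul_sum, h2, im_ofReal_mul, h, mul_zero]

end Ann

open Ann

theorem exists_annCoord {u : ℂ} {a : Fin 7 → ℂ} (hu : ‖u‖ = 1) (ha : ∀ j, ‖a j‖ ≤ 1 / 200) :
    Nonempty (AnnCoord u a) := by
  -- a seventh root of `u`
  obtain ⟨v, hv⟩ : ∃ v : ℂ, v ^ 7 = u := by
    obtain ⟨v, hv⟩ := IsAlgClosed.exists_pow_nat_eq u (n := 7) (by norm_num)
    exact ⟨v, hv⟩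
  have hv1 : ‖v‖ = 1 := by
    have h : ‖v‖ ^ 7 = 1 := by rw [← norm_pow, hv, hu]
    exact (pow_eq_one_iff_of_nonneg (norm_nonneg v) (by norm_num)).mp h
  have hv0 : v ≠ 0 := by
    intro h
    rw [h, norm_zero] at hv1
    norm_num at hv1
  have hcirc : ∀ θ : ℝ, ‖exp (θ * I)‖ = 1 := fun θ => norm_exp_ofReal_mul_I θ
  have hcm : ∀ θ : ℝ, 1 / 2 < ‖exp (θ * I)‖ ∧ ‖exp (θ * I)‖ < 2 := fun θ => by
    rw [hcirc]; norm_num
  have hL7 : ∀ z, 1 / 2 < ‖z‖ → ‖z‖ < 2 → (v * G a z) ^ 7 = Bl u a z := by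
    intro z h1 h2
    rw [mul_pow, hv, G_pow ha h1 h2]
    rfl
  have hdiv : ∀ W : ℂ, ‖W / v‖ = ‖W‖ := fun W => by rw [norm_div, hv1, div_one]
  have hmulv : ∀ W : ℂ, ‖v * W‖ = ‖W‖ := fun W => by rw [norm_mul, hv1, one_mul]
  refine ⟨{
    L := fun z => v * G a z
    K := fun W => Kf a (W / v)
    τ := fun θ => arg v + θ + (E a (exp (θ * I))).im
    hL := ?_
    hL7 := hL7
    hK := ?_
    hKmem := ?_
    hLK := ?_
    hLmem := ?_
    hKL := ?_
    hL1 := ?_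
    hτ := ?_
    hτper := ?_
    hLτ := ?_ }⟩
  · -- hL
    intro z hz
    exact ((hasDerivAt_G ha hz.1 hz.2).const_mul v).differentiableAt.differentiableWithinAt
  · -- hK
    intro W hW
    have h1 : DifferentiableAt ℂ (Kf a) (W / v) := by
      apply Kf_deriv ha
      · rw [hdiv]; exact hW.1
      · rw [hdiv]; exact hW.2
    have h2 : DifferentiableAt ℂ (fun W : ℂ => W / v) W := differentiableAt_id.div_const v
    exact (DifferentiableAt.comp W h1 h2).differentiableWithinAt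
  · -- hKmem
    intro W h1 h2
    rw [← hdiv W] at h1 h2
    have h3 := (Kf_spec ha h1 h2).1
    rw [mem_closedBall] at h3
    exact ball_sub h1 h2 (by rw [mem_ball]; linarith)
  · -- hLK
    intro W h1 h2
    rw [← hdiv W] at h1 h2
    have h3 := (Kf_spec ha h1 h2).2
    change v * G a (Kf a (W / v)) = W
    rw [h3]
    field_simp
  · -- hLmem
    intro z h1 h2
    have h3 := norm_sub_G_le ha (z := z) (by linarith) (by linarith)
    have h4 := norm_sub_norm_le z (G a z)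
    have h5 := norm_sub_norm_le (G a z) z
    rw [norm_sub_rev] at h5
    simp only [hmulv]
    constructor <;> linarith
  · -- hKL
    intro z h1 h2
    have h3 := norm_sub_G_le ha (z := z) (by linarith) (by linarith)
    have h4 := norm_sub_norm_le z (G a z)
    have h5 := norm_sub_norm_le (G a z) z
    rw [norm_sub_rev] at h5
    have e1 : v * G a z / v = G a z := by field_simp
    change Kf a (v * G a z / v) = z
    rw [e1]
    have h6 : 9 / 10 < ‖G a z‖ := by linarith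
    have h7 : ‖G a z‖ < 11 / 10 := by linarith
    obtain ⟨h8, h9⟩ := Kf_spec ha h6 h7
    rw [mem_closedBall] at h8
    apply uniq ha h6 h7 (by rw [mem_ball]; linarith) _ h9
    rw [mem_ball, dist_eq_norm]
    linarith
  · -- hL1
    intro z h1 h2
    simp only [hmulv]
    exact norm_G_lt_one_iff ha h1 h2
  · -- hτ
    intro θ
    obtain ⟨c1, c2⟩ := hcm θ
    set z := exp (θ * I) with hz
    have hE := hasDerivAt_E ha c1 c2
    have hexp : HasDerivAt (fun θ : ℝ => exp (θ * I)) (z * I) θ := by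
      have h1 : HasDerivAt (fun θ : ℝ => (θ : ℂ) * I) I θ := by
        simpa using (hasDerivAt_id θ).ofReal_comp.mul_const I
      exact h1.cexp
    have h1 : HasDerivAt (fun θ : ℝ => E a (exp (θ * I))) (dE a z * (z * I)) θ :=
      HasDerivAt.comp (h₂ := E a) (h := fun θ : ℝ => exp (θ * I)) θ hE hexp
    have h2 : HasDerivAt (fun θ : ℝ => (E a (exp (θ * I))).im) ((dE a z * (z * I)).im) θ := by
      have h := imCLM.hasFDerivAt.comp_hasDerivAt θ h1
      exact h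
    have h3 := ((hasDerivAt_id θ).const_add (arg v)).add h2
    -- the derivative of `B`
    have hLd : HasDerivAt (fun z => v * G a z) (v * (exp (E a z) * (1 + z * dE a z))) z :=
      (hasDerivAt_G ha c1 c2).const_mul v
    have hBd : HasDerivAt (Bl u a)
        (7 * (v * G a z) ^ 6 * (v * (exp (E a z) * (1 + z * dE a z)))) z := by
      have h4 := hLd.pow 7
      have h5 : (fun z => v * G a z) ^ 7 =ᶠ[𝓝 z] Bl u a := by
        have h6 : ∀ᶠ y : ℂ in 𝓝 z, 1 / 2 < ‖y‖ :=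
          continuous_norm.continuousAt.eventually (lt_mem_nhds c1)
        have h7 : ∀ᶠ y : ℂ in 𝓝 z, ‖y‖ < 2 :=
          continuous_norm.continuousAt.eventually (gt_mem_nhds c2)
        filter_upwards [h6, h7] with y h6 h7 using hL7 y h6 h7
      refine (h4.congr_of_eventuallyEq h5.symm).congr_deriv ?_
      norm_num
    have hre : (E a z).re = 0 := E_circle ha (hcirc θ)
    have hnE : ‖exp (E a z)‖ = 1 := by rw [norm_exp, hre, Real.exp_zero]
    have hnG : ‖G a z‖ = 1 := by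
      unfold G
      rw [norm_mul, hnE, mul_one]
      exact hcirc θ
    have hnB : ‖deriv (Bl u a) z‖ = 7 * ‖1 + z * dE a z‖ := by
      rw [hBd.deriv]
      simp only [norm_mul, norm_pow, hv1, hnG, hnE]
      norm_num
    have him : (z * dE a z).im = 0 := dE_circle ha (hcirc θ)
    have hsmall : ‖z * dE a z‖ ≤ 26 / 1000 := by
      rw [norm_mul, hcirc θ, one_mul]
      exact norm_dE_le ha c1 c2
    have hpos : 0 ≤ 1 + (z * dE a z).re := by
      have := abs_re_le_norm (z * dE a z)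
      have := neg_abs_le (z * dE a z).re
      linarith
    have hreal : (1 + z * dE a z) = ((1 + (z * dE a z).re : ℝ) : ℂ) := by
      apply Complex.ext
      · simp
      · simp only [add_im, one_im, ofReal_im, zero_add]
        exact him
    have hn1 : ‖1 + z * dE a z‖ = 1 + (z * dE a z).re := by
      rw [hreal, norm_real, Real.norm_of_nonneg]
      · exact hpos
    have hgoal : (1 : ℝ) + (dE a z * (z * I)).im = ‖deriv (Bl u a) z‖ / 7 := by
      rw [hnB, hn1]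
      have : dE a z * (z * I) = (z * dE a z) * I := by ring
      rw [this, mul_I_im]
      ring
    rw [← hgoal]
    exact h3
  · -- hτper
    intro θ
    have h : exp (((θ + 2 * Real.pi : ℝ) : ℂ) * I) = exp (θ * I) := by
      push_cast
      rw [add_mul, exp_add, exp_two_pi_mul_I, mul_one]
    simp only [h]
    ring
  · -- hLτ
    intro θ
    have hE : E a (exp (θ * I)) = ((E a (exp (θ * I))).im : ℂ) * I := by
      apply Complex.ext
      · simp [E_circle ha (hcirc θ)]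
      · simp
    have hvarg : exp ((arg v : ℂ) * I) = v := by
      have := norm_mul_exp_arg_mul_I v
      rw [hv1] at this
      simpa using this
    change v * (exp (θ * I) * exp (E a (exp (θ * I)))) = _
    have h2 : (((arg v + θ + (E a (exp (θ * I))).im : ℝ) : ℂ)) * I =
        (arg v : ℂ) * I + ((θ : ℂ) * I + ((E a (exp (θ * I))).im : ℂ) * I) := by
      push_cast
      ring
    rw [h2, exp_add, exp_add, hvarg, ← hE]

end Pool.Agent.Steklov
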