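import Mathlib
import Pool.Agent.Steklov.Defs
import Pool.Agent.Lib.Hurwitz

/-! # Analytic Jordan domains: topology, energy, extension -/

set_option autoImplicit false

open Complex Metric Set MeasureTheory
open scoped ComplexConjugate Topology

namespace Pool.Agent.Steklov

section domain

variable {ψ : ℂ → ℂ} {r : ℝ} (hr : 1 < r) (hψ : DifferentiableOn ℂ ψ (ball 0 r))
  (hinj : InjOn ψ (ball 0 r))

include hr hψ hinj

theorem isOpen_image : IsOpen (ψ '' ball 0 1) :=
  Pool.Agent.Lib.Hurwitz.isOpen_image_of_injOn isOpen_ball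
    (hψ.mono (ball_subset_ball hr.le)) (hinj.mono (ball_subset_ball hr.le))

theorem isConnected_image : IsConnected (ψ '' ball 0 1) := by
  refine IsConnected.image ?_ ψ ?_
  · exact (convex_ball (0:ℂ) 1).isConnected ⟨0, by simp⟩
  · exact (hψ.mono (ball_subset_ball hr.le)).continuousOn

omit hinj in
theorem isCompact_image_closedBall : IsCompact (ψ '' closedBall 0 1) :=
  (isCompact_closedBall 0 1).image_of_continuousOn
    (hψ.continuousOn.mono (closedBall_subset_ball hr))

theorem isBounded_image : Bornology.IsBounded (ψ '' ball 0 1) :=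
  (isCompact_image_closedBall hr hψ).isBounded.subset (image_mono ball_subset_closedBall)

omit hinj in
theorem closure_image : closure (ψ '' ball 0 1) = ψ '' closedBall 0 1 := by
  apply Subset.antisymm
  · exact closure_minimal (image_mono ball_subset_closedBall)
      (isCompact_image_closedBall hr hψ).isClosed
  · have h := (hψ.continuousOn.mono (closedBall_subset_ball hr))
    rw [← closure_ball (0:ℂ) one_ne_zero] at h ⊢
    exact h.image_closure

theorem frontier_image : frontier (ψ '' ball 0 1) = ψ '' sphere 0 1 := by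
  rw [frontier, closure_image hr hψ, (isOpen_image hr hψ hinj).interior_eq,
    ← (hinj.mono (closedBall_subset_ball hr)).image_diff_subset ball_subset_closedBall,
    closedBall_diff_ball]

theorem engy_image {u : ℂ → ℝ} (hu : ContDiff ℝ 1 u) :
    engy (ψ '' ball 0 1) u = ∫ z in ball (0:ℂ) 1, ‖fderiv ℝ (fun z => u (ψ z)) z‖ ^ 2 := by
  unfold engy
  have hd : ∀ z ∈ ball (0:ℂ) 1, HasDerivAt ψ (deriv ψ z) z := fun z hz =>
    (hψ.differentiableAt (isOpen_ball.mem_nhds (ball_subset_ball hr.le hz))).hasDerivAt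
  have hf : ∀ z ∈ ball (0:ℂ) 1, HasFDerivAt ψ
      ((ContinuousLinearMap.toSpanSingleton ℂ (deriv ψ z)).restrictScalars ℝ) z := fun z hz =>
    (hd z hz).hasFDerivAt.restrictScalars ℝ
  rw [integral_image_eq_integral_abs_det_fderiv_smul volume measurableSet_ball
    (fun z hz => (hf z hz).hasFDerivWithinAt) (hinj.mono (ball_subset_ball hr.le))]
  apply setIntegral_congr_fun measurableSet_ball
  intro z hz
  simp only
  have hdet : ((ContinuousLinearMap.toSpanSingleton ℂ (deriv ψ z)).restrictScalars ℝ).det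
      = ‖deriv ψ z‖ ^ 2 := by
    simp [ContinuousLinearMap.det, LinearMap.det_restrictScalars, Algebra.norm_complex_eq,
      Complex.normSq_eq_norm_sq]
  have hcomp : fderiv ℝ (fun z => u (ψ z)) z = (fderiv ℝ u (ψ z)).comp
      ((ContinuousLinearMap.toSpanSingleton ℂ (deriv ψ z)).restrictScalars ℝ) := by
    have h1 : HasFDerivAt u (fderiv ℝ u (ψ z)) (ψ z) :=
      ((hu.differentiable one_ne_zero) (ψ z)).hasFDerivAt
    exact (h1.comp z (hf z hz)).fderiv
  rw [hcomp, hdet, smul_eq_mul, abs_of_nonneg (sq_nonneg _), ← mul_pow, mul_comm]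
  congr 1
  -- the norm of the composition with a similarity
  set L := fderiv ℝ u (ψ z) with hL
  set c := deriv ψ z with hc
  apply le_antisymm
  · -- ‖L‖ ‖c‖ ≤ ‖L ∘ c‖
    by_cases hc0 : c = 0
    · simp [hc0]
    have hc1 : 0 < ‖c‖ := norm_pos_iff.2 hc0
    rw [← le_div_iff₀ hc1]
    apply ContinuousLinearMap.opNorm_le_bound _ (by positivity)
    intro v
    have h1 : L v = (L.comp ((ContinuousLinearMap.toSpanSingleton ℂ c).restrictScalars ℝ)) (v / c) := by
      simp only [ContinuousLinearMap.coe_comp', Function.comp_apply,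
        ContinuousLinearMap.coe_restrictScalars', ContinuousLinearMap.toSpanSingleton_apply,
        smul_eq_mul]
      rw [div_mul_cancel₀ _ hc0]
    rw [h1]
    refine (ContinuousLinearMap.le_opNorm _ _).trans ?_
    rw [norm_div, div_mul_eq_mul_div, mul_div_assoc]
  · apply ContinuousLinearMap.opNorm_le_bound _ (by positivity)
    intro v
    simp only [ContinuousLinearMap.coe_comp', Function.comp_apply,
      ContinuousLinearMap.coe_restrictScalars', ContinuousLinearMap.toSpanSingleton_apply,
      smul_eq_mul]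
    refine (ContinuousLinearMap.le_opNorm _ _).trans ?_
    rw [norm_mul]
    ring_nf
    exact le_refl _

theorem exists_extension {r' : ℝ} (hr' : 1 < r') :
    ∃ Ext : (ℂ → ℝ) →ₗ[ℝ] (ℂ → ℝ), ∀ v : ℂ → ℝ, ContDiffOn ℝ 1 v (ball 0 r') →
      ContDiff ℝ 1 (Ext v) ∧ ∀ z, ‖z‖ ≤ 1 → Ext v (ψ z) = v z := by
  set ρ := min r r' with hρ
  have hρ1 : 1 < ρ := lt_min hr hr'
  have hψρ : DifferentiableOn ℂ ψ (ball 0 ρ) := hψ.mono (ball_subset_ball (min_le_left _ _))
  have hinjρ : InjOn ψ (ball 0 ρ) := hinj.mono (ball_subset_ball (min_le_left _ _))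
  obtain ⟨g, hg, -, hgimg, hg1, -, -⟩ :=
    Pool.Agent.Lib.Hurwitz.exists_inverse isOpen_ball hψρ hinjρ
  have hW : IsOpen (ψ '' ball 0 ρ) :=
    Pool.Agent.Lib.Hurwitz.isOpen_image_of_injOn isOpen_ball hψρ hinjρ
  set W := ψ '' ball 0 ρ with hWdef
  have hK : IsCompact (ψ '' closedBall 0 1) := isCompact_image_closedBall hr hψ
  have hKW : ψ '' closedBall 0 1 ⊆ W := image_mono (closedBall_subset_ball hρ1)
  -- a closed set between
  obtain ⟨K', hK', hKK', hK'W⟩ := exists_compact_between hK hW hKW
  obtain ⟨χ, hχ1, hχ0, -⟩ := exists_contMDiffMap_one_nhds_of_subset_interior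
    (modelWithCornersSelf ℝ ℂ) (n := 1) hK.isClosed hKK'
  have hχd : ContDiff ℝ 1 (χ : ℂ → ℝ) := by
    have := χ.contMDiff
    rwa [contMDiff_iff_contDiff] at this
  refine ⟨{ toFun := fun v x => χ x * v (g x)
            map_add' := by
              intro v w
              ext x
              simp only [Pi.add_apply]
              ring
            map_smul' := by
              intro c v
              ext x
              simp only [Pi.smul_apply, smul_eq_mul, RingHom.id_apply]
              ring }, ?_⟩
  intro v hv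
  simp only [LinearMap.coe_mk, AddHom.coe_mk]
  constructor
  · rw [contDiff_iff_contDiffAt]
    intro x
    by_cases hx : x ∈ W
    · apply hχd.contDiffAt.mul
      have hgx : g x ∈ ball 0 ρ := by
        rw [← hgimg]
        exact mem_image_of_mem g hx
      have h1 : ContDiffAt ℝ 1 v (g x) :=
        hv.contDiffAt (isOpen_ball.mem_nhds (ball_subset_ball (min_le_right _ _) hgx))
      have h2 : ContDiffAt ℝ 1 g x := by
        have h3 : ContDiffAt ℂ 1 g x := (hg.analyticAt (hW.mem_nhds hx)).contDiffAt
        exact h3.restrict_scalars ℝ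
      exact h1.comp x h2
    · have hx2 : K'ᶜ ∈ 𝓝 x := hK'.isClosed.isOpen_compl.mem_nhds (fun h => hx (hK'W h))
      have h3 : (fun x => χ x * v (g x)) =ᶠ[𝓝 x] fun _ => 0 := by
        filter_upwards [hx2] with y hy
        rw [hχ0 y hy, zero_mul]
      exact contDiffAt_const.congr_of_eventuallyEq h3
  · intro z hz
    have hz1 : z ∈ closedBall (0:ℂ) 1 := by simpa using hz
    have hzρ : z ∈ ball (0:ℂ) ρ := closedBall_subset_ball hρ1 hz1
    have h1 : χ (ψ z) = 1 := hχ1.self_of_nhdsSet _ (mem_image_of_mem ψ hz1)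
    rw [h1, hg1 z hzρ, one_mul]

end domain

end Pool.Agent.Steklov
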