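import Mathlib
import Pool.Agent.Steklov.Domain

/-! # Analytic Jordan domains have Lipschitz boundary -/

set_option autoImplicit false

open Complex Metric Set MeasureTheory
open scoped ComplexConjugate Topology

namespace Pool.Agent.Steklov

/-- A cone condition gives a Lipschitz graph. -/
theorem exists_lip_of_cone {Ω : Set ℂ} {p a b : ℂ} {δ : ℝ} (hδ : 0 < δ) (hΩ : IsOpen Ω)
    (hp : p ∈ closure Ω) (ha : ‖a‖ = 1) (hb : ‖b‖ = 1) (hab : inner ℝ a b = 0)
    (hcone : ∀ x ∈ ball p δ, ∀ y ∈ ball p δ, y ∈ Ω →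
      |inner ℝ (x - y) a| < inner ℝ (x - y) b → x ∈ Ω) :
    ∃ g : ℝ → ℝ, ∃ K : NNReal, LipschitzWith K g ∧
      ∀ x ∈ Metric.ball p δ, (x ∈ Ω ↔ g (inner ℝ (x - p) a) < inner ℝ (x - p) b) := by
  classical
  -- index type
  obtain ⟨y₀, hy₀Ω, hy₀⟩ := Metric.mem_closure_iff.1 hp δ hδ
  have hy₀' : y₀ ∈ ball p δ := by rwa [mem_ball, dist_comm]
  let ι := {y : ℂ // y ∈ Ω ∧ y ∈ ball p δ}
  haveI : Nonempty ι := ⟨⟨y₀, hy₀Ω, hy₀'⟩⟩
  let f : ι → ℝ → ℝ := fun y s => inner ℝ (y.1 - p) b + |s - inner ℝ (y.1 - p) a|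
  have hbd : ∀ s, BddBelow (range fun y : ι => f y s) := by
    intro s
    refine ⟨-δ, ?_⟩
    rintro _ ⟨y, rfl⟩
    have h1 : |inner ℝ (y.1 - p) b| ≤ ‖y.1 - p‖ * ‖b‖ := abs_real_inner_le_norm _ _
    have h2 : ‖y.1 - p‖ < δ := by
      have := y.2.2
      rwa [mem_ball, dist_eq_norm] at this
    rw [hb, mul_one] at h1
    have h3 := neg_abs_le (inner ℝ (y.1 - p) b)
    have h4 := abs_nonneg (s - inner ℝ (y.1 - p) a)
    simp only [f]
    linarith
  refine ⟨fun s => ⨅ y : ι, f y s, 1, ?_, ?_⟩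
  · apply LipschitzWith.of_le_add
    intro s s'
    have h1 : ∀ y : ι, (⨅ y : ι, f y s) ≤ f y s' + dist s s' := by
      intro y
      refine (ciInf_le (hbd s) y).trans ?_
      simp only [f]
      have h2 : |s - inner ℝ (y.1 - p) a| ≤ |s' - inner ℝ (y.1 - p) a| + |s - s'| := by
        have := abs_add_le (s' - inner ℝ (y.1 - p) a) (s - s')
        have h3 : s' - inner ℝ (y.1 - p) a + (s - s') = s - inner ℝ (y.1 - p) a := by ring
        rw [h3] at this
        exact this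
      rw [Real.dist_eq]
      linarith
    have h2 : (⨅ y : ι, f y s) - dist s s' ≤ ⨅ y : ι, f y s' := by
      apply le_ciInf
      intro y
      have := h1 y
      linarith
    linarith
  · intro x hx
    constructor
    · intro hxΩ
      -- move slightly in the direction `-b`
      obtain ⟨ε, hε, hball⟩ := Metric.isOpen_iff.1 (hΩ.inter isOpen_ball) x ⟨hxΩ, hx⟩
      have hmem : x - ((ε / 2 : ℝ) : ℂ) * b ∈ Ω ∩ ball p δ := by
        apply hball
        rw [mem_ball, dist_eq_norm]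
        have : x - ((ε / 2 : ℝ) : ℂ) * b - x = -(((ε / 2 : ℝ) : ℂ) * b) := by ring
        rw [this, norm_neg, norm_mul, hb, mul_one, Complex.norm_real, Real.norm_eq_abs,
          abs_of_pos (by linarith)]
        linarith
      refine lt_of_le_of_lt (ciInf_le (hbd _) ⟨x - ((ε / 2 : ℝ) : ℂ) * b, hmem.1, hmem.2⟩) ?_
      simp only [f]
      have h1 : x - ((ε / 2 : ℝ) : ℂ) * b - p = (x - p) - (ε / 2 : ℝ) • b := by
        rw [Complex.real_smul]
        ring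
      have hba : inner ℝ b a = 0 := by rw [real_inner_comm]; exact hab
      have h2 : inner ℝ ((x - p) - (ε / 2 : ℝ) • b) a = inner ℝ (x - p) a := by
        rw [inner_sub_left, real_inner_smul_left, hba, mul_zero, sub_zero]
      have h3 : inner ℝ ((x - p) - (ε / 2 : ℝ) • b) b = inner ℝ (x - p) b - ε / 2 := by
        rw [inner_sub_left, real_inner_smul_left, real_inner_self_eq_norm_sq, hb]
        ring
      rw [h1, h2, h3, sub_self, abs_zero]
      linarith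
    · intro hlt
      obtain ⟨y, hy⟩ := exists_lt_of_ciInf_lt hlt
      simp only [f] at hy
      apply hcone x hx y.1 y.2.2 y.2.1
      have h1 : x - y.1 = (x - p) - (y.1 - p) := by ring
      have e1 : inner ℝ ((x - p) - (y.1 - p)) a = inner ℝ (x - p) a - inner ℝ (y.1 - p) a :=
        inner_sub_left _ _ _
      have e2 : inner ℝ ((x - p) - (y.1 - p)) b = inner ℝ (x - p) b - inner ℝ (y.1 - p) b :=
        inner_sub_left _ _ _
      rw [h1, e1, e2]
      linarith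

section domain

variable {ψ : ℂ → ℂ} {r : ℝ} (hr : 1 < r) (hψ : DifferentiableOn ℂ ψ (ball 0 r))
  (hinj : InjOn ψ (ball 0 r))

include hr hψ hinj

theorem lipBdry_image : LipBdry (ψ '' ball 0 1) := by
  intro p hp
  have hpcl : p ∈ closure (ψ '' ball 0 1) := frontier_subset_closure hp
  have hpfr := hp
  rw [frontier_image hr hψ hinj] at hp
  obtain ⟨z₀, hz₀, rfl⟩ := hp
  have hz₀1 : ‖z₀‖ = 1 := by simpa using hz₀
  have hz₀r : z₀ ∈ ball (0:ℂ) r := by simpa [hz₀1] using hr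
  obtain ⟨g, hg, -, hgimg, hg1, hg2, hgd⟩ :=
    Pool.Agent.Lib.Hurwitz.exists_inverse isOpen_ball hψ hinj
  have hW : IsOpen (ψ '' ball 0 r) :=
    Pool.Agent.Lib.Hurwitz.isOpen_image_of_injOn isOpen_ball hψ hinj
  have hpW : ψ z₀ ∈ ψ '' ball 0 r := mem_image_of_mem ψ hz₀r
  have hd0 : deriv ψ z₀ ≠ 0 :=
    Pool.Agent.Lib.Hurwitz.deriv_ne_zero_of_injOn isOpen_ball hψ hinj hz₀r
  -- strict derivative of `g` at `p`
  have hgs : HasStrictDerivAt g (deriv ψ z₀)⁻¹ (ψ z₀) := by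
    have h1 := (hg.analyticAt (hW.mem_nhds hpW)).hasStrictDerivAt
    rwa [(hgd z₀ hz₀r).deriv] at h1
  set ω : ℂ := conj z₀ * (deriv ψ z₀)⁻¹ with hω
  have hω0 : ω ≠ 0 := by
    apply mul_ne_zero
    · rw [ne_eq, map_eq_zero]
      rintro rfl
      simp at hz₀1
    · exact inv_ne_zero hd0
  have hωpos : 0 < ‖ω‖ := norm_pos_iff.2 hω0
  -- the function `H = ‖g‖^2`
  have hgsF : HasStrictFDerivAt g
      ((ContinuousLinearMap.toSpanSingleton ℂ (deriv ψ z₀)⁻¹).restrictScalars ℝ) (ψ z₀) :=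
    hgs.hasStrictFDerivAt.restrictScalars ℝ
  have hH : HasStrictFDerivAt (fun x => ‖g x‖ ^ 2)
      ((2 • innerSL ℝ (g (ψ z₀))).comp
        ((ContinuousLinearMap.toSpanSingleton ℂ (deriv ψ z₀)⁻¹).restrictScalars ℝ)) (ψ z₀) :=
    (hasStrictFDerivAt_norm_sq (g (ψ z₀))).comp (ψ z₀) hgsF
  set b : ℂ := -(conj ω / ‖ω‖) with hb
  set a : ℂ := I * b with ha
  have hbn : ‖b‖ = 1 := by
    rw [hb, norm_neg, norm_div, RCLike.norm_conj, Complex.norm_real, norm_norm, div_self hωpos.ne']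
  have han : ‖a‖ = 1 := by rw [ha, norm_mul, norm_I, one_mul, hbn]
  have hab : inner ℝ a b = 0 := by
    rw [ha, Complex.inner, map_mul, conj_I]
    have : b * (-I * conj b) = ((Complex.normSq b : ℝ) : ℂ) * (-I) := by
      rw [← Complex.mul_conj]
      ring
    rw [this]
    simp
  -- inner products in terms of `ω`
  have hib : ∀ v : ℂ, (ω * v).re = -(‖ω‖ * inner ℝ v b) := by
    intro v
    rw [Complex.inner, hb]
    have h1 : -(conj ω / ‖ω‖) * conj v = ((-(‖ω‖)⁻¹ : ℝ) : ℂ) * conj (ω * v) := by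
      rw [map_mul (starRingEnd ℂ) ω v]
      push_cast
      ring
    rw [h1, Complex.re_ofReal_mul, Complex.conj_re]
    field_simp
  have hnorm : ∀ v : ℂ, ‖v‖ ≤ |inner ℝ v b| + |inner ℝ v a| := by
    intro v
    have h1 : ‖b * conj v‖ = ‖v‖ := by rw [norm_mul, hbn, one_mul, RCLike.norm_conj]
    have h2 : inner ℝ v b = (b * conj v).re := Complex.inner _ _
    have h3 : inner ℝ v a = -(b * conj v).im := by
      rw [Complex.inner, ha, mul_assoc]
      simp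
    rw [← h1, h2, h3, abs_neg]
    exact Complex.norm_le_abs_re_add_abs_im _
  -- strict differentiability
  have hlo := hH.isLittleO.def (show (0:ℝ) < ‖ω‖ / 2 by positivity)
  rw [Filter.eventually_iff, nhds_prod_eq] at hlo
  obtain ⟨δ₁, hδ₁, hball₁⟩ : ∃ δ₁ > 0, ∀ x ∈ ball (ψ z₀) δ₁, ∀ y ∈ ball (ψ z₀) δ₁,
      ‖‖g x‖ ^ 2 - ‖g y‖ ^ 2 - ((2 • innerSL ℝ (g (ψ z₀))).comp
        ((ContinuousLinearMap.toSpanSingleton ℂ (deriv ψ z₀)⁻¹).restrictScalars ℝ)) (x - y)‖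
        ≤ ‖ω‖ / 2 * ‖x - y‖ := by
    rw [Filter.mem_prod_iff] at hlo
    obtain ⟨t1, ht1, t2, ht2, hsub⟩ := hlo
    obtain ⟨d1, hd1, hb1⟩ := Metric.mem_nhds_iff.1 ht1
    obtain ⟨d2, hd2, hb2⟩ := Metric.mem_nhds_iff.1 ht2
    refine ⟨min d1 d2, lt_min hd1 hd2, ?_⟩
    intro x hx y hy
    exact hsub (mk_mem_prod (hb1 (ball_subset_ball (min_le_left _ _) hx))
      (hb2 (ball_subset_ball (min_le_right _ _) hy)))
  obtain ⟨δ₂, hδ₂, hball₂⟩ := Metric.isOpen_iff.1 hW (ψ z₀) hpW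
  have hδ : 0 < min δ₁ δ₂ := lt_min hδ₁ hδ₂
  refine ⟨min δ₁ δ₂, hδ, a, b, han, hbn, hab, ?_⟩
  apply exists_lip_of_cone hδ (isOpen_image hr hψ hinj) hpcl han hbn hab
  intro x hx y hy hyΩ hcone
  have hx1 : x ∈ ball (ψ z₀) δ₁ := ball_subset_ball (min_le_left _ _) hx
  have hy1 : y ∈ ball (ψ z₀) δ₁ := ball_subset_ball (min_le_left _ _) hy
  have hxW : x ∈ ψ '' ball 0 r := hball₂ (ball_subset_ball (min_le_right _ _) hx)
  have hest := hball₁ x hx1 y hy1
  have hlin : ((2 • innerSL ℝ (g (ψ z₀))).comp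
        ((ContinuousLinearMap.toSpanSingleton ℂ (deriv ψ z₀)⁻¹).restrictScalars ℝ)) (x - y)
        = -(2 * ‖ω‖ * inner ℝ (x - y) b) := by
    have h1 : ((2 • innerSL ℝ (g (ψ z₀))).comp
        ((ContinuousLinearMap.toSpanSingleton ℂ (deriv ψ z₀)⁻¹).restrictScalars ℝ)) (x - y)
        = 2 * inner ℝ (g (ψ z₀)) ((x - y) * (deriv ψ z₀)⁻¹) := by
      simp [two_smul, two_mul]
    rw [h1, hg1 z₀ hz₀r, Complex.inner]
    have h2 : (x - y) * (deriv ψ z₀)⁻¹ * conj z₀ = ω * (x - y) := by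
      rw [hω]; ring
    rw [h2, hib]
    ring
  rw [hlin, Real.norm_eq_abs] at hest
  have hest2 := (abs_le.1 hest).2
  have hpos : 0 < inner ℝ (x - y) b := lt_of_le_of_lt (abs_nonneg _) hcone
  have hn := hnorm (x - y)
  rw [abs_of_pos hpos] at hn
  have hn2 : ‖x - y‖ ≤ 2 * inner ℝ (x - y) b := by linarith
  have hlt : ‖g x‖ ^ 2 < ‖g y‖ ^ 2 := by
    have h1 : ‖ω‖ / 2 * ‖x - y‖ ≤ ‖ω‖ / 2 * (2 * inner ℝ (x - y) b) :=
      mul_le_mul_of_nonneg_left hn2 (by positivity)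
    have h2 : 0 < ‖ω‖ * inner ℝ (x - y) b := mul_pos hωpos hpos
    nlinarith
  have hgy : ‖g y‖ < 1 := by
    obtain ⟨z, hz, rfl⟩ := hyΩ
    rw [hg1 z (ball_subset_ball hr.le hz)]
    simpa using hz
  have hgx : ‖g x‖ < 1 := by
    have h1 : ‖g y‖ ^ 2 < 1 := by
      have := norm_nonneg (g y)
      nlinarith
    have h2 : ‖g x‖ ^ 2 < 1 ^ 2 := by linarith
    exact lt_of_pow_lt_pow_left₀ 2 zero_le_one h2
  refine ⟨g x, by simpa using hgx, hg2 x hxW⟩

end domain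

end Pool.Agent.Steklov
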