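import Mathlib
import Pool.Agent.Steklov.Defs

/-!
# Green's formula on the disc and approximation by Fourier polynomials
-/

set_option autoImplicit false

open Complex Metric Set MeasureTheory
open scoped ComplexConjugate

namespace Pool.Agent.Steklov

/-! ### Green's formula -/

/-- Integration over the unit disc in polar coordinates. -/
theorem integral_ball_polar {G : ℂ → ℝ} (hG : ContinuousOn G (closedBall 0 1)) :
    ∫ z in ball (0:ℂ) 1, G z =
      ∫ ρ in (0:ℝ)..1, ∫ t in (-Real.pi)..Real.pi, ρ * G (ρ * exp (t * I)) := by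
  have hpi := Real.pi_pos
  have h1 : ∫ z in ball (0:ℂ) 1, G z = ∫ z, (ball (0:ℂ) 1).indicator G z :=
    (integral_indicator measurableSet_ball).symm
  rw [h1, ← Complex.integral_comp_polarCoord_symm]
  have htar : polarCoord.target = Ioi (0:ℝ) ×ˢ Ioo (-Real.pi) Real.pi := rfl
  rw [htar]
  have h2 : ∀ p : ℝ × ℝ, p ∈ Ioi (0:ℝ) ×ˢ Ioo (-Real.pi) Real.pi →
      p.1 • (ball (0:ℂ) 1).indicator G (Complex.polarCoord.symm p) =
      (Ioo (0:ℝ) 1 ×ˢ Ioo (-Real.pi) Real.pi).indicator
        (fun p => p.1 * G (p.1 * exp (p.2 * I))) p := by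
    rintro ⟨ρ, t⟩ ⟨hρ, ht⟩
    simp only [mem_Ioi] at hρ
    have e : Complex.polarCoord.symm (ρ, t) = ρ * exp (t * I) := by
      rw [Complex.polarCoord_symm_apply, exp_mul_I, ofReal_cos, ofReal_sin]
    rw [e]
    have hn : ‖(ρ:ℂ) * exp (t * I)‖ = ρ := by
      rw [norm_mul, norm_exp_ofReal_mul_I, mul_one, norm_real, Real.norm_of_nonneg hρ.le]
    by_cases hlt : ρ < 1
    · rw [indicator_of_mem, indicator_of_mem]
      · simp
      · exact ⟨⟨hρ, hlt⟩, ht⟩
      · rw [mem_ball_zero_iff, hn]; exact hlt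
    · rw [indicator_of_notMem, indicator_of_notMem]
      · simp
      · intro h; exact hlt h.1.2
      · rw [mem_ball_zero_iff, hn]; exact hlt
  rw [setIntegral_congr_fun (measurableSet_Ioi.prod measurableSet_Ioo) h2,
    setIntegral_indicator (measurableSet_Ioo.prod measurableSet_Ioo)]
  have h3 : Ioi (0:ℝ) ×ˢ Ioo (-Real.pi) Real.pi ∩ Ioo (0:ℝ) 1 ×ˢ Ioo (-Real.pi) Real.pi
      = Ioo (0:ℝ) 1 ×ˢ Ioo (-Real.pi) Real.pi := by
    rw [inter_eq_right]
    exact prod_mono Ioo_subset_Ioi_self subset_rfl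
  rw [h3]
  have hcont : ContinuousOn (fun p : ℝ × ℝ => p.1 * G (p.1 * exp (p.2 * I)))
      (Icc (0:ℝ) 1 ×ˢ Icc (-Real.pi) Real.pi) := by
    apply continuousOn_fst.mul
    apply hG.comp (by fun_prop)
    rintro ⟨ρ, t⟩ ⟨hρ, _⟩
    simp only
    rw [mem_closedBall_zero_iff, norm_mul, norm_exp_ofReal_mul_I, mul_one, norm_real,
      Real.norm_of_nonneg hρ.1]
    exact hρ.2
  have hint : IntegrableOn (fun p : ℝ × ℝ => p.1 * G (p.1 * exp (p.2 * I)))
      (Ioo (0:ℝ) 1 ×ˢ Ioo (-Real.pi) Real.pi) :=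
    (hcont.integrableOn_compact (isCompact_Icc.prod isCompact_Icc)).mono_set
      (prod_mono Ioo_subset_Icc_self Ioo_subset_Icc_self)
  rw [Measure.volume_eq_prod, setIntegral_prod _ (by rwa [← Measure.volume_eq_prod])]
  rw [intervalIntegral.integral_of_le zero_le_one, integral_Ioc_eq_integral_Ioo]
  apply setIntegral_congr_fun measurableSet_Ioo
  intro ρ _
  simp only
  rw [intervalIntegral.integral_of_le (by linarith), integral_Ioc_eq_integral_Ioo]

/-- The angular integral does not depend on the period. -/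
lemma integral_period (F : ℂ → ℝ) :
    ∫ t in (-Real.pi)..Real.pi, F (exp (t * I)) = ∫ t in (0:ℝ)..2 * Real.pi, F (exp (t * I)) := by
  have hper : Function.Periodic (fun t : ℝ => F (exp (t * I))) (2 * Real.pi) := by
    intro t
    simp only
    congr 1
    push_cast
    rw [add_mul, exp_add, exp_two_pi_mul_I, mul_one]
  have h := hper.intervalIntegral_add_eq (-Real.pi) 0
  rw [zero_add] at h
  have e : -Real.pi + 2 * Real.pi = Real.pi := by ring
  rw [e] at h
  exact h

/-- **Green's formula** for a `C¹` function and the real part of a holomorphic function. -/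
theorem green {u : ℂ → ℝ} {V : ℂ → ℂ} {r : ℝ} (hr : 1 < r) (hu : ContDiffOn ℝ 1 u (ball 0 r))
    (hV : DifferentiableOn ℂ V (ball 0 r)) :
    ∫ z in ball (0:ℂ) 1, fderiv ℝ u z (conj (deriv V z)) =
      ∫ θ in (0:ℝ)..2 * Real.pi, u (exp (θ * I)) * (exp (θ * I) * deriv V (exp (θ * I))).re := by
  have hpi := Real.pi_pos
  have hopen : IsOpen (ball (0:ℂ) r) := isOpen_ball
  have hV' : DifferentiableOn ℂ (deriv V) (ball 0 r) := hV.deriv hopen
  have hdu : ContinuousOn (fderiv ℝ u) (ball 0 r) := hu.continuousOn_fderiv_of_isOpen hopen le_rfl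
  have hsub : closedBall (0:ℂ) 1 ⊆ ball 0 r := closedBall_subset_ball hr
  have hG : ContinuousOn (fun z => fderiv ℝ u z (conj (deriv V z))) (ball 0 r) :=
    hdu.clm_apply (continuous_conj.comp_continuousOn hV'.continuousOn)
  rw [integral_ball_polar (hG.mono hsub)]
  -- polar coordinates map
  set φ : ℝ × ℝ → ℂ := fun p => p.1 * exp (p.2 * I) with hφ
  have hφc : Continuous φ := by rw [hφ]; fun_prop
  have hφn : ∀ p : ℝ × ℝ, 0 ≤ p.1 → ‖φ p‖ = p.1 := by
    intro p hp
    rw [hφ]
    simp only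
    rw [norm_mul, norm_exp_ofReal_mul_I, mul_one, norm_real, Real.norm_of_nonneg hp]
  set f : ℝ × ℝ → ℝ := fun p => u (φ p) * (φ p * deriv V (φ p)).re with hf
  set g : ℝ × ℝ → ℝ := fun p => - (u (φ p) * (exp (p.2 * I) * deriv V (φ p)).im) with hg
  have hmem : ∀ p ∈ Icc (0:ℝ) 1 ×ˢ Icc (-Real.pi) Real.pi, φ p ∈ ball (0:ℂ) r := by
    intro p hp
    rw [mem_ball_zero_iff, hφn p hp.1.1]
    exact lt_of_le_of_lt hp.1.2 hr
  have huc : ContinuousOn (fun p => u (φ p)) (Icc (0:ℝ) 1 ×ˢ Icc (-Real.pi) Real.pi) :=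
    hu.continuousOn.comp hφc.continuousOn hmem
  have hVc : ContinuousOn (fun p => deriv V (φ p)) (Icc (0:ℝ) 1 ×ˢ Icc (-Real.pi) Real.pi) :=
    hV'.continuousOn.comp hφc.continuousOn hmem
  have hfc : ContinuousOn f (Icc (0:ℝ) 1 ×ˢ Icc (-Real.pi) Real.pi) :=
    huc.mul (continuous_re.comp_continuousOn (hφc.continuousOn.mul hVc))
  have hec : Continuous (fun p : ℝ × ℝ => exp ((p.2:ℂ) * I)) := by fun_prop
  have hgc : ContinuousOn g (Icc (0:ℝ) 1 ×ˢ Icc (-Real.pi) Real.pi) :=
    (huc.mul (continuous_im.comp_continuousOn (hec.continuousOn.mul hVc))).neg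
  -- derivatives
  have key : ∀ p : ℝ × ℝ, φ p ∈ ball (0:ℂ) r → ∃ f' g' : ℝ × ℝ →L[ℝ] ℝ,
      HasFDerivAt f f' p ∧ HasFDerivAt g g' p ∧
      f' (1, 0) + g' (0, 1) = p.1 * (fderiv ℝ u (φ p) (conj (deriv V (φ p)))) := by
    intro p hp
    -- derivative of the exponential
    have h1 : HasFDerivAt (fun p : ℝ × ℝ => (p.1 : ℂ))
        (ofRealCLM.comp (ContinuousLinearMap.fst ℝ ℝ ℝ)) p :=
      (ofRealCLM.comp (ContinuousLinearMap.fst ℝ ℝ ℝ)).hasFDerivAt
    have h2 : HasFDerivAt (fun p : ℝ × ℝ => (p.2 : ℂ))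
        (ofRealCLM.comp (ContinuousLinearMap.snd ℝ ℝ ℝ)) p :=
      (ofRealCLM.comp (ContinuousLinearMap.snd ℝ ℝ ℝ)).hasFDerivAt
    have h3 := (h2.mul_const I).cexp
    have h4 := h1.mul h3
    obtain ⟨E', hE', eE1, eE2⟩ : ∃ E' : ℝ × ℝ →L[ℝ] ℂ,
        HasFDerivAt (fun p : ℝ × ℝ => exp ((p.2 : ℂ) * I)) E' p ∧ E' (1, 0) = 0 ∧
        E' (0, 1) = exp (p.2 * I) * I := by
      refine ⟨_, h3, ?_, ?_⟩ <;> simp
    obtain ⟨φ', hφ', e1, e2⟩ : ∃ φ' : ℝ × ℝ →L[ℝ] ℂ, HasFDerivAt φ φ' p ∧
        φ' (1, 0) = exp (p.2 * I) ∧ φ' (0, 1) = p.1 * (exp (p.2 * I) * I) := by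
      refine ⟨_, h4, ?_, ?_⟩ <;> simp
    have hu1 : HasFDerivAt u (fderiv ℝ u (φ p)) (φ p) :=
      ((hu.differentiableOn one_ne_zero).differentiableAt (hopen.mem_nhds hp)).hasFDerivAt
    have hu2 : HasFDerivAt (fun p => u (φ p)) ((fderiv ℝ u (φ p)).comp φ') p := hu1.comp p hφ'
    have hV1 : HasDerivAt (deriv V) (deriv (deriv V) (φ p)) (φ p) :=
      (hV'.differentiableAt (hopen.mem_nhds hp)).hasDerivAt
    have hV2 := (hV1.hasFDerivAt.restrictScalars ℝ).comp p hφ'
    have hW : HasFDerivAt (fun p => φ p * deriv V (φ p)) _ p := hφ'.mul hV2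
    have hW2 : HasFDerivAt (fun p : ℝ × ℝ => exp ((p.2 : ℂ) * I) * deriv V (φ p)) _ p :=
      hE'.mul hV2
    have hWr := reCLM.hasFDerivAt.comp p hW
    have hWi := imCLM.hasFDerivAt.comp p hW2
    have hff := hu2.mul hWr
    have hgg := (hu2.mul hWi).neg
    refine ⟨_, _, hff, hgg, ?_⟩
    have hL : ∀ w : ℂ, fderiv ℝ u (φ p) w
        = w.re * fderiv ℝ u (φ p) 1 + w.im * fderiv ℝ u (φ p) I := by
      intro w
      have : w = w.re • (1:ℂ) + w.im • I := by
        apply Complex.ext <;> simp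
      conv_lhs => rw [this]
      rw [map_add, map_smul, map_smul, smul_eq_mul, smul_eq_mul]
    have hEn : (exp ((p.2:ℂ) * I)).re ^ 2 + (exp ((p.2:ℂ) * I)).im ^ 2 = 1 := by
      have h := norm_exp_ofReal_mul_I p.2
      have h2 := Complex.sq_norm (exp ((p.2:ℂ) * I))
      rw [h, normSq_apply] at h2
      linarith
    simp only [add_apply, smul_apply, neg_apply,
      ContinuousLinearMap.comp_apply, Function.comp_apply,
      e1, e2, eE2, ContinuousLinearMap.coe_restrictScalars',
      smul_eq_mul, reCLM_apply, imCLM_apply, ContinuousLinearMap.toSpanSingleton_apply]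
    have hφp : φ p = p.1 * exp ((p.2:ℂ) * I) := rfl
    rw [hL (exp ((p.2:ℂ) * I)), hL ((p.1:ℂ) * (exp ((p.2:ℂ) * I) * I)),
      hL (conj (deriv V (φ p)))]
    generalize fderiv ℝ u (φ p) 1 = L1
    generalize fderiv ℝ u (φ p) I = LI
    generalize u (φ p) = U
    generalize deriv (deriv V) (φ p) = DD
    generalize deriv V (φ p) = D
    rw [hφp]
    generalize exp ((p.2:ℂ) * I) = E at *
    simp only [mul_re, mul_im, add_re, add_im, ofReal_re, ofReal_im, I_re, I_im, conj_re,
      conj_im]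
    linear_combination p.1 * (L1 * D.re - LI * D.im) * hEn
  -- divergence theorem
  have hdiff : ∀ p : ℝ × ℝ, φ p ∈ ball (0:ℂ) r → HasFDerivAt f (fderiv ℝ f p) p ∧
      HasFDerivAt g (fderiv ℝ g p) p ∧
      fderiv ℝ f p (1, 0) + fderiv ℝ g p (0, 1)
        = p.1 * (fderiv ℝ u (φ p) (conj (deriv V (φ p)))) := by
    intro p hp
    obtain ⟨f', g', hf', hg', e⟩ := key p hp
    rw [hf'.fderiv, hg'.fderiv]
    exact ⟨hf', hg', e⟩
  have hpi2 : -Real.pi ≤ Real.pi := by linarith
  have hdiv := integral2_divergence_prod_of_hasFDerivAt_off_countable f g (fderiv ℝ f)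
    (fderiv ℝ g) 0 (-Real.pi) 1 Real.pi ∅ countable_empty
    (by rw [uIcc_of_le zero_le_one, uIcc_of_le hpi2]; exact hfc)
    (by rw [uIcc_of_le zero_le_one, uIcc_of_le hpi2]; exact hgc)
    (by
      rw [min_eq_left zero_le_one, max_eq_right zero_le_one, min_eq_left hpi2,
        max_eq_right hpi2, sdiff_empty]
      intro x hx
      exact (hdiff x (hmem x ⟨Ioo_subset_Icc_self hx.1, Ioo_subset_Icc_self hx.2⟩)).1)
    (by
      rw [min_eq_left zero_le_one, max_eq_right zero_le_one, min_eq_left hpi2,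
        max_eq_right hpi2, sdiff_empty]
      intro x hx
      exact (hdiff x (hmem x ⟨Ioo_subset_Icc_self hx.1, Ioo_subset_Icc_self hx.2⟩)).2.1)
    (by
      rw [uIcc_of_le zero_le_one, uIcc_of_le hpi2]
      have hc : ContinuousOn (fun p : ℝ × ℝ =>
          p.1 * (fderiv ℝ u (φ p) (conj (deriv V (φ p)))))
          (Icc (0:ℝ) 1 ×ˢ Icc (-Real.pi) Real.pi) :=
        continuousOn_fst.mul (hG.comp hφc.continuousOn hmem)
      refine (hc.integrableOn_compact (isCompact_Icc.prod isCompact_Icc)).congr_fun ?_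
        (measurableSet_Icc.prod measurableSet_Icc)
      intro x hx
      exact (hdiff x (hmem x hx)).2.2.symm)
  have hlhs : ∫ ρ in (0:ℝ)..1, ∫ t in (-Real.pi)..Real.pi,
      ρ * (fderiv ℝ u ((ρ:ℂ) * exp (t * I))) (conj (deriv V ((ρ:ℂ) * exp (t * I))))
      = ∫ x in (0:ℝ)..1, ∫ y in (-Real.pi)..Real.pi,
        fderiv ℝ f (x, y) (1, 0) + fderiv ℝ g (x, y) (0, 1) := by
    apply intervalIntegral.integral_congr
    intro ρ hρ
    rw [uIcc_of_le zero_le_one] at hρ
    apply intervalIntegral.integral_congr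
    intro t ht
    rw [uIcc_of_le hpi2] at ht
    exact (hdiff (ρ, t) (hmem (ρ, t) ⟨hρ, ht⟩)).2.2.symm
  rw [hlhs, hdiv]
  have hg0 : ∀ x : ℝ, g (x, Real.pi) = g (x, -Real.pi) := by
    intro x
    have : exp (((Real.pi : ℝ) : ℂ) * I) = exp (((-Real.pi : ℝ) : ℂ) * I) := by
      rw [ofReal_neg, neg_mul, exp_neg, exp_pi_mul_I]
      norm_num
    simp only [hg, hφ, this]
  have hf0 : ∀ y : ℝ, f (0, y) = 0 := by
    intro y
    simp [hf, hφ]
  have hf1 : ∀ y : ℝ, f (1, y) = u (exp (y * I)) * (exp (y * I) * deriv V (exp (y * I))).re := by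
    intro y
    simp [hf, hφ]
  simp only [hg0, hf0, hf1, sub_self, zero_add, intervalIntegral.integral_zero, sub_zero]
  exact integral_period (fun z => u z * (z * deriv V z).re)

lemma hasFDerivAt_re {V : ℂ → ℂ} {z : ℂ} (h : DifferentiableAt ℂ V z) :
    HasFDerivAt (fun z => (V z).re)
      (reCLM.comp ((ContinuousLinearMap.toSpanSingleton ℂ (deriv V z)).restrictScalars ℝ)) z :=
  reCLM.hasFDerivAt.comp z (h.hasDerivAt.hasFDerivAt.restrictScalars ℝ)

lemma fderiv_re_apply {V : ℂ → ℂ} {z : ℂ} (h : DifferentiableAt ℂ V z) (w : ℂ) :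
    fderiv ℝ (fun z => (V z).re) z w = (w * deriv V z).re := by
  rw [(hasFDerivAt_re h).fderiv]
  simp [ContinuousLinearMap.toSpanSingleton_apply]

lemma norm_fderiv_re {V : ℂ → ℂ} {z : ℂ} (h : DifferentiableAt ℂ V z) :
    ‖fderiv ℝ (fun z => (V z).re) z‖ = ‖deriv V z‖ := by
  apply le_antisymm
  · apply ContinuousLinearMap.opNorm_le_bound _ (norm_nonneg _)
    intro w
    rw [fderiv_re_apply h, Real.norm_eq_abs]
    refine (abs_re_le_norm _).trans ?_
    rw [norm_mul, mul_comm]
  · rcases eq_or_ne (deriv V z) 0 with h0 | h0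
    · rw [h0, norm_zero]; exact norm_nonneg _
    · have h1 := (fderiv ℝ (fun z => (V z).re) z).le_opNorm (conj (deriv V z))
      rw [fderiv_re_apply h, mul_comm, mul_conj, ofReal_re, Real.norm_of_nonneg (normSq_nonneg _),
        norm_conj, normSq_eq_norm_sq, sq] at h1
      exact le_of_mul_le_mul_right h1 (norm_pos_iff.mpr h0)

lemma contDiffOn_re {V : ℂ → ℂ} {r : ℝ} (hV : DifferentiableOn ℂ V (ball 0 r)) :
    ContDiffOn ℝ 1 (fun z => (V z).re) (ball 0 r) := by
  have h1 : ContDiffOn ℂ 1 V (ball 0 r) := hV.contDiffOn isOpen_ball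
  exact reCLM.contDiff.comp_contDiffOn (h1.restrict_scalars ℝ)

/-- The Dirichlet energy of the real part of a holomorphic function as a boundary integral. -/
theorem green_self {V : ℂ → ℂ} {r : ℝ} (hr : 1 < r) (hV : DifferentiableOn ℂ V (ball 0 r)) :
    ∫ z in ball (0:ℂ) 1, ‖fderiv ℝ (fun z => (V z).re) z‖ ^ 2 = dirE V := by
  have h := green hr (contDiffOn_re hV) hV
  unfold dirE
  rw [← h]
  apply setIntegral_congr_fun measurableSet_ball
  intro z hz
  have hd : DifferentiableAt ℂ V z :=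
    hV.differentiableAt (isOpen_ball.mem_nhds (ball_subset_ball hr.le hz))
  simp only
  rw [norm_fderiv_re hd, fderiv_re_apply hd, mul_comm, mul_conj, ofReal_re, normSq_eq_norm_sq]

/-- Dirichlet principle: if `∫ u Re (z P') = dirE P` on the circle, then the energy of `Re P` is
at most the energy of `u`. -/
theorem dirE_le {u : ℂ → ℝ} {V : ℂ → ℂ} {r : ℝ} (hr : 1 < r) (hu : ContDiffOn ℝ 1 u (ball 0 r))
    (hV : DifferentiableOn ℂ V (ball 0 r))
    (h : ∫ θ in (0:ℝ)..2 * Real.pi, u (exp (θ * I)) * (exp (θ * I) * deriv V (exp (θ * I))).re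
      = dirE V) :
    dirE V ≤ ∫ z in ball (0:ℂ) 1, ‖fderiv ℝ u z‖ ^ 2 := by
  have h1 := green hr hu hV
  rw [h] at h1
  have h2 := green_self hr hV
  have hopen : IsOpen (ball (0:ℂ) r) := isOpen_ball
  have hV' : DifferentiableOn ℂ (deriv V) (ball 0 r) := hV.deriv hopen
  have hdu : ContinuousOn (fderiv ℝ u) (ball 0 r) := hu.continuousOn_fderiv_of_isOpen hopen le_rfl
  have hsub : closedBall (0:ℂ) 1 ⊆ ball 0 r := closedBall_subset_ball hr
  have hint : ∀ F : ℂ → ℝ, ContinuousOn F (ball 0 r) → IntegrableOn F (ball (0:ℂ) 1) := by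
    intro F hF
    exact ((hF.mono hsub).integrableOn_compact (isCompact_closedBall 0 1)).mono_set
      ball_subset_closedBall
  have i1 : IntegrableOn (fun z => fderiv ℝ u z (conj (deriv V z))) (ball (0:ℂ) 1) :=
    hint _ (hdu.clm_apply (continuous_conj.comp_continuousOn hV'.continuousOn))
  have i2 : IntegrableOn (fun z => ‖fderiv ℝ u z‖ ^ 2) (ball (0:ℂ) 1) := hint _ (hdu.norm.pow 2)
  have i3 : IntegrableOn (fun z => ‖deriv V z‖ ^ 2) (ball (0:ℂ) 1) :=
    hint _ (hV'.continuousOn.norm.pow 2)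
  have h3 : ∫ z in ball (0:ℂ) 1, ‖deriv V z‖ ^ 2 = dirE V := by
    rw [← h2]
    apply setIntegral_congr_fun measurableSet_ball
    intro z hz
    have hd : DifferentiableAt ℂ V z :=
      hV.differentiableAt (isOpen_ball.mem_nhds (ball_subset_ball hr.le hz))
    simp only
    rw [norm_fderiv_re hd]
  have h4 : ∫ z in ball (0:ℂ) 1, 2 * fderiv ℝ u z (conj (deriv V z))
      ≤ ∫ z in ball (0:ℂ) 1, (‖fderiv ℝ u z‖ ^ 2 + ‖deriv V z‖ ^ 2) := by
    apply setIntegral_mono_on (i1.const_mul 2) (i2.add i3) measurableSet_ball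
    intro z _
    simp only [Pi.add_apply]
    have h5 := (fderiv ℝ u z).le_opNorm (conj (deriv V z))
    rw [norm_conj, Real.norm_eq_abs] at h5
    have h6 := le_abs_self (fderiv ℝ u z (conj (deriv V z)))
    nlinarith [sq_nonneg (‖fderiv ℝ u z‖ - ‖deriv V z‖)]
  rw [integral_const_mul, integral_add i2 i3, h1, h3] at h4
  linarith

/-! ### Orthogonality -/

lemma integral_exp_int (m : ℤ) :
    ∫ θ in (0:ℝ)..2 * Real.pi, exp (m * (θ * I)) = if m = 0 then (2 * Real.pi : ℂ) else 0 := by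
  split_ifs with h
  · subst h
    simp
  · have hm : (m : ℂ) * I ≠ 0 := mul_ne_zero (by exact_mod_cast h) I_ne_zero
    have h1 : ∀ θ : ℝ, exp (m * (θ * I)) = exp ((m * I) * θ) := by
      intro θ; congr 1; ring
    simp only [h1]
    rw [integral_exp_mul_complex hm]
    have h2 : exp ((m * I) * ((2 * Real.pi : ℝ) : ℂ)) = 1 := by
      rw [exp_eq_one_iff]
      exact ⟨m, by push_cast; ring⟩
    rw [h2]
    simp

lemma cont_exp_int (m : ℤ) : Continuous (fun θ : ℝ => exp (m * (θ * I))) := by fun_prop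

/-- the `k`-th Fourier coefficient (conjugate) -/
noncomputable def fc (f : ℝ → ℝ) (k : ℕ) : ℂ :=
  (1 / (2 * Real.pi) : ℂ) * ∫ θ in (0:ℝ)..2 * Real.pi, f θ * exp (-(k * (θ * I)))

/-- the `N`-th Fourier polynomial -/
noncomputable def fp (N : ℕ) (f : ℝ → ℝ) : Polynomial ℂ :=
  ∑ k ∈ Finset.range (N + 1), Polynomial.monomial k (2 * fc f k) - Polynomial.monomial 0 (fc f 0)

lemma conj_two : conj (2 : ℂ) = 2 := map_ofNat _ 2

lemma integral_exp_pos (f : ℝ → ℝ) (k : ℕ) :
    ∫ θ in (0:ℝ)..2 * Real.pi, (f θ : ℂ) * exp (k * (θ * I)) = 2 * Real.pi * conj (fc f k) := by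
  have hpi : (2 * Real.pi : ℂ) ≠ 0 := by
    have := Real.pi_ne_zero
    exact_mod_cast (mul_ne_zero two_ne_zero this)
  unfold fc
  rw [map_mul, ← intervalIntegral.intervalIntegral_conj]
  have h1 : conj (1 / (2 * Real.pi) : ℂ) = 1 / (2 * Real.pi) := by
    rw [map_div₀, map_mul, conj_two, map_one, conj_ofReal]
  rw [h1, ← mul_assoc, mul_one_div_cancel hpi, one_mul]
  apply intervalIntegral.integral_congr
  intro θ _
  simp only [map_mul, conj_ofReal, ← exp_conj, map_neg, conj_I, map_natCast]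
  congr 2
  ring

/-- pointwise polynomial on circle as a sum -/
lemma eval_exp (P : Polynomial ℂ) (θ : ℝ) :
    P.eval (exp (θ * I)) =
      ∑ j ∈ Finset.range (P.natDegree + 1), P.coeff j * exp (j * (θ * I)) := by
  rw [Polynomial.eval_eq_sum_range]
  apply Finset.sum_congr rfl
  intro j _
  rw [← exp_nat_mul]

lemma integral_poly_exp (P : Polynomial ℂ) (k : ℕ) :
    ∫ θ in (0:ℝ)..2 * Real.pi, P.eval (exp (θ * I)) * exp (k * (θ * I))
      = if k = 0 then 2 * Real.pi * P.coeff 0 else 0 := by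
  have h1 : ∀ θ : ℝ, P.eval (exp (θ * I)) * exp (k * (θ * I)) =
      ∑ j ∈ Finset.range (P.natDegree + 1), P.coeff j * exp (((j + k : ℕ) : ℤ) * (θ * I)) := by
    intro θ
    rw [eval_exp, Finset.sum_mul]
    apply Finset.sum_congr rfl
    intro j _
    rw [mul_assoc, ← exp_add]
    congr 2
    push_cast
    ring
  simp only [h1]
  rw [intervalIntegral.integral_finsetSum
    (fun j _ => ((cont_exp_int _).const_mul _).intervalIntegrable _ _)]
  simp only [intervalIntegral.integral_const_mul, integral_exp_int]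
  split_ifs with hk
  · subst hk
    rw [Finset.sum_eq_single_of_mem 0 (by simp)]
    · simp; ring
    · intro j _ hj
      rw [if_neg (by simpa using hj), mul_zero]
  · apply Finset.sum_eq_zero
    intro j _
    rw [if_neg, mul_zero]
    intro h
    have : j + k = 0 := by exact_mod_cast h
    omega

lemma integral_conj_poly_exp (P : Polynomial ℂ) (k : ℕ) :
    ∫ θ in (0:ℝ)..2 * Real.pi, conj (P.eval (exp (θ * I))) * exp (k * (θ * I))
      = 2 * Real.pi * conj (P.coeff k) := by
  have h1 : ∀ θ : ℝ, conj (P.eval (exp (θ * I))) * exp (k * (θ * I)) =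
      ∑ j ∈ Finset.range (P.natDegree + 1),
        conj (P.coeff j) * exp (((k : ℤ) - (j : ℤ) : ℤ) * (θ * I)) := by
    intro θ
    rw [eval_exp, map_sum, Finset.sum_mul]
    apply Finset.sum_congr rfl
    intro j _
    rw [map_mul, mul_assoc, ← exp_conj, ← exp_add]
    congr 2
    simp only [map_mul, map_natCast, conj_ofReal, conj_I]
    push_cast
    ring
  simp only [h1]
  rw [intervalIntegral.integral_finsetSum
    (fun j _ => ((cont_exp_int _).const_mul _).intervalIntegrable _ _)]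
  simp only [intervalIntegral.integral_const_mul, integral_exp_int]
  by_cases hk : k < P.natDegree + 1
  · rw [Finset.sum_eq_single_of_mem k (Finset.mem_range.mpr hk)]
    · simp; ring
    · intro j _ hj
      rw [if_neg, mul_zero]
      intro h
      apply hj
      omega
  · have : P.coeff k = 0 := Polynomial.coeff_eq_zero_of_natDegree_lt (by omega)
    rw [this, map_zero, mul_zero]
    apply Finset.sum_eq_zero
    intro j hj
    rw [Finset.mem_range] at hj
    rw [if_neg, mul_zero]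
    intro h
    omega

lemma fp_coeff (N : ℕ) (f : ℝ → ℝ) (k : ℕ) :
    (fp N f).coeff k = (if k ≤ N then 2 * fc f k else 0) - (if k = 0 then fc f 0 else 0) := by
  unfold fp
  rw [Polynomial.coeff_sub, Polynomial.finsetSum_coeff]
  simp only [Polynomial.coeff_monomial]
  rw [Finset.sum_ite_eq']
  simp only [Finset.mem_range, Nat.lt_succ_iff, @eq_comm _ 0 k]

lemma fp_natDegree (N : ℕ) (f : ℝ → ℝ) : (fp N f).natDegree ≤ N := by
  rw [Polynomial.natDegree_le_iff_coeff_eq_zero]
  intro k hk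
  rw [fp_coeff, if_neg (by omega), if_neg (by omega), sub_zero]

lemma fc_zero_real (f : ℝ → ℝ) : conj (fc f 0) = fc f 0 := by
  unfold fc
  have h1 : conj (1 / (2 * Real.pi) : ℂ) = 1 / (2 * Real.pi) := by
    rw [map_div₀, map_mul, conj_two, map_one, conj_ofReal]
  rw [map_mul, ← intervalIntegral.intervalIntegral_conj, h1]
  simp

/-- orthogonality of the remainder -/
lemma ortho_exp {f : ℝ → ℝ} (hf : Continuous f) {N k : ℕ} (hk : k ≤ N) :
    ∫ θ in (0:ℝ)..2 * Real.pi, ((f θ - ((fp N f).eval (exp (θ * I))).re : ℝ) : ℂ)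
      * exp (k * (θ * I)) = 0 := by
  have hP : Continuous (fun θ : ℝ => (fp N f).eval (exp (θ * I))) :=
    (fp N f).continuous.comp (by fun_prop)
  have hE : Continuous (fun θ : ℝ => exp (k * (θ * I))) := by fun_prop
  have h1 : ∀ θ : ℝ, ((f θ - ((fp N f).eval (exp (θ * I))).re : ℝ) : ℂ) * exp (k * (θ * I))
      = (f θ : ℂ) * exp (k * (θ * I)) -
        ((1 / 2 : ℂ) * ((fp N f).eval (exp (θ * I)) * exp (k * (θ * I))) +
        (1 / 2 : ℂ) * (conj ((fp N f).eval (exp (θ * I))) * exp (k * (θ * I)))) := by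
    intro θ
    rw [ofReal_sub, re_eq_add_conj]
    ring
  simp only [h1]
  have i1 : IntervalIntegrable (fun θ : ℝ => (f θ : ℂ) * exp (k * (θ * I))) volume 0
      (2 * Real.pi) := ((continuous_ofReal.comp hf).mul hE).intervalIntegrable _ _
  have i2 : IntervalIntegrable (fun θ : ℝ => (1 / 2 : ℂ) *
      ((fp N f).eval (exp (θ * I)) * exp (k * (θ * I)))) volume 0 (2 * Real.pi) :=
    ((hP.mul hE).const_mul _).intervalIntegrable _ _
  have i3 : IntervalIntegrable (fun θ : ℝ => (1 / 2 : ℂ) *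
      (conj ((fp N f).eval (exp (θ * I))) * exp (k * (θ * I)))) volume 0 (2 * Real.pi) :=
    (((continuous_conj.comp hP).mul hE).const_mul _).intervalIntegrable _ _
  rw [intervalIntegral.integral_sub i1 (i2.add i3), intervalIntegral.integral_add i2 i3,
    intervalIntegral.integral_const_mul, intervalIntegral.integral_const_mul,
    integral_exp_pos, integral_poly_exp, integral_conj_poly_exp, fp_coeff, fp_coeff,
    if_pos hk, if_pos (Nat.zero_le N), if_pos rfl]
  rcases eq_or_ne k 0 with h0 | h0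
  · subst h0
    rw [if_pos rfl, if_pos rfl, map_sub, map_mul, fc_zero_real, conj_two]
    simp
    ring
  · rw [if_neg h0, if_neg h0, sub_zero, map_mul, conj_two]
    simp
    ring

/-- orthogonality of the remainder, real form -/
lemma ortho {f : ℝ → ℝ} (hf : Continuous f) {N : ℕ} (Q : Polynomial ℂ) (hQ : Q.natDegree ≤ N) :
    ∫ θ in (0:ℝ)..2 * Real.pi, (f θ - ((fp N f).eval (exp (θ * I))).re)
      * (Q.eval (exp (θ * I))).re = 0 := by
  have hP : Continuous (fun θ : ℝ => (fp N f).eval (exp (θ * I))) :=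
    (fp N f).continuous.comp (by fun_prop)
  set d : ℝ → ℝ := fun θ => f θ - ((fp N f).eval (exp (θ * I))).re with hd
  have hdc : Continuous d := hf.sub (continuous_re.comp hP)
  have h1 : ∀ θ : ℝ, d θ * (Q.eval (exp (θ * I))).re
      = ∑ j ∈ Finset.range (Q.natDegree + 1),
        reCLM (Q.coeff j * ((d θ : ℂ) * exp (j * (θ * I)))) := by
    intro θ
    rw [eval_exp, ← map_sum, reCLM_apply, ← re_ofReal_mul, Finset.mul_sum]
    congr 1
    apply Finset.sum_congr rfl
    intro j _
    ring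
  have hc : ∀ j : ℕ, Continuous (fun θ : ℝ => Q.coeff j * ((d θ : ℂ) * exp (j * (θ * I)))) := by
    intro j
    exact ((continuous_ofReal.comp hdc).mul (by fun_prop)).const_mul _
  have h2 : ∀ θ : ℝ, (f θ - ((fp N f).eval (exp (θ * I))).re) * (Q.eval (exp (θ * I))).re
      = ∑ j ∈ Finset.range (Q.natDegree + 1),
        reCLM (Q.coeff j * ((d θ : ℂ) * exp (j * (θ * I)))) := h1
  simp only [h2]
  have hcr : ∀ j : ℕ, Continuous (fun θ : ℝ =>
      reCLM (Q.coeff j * ((d θ : ℂ) * exp (j * (θ * I))))) :=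
    fun j => reCLM.continuous.comp (hc j)
  rw [intervalIntegral.integral_finsetSum (fun j _ => (hcr j).intervalIntegrable _ _)]
  apply Finset.sum_eq_zero
  intro j hj
  rw [Finset.mem_range] at hj
  rw [ContinuousLinearMap.intervalIntegral_comp_comm _ ((hc j).intervalIntegrable _ _),
    intervalIntegral.integral_const_mul]
  have := ortho_exp hf (N := N) (k := j) (by omega)
  rw [this, mul_zero, map_zero]

/-- the inner product of `f` with its Fourier polynomial -/
lemma integral_mul_fp {f : ℝ → ℝ} (hf : Continuous f) (N : ℕ) :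
    ∫ θ in (0:ℝ)..2 * Real.pi, f θ * ((fp N f).eval (exp (θ * I))).re
      = 2 * Real.pi * (∑ k ∈ Finset.range (N + 1), 2 * ‖fc f k‖ ^ 2 - ‖fc f 0‖ ^ 2) := by
  have h1 : ∀ θ : ℝ, f θ * ((fp N f).eval (exp (θ * I))).re
      = ∑ k ∈ Finset.range (N + 1), reCLM ((2 * fc f k) * ((f θ : ℂ) * exp (k * (θ * I))))
        - reCLM (fc f 0 * ((f θ : ℂ) * exp ((0 : ℕ) * (θ * I)))) := by
    intro θ
    unfold fp
    rw [Polynomial.eval_sub, Polynomial.eval_finsetSum, ← map_sum, ← map_sub, reCLM_apply,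
      ← re_ofReal_mul, mul_sub, Finset.mul_sum]
    congr 1
    congr 1
    · apply Finset.sum_congr rfl
      intro j _
      rw [Polynomial.eval_monomial, ← exp_nat_mul]
      ring
    · rw [Polynomial.eval_monomial]
      simp
      ring
  have hc : ∀ (c : ℂ) (k : ℕ), Continuous (fun θ : ℝ => c * ((f θ : ℂ) * exp (k * (θ * I)))) := by
    intro c k
    exact ((continuous_ofReal.comp hf).mul (by fun_prop)).const_mul _
  have hcr : ∀ (c : ℂ) (k : ℕ), Continuous (fun θ : ℝ =>
      reCLM (c * ((f θ : ℂ) * exp (k * (θ * I))))) := fun c k => reCLM.continuous.comp (hc c k)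
  simp only [h1]
  rw [intervalIntegral.integral_sub
    ((continuous_finsetSum _ (fun k _ => hcr _ k)).intervalIntegrable _ _)
    ((hcr _ 0).intervalIntegrable _ _),
    intervalIntegral.integral_finsetSum (fun j _ => (hcr _ j).intervalIntegrable _ _)]
  have h2 : ∀ (c : ℂ) (k : ℕ), ∫ θ in (0:ℝ)..2 * Real.pi,
      reCLM (c * ((f θ : ℂ) * exp (k * (θ * I)))) = (c * (2 * Real.pi * conj (fc f k))).re := by
    intro c k
    rw [ContinuousLinearMap.intervalIntegral_comp_comm _ ((hc c k).intervalIntegrable _ _),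
      intervalIntegral.integral_const_mul, integral_exp_pos, reCLM_apply]
  simp only [h2]
  have h3 : ∀ (t : ℝ) (k : ℕ), ((t * fc f k) * (2 * Real.pi * conj (fc f k))).re
      = 2 * Real.pi * (t * ‖fc f k‖ ^ 2) := by
    intro t k
    have : ((t * fc f k) * (2 * Real.pi * conj (fc f k)) : ℂ)
        = ((2 * Real.pi * (t * ‖fc f k‖ ^ 2) : ℝ) : ℂ) := by
      have h4 := mul_conj (fc f k)
      rw [normSq_eq_norm_sq] at h4
      push_cast at h4 ⊢
      rw [← h4]
      ring
    rw [this, ofReal_re]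
  have h4 : ∀ k : ℕ, ((2 * fc f k) * (2 * Real.pi * conj (fc f k))).re
      = 2 * Real.pi * (2 * ‖fc f k‖ ^ 2) := by
    intro k
    have := h3 2 k
    simpa using this
  have h5 : (fc f 0 * (2 * Real.pi * conj (fc f 0))).re = 2 * Real.pi * ‖fc f 0‖ ^ 2 := by
    have := h3 1 0
    simpa using this
  simp only [h4, h5]
  rw [← Finset.mul_sum]
  ring

/-- the `L²` error -/
lemma error_eq {f : ℝ → ℝ} (hf : Continuous f) (N : ℕ) :
    ∫ θ in (0:ℝ)..2 * Real.pi, (((fp N f).eval (exp (θ * I))).re - f θ) ^ 2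
      = (∫ θ in (0:ℝ)..2 * Real.pi, f θ ^ 2)
        - 2 * Real.pi * (∑ k ∈ Finset.range (N + 1), 2 * ‖fc f k‖ ^ 2 - ‖fc f 0‖ ^ 2) := by
  have hP : Continuous (fun θ : ℝ => ((fp N f).eval (exp (θ * I))).re) :=
    continuous_re.comp ((fp N f).continuous.comp (by fun_prop))
  have h1 := integral_mul_fp hf N
  have h2 := ortho hf (fp N f) (fp_natDegree N f)
  rw [← h1]
  set g : ℝ → ℝ := fun θ : ℝ => ((fp N f).eval (exp (θ * I))).re with hg
  have e1 : ∀ θ, (g θ - f θ) ^ 2 = f θ ^ 2 - f θ * g θ - (f θ - g θ) * g θ := by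
    intro θ; ring
  have e2 : ∫ θ in (0:ℝ)..2 * Real.pi, (g θ - f θ) ^ 2
      = ∫ θ in (0:ℝ)..2 * Real.pi, (f θ ^ 2 - f θ * g θ - (f θ - g θ) * g θ) := by
    simp only [e1]
  have e3 : ∫ θ in (0:ℝ)..2 * Real.pi, (f θ - g θ) * g θ = 0 := h2
  show ∫ θ in (0:ℝ)..2 * Real.pi, (g θ - f θ) ^ 2 = _
  have i1 : IntervalIntegrable (fun θ => f θ ^ 2) volume 0 (2 * Real.pi) :=
    (hf.pow 2).intervalIntegrable _ _
  have i2 : IntervalIntegrable (fun θ => f θ * g θ) volume 0 (2 * Real.pi) :=
    (hf.mul hP).intervalIntegrable _ _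
  have i3 : IntervalIntegrable (fun θ => (f θ - g θ) * g θ) volume 0 (2 * Real.pi) :=
    ((hf.sub hP).mul hP).intervalIntegrable _ _
  rw [e2, intervalIntegral.integral_sub (i1.sub i2) i3, intervalIntegral.integral_sub i1 i2, e3,
    sub_zero]

/-- **Parseval**: the `L²` error tends to zero. -/
lemma error_tendsto {f : ℝ → ℝ} (hf : Continuous f) :
    Filter.Tendsto (fun N : ℕ =>
      ∫ θ in (0:ℝ)..2 * Real.pi, (((fp N f).eval (exp (θ * I))).re - f θ) ^ 2)
      Filter.atTop (nhds 0) := by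
  have hpi := Real.pi_pos
  have hab : (0:ℝ) < 2 * Real.pi := by positivity
  have hfc : Continuous (fun θ : ℝ => (f θ : ℂ)) := continuous_ofReal.comp hf
  have hmem : MemLp (fun θ : ℝ => (f θ : ℂ)) 2 (volume.restrict (Ioc 0 (2 * Real.pi))) := by
    rw [memLp_two_iff_integrable_sq_norm hfc.aestronglyMeasurable]
    exact ((hfc.norm.pow 2).integrableOn_Icc (a := 0) (b := 2 * Real.pi)).mono_set
      Ioc_subset_Icc_self
  have hP := hasSum_sq_fourierCoeffOn hab hmem
  have hco : ∀ k : ℕ, fourierCoeffOn hab (fun θ : ℝ => (f θ : ℂ)) (k : ℤ) = fc f k := by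
    intro k
    rw [fourierCoeffOn_eq_integral]
    unfold fc
    rw [sub_zero, real_smul]
    congr 1
    · push_cast; rfl
    · apply intervalIntegral.integral_congr
      intro θ _
      simp only [smul_eq_mul]
      rw [fourier_coe_apply, mul_comm]
      congr 2
      have : (Real.pi : ℂ) ≠ 0 := by exact_mod_cast Real.pi_ne_zero
      push_cast
      field_simp
  have hco' : ∀ k : ℕ, fourierCoeffOn hab (fun θ : ℝ => (f θ : ℂ)) (-(k : ℤ))
      = conj (fc f k) := by
    intro k
    have h2 : (2 * Real.pi : ℂ) ≠ 0 := by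
      have := Real.pi_ne_zero
      exact_mod_cast (mul_ne_zero two_ne_zero this)
    have h1 : conj (fc f k) = (1 / (2 * Real.pi) : ℂ) *
        ∫ θ in (0:ℝ)..2 * Real.pi, (f θ : ℂ) * exp (k * (θ * I)) := by
      rw [integral_exp_pos]
      field_simp
    rw [fourierCoeffOn_eq_integral, h1, sub_zero, real_smul]
    congr 1
    · push_cast; rfl
    · apply intervalIntegral.integral_congr
      intro θ _
      simp only [smul_eq_mul]
      rw [fourier_coe_apply, mul_comm]
      congr 2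
      have : (Real.pi : ℂ) ≠ 0 := by exact_mod_cast Real.pi_ne_zero
      push_cast
      field_simp
      try ring
  have h1 := hP.nat_add_neg.tendsto_sum_nat
  simp only [hco, hco', norm_conj] at h1
  have h2 := (Filter.tendsto_add_atTop_iff_nat 1).mpr h1
  simp only [error_eq hf]
  have h0 := hco 0
  rw [Nat.cast_zero] at h0
  rw [h0] at h2
  have h3 : ∀ N : ℕ, (∫ θ in (0:ℝ)..2 * Real.pi, f θ ^ 2)
        - 2 * Real.pi * (∑ k ∈ Finset.range (N + 1), 2 * ‖fc f k‖ ^ 2 - ‖fc f 0‖ ^ 2) =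
      (∫ θ in (0:ℝ)..2 * Real.pi, f θ ^ 2) + 2 * Real.pi * ‖fc f 0‖ ^ 2
        - 2 * Real.pi * (∑ k ∈ Finset.range (N + 1), (‖fc f k‖ ^ 2 + ‖fc f k‖ ^ 2)) := by
    intro N
    simp only [two_mul (‖fc f _‖ ^ 2)]
    ring
  simp only [h3]
  have h4 := (h2.const_mul (2 * Real.pi)).const_sub
    ((∫ θ in (0:ℝ)..2 * Real.pi, f θ ^ 2) + 2 * Real.pi * ‖fc f 0‖ ^ 2)
  convert h4 using 2
  have h5 : ∫ x in (0:ℝ)..2 * Real.pi, ‖(f x : ℂ)‖ ^ 2 = ∫ θ in (0:ℝ)..2 * Real.pi, f θ ^ 2 := by
    apply intervalIntegral.integral_congr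
    intro x _
    simp only [norm_real, Real.norm_eq_abs, sq_abs]
  rw [h5, smul_eq_mul, sub_zero]
  field_simp
  ring

/-! ### Linear approximation on a finite dimensional space -/

lemma fc_add {f g : ℝ → ℝ} (hf : Continuous f) (hg : Continuous g) (k : ℕ) :
    fc (fun θ => f θ + g θ) k = fc f k + fc g k := by
  have hE : Continuous (fun θ : ℝ => exp (-(k * (θ * I)))) := by fun_prop
  unfold fc
  rw [← mul_add, ← intervalIntegral.integral_add]
  · congr 1
    apply intervalIntegral.integral_congr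
    intro θ _
    simp only
    push_cast
    ring
  · exact ((continuous_ofReal.comp hf).mul hE).intervalIntegrable _ _
  · exact ((continuous_ofReal.comp hg).mul hE).intervalIntegrable _ _

lemma fc_smul (c : ℝ) (f : ℝ → ℝ) (k : ℕ) :
    fc (fun θ => c * f θ) k = c * fc f k := by
  unfold fc
  have h : ∀ θ : ℝ, ((c * f θ : ℝ) : ℂ) * exp (-(k * (θ * I)))
      = c * (f θ * exp (-(k * (θ * I)))) := by
    intro θ; push_cast; ring
  simp only [h]
  rw [intervalIntegral.integral_const_mul]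
  ring

lemma fp_add {f g : ℝ → ℝ} (hf : Continuous f) (hg : Continuous g) (N : ℕ) :
    fp N (fun θ => f θ + g θ) = fp N f + fp N g := by
  ext k
  rw [Polynomial.coeff_add, fp_coeff, fp_coeff, fp_coeff, fc_add hf hg, fc_add hf hg]
  split_ifs <;> ring

lemma fp_smul (c : ℝ) (f : ℝ → ℝ) (N : ℕ) :
    fp N (fun θ => c * f θ) = c • fp N f := by
  ext k
  rw [Polynomial.coeff_smul, fp_coeff, fp_coeff, fc_smul, fc_smul, real_smul]
  split_ifs <;> ring

lemma dirE_fp {u : ℂ → ℝ} (hu : Continuous (fun θ : ℝ => u (exp (θ * I)))) (N : ℕ) :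
    ∫ θ in (0:ℝ)..2 * Real.pi, u (exp (θ * I)) * (exp (θ * I) *
      deriv (fun z => (fp N (fun θ : ℝ => u (exp (θ * I)))).eval z) (exp (θ * I))).re
      = dirE (fun z => (fp N (fun θ : ℝ => u (exp (θ * I)))).eval z) := by
  set P := fp N (fun θ : ℝ => u (exp (θ * I))) with hP
  set Q : Polynomial ℂ := Polynomial.X * P.derivative with hQ
  have hQd : Q.natDegree ≤ N := by
    rw [Polynomial.natDegree_le_iff_coeff_eq_zero]
    intro k hk
    obtain ⟨j, rfl⟩ : ∃ j, k = j + 1 := ⟨k - 1, by omega⟩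
    rw [hQ, Polynomial.coeff_X_mul, Polynomial.coeff_derivative,
      Polynomial.coeff_eq_zero_of_natDegree_lt (lt_of_le_of_lt (fp_natDegree N _) hk), zero_mul]
  have h := ortho hu Q hQd
  have hd : ∀ z : ℂ, z * deriv (fun z => P.eval z) z = Q.eval z := by
    intro z
    rw [hQ, Polynomial.eval_mul, Polynomial.eval_X, Polynomial.deriv]
  unfold dirE
  simp only [hd]
  have hPc : Continuous (fun θ : ℝ => (P.eval (exp (θ * I))).re) :=
    continuous_re.comp (P.continuous.comp (by fun_prop))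
  have hQc : Continuous (fun θ : ℝ => (Q.eval (exp (θ * I))).re) :=
    continuous_re.comp (Q.continuous.comp (by fun_prop))
  have i1 : IntervalIntegrable (fun θ : ℝ => u (exp (θ * I)) * (Q.eval (exp (θ * I))).re)
      volume 0 (2 * Real.pi) := (hu.mul hQc).intervalIntegrable _ _
  have i2 : IntervalIntegrable (fun θ : ℝ =>
      (P.eval (exp (θ * I))).re * (Q.eval (exp (θ * I))).re)
      volume 0 (2 * Real.pi) := (hPc.mul hQc).intervalIntegrable _ _
  have h2 : ∀ θ : ℝ, (u (exp (θ * I)) - (P.eval (exp (θ * I))).re) * (Q.eval (exp (θ * I))).re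
      = u (exp (θ * I)) * (Q.eval (exp (θ * I))).re
        - (P.eval (exp (θ * I))).re * (Q.eval (exp (θ * I))).re := by
    intro θ; ring
  simp only [← hP] at h
  simp only [h2] at h
  rw [intervalIntegral.integral_sub i1 i2] at h
  linarith

theorem fourier_approx {V : Type*} [AddCommGroup V] [Module ℝ V] [FiniteDimensional ℝ V]
    (ι : V →ₗ[ℝ] (ℂ → ℝ)) {r : ℝ} (hr : 1 < r) (hC : ∀ u, ContDiffOn ℝ 1 (ι u) (ball 0 r))
    (hpos : ∀ u, u ≠ 0 → 0 < ∫ θ in (0:ℝ)..2 * Real.pi, ι u (exp (θ * I)) ^ 2)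
    {ε : ℝ} (hε : 0 < ε) :
    ∃ P : V →ₗ[ℝ] Polynomial ℂ, ∀ u : V,
      dirE (fun z => (P u).eval z) ≤ ∫ z in ball (0:ℂ) 1, ‖fderiv ℝ (ι u) z‖ ^ 2 ∧
      ∫ θ in (0:ℝ)..2 * Real.pi, (((P u).eval (exp (θ * I))).re - ι u (exp (θ * I))) ^ 2 ≤
        ε * ∫ θ in (0:ℝ)..2 * Real.pi, ι u (exp (θ * I)) ^ 2 := by
  classical
  -- continuity on the circle
  have hcont : ∀ u, Continuous (fun θ : ℝ => ι u (exp (θ * I))) := by
    intro u
    apply (hC u).continuousOn.comp_continuous (by fun_prop)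
    intro θ
    rw [mem_ball_zero_iff, norm_exp_ofReal_mul_I]
    exact hr
  -- the linear map
  let P : ℕ → V →ₗ[ℝ] Polynomial ℂ := fun N =>
    { toFun := fun u => fp N (fun θ : ℝ => ι u (exp (θ * I)))
      map_add' := by
        intro u v
        rw [← fp_add (hcont u) (hcont v)]
        congr 1
        funext θ
        rw [map_add]; rfl
      map_smul' := by
        intro c u
        rw [RingHom.id_apply, ← fp_smul]
        congr 1
        funext θ
        rw [map_smul]; rfl }
  have hPdef : ∀ N u, P N u = fp N (fun θ : ℝ => ι u (exp (θ * I))) := fun _ _ => rfl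
  -- the bilinear form
  let B : LinearMap.BilinForm ℝ V := LinearMap.mk₂ ℝ
    (fun u v => ∫ θ in (0:ℝ)..2 * Real.pi, ι u (exp (θ * I)) * ι v (exp (θ * I)))
    (by
      intro u v w
      rw [← intervalIntegral.integral_add]
      · apply intervalIntegral.integral_congr
        intro θ _
        simp only [map_add, Pi.add_apply]
        ring
      · exact ((hcont u).mul (hcont w)).intervalIntegrable _ _
      · exact ((hcont v).mul (hcont w)).intervalIntegrable _ _)
    (by
      intro c u w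
      rw [smul_eq_mul, ← intervalIntegral.integral_const_mul]
      apply intervalIntegral.integral_congr
      intro θ _
      simp only [map_smul, Pi.smul_apply, smul_eq_mul]
      ring)
    (by
      intro u v w
      rw [← intervalIntegral.integral_add]
      · apply intervalIntegral.integral_congr
        intro θ _
        simp only [map_add, Pi.add_apply]
        ring
      · exact ((hcont u).mul (hcont v)).intervalIntegrable _ _
      · exact ((hcont u).mul (hcont w)).intervalIntegrable _ _)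
    (by
      intro c u w
      rw [smul_eq_mul, ← intervalIntegral.integral_const_mul]
      apply intervalIntegral.integral_congr
      intro θ _
      simp only [map_smul, Pi.smul_apply, smul_eq_mul]
      ring)
  have hB : ∀ u v, B u v = ∫ θ in (0:ℝ)..2 * Real.pi, ι u (exp (θ * I)) * ι v (exp (θ * I)) :=
    fun _ _ => rfl
  have hBsymm : LinearMap.IsSymm B := by
    constructor
    intro u v
    rw [RingHom.id_apply, hB, hB]
    apply intervalIntegral.integral_congr
    intro θ _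
    simp only
    ring
  have : Invertible (2:ℝ) := invertibleOfNonzero two_ne_zero
  obtain ⟨d, v, hv⟩ : ∃ (d : ℕ) (v : Module.Basis (Fin d) ℝ V), B.IsOrthoᵢ v :=
    ⟨_, LinearMap.BilinForm.exists_orthogonal_basis hBsymm⟩
  have hQB : ∀ u, B u u = ∫ θ in (0:ℝ)..2 * Real.pi, ι u (exp (θ * I)) ^ 2 := by
    intro u
    rw [hB]
    apply intervalIntegral.integral_congr
    intro θ _
    simp only
    ring
  have hq : ∀ i, 0 < B (v i) (v i) := by
    intro i
    rw [hQB]
    exact hpos _ (v.ne_zero i)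
  have hsum : ∀ u, B u u = ∑ i, (v.repr u i) ^ 2 * B (v i) (v i) := by
    intro u
    conv_lhs => rw [← v.sum_repr u]
    rw [map_sum]
    apply Finset.sum_congr rfl
    intro i _
    rw [map_smul, map_sum, LinearMap.sum_apply,
      Finset.sum_eq_single_of_mem i (Finset.mem_univ i)]
    · rw [map_smul, LinearMap.smul_apply, smul_eq_mul, smul_eq_mul]
      ring
    · intro j _ hj
      rw [map_smul, LinearMap.smul_apply, hv hj, smul_zero]
  -- choice of N
  have hd1 : (0:ℝ) < d + 1 := by positivity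
  obtain ⟨N, hN⟩ : ∃ N : ℕ, ∀ i, ∫ θ in (0:ℝ)..2 * Real.pi,
      (((P N (v i)).eval (exp (θ * I))).re - ι (v i) (exp (θ * I))) ^ 2
        < ε * B (v i) (v i) / (d + 1) := by
    have : ∀ i, ∀ᶠ N : ℕ in Filter.atTop, ∫ θ in (0:ℝ)..2 * Real.pi,
      (((P N (v i)).eval (exp (θ * I))).re - ι (v i) (exp (θ * I))) ^ 2
        < ε * B (v i) (v i) / (d + 1) := by
      intro i
      exact (error_tendsto (hcont (v i))).eventually_lt_const
        (div_pos (mul_pos hε (hq i)) hd1)
    exact (Filter.eventually_all.mpr this).exists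
  refine ⟨P N, fun u => ⟨?_, ?_⟩⟩
  · -- energy
    apply dirE_le hr (hC u)
    · exact (P N u).differentiable.differentiableOn
    · exact dirE_fp (hcont u) N
  · -- L² error
    set D : Fin d → ℝ → ℝ := fun i θ =>
      ((P N (v i)).eval (exp (θ * I))).re - ι (v i) (exp (θ * I)) with hD
    have hDc : ∀ i, Continuous (D i) := by
      intro i
      exact (continuous_re.comp ((P N (v i)).continuous.comp (by fun_prop))).sub (hcont (v i))
    have h1 : ∀ θ : ℝ, ((P N u).eval (exp (θ * I))).re - ι u (exp (θ * I))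
        = ∑ i, v.repr u i * D i θ := by
      intro θ
      conv_lhs => rw [← v.sum_repr u]
      rw [map_sum, map_sum, Polynomial.eval_finsetSum, re_sum, Finset.sum_apply,
        ← Finset.sum_sub_distrib]
      apply Finset.sum_congr rfl
      intro i _
      rw [map_smul, map_smul, Polynomial.eval_smul, Pi.smul_apply, smul_re, smul_eq_mul,
        smul_eq_mul, hD]
      ring
    have h2 : ∀ θ : ℝ, (((P N u).eval (exp (θ * I))).re - ι u (exp (θ * I))) ^ 2
        ≤ B u u * ∑ i, (D i θ) ^ 2 / B (v i) (v i) := by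
      intro θ
      rw [h1, hsum]
      have h3 := Finset.sum_mul_sq_le_sq_mul_sq (Finset.univ)
        (fun i => v.repr u i * Real.sqrt (B (v i) (v i)))
        (fun i => D i θ / Real.sqrt (B (v i) (v i)))
      have h4 : ∀ i, v.repr u i * Real.sqrt (B (v i) (v i)) *
          (D i θ / Real.sqrt (B (v i) (v i))) = v.repr u i * D i θ := by
        intro i
        have := (Real.sqrt_pos.mpr (hq i)).ne'
        field_simp
      have h5 : ∀ i, (v.repr u i * Real.sqrt (B (v i) (v i))) ^ 2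
          = v.repr u i ^ 2 * B (v i) (v i) := by
        intro i
        rw [mul_pow, Real.sq_sqrt (hq i).le]
      have h6 : ∀ i, (D i θ / Real.sqrt (B (v i) (v i))) ^ 2 = D i θ ^ 2 / B (v i) (v i) := by
        intro i
        rw [div_pow, Real.sq_sqrt (hq i).le]
      simp only [h4, h5, h6] at h3
      exact h3
    have hc1 : Continuous (fun θ : ℝ =>
        (((P N u).eval (exp (θ * I))).re - ι u (exp (θ * I))) ^ 2) :=
      ((continuous_re.comp ((P N u).continuous.comp (by fun_prop))).sub (hcont u)).pow 2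
    have hc2 : ∀ i, Continuous (fun θ : ℝ => (D i θ) ^ 2 / B (v i) (v i)) :=
      fun i => ((hDc i).pow 2).div_const _
    have hc3 : Continuous (fun θ : ℝ => B u u * ∑ i, (D i θ) ^ 2 / B (v i) (v i)) :=
      (continuous_finsetSum _ (fun i _ => hc2 i)).const_mul _
    have hpi2 : (0:ℝ) ≤ 2 * Real.pi := by positivity
    have hBu : 0 ≤ B u u := by
      rw [hsum]
      exact Finset.sum_nonneg (fun i _ => mul_nonneg (sq_nonneg _) (hq i).le)
    calc ∫ θ in (0:ℝ)..2 * Real.pi, (((P N u).eval (exp (θ * I))).re - ι u (exp (θ * I))) ^ 2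
        ≤ ∫ θ in (0:ℝ)..2 * Real.pi, B u u * ∑ i, (D i θ) ^ 2 / B (v i) (v i) :=
          intervalIntegral.integral_mono_on hpi2 (hc1.intervalIntegrable _ _)
            (hc3.intervalIntegrable _ _) (fun θ _ => h2 θ)
      _ = B u u * ∑ i, (∫ θ in (0:ℝ)..2 * Real.pi, (D i θ) ^ 2) / B (v i) (v i) := by
          rw [intervalIntegral.integral_const_mul, intervalIntegral.integral_finsetSum
            (fun i _ => (hc2 i).intervalIntegrable _ _)]
          simp only [intervalIntegral.integral_div]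
      _ ≤ B u u * ∑ _i : Fin d, ε / (d + 1) := by
          apply mul_le_mul_of_nonneg_left _ hBu
          apply Finset.sum_le_sum
          intro i _
          rw [div_le_iff₀ (hq i)]
          have := (hN i).le
          calc _ ≤ ε * B (v i) (v i) / (d + 1) := this
            _ = ε / (d + 1) * B (v i) (v i) := by ring
      _ ≤ B u u * ε := by
          apply mul_le_mul_of_nonneg_left _ hBu
          rw [Finset.sum_const, Finset.card_univ, Fintype.card_fin, nsmul_eq_mul, mul_div_assoc',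
            div_le_iff₀ hd1]
          nlinarith
      _ = ε * ∫ θ in (0:ℝ)..2 * Real.pi, ι u (exp (θ * I)) ^ 2 := by
          rw [hQB, mul_comm]

end Pool.Agent.Steklov
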