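import Mathlib
import Pool.Agent.Steklov.Defs
import Pool.Agent.HaymanWu.Length
import Pool.Agent.Lib.Hurwitz

/-!
# The one-dimensional Hausdorff measure on a regular injective curve is arc length (module M6c)
-/

set_option autoImplicit false

open Complex Metric Set MeasureTheory Measure Filter
open scoped ComplexConjugate ENNReal NNReal Topology

namespace Pool.Agent.Steklov

section curve

/-- a continuous curve has 1-dimensional measure at least the distance of its end points -/
theorem dist_le_hausdorff {γ : ℝ → ℂ} {s t : ℝ} (hst : s ≤ t) (hγ : ContinuousOn γ (Icc s t)) :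
    ENNReal.ofReal ‖γ t - γ s‖ ≤ μH[1] (γ '' Icc s t) := by
  have h1 : Icc (0:ℝ) ‖γ t - γ s‖ ⊆ (fun x => ‖x - γ s‖) '' (γ '' Icc s t) := by
    rw [image_image]
    have hc : ContinuousOn (fun x => ‖γ x - γ s‖) (Icc s t) := (hγ.sub continuousOn_const).norm
    have := intermediate_value_Icc hst hc
    simpa using this
  have h2 : LipschitzWith 1 (fun x : ℂ => ‖x - γ s‖) := by
    refine LipschitzWith.of_dist_le_mul fun x y => ?_
    rw [Real.dist_eq, dist_eq_norm]
    have := abs_norm_sub_norm_le (x - γ s) (y - γ s)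
    simpa using this
  calc ENNReal.ofReal ‖γ t - γ s‖ = μH[1] (Icc (0:ℝ) ‖γ t - γ s‖) := by
        rw [hausdorffMeasure_real, Real.volume_Icc, sub_zero]
    _ ≤ μH[1] ((fun x => ‖x - γ s‖) '' (γ '' Icc s t)) := measure_mono h1
    _ ≤ ((1 : ℝ≥0) : ℝ≥0∞) ^ (1:ℝ) * μH[1] (γ '' Icc s t) :=
        h2.hausdorffMeasure_image_le zero_le_one _
    _ = μH[1] (γ '' Icc s t) := by simp

variable {γ γ' : ℝ → ℂ} {a b : ℝ}

theorem curve_measure (hab : a ≤ b) (hγ : ∀ t, HasDerivAt γ (γ' t) t) (hγ' : Continuous γ')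
    (hinj : InjOn γ (Ioc a b)) :
    Measure.map Subtype.val (Measure.comap ((Ioc a b).domRestrict γ) μH[1]) =
      (volume.restrict (Ioc a b)).withDensity (fun t => ENNReal.ofReal ‖γ' t‖) := by
  have hcont : Continuous γ := continuous_iff_continuousAt.2 fun t => (hγ t).continuousAt
  have he : MeasurableEmbedding ((Ioc a b).domRestrict γ) :=
    ContinuousOn.measurableEmbedding measurableSet_Ioc hcont.continuousOn hinj
  set μ2 : Measure ℝ := Measure.map Subtype.val (Measure.comap ((Ioc a b).domRestrict γ) μH[1])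
    with hμ2def
  have hμ2 : ∀ A : Set ℝ, MeasurableSet A → μ2 A = μH[1] (γ '' (A ∩ Ioc a b)) := by
    intro A hA
    rw [hμ2def, Measure.map_apply measurable_subtype_coe hA, he.comap_apply]
    congr 1
    ext x
    simp only [mem_image, mem_preimage, Subtype.exists, Set.domRestrict_apply, mem_inter_iff]
    constructor
    · rintro ⟨t, ht, h1, h2⟩
      exact ⟨t, ⟨h1, ht⟩, h2⟩
    · rintro ⟨t, ⟨h1, ht⟩, h2⟩
      exact ⟨t, ht, h1, h2⟩
  have hw : Continuous fun t => ‖γ' t‖ := hγ'.norm
  set G : ℝ → ℝ := fun t => ∫ x in a..t, ‖γ' x‖ with hG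
  have hGsub : ∀ s t, G t - G s = ∫ x in s..t, ‖γ' x‖ := by
    intro s t
    simp only [hG]
    exact intervalIntegral.integral_interval_sub_left (hw.intervalIntegrable _ _)
      (hw.intervalIntegrable _ _)
  have hGder : ∀ t, HasDerivAt G ‖γ' t‖ t := by
    intro t
    exact intervalIntegral.integral_hasDerivAt_right (hw.intervalIntegrable _ _)
      (hw.stronglyMeasurableAtFilter _ _) hw.continuousAt
  have hle : ∀ s t, a ≤ s → s ≤ t → t ≤ b → μ2 (Ioc s t) ≤ ENNReal.ofReal (G t - G s) := by
    intro s t has hst htb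
    rw [hμ2 _ measurableSet_Ioc, hGsub]
    refine le_trans (measure_mono ?_) (HaymanWu.hausdorff_image_le hst
      (fun x _ => (hγ x).hasDerivWithinAt) hγ'.continuousOn)
    exact image_mono (inter_subset_left.trans Ioc_subset_Icc_self)
  have hge : ∀ s t, a ≤ s → s ≤ t → t ≤ b → ENNReal.ofReal ‖γ t - γ s‖ ≤ μ2 (Ioc s t) := by
    intro s t has hst htb
    rw [hμ2 _ measurableSet_Ioc]
    have h1 : Ioc s t ∩ Ioc a b = Ioc s t :=
      inter_eq_left.2 (Ioc_subset_Ioc has htb)
    rw [h1]
    refine le_trans (dist_le_hausdorff hst hcont.continuousOn) ?_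
    have h2 : γ '' Icc s t = {γ s} ∪ γ '' Ioc s t := by
      rw [← Ioc_insert_left hst, image_insert_eq]
      rfl
    rw [h2]
    refine (measure_union_le _ _).trans ?_
    have := Measure.nullSingletonClass_hausdorff ℂ (d := 1) one_pos
    rw [measure_singleton, zero_add]
  have hfin : ∀ t, t ≤ b → μ2 (Ioc a t) ≠ ∞ := by
    intro t ht
    rcases le_total a t with h | h
    · exact ((hle a t le_rfl h ht).trans_lt ENNReal.ofReal_lt_top).ne
    · rw [Ioc_eq_empty (not_lt.2 h)]; simp
  set F : ℝ → ℝ := fun t => (μ2 (Ioc a t)).toReal with hF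
  have hFsub : ∀ s t, a ≤ s → s ≤ t → t ≤ b → F t - F s = (μ2 (Ioc s t)).toReal := by
    intro s t has hst htb
    have h1 : μ2 (Ioc a t) = μ2 (Ioc a s) + μ2 (Ioc s t) := by
      rw [← Ioc_union_Ioc_eq_Ioc has hst, measure_union _ measurableSet_Ioc]
      rw [Set.disjoint_left]
      rintro x ⟨_, hx⟩ ⟨hx', _⟩
      exact absurd hx' (not_lt.2 hx)
    have h2 : μ2 (Ioc s t) ≠ ∞ := by
      intro h
      rw [h] at h1
      exact hfin t htb (by rw [h1]; simp)
    simp only [hF]
    rw [h1, ENNReal.toReal_add (hfin s (hst.trans htb)) h2]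
    ring
  have hup : ∀ s t, a ≤ s → s ≤ t → t ≤ b → F t - F s ≤ G t - G s := by
    intro s t has hst htb
    rw [hFsub s t has hst htb]
    have h0 : 0 ≤ G t - G s := by
      rw [hGsub]
      exact intervalIntegral.integral_nonneg hst fun x _ => norm_nonneg _
    exact ENNReal.toReal_le_of_le_ofReal h0 (hle s t has hst htb)
  have hlow : ∀ s t, a ≤ s → s ≤ t → t ≤ b → ‖γ t - γ s‖ ≤ F t - F s := by
    intro s t has hst htb
    rw [hFsub s t has hst htb]
    have h2 : μ2 (Ioc s t) ≠ ∞ :=
      ((hle s t has hst htb).trans_lt ENNReal.ofReal_lt_top).ne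
    exact (ENNReal.ofReal_le_iff_le_toReal h2).1 (hge s t has hst htb)
  have hFG : ∀ t, a ≤ t → t ≤ b → F t = G t := by
    intro t hat htb
    have hGc : Continuous G := continuous_iff_continuousAt.2 fun t => (hGder t).continuousAt
    have hFc : ContinuousOn F (Icc a t) := by
      have hd : ∀ x ∈ Icc a t, ∀ y ∈ Icc a t, dist (F x) (F y) ≤ dist (G x) (G y) := by
        intro x hx y hy
        rcases le_total x y with h | h
        · have h1 := hup x y hx.1 h (hy.2.trans htb)
          have h2 := (norm_nonneg _).trans (hlow x y hx.1 h (hy.2.trans htb))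
          rw [dist_comm, dist_comm (G x), Real.dist_eq, Real.dist_eq, abs_of_nonneg h2]
          exact h1.trans (le_abs_self _)
        · have h1 := hup y x hy.1 h (hx.2.trans htb)
          have h2 := (norm_nonneg _).trans (hlow y x hy.1 h (hx.2.trans htb))
          rw [Real.dist_eq, Real.dist_eq, abs_of_nonneg h2]
          exact h1.trans (le_abs_self _)
      intro x hx
      rw [ContinuousWithinAt, tendsto_iff_dist_tendsto_zero]
      have h3 : Tendsto (fun y => dist (G y) (G x)) (𝓝[Icc a t] x) (𝓝 0) := by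
        rw [← tendsto_iff_dist_tendsto_zero]
        exact hGc.continuousWithinAt
      refine squeeze_zero' (Eventually.of_forall fun y => dist_nonneg) ?_ h3
      filter_upwards [self_mem_nhdsWithin] with y hy
      exact hd y hy x hx
    have hder : ∀ x ∈ Ioo a t, HasDerivWithinAt F ‖γ' x‖ (Ioi x) x := by
      intro x hx
      rw [hasDerivWithinAt_iff_tendsto_slope' (notMem_Ioi.2 le_rfl)]
      have h1 : Tendsto (fun y => ‖slope γ x y‖) (𝓝[>] x) (𝓝 ‖γ' x‖) := by
        have := (hγ x).hasDerivWithinAt (s := Ioi x)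
        rw [hasDerivWithinAt_iff_tendsto_slope' (notMem_Ioi.2 le_rfl)] at this
        exact this.norm
      have h2 : Tendsto (slope G x) (𝓝[>] x) (𝓝 ‖γ' x‖) := by
        have := (hGder x).hasDerivWithinAt (s := Ioi x)
        rwa [hasDerivWithinAt_iff_tendsto_slope' (notMem_Ioi.2 le_rfl)] at this
      refine tendsto_of_tendsto_of_tendsto_of_le_of_le' h1 h2 ?_ ?_
      · filter_upwards [Ioc_mem_nhdsGT hx.2] with y hy
        have hyx : 0 < y - x := sub_pos.2 hy.1
        rw [slope_def_module, slope_def_field, norm_smul, norm_inv, Real.norm_eq_abs,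
          abs_of_pos hyx, inv_mul_eq_div]
        exact div_le_div_of_nonneg_right (hlow x y hx.1.le hy.1.le (hy.2.trans htb)) hyx.le
      · filter_upwards [Ioc_mem_nhdsGT hx.2] with y hy
        have hyx : 0 < y - x := sub_pos.2 hy.1
        rw [slope_def_field, slope_def_field]
        exact div_le_div_of_nonneg_right (hup x y hx.1.le hy.1.le (hy.2.trans htb)) hyx.le
    have h4 := intervalIntegral.integral_eq_sub_of_hasDeriv_right_of_le hat hFc hder
      (hw.intervalIntegrable _ _)
    have h5 : F a = 0 := by simp [hF]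
    rw [h5, sub_zero] at h4
    exact h4.symm
  have hIoc : ∀ t, a ≤ t → t ≤ b → μ2 (Ioc a t) =
      ∫⁻ x in Ioc a t, ENNReal.ofReal ‖γ' x‖ := by
    intro t hat htb
    have h1 : μ2 (Ioc a t) = ENNReal.ofReal (F t) := by
      simp only [hF]
      rw [ENNReal.ofReal_toReal (hfin t htb)]
    rw [h1, hFG t hat htb]
    simp only [hG]
    rw [intervalIntegral.integral_of_le hat, ofReal_integral_eq_lintegral_ofReal]
    · exact (hw.integrableOn_Icc).mono_set Ioc_subset_Icc_self
    · exact Eventually.of_forall fun x => norm_nonneg _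
  have : IsFiniteMeasure μ2 := by
    refine ⟨?_⟩
    have h1 : μ2 univ = μ2 (Ioc a b) := by
      rw [hμ2 _ MeasurableSet.univ, hμ2 _ measurableSet_Ioc, univ_inter, inter_self]
    rw [h1]
    exact lt_top_iff_ne_top.2 (hfin b le_rfl)
  refine ext_of_Iic _ _ fun c => ?_
  have hset : Iic c ∩ Ioc a b = Ioc a (max a (min b c)) := by
    ext x
    simp only [mem_inter_iff, mem_Iic, mem_Ioc, le_max_iff, le_min_iff]
    constructor
    · rintro ⟨h1, h2, h3⟩
      exact ⟨h2, Or.inr ⟨h3, h1⟩⟩
    · rintro ⟨h1, h2 | ⟨h3, h4⟩⟩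
      · exact absurd h1 (not_lt.2 h2)
      · exact ⟨h4, h1, h3⟩
  have hm1 : a ≤ max a (min b c) := le_max_left _ _
  have hm2 : max a (min b c) ≤ b := max_le hab (min_le_left _ _)
  have h1 : μ2 (Iic c) = μ2 (Ioc a (max a (min b c))) := by
    rw [hμ2 _ measurableSet_Iic, hμ2 _ measurableSet_Ioc, hset,
      inter_eq_left.2 (Ioc_subset_Ioc le_rfl hm2)]
  rw [h1, hIoc _ hm1 hm2, withDensity_apply _ measurableSet_Iic,
    Measure.restrict_restrict measurableSet_Iic, hset]

/-- integral over an injective regular curve with respect to the one-dimensional Hausdorff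
measure -/
theorem integral_curve (hab : a ≤ b) (hγ : ∀ t, HasDerivAt γ (γ' t) t) (hγ' : Continuous γ')
    (hinj : InjOn γ (Ioc a b)) {g : ℂ → ℝ} :
    ∫ x in γ '' Ioc a b, g x ∂μH[1] = ∫ t in a..b, g (γ t) * ‖γ' t‖ := by
  have hcont : Continuous γ := continuous_iff_continuousAt.2 fun t => (hγ t).continuousAt
  have he : MeasurableEmbedding ((Ioc a b).domRestrict γ) :=
    ContinuousOn.measurableEmbedding measurableSet_Ioc hcont.continuousOn hinj
  have hrange : range ((Ioc a b).domRestrict γ) = γ '' Ioc a b := range_domRestrict _ _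
  have h1 : (μH[1] : Measure ℂ).restrict (γ '' Ioc a b) =
      Measure.map ((Ioc a b).domRestrict γ) (Measure.comap ((Ioc a b).domRestrict γ) μH[1]) := by
    rw [he.map_comap, hrange]
  rw [h1, he.integral_map]
  have h2 : ∫ x : Ioc a b, g ((Ioc a b).domRestrict γ x)
        ∂(Measure.comap ((Ioc a b).domRestrict γ) μH[1]) =
      ∫ t, g (γ t) ∂(Measure.map Subtype.val (Measure.comap ((Ioc a b).domRestrict γ) μH[1])) := by
    rw [(MeasurableEmbedding.subtype_coe measurableSet_Ioc).integral_map]
    rfl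
  rw [h2, curve_measure hab hγ hγ' hinj]
  rw [integral_withDensity_eq_integral_toReal_smul]
  · rw [intervalIntegral.integral_of_le hab]
    refine integral_congr_ae (Eventually.of_forall fun t => ?_)
    simp only [smul_eq_mul]
    rw [ENNReal.toReal_ofReal (norm_nonneg _), mul_comm]
  · exact (hγ'.norm.measurable).ennreal_ofReal
  · exact Eventually.of_forall fun t => ENNReal.ofReal_lt_top

end curve

section domain

variable {ψ : ℂ → ℂ} {r : ℝ} (hr : 1 < r) (hψ : DifferentiableOn ℂ ψ (ball 0 r))
  (hinj : InjOn ψ (ball 0 r))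

include hr hψ hinj

theorem frontier_image_aux : frontier (ψ '' ball 0 1) = ψ '' sphere 0 1 := by
  have hsub : closedBall (0:ℂ) 1 ⊆ ball 0 r := closedBall_subset_ball hr
  have hsub' : ball (0:ℂ) 1 ⊆ ball 0 r := ball_subset_ball hr.le
  have hopen : IsOpen (ψ '' ball 0 1) :=
    Pool.Agent.Lib.Hurwitz.isOpen_image_of_injOn isOpen_ball (hψ.mono hsub') (hinj.mono hsub')
  have hclos : closure (ψ '' ball 0 1) = ψ '' closedBall 0 1 := by
    apply Subset.antisymm
    · refine closure_minimal (image_mono ball_subset_closedBall) ?_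
      exact ((isCompact_closedBall 0 1).image_of_continuousOn
        (hψ.continuousOn.mono hsub)).isClosed
    · rw [← closure_ball (0:ℂ) one_ne_zero]
      apply ContinuousOn.image_closure
      rw [closure_ball (0:ℂ) one_ne_zero]
      exact hψ.continuousOn.mono hsub
  rw [frontier, hopen.interior_eq, hclos]
  ext x
  constructor
  · rintro ⟨⟨z, hz, rfl⟩, h2⟩
    refine ⟨z, ?_, rfl⟩
    rw [mem_sphere]
    rw [mem_closedBall] at hz
    refine le_antisymm hz (not_lt.1 fun h => h2 ⟨z, mem_ball.2 h, rfl⟩)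
  · rintro ⟨z, hz, rfl⟩
    refine ⟨⟨z, sphere_subset_closedBall hz, rfl⟩, ?_⟩
    rintro ⟨w, hw, hwz⟩
    have h1 : w = z := hinj (hsub' hw) (hsub (sphere_subset_closedBall hz)) hwz
    subst h1
    rw [mem_ball] at hw
    rw [mem_sphere] at hz
    exact absurd hz hw.ne

theorem integral_frontier_image {g : ℂ → ℝ} (_hg : Continuous g) :
    ∫ x in frontier (ψ '' ball 0 1), g x ∂μH[1] =
      ∫ θ in (0:ℝ)..2 * Real.pi, g (ψ (exp (θ * I))) * ‖deriv ψ (exp (θ * I))‖ := by
  have hmem : ∀ θ : ℝ, exp (θ * I) ∈ ball (0:ℂ) r := by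
    intro θ
    rw [mem_ball_zero_iff, Complex.norm_exp_ofReal_mul_I]
    exact hr
  have hexp : ∀ θ : ℝ, HasDerivAt (fun θ : ℝ => exp (θ * I)) (exp (θ * I) * I) θ := by
    intro θ
    have h1 : HasDerivAt (fun θ : ℝ => (θ : ℂ) * I) I θ := by
      simpa using (Complex.ofRealCLM.hasDerivAt (x := θ)).mul_const I
    exact h1.cexp
  have hγ : ∀ θ : ℝ, HasDerivAt (fun θ : ℝ => ψ (exp (θ * I)))
      (deriv ψ (exp (θ * I)) * (exp (θ * I) * I)) θ := by
    intro θ
    have h1 : HasDerivAt ψ (deriv ψ (exp (θ * I))) (exp (θ * I)) :=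
      (hψ.differentiableAt (isOpen_ball.mem_nhds (hmem θ))).hasDerivAt
    exact HasDerivAt.comp_of_eq (h := fun θ : ℝ => exp (θ * I)) θ h1 (hexp θ) rfl
  have hc : Continuous fun θ : ℝ => exp (θ * I) := by fun_prop
  have hγ' : Continuous fun θ : ℝ => deriv ψ (exp (θ * I)) * (exp (θ * I) * I) := by
    have h1 : ContinuousOn (deriv ψ) (ball 0 r) := (hψ.deriv isOpen_ball).continuousOn
    have h2 : Continuous fun θ : ℝ => deriv ψ (exp (θ * I)) :=
      h1.comp_continuous hc hmem
    exact h2.mul (hc.mul continuous_const)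
  have hinj' : InjOn (fun θ : ℝ => ψ (exp (θ * I))) (Ioc 0 (2 * Real.pi)) := by
    intro s hs t ht hst
    have h1 : exp (s * I) = exp (t * I) := hinj (hmem s) (hmem t) hst
    rw [Complex.exp_eq_exp_iff_exists_int] at h1
    obtain ⟨n, hn⟩ := h1
    have h2 : s = t + n * (2 * Real.pi) := by
      have h3 : ((s : ℂ) - (t + n * (2 * Real.pi))) * I = 0 := by
        linear_combination hn
      have h4 : ((s : ℂ) - (t + n * (2 * Real.pi))) = 0 := by
        rcases mul_eq_zero.1 h3 with h | h
        · exact h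
        · exact absurd h Complex.I_ne_zero
      have h5 : ((s - (t + n * (2 * Real.pi)) : ℝ) : ℂ) = 0 := by
        push_cast
        exact h4
      have h6 := Complex.ofReal_eq_zero.1 h5
      linarith
    have hpi := Real.pi_pos
    have hn0 : n = 0 := by
      have h3 : (-1 : ℝ) < n := by
        by_contra h
        push Not at h
        have : s ≤ 0 := by nlinarith [ht.2]
        exact absurd hs.1 (not_lt.2 this)
      have h4 : (n : ℝ) < 1 := by
        by_contra h
        push Not at h
        have : 2 * Real.pi < s := by nlinarith [ht.1]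
        exact absurd hs.2 (not_le.2 this)
      have h5 : (-1 : ℤ) < n := by exact_mod_cast h3
      have h6 : n < (1 : ℤ) := by exact_mod_cast h4
      omega
    rw [hn0] at h2
    simpa using h2
  have himg : (fun θ : ℝ => ψ (exp (θ * I))) '' Ioc 0 (2 * Real.pi) = ψ '' sphere 0 1 := by
    apply Subset.antisymm
    · rintro _ ⟨θ, -, rfl⟩
      refine ⟨exp (θ * I), ?_, rfl⟩
      rw [mem_sphere_zero_iff_norm, Complex.norm_exp_ofReal_mul_I]
    · rintro _ ⟨z, hz, rfl⟩
      rw [mem_sphere_zero_iff_norm] at hz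
      have hpi := Real.pi_pos
      have hz' : z = exp (Complex.arg z * I) := by
        have := Complex.norm_mul_exp_arg_mul_I z
        rw [hz] at this
        simpa using this.symm
      rcases lt_or_ge 0 (Complex.arg z) with h | h
      · refine ⟨Complex.arg z, ⟨h, ?_⟩, ?_⟩
        · linarith [Complex.arg_le_pi z]
        · simp only
          rw [← hz']
      · refine ⟨Complex.arg z + 2 * Real.pi, ⟨?_, ?_⟩, ?_⟩
        · linarith [Complex.neg_pi_lt_arg z]
        · linarith
        · simp only
          congr 1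
          rw [hz']
          have : ((Complex.arg z + 2 * Real.pi : ℝ) : ℂ) * I =
              Complex.arg z * I + 2 * Real.pi * I := by push_cast; ring
          rw [← hz', this, Complex.exp_add, Complex.exp_two_pi_mul_I, mul_one, ← hz']
  rw [frontier_image_aux hr hψ hinj, ← himg,
    integral_curve (by positivity) hγ hγ' hinj']
  refine intervalIntegral.integral_congr fun θ _ => ?_
  rw [norm_mul, norm_mul, Complex.norm_exp_ofReal_mul_I, Complex.norm_I]
  ring

end domain

end Pool.Agent.Steklov
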