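import Mathlib
import Pool.Agent.Steklov.Defs

/-!
# Algebra of the degree 7 pair
-/

set_option autoImplicit false

open Complex

namespace Pool.Agent.Steklov

theorem FF_sub {p : ℂ} (hp : p ^ 2 - p + 2 = 0) (x y : ℂ) :
    FF p x - FF (1 - p) y = AA p x y * CC p x y := by
  unfold FF AA CC
  linear_combination (-x^2*y^5 - x^3*y^4 + x^4*y^3 + x^5*y^2 + 3*x*y^3 - 3*x^3*y - 10*x + 10*y) * hp

/-- the three roots of the incidence cubic in the second variable -/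
theorem exists_roots_AA (p x : ℂ) : ∃ y1 y2 y3 : ℂ, ∀ Y, AA p x Y = -((Y - y1) * (Y - y2) * (Y - y3)) := by
  -- a first root
  obtain ⟨y1, h1⟩ : ∃ y1 : ℂ, y1 ^ 3 + (1 - p) * x * y1 ^ 2 - p * x ^ 2 * y1 - (x ^ 3 + (2 * p - 1)) = 0 := by
    have hdeg : (Polynomial.X ^ 3 + Polynomial.C ((1 - p) * x) * Polynomial.X ^ 2 +
      Polynomial.C (-(p * x ^ 2)) * Polynomial.X + Polynomial.C (-(x ^ 3 + (2 * p - 1))) :
        Polynomial ℂ).degree ≠ 0 := by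
      have : (Polynomial.X ^ 3 + Polynomial.C ((1 - p) * x) * Polynomial.X ^ 2 +
        Polynomial.C (-(p * x ^ 2)) * Polynomial.X + Polynomial.C (-(x ^ 3 + (2 * p - 1))) :
        Polynomial ℂ).degree = 3 := by compute_degree!
      rw [this]; decide
    obtain ⟨y, hy⟩ := IsAlgClosed.exists_root _ hdeg
    refine ⟨y, ?_⟩
    rw [Polynomial.IsRoot.def] at hy
    simp only [Polynomial.eval_add, Polynomial.eval_pow, Polynomial.eval_X, Polynomial.eval_mul,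
      Polynomial.eval_C] at hy
    linear_combination hy
  -- the remaining quadratic `Y^2 + B Y + C`
  set B := (1 - p) * x + y1 with hB
  set C := -(p * x ^ 2) + y1 * ((1 - p) * x + y1) with hC
  obtain ⟨d, hd⟩ : ∃ d : ℂ, d ^ 2 = B ^ 2 - 4 * C := by
    obtain ⟨d, hd⟩ := IsAlgClosed.exists_pow_nat_eq (B ^ 2 - 4 * C) (n := 2) (by norm_num)
    exact ⟨d, hd⟩
  refine ⟨y1, (-B + d) / 2, (-B - d) / 2, fun Y => ?_⟩
  have h2 : (Y - (-B + d) / 2) * (Y - (-B - d) / 2) = Y ^ 2 + B * Y + C := by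
    linear_combination (-1 / 4) * hd
  rw [mul_assoc, h2, hB, hC]
  unfold AA
  linear_combination -h1

theorem common_line {p : ℂ} (hp : p ^ 2 - p + 2 = 0) {x z : ℂ} (h : FF p x = FF p z)
    (hne : x ≠ z) : ∃ y, AA p x y = 0 ∧ AA p z y = 0 := by
  obtain ⟨y1, y2, y3, hy⟩ := exists_roots_AA p x
  have k0 := hy 0
  have k1 := hy 1
  have k2 := hy (-1)
  have k3 := hy 2
  unfold AA at k0 k1 k2 k3
  have e3 : y1 * y2 * y3 = x ^ 3 + (2 * p - 1) := by linear_combination -k0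
  have e1 : y1 + y2 + y3 = -(1 - p) * x := by
    linear_combination (-1 / 2) * (k1 + k2) + k0
  have e2 : y1 * y2 + y1 * y3 + y2 * y3 = -p * x ^ 2 := by
    linear_combination (1 / 2) * (k1 - k2)
  set a : ℂ := -(1 - p) with ha
  set b : ℂ := p * (x + z) with hb
  set c : ℂ := x ^ 2 + x * z + z ^ 2 with hc
  have hprod : (z - x) * ((a * y1 ^ 2 + b * y1 + c) * (a * y2 ^ 2 + b * y2 + c) *
      (a * y3 ^ 2 + b * y3 + c)) = FF p z - FF p x := by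
    have hgen : (a * y1 ^ 2 + b * y1 + c) * (a * y2 ^ 2 + b * y2 + c) *
      (a * y3 ^ 2 + b * y3 + c) =
      a ^ 3 * (y1 * y2 * y3) ^ 2 + a ^ 2 * b * (y1 * y2 + y1 * y3 + y2 * y3) * (y1 * y2 * y3) +
      a ^ 2 * c * ((y1 * y2 + y1 * y3 + y2 * y3) ^ 2 - 2 * (y1 + y2 + y3) * (y1 * y2 * y3)) +
      a * b ^ 2 * (y1 + y2 + y3) * (y1 * y2 * y3) +
      a * b * c * ((y1 + y2 + y3) * (y1 * y2 + y1 * y3 + y2 * y3) - 3 * (y1 * y2 * y3)) +
      a * c ^ 2 * ((y1 + y2 + y3) ^ 2 - 2 * (y1 * y2 + y1 * y3 + y2 * y3)) +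
      b ^ 3 * (y1 * y2 * y3) + b ^ 2 * c * (y1 * y2 + y1 * y3 + y2 * y3) +
      b * c ^ 2 * (y1 + y2 + y3) + c ^ 3 := by ring
    rw [hgen, e1, e2, e3, ha, hb, hc]
    unfold FF
    linear_combination (-p^2*x^3*z^4 + p^2*x^4*z^3 + p*x^3*z^4 - p*x^4*z^3 + 2*p^3*x*z^3 - 2*p^3*x^3*z + x*z^6 + x^2*z^5 - x^5*z^2 - x^6*z - 3*p^2*x*z^3 + 3*p^2*x^3*z - 2*p^2*x^4 + 2*p^2*z^4 + 3*p*x*z^3 - 3*p*x^3*z + 5*p*x^4 - 5*p*z^4 - 4*p^3*x + 4*p^3*z - x*z^3 + x^3*z + 12*p^2*x - 12*p^2*z - 5*p*x + 5*p*z - 10*x + 10*z) * hp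
  have hzx : z - x ≠ 0 := sub_ne_zero.mpr (Ne.symm hne)
  rw [h, sub_self, mul_eq_zero, or_iff_right hzx, mul_eq_zero, mul_eq_zero] at hprod
  have hdiff : ∀ y, AA p z y = AA p x y + (z - x) * (a * y ^ 2 + b * y + c) := by
    intro y
    rw [ha, hb, hc]
    unfold AA
    ring
  rcases hprod with (h1 | h1) | h1
  · exact ⟨y1, by rw [hy]; ring, by rw [hdiff, h1, hy]; ring⟩
  · exact ⟨y2, by rw [hy]; ring, by rw [hdiff, h1, hy]; ring⟩
  · exact ⟨y3, by rw [hy]; ring, by rw [hdiff, h1, hy]; ring⟩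

/-- a combinatorial fact about 3-subsets of `ℤ/7` -/
theorem diff_set (D : Finset (ZMod 7)) (hD : D.card = 3)
    (h : ∀ k : ZMod 7, k ≠ 0 → ∃ d ∈ D, d + k ∈ D) :
    ∀ k : ZMod 7, (D.filter (fun d => d + k ∈ D)).card = if k = 0 then 3 else 1 := by
  revert D
  decide +kernel

end Pool.Agent.Steklov
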