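import Mathlib
import Pool.Agent.Steklov.Defs
import Pool.Agent.Steklov.Algebra

/-!
# The critical points and the simple preimages of the critical value `12` for the degree 7 pair
-/

set_option autoImplicit false

open Complex

namespace Pool.Agent.Steklov

/-- `DD p x` is one seventh of the derivative of `FF p`. -/
noncomputable def DD (p x : ℂ) : ℂ := x ^ 6 + 4 * p * x ^ 3 + (p - 3)

theorem hasDerivAt_FF (p x : ℂ) : HasDerivAt (FF p) (7 * DD p x) x := by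
  unfold FF DD
  have h := ((((hasDerivAt_pow 7 x).add ((hasDerivAt_pow 4 x).const_mul (7 * p))).add
    ((hasDerivAt_id x).const_mul (7 * (p - 3)))).sub_const (1 + I))
  refine (h.congr_deriv ?_)
  push_cast
  ring

theorem two_mul_sub_one_ne {p : ℂ} (hp : p ^ 2 - p + 2 = 0) : 2 * p - 1 ≠ 0 := by
  intro h
  have : (7 : ℂ) = 0 := by linear_combination (2 * p - 1) * h * (-1) + 4 * hp
  norm_num at this

theorem cube_of_DD {p x : ℂ} (hp : p ^ 2 - p + 2 = 0) (h : DD p x = 0) :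
    (FF p x + (1 + I)) ^ 3 = 1728 := by
  unfold DD at h
  have h1 : FF p x + (1 + I) = x ^ 7 + 7 * p * x ^ 4 + 7 * (p - 3) * x := by
    unfold FF; ring
  rw [h1]
  linear_combination (432*p^5 -108*p^4*x^3 -675*p^4 +27*p^3*x^6 +162*p^3*x^3 +2349*p^3
    +79*p^2*x^9 +197*p^2*x^6 -359*p^2*x^3 -1944*p^2 +17*p*x^12 +20*p*x^9 -591*p*x^6 -762*p*x^3
    +2916*p +x^15 -60*x^9 +1143*x^3) * h + (-1728*p^4*x^3 -432*p^4 +1080*p^3*x^3 +1539*p^3
    -5346*p^2*x^3 -1971*p^2 +1458*p*x^3 +3942*p -2916*x^3 -864) * hp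

theorem FF_factor {p : ℂ} (hp : p ^ 2 - p + 2 = 0) (x : ℂ) :
    FF p x + (1 + I) - 12 =
      (x ^ 2 + (1 - p) * x + (1 - p)) ^ 2 * ((x - 1 - (1 - p)) * (x ^ 2 + p * x - 3)) := by
  unfold FF
  linear_combination (-p^2*x^3 -2*p^2*x^2 -p^2*x +p*x^3 +7*p*x^2 +9*p*x +3*p +2*x^5 +2*x^4
    -5*x^2 -15*x -9) * hp

theorem DD_factor {p : ℂ} (hp : p ^ 2 - p + 2 = 0) (x : ℂ) :
    DD p x = (x ^ 2 + (1 - p) * x + (1 - p)) *
      (p*x^3 +p*x -p +x^4 -x^3 -2*x^2 +x -1) := by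
  unfold DD
  linear_combination (x^4 +x^3 +x^2 -1) * hp

theorem AA_point {p : ℂ} (hp : p ^ 2 - p + 2 = 0) (y : ℂ) :
    AA p (2 - p) y = -((y - 1 - p) * (y ^ 2 + (1 - p) * y - 3)) := by
  unfold AA
  linear_combination (p*y -p -y^2 -2*y +5) * hp

theorem DD_point_ne {p : ℂ} (hp : p ^ 2 - p + 2 = 0) : DD p (2 - p) ≠ 0 := by
  intro h
  unfold DD at h
  apply two_mul_sub_one_ne hp
  linear_combination (1 / 9) * h - (1 / 9) * (p^4 -11*p^3 +43*p^2 -71*p +35) * hp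

theorem DD_quad_ne {p x : ℂ} (hp : p ^ 2 - p + 2 = 0) (hx : x ^ 2 + p * x - 3 = 0) :
    DD p x ≠ 0 := by
  intro h
  unfold DD at h
  have h1 : (10 - 6 * p) * x + 7 * p = 0 := by
    linear_combination h - (p^4 -p^3*x +p^2*x^2 +5*p^2 -p*x^3 -2*p*x +x^4 +3*x^2 +9) * hx
      - (-p^3*x -p^2*x +3*p^2 -7*p*x +3*p -5*x +12) * hp
  -- multiply the quadratic by `(10 - 6 p)^2`
  have h2 : (3 * p - 2) * 63 = 0 := by
    linear_combination (10 - 6 * p) ^ 2 * hx - ((10 - 6 * p) * x - 7 * p + p * (10 - 6 * p)) * h1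
      + (87 - 42 * p) * hp
  have h3 : p = 2 / 3 := by linear_combination h2 / 189
  rw [h3] at hp
  norm_num at hp

theorem quad_ne {p x y : ℂ} (hp : p ^ 2 - p + 2 = 0) (hx : x ^ 2 + p * x - 3 = 0)
    (hy : y ^ 2 + (1 - p) * y - 3 = 0) : AA p x y ≠ 0 := by
  intro h
  unfold AA at h
  have h1 : (2 * p - 1) * (2 * x + 2 * y - x * y - 2) = 0 := by
    linear_combination h - (p*y -p +x) * hx - (p*x -p -x -y +1) * hy - (x - y) * hp
  have h2 : 2 * x + 2 * y - x * y - 2 = 0 :=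
    (mul_eq_zero.mp h1).resolve_left (two_mul_sub_one_ne hp)
  -- `X Y = 2` with `X = x - 2`, `Y = y - 2`
  have hX : (x - 2) ^ 2 + (4 + p) * (x - 2) + (1 + 2 * p) = 0 := by linear_combination hx
  have hY : (y - 2) ^ 2 + (5 - p) * (y - 2) + (3 - 2 * p) = 0 := by linear_combination hy
  have hXY : (x - 2) * (y - 2) = 2 := by linear_combination -h2
  have h3 : 4 + 2 * (5 - p) * (x - 2) + (3 - 2 * p) * (x - 2) ^ 2 = 0 := by
    linear_combination (x - 2) ^ 2 * hY - ((x - 2) * (y - 2) + 2 + (5 - p) * (x - 2)) * hXY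
  have h4 : (5 * p - 6) * (x - 2) = 7 := by
    linear_combination h3 - (3 - 2 * p) * hX - 2 * x * hp
  have h5 : (63 : ℂ) = 0 := by
    linear_combination -(5 * p - 6) ^ 2 * hX + ((5 * p - 6) * (x - 2) + 7 + (4 + p) * (5 * p - 6)) * h4
      + (50 * p - 10) * hp
  norm_num at h5

theorem exists_quad_roots {p : ℂ} (hp : p ^ 2 - p + 2 = 0) :
    ∃ x1 x2 : ℂ, x1 ^ 2 + p * x1 - 3 = 0 ∧ x2 ^ 2 + p * x2 - 3 = 0 ∧ x1 ≠ x2 := by
  obtain ⟨d, hd⟩ := IsAlgClosed.exists_pow_nat_eq (p ^ 2 + 12) (n := 2) (by norm_num)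
  refine ⟨(-p + d) / 2, (-p - d) / 2, by linear_combination hd / 4, by linear_combination hd / 4,
    fun h => ?_⟩
  have h1 : d = 0 := by linear_combination h
  rw [h1] at hd
  have h2 : p = -10 := by linear_combination -hd - hp
  rw [h2] at hp
  norm_num at hp

/-- If `y` is a simple preimage of the critical value `12`, then `y` is one of three points. -/
theorem simple_preimage {p : ℂ} (hp : p ^ 2 - p + 2 = 0) {y : ℂ}
    (h : FF (1 - p) y + (1 + I) = 12) (hd : DD (1 - p) y ≠ 0) :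
    y = 1 + p ∨ y ^ 2 + (1 - p) * y - 3 = 0 := by
  have hq : (1 - p) ^ 2 - (1 - p) + 2 = 0 := by linear_combination hp
  have h1 := FF_factor hq y
  rw [h, sub_self] at h1
  have h2 := DD_factor hq y
  have h3 : y ^ 2 + (1 - (1 - p)) * y + (1 - (1 - p)) ≠ 0 := by
    intro h3
    rw [h3, zero_mul] at h2
    exact hd h2
  rcases mul_eq_zero.mp h1.symm with h4 | h4
  · exact absurd (pow_eq_zero_iff (two_ne_zero) |>.mp h4) h3
  · rcases mul_eq_zero.mp h4 with h5 | h5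
    · left; linear_combination h5
    · right; exact h5

/-- There is a critical point with critical value `12 ω` for each cube root of unity `ω`. -/
theorem exists_crit {p : ℂ} (hp : p ^ 2 - p + 2 = 0) {w : ℂ} (hw : w ^ 3 = 1) :
    ∃ k, DD p k = 0 ∧ FF p k + (1 + I) = 12 * w := by
  obtain ⟨d, hd⟩ := IsAlgClosed.exists_pow_nat_eq ((1 - p) ^ 2 - 4 * (1 - p)) (n := 2) (by norm_num)
  set k := (-(1 - p) + d) / 2 with hk
  have hk2 : k ^ 2 + (1 - p) * k + (1 - p) = 0 := by rw [hk]; linear_combination hd / 4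
  have h1 := FF_factor hp k
  have h2 := DD_factor hp k
  rw [hk2] at h1 h2
  rw [zero_mul] at h2
  have h1' : FF p k + (1 + I) = 12 := by linear_combination h1
  refine ⟨w * k, ?_, ?_⟩
  · unfold DD at h2 ⊢
    linear_combination h2 + (k ^ 6 * (w ^ 3 + 1) + 4 * p * k ^ 3) * hw
  · unfold FF at h1' ⊢
    linear_combination w * h1' + (k ^ 7 * w * (w ^ 3 + 1) + 7 * p * k ^ 4 * w) * hw

end Pool.Agent.Steklov
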