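import Mathlib
import Pool.Agent.Steklov.Defs
import Pool.Agent.Steklov.Algebra
import Pool.Agent.Steklov.NonIsoAlg

/-!
# Holomorphic or antiholomorphic correspondences between the two sublevel sets do not exist
-/

set_option autoImplicit false

open Complex Metric Set
open scoped ComplexConjugate

namespace Pool.Agent.Steklov

/-! ### Critical values -/

theorem cube_cases {v : ℂ} (h : v ^ 3 = 1728) : v = 12 ∨ (v.re = -6 ∧ v.im ^ 2 = 108) := by
  have h1 : (v - 12) * (v ^ 2 + 12 * v + 144) = 0 := by linear_combination h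
  rcases mul_eq_zero.mp h1 with h2 | h2
  · left; linear_combination h2
  · right
    have hre := congrArg Complex.re h2
    have him := congrArg Complex.im h2
    simp [pow_two] at hre him
    have h3 : v.im * (2 * v.re + 12) = 0 := by linear_combination him
    rcases mul_eq_zero.mp h3 with h4 | h4
    · exfalso
      rw [h4] at hre
      nlinarith [sq_nonneg (v.re + 6)]
    · have h5 : v.re = -6 := by linarith
      rw [h5] at hre
      exact ⟨h5, by nlinarith⟩

theorem normSq_sub (v : ℂ) : normSq (v - (1 + I)) = (v.re - 1) ^ 2 + (v.im - 1) ^ 2 := by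
  simp [normSq_apply]; ring

theorem val_twelve {v : ℂ} (h : v ^ 3 = 1728) (hn : normSq (v - (1 + I)) = 122) : v = 12 := by
  rcases cube_cases h with h1 | ⟨h1, h2⟩
  · exact h1
  · exfalso
    rw [normSq_sub, h1] at hn
    have h3 : v.im = 18 := by nlinarith
    rw [h3] at h2
    norm_num at h2

theorem val_omega {v : ℂ} {s : ℝ} (hs : s ^ 2 = 3) (h : v ^ 3 = 1728)
    (hn : normSq (v - (1 + I)) = 49 + (6 * s - 1) ^ 2) : v.re = -6 ∧ v.im = 6 * s := by
  rcases cube_cases h with h1 | ⟨h1, h2⟩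
  · exfalso
    rw [normSq_sub, h1] at hn
    norm_num at hn
    have h3 : s = 3 := by nlinarith
    rw [h3] at hs
    norm_num at hs
  · rw [normSq_sub, h1] at hn
    exact ⟨h1, by nlinarith⟩

theorem delta_hol {δ : ℂ} (hδ : ‖δ‖ = 1) (h : (δ * (12 - (1 + I)) + (1 + I)) ^ 3 = 1728) :
    δ = 1 := by
  have hδ' : normSq δ = 1 := by rw [Complex.normSq_eq_norm_sq, hδ]; norm_num
  have h1 : δ * (12 - (1 + I)) + (1 + I) = 12 := by
    apply val_twelve h
    rw [add_sub_cancel_right, normSq_mul, hδ', normSq_sub]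
    norm_num
  have h2 : (δ - 1) * (12 - (1 + I)) = 0 := by linear_combination h1
  rcases mul_eq_zero.mp h2 with h3 | h3
  · linear_combination h3
  · exfalso
    have := congrArg Complex.im h3
    simp at this

theorem delta_antihol {δ : ℂ} (hδ : ‖δ‖ = 1) {s : ℝ} (hs : s ^ 2 = 3)
    (h : (δ * conj (12 - (1 + I)) + (1 + I)) ^ 3 = 1728)
    (h' : (δ * conj ((-6 + 6 * s * I) - (1 + I)) + (1 + I)) ^ 3 = 1728) : False := by
  have hδ' : normSq δ = 1 := by rw [Complex.normSq_eq_norm_sq, hδ]; norm_num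
  have h1 : δ * conj (12 - (1 + I)) + (1 + I) = 12 := by
    apply val_twelve h
    rw [add_sub_cancel_right, normSq_mul, hδ', normSq_conj, normSq_sub]
    norm_num
  have h2 := val_omega hs h' (by
    rw [add_sub_cancel_right, normSq_mul, hδ', normSq_conj, normSq_sub]
    simp
    norm_num)
  obtain ⟨h3, h4⟩ := h2
  have h5 := congrArg Complex.re h1
  have h6 := congrArg Complex.im h1
  simp at h3 h4 h5 h6
  have ha : δ.re = 60 / 61 := by linarith
  have hb : δ.im = -11 / 61 := by linarith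
  rw [ha, hb] at h3
  have h7 : s = 18 / 66 := by linarith
  rw [h7] at hs
  norm_num at hs

/-! ### Correspondences on the disc -/

theorem deriv_transfer {G1 G2 X Y : ℂ → ℂ} {δ z d1 d2 : ℂ} (hδ : δ ≠ 0)
    (hX : DifferentiableOn ℂ X (ball 0 1)) (hXi : InjOn X (ball 0 1))
    (hY : DifferentiableOn ℂ Y (ball 0 1)) (hYi : InjOn Y (ball 0 1))
    (h : ∀ z ∈ ball (0 : ℂ) 1, G2 (Y z) = δ * G1 (X z)) (hz : z ∈ ball (0 : ℂ) 1)
    (h1 : HasDerivAt G1 d1 (X z)) (h2 : HasDerivAt G2 d2 (Y z)) : d1 = 0 ↔ d2 = 0 := by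
  have hX' := Pool.Agent.Lib.Hurwitz.deriv_ne_zero_of_injOn isOpen_ball hX hXi hz
  have hY' := Pool.Agent.Lib.Hurwitz.deriv_ne_zero_of_injOn isOpen_ball hY hYi hz
  have hXd := (hX.differentiableAt (isOpen_ball.mem_nhds hz)).hasDerivAt
  have hYd := (hY.differentiableAt (isOpen_ball.mem_nhds hz)).hasDerivAt
  have e1 : HasDerivAt (fun z => G2 (Y z)) (d2 * deriv Y z) z := h2.comp z hYd
  have e2 : HasDerivAt (fun z => δ * G1 (X z)) (δ * (d1 * deriv X z)) z :=
    (h1.comp z hXd).const_mul δ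
  have e3 : (fun z => G2 (Y z)) =ᶠ[nhds z] fun z => δ * G1 (X z) := by
    filter_upwards [isOpen_ball.mem_nhds hz] with w hw using h w hw
  have e4 : d2 * deriv Y z = δ * (d1 * deriv X z) :=
    (e1.congr_of_eventuallyEq e3.symm).unique e2
  constructor
  · intro h0
    rw [h0, zero_mul, mul_zero] at e4
    exact (mul_eq_zero.mp e4).resolve_right hY'
  · intro h0
    rw [h0, zero_mul] at e4
    exact (mul_eq_zero.mp ((mul_eq_zero.mp e4.symm).resolve_left hδ)).resolve_right hX'

theorem crit_value {p : ℂ} (hp : p ^ 2 - p + 2 = 0) {G1 X Y : ℂ → ℂ} {δ : ℂ} (hδ : δ ≠ 0)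
    (hX : DifferentiableOn ℂ X (ball 0 1)) (hXi : InjOn X (ball 0 1))
    (hY : DifferentiableOn ℂ Y (ball 0 1)) (hYi : InjOn Y (ball 0 1))
    (h : ∀ z ∈ ball (0 : ℂ) 1, FF (1 - p) (Y z) = δ * G1 (X z))
    (hXs : ∀ x, ‖G1 x‖ < RR → ∃ z ∈ ball (0 : ℂ) 1, X z = x)
    {k : ℂ} (hk : ‖G1 k‖ < RR) (hd : HasDerivAt G1 0 k) :
    (δ * G1 k + (1 + I)) ^ 3 = 1728 := by
  obtain ⟨z, hz, rfl⟩ := hXs k hk
  have h1 := deriv_transfer hδ hX hXi hY hYi h hz hd (hasDerivAt_FF (1 - p) (Y z))
  have h2 : DD (1 - p) (Y z) = 0 := by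
    have := h1.mp rfl
    simpa using this
  rw [← h z hz]
  exact cube_of_DD (by linear_combination hp) h2

theorem norm_lt_RR {v : ℂ} (hv : ‖v‖ ≤ 100) : ‖v‖ < RR := by
  unfold RR
  refine lt_of_le_of_lt hv (by norm_num)

theorem norm_one_add_I_le : ‖(1 + I : ℂ)‖ ≤ 2 := by
  calc ‖(1 + I : ℂ)‖ ≤ ‖(1:ℂ)‖ + ‖I‖ := norm_add_le _ _
    _ = 2 := by simp; norm_num

/-- the antiholomorphic case -/
theorem no_antihol {p : ℂ} (hp : p ^ 2 - p + 2 = 0) {X Y : ℂ → ℂ} {δ : ℂ} (hδ : ‖δ‖ = 1)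
    (hX : DifferentiableOn ℂ X (ball 0 1)) (hXi : InjOn X (ball 0 1))
    (hY : DifferentiableOn ℂ Y (ball 0 1)) (hYi : InjOn Y (ball 0 1))
    (hXs : ∀ x, ‖conj (FF p (conj x))‖ < RR → ∃ z ∈ ball (0 : ℂ) 1, X z = x)
    (h : ∀ z ∈ ball (0 : ℂ) 1, FF (1 - p) (Y z) = δ * conj (FF p (conj (X z)))) : False := by
  have hδ0 : δ ≠ 0 := by
    intro h0
    rw [h0] at hδ
    simp at hδ
  obtain ⟨s, hs⟩ : ∃ s : ℝ, s ^ 2 = 3 := ⟨√3, by norm_num⟩
  have key : ∀ w : ℂ, w ^ 3 = 1 → (δ * conj (12 * w - (1 + I)) + (1 + I)) ^ 3 = 1728 := by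
    intro w hw
    obtain ⟨k, hk1, hk2⟩ := exists_crit hp hw
    have hk3 : FF p k = 12 * w - (1 + I) := by linear_combination hk2
    have hwn : ‖w‖ = 1 := by
      have := congrArg norm hw
      rw [norm_pow, norm_one] at this
      exact (pow_eq_one_iff_of_nonneg (norm_nonneg _) (by norm_num)).mp this
    have h1 := crit_value (G1 := fun x => conj (FF p (conj x))) hp hδ0 hX hXi hY hYi h hXs
      (k := conj k) (by
        simp only [Complex.conj_conj, RCLike.norm_conj]
        apply norm_lt_RR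
        rw [hk3]
        calc ‖12 * w - (1 + I)‖ ≤ ‖12 * w‖ + ‖(1 + I : ℂ)‖ := norm_sub_le _ _
          _ ≤ 12 + 2 := by
            rw [norm_mul, hwn]
            have := norm_one_add_I_le
            simp only [Complex.norm_ofNat]
            linarith
          _ ≤ 100 := by norm_num) (by
        have := (hasDerivAt_FF p k).conj_conj
        rw [hk1] at this
        simpa [Function.comp_def] using this)
    simpa only [Complex.conj_conj, hk3] using h1
  have k1 := key 1 (by norm_num)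
  have k2 := key ((-1 / 2 : ℂ) + s / 2 * I) (by
    have hsc : (s : ℂ) ^ 2 = 3 := by exact_mod_cast hs
    have hI : I ^ 2 = -1 := I_sq
    linear_combination ((3 / 8 : ℂ) + (s : ℂ) / 8 * I * I ^ 2) * hsc
      + (-(3 / 8 : ℂ) * (s : ℂ) ^ 2 + 3 / 8 * s * I) * hI)
  rw [mul_one] at k1
  refine delta_antihol hδ hs k1 ?_
  have e : (12 : ℂ) * ((-1 / 2 : ℂ) + s / 2 * I) = -6 + 6 * s * I := by ring
  rwa [e] at k2

/-- the holomorphic case -/
theorem no_hol {p : ℂ} (hp : p ^ 2 - p + 2 = 0) {X Y : ℂ → ℂ} {δ : ℂ} (hδ : ‖δ‖ = 1)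
    (hX : DifferentiableOn ℂ X (ball 0 1)) (hXi : InjOn X (ball 0 1))
    (hY : DifferentiableOn ℂ Y (ball 0 1)) (hYi : InjOn Y (ball 0 1))
    (hXs : ∀ x, ‖FF p x‖ < RR → ∃ z ∈ ball (0 : ℂ) 1, X z = x)
    (h : ∀ z ∈ ball (0 : ℂ) 1, FF (1 - p) (Y z) = δ * FF p (X z)) : False := by
  have hδ0 : δ ≠ 0 := by
    intro h0
    rw [h0] at hδ
    simp at hδ
  have hn12 : ‖(12 : ℂ) - (1 + I)‖ < RR := by
    apply norm_lt_RR
    calc ‖(12 : ℂ) - (1 + I)‖ ≤ ‖(12 : ℂ)‖ + ‖(1 + I : ℂ)‖ := norm_sub_le _ _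
      _ ≤ 100 := by
        have := norm_one_add_I_le
        simp only [Complex.norm_ofNat]
        linarith
  -- the unimodular constant is `1`
  have hδ1 : δ = 1 := by
    obtain ⟨k, hk1, hk2⟩ := exists_crit hp (w := 1) (by norm_num)
    have hk3 : FF p k = 12 - (1 + I) := by linear_combination hk2
    have h1 := crit_value (G1 := FF p) hp hδ0 hX hXi hY hYi h hXs (k := k) (by rwa [hk3]) (by
        have := hasDerivAt_FF p k
        rw [hk1] at this
        simpa using this)
    rw [hk3] at h1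
    exact delta_hol hδ h1
  subst hδ1
  -- simple preimages of `12` go to simple preimages of `12`
  have hsimple : ∀ k, FF p k + (1 + I) = 12 → DD p k ≠ 0 → ∃ z ∈ ball (0 : ℂ) 1, X z = k ∧
      FF (1 - p) (Y z) = FF p k ∧ (Y z = 1 + p ∨ Y z ^ 2 + (1 - p) * Y z - 3 = 0) := by
    intro k hk hd
    have hk3 : FF p k = 12 - (1 + I) := by linear_combination hk
    obtain ⟨z, hz, hzk⟩ := hXs k (by rwa [hk3])
    have h1 := h z hz
    rw [one_mul, hzk] at h1
    refine ⟨z, hz, hzk, h1, ?_⟩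
    have h2 := deriv_transfer hδ0 hX hXi hY hYi h hz (hasDerivAt_FF p (X z))
      (hasDerivAt_FF (1 - p) (Y z))
    apply simple_preimage hp
    · rw [h1, hk3]; ring
    · intro h3
      rw [h3, mul_zero, hzk] at h2
      exact hd (by simpa using h2.mpr rfl)
  -- one of the two factors vanishes identically
  have hprod : ∀ z ∈ ball (0 : ℂ) 1, AA p (X z) (Y z) * CC p (X z) (Y z) = 0 := by
    intro z hz
    rw [← FF_sub hp, h z hz]
    ring
  have hXa : AnalyticOnNhd ℂ X (ball 0 1) := hX.analyticOnNhd isOpen_ball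
  have hYa : AnalyticOnNhd ℂ Y (ball 0 1) := hY.analyticOnNhd isOpen_ball
  have hAd : DifferentiableOn ℂ (fun z => AA p (X z) (Y z)) (ball 0 1) := by
    unfold AA
    fun_prop
  have hCd : DifferentiableOn ℂ (fun z => CC p (X z) (Y z)) (ball 0 1) := by
    unfold CC
    fun_prop
  rcases AnalyticOnNhd.eq_zero_or_eq_zero_of_mul_eq_zero (hAd.analyticOnNhd isOpen_ball)
    (hCd.analyticOnNhd isOpen_ball) hprod (convex_ball (0 : ℂ) 1).isPreconnected with h0 | h0
  · -- the incidence factor vanishes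
    obtain ⟨x1, x2, hx1, hx2, hne⟩ := exists_quad_roots hp
    have hval : ∀ x, x ^ 2 + p * x - 3 = 0 → ∃ z ∈ ball (0 : ℂ) 1, X z = x ∧ Y z = 1 + p := by
      intro x hx
      have hx' : FF p x + (1 + I) = 12 := by
        have := FF_factor hp x
        rw [hx] at this
        linear_combination this
      obtain ⟨z, hz, hzx, -, hy⟩ := hsimple x hx' (DD_quad_ne hp hx)
      refine ⟨z, hz, hzx, ?_⟩
      rcases hy with hy | hy
      · exact hy
      · exfalso
        have := h0 z hz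
        simp only [hzx] at this
        exact quad_ne hp hx hy this
    obtain ⟨z1, hz1, hz1x, hz1y⟩ := hval x1 hx1
    obtain ⟨z2, hz2, hz2x, hz2y⟩ := hval x2 hx2
    have : z1 = z2 := hYi hz1 hz2 (by rw [hz1y, hz2y])
    apply hne
    rw [← hz1x, ← hz2x, this]
  · -- the complementary factor vanishes
    have hx' : FF p (2 - p) + (1 + I) = 12 := by
      have := FF_factor hp (2 - p)
      linear_combination this
    obtain ⟨z, hz, hzx, -, hy⟩ := hsimple (2 - p) hx' (DD_point_ne hp)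
    have hA0 : AA p (2 - p) (Y z) = 0 := by
      rw [AA_point hp]
      rcases hy with hy | hy
      · rw [hy]; ring
      · rw [hy]; ring
    have hC0 : CC p (2 - p) (Y z) = 0 := by
      have := h0 z hz
      simpa only [hzx] using this
    have hA : DifferentiableAt ℂ (fun x => AA p x (Y z)) (2 - p) := by
      unfold AA
      fun_prop
    have hC : DifferentiableAt ℂ (fun x => CC p x (Y z)) (2 - p) := by
      unfold CC
      fun_prop
    have hAC := hA.hasDerivAt.mul hC.hasDerivAt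
    simp only [hA0, hC0, mul_zero, zero_mul, add_zero] at hAC
    have hF : HasDerivAt (fun x => FF p x - FF (1 - p) (Y z)) (7 * DD p (2 - p)) (2 - p) :=
      (hasDerivAt_FF p (2 - p)).sub_const _
    have hF' : (fun x => FF p x - FF (1 - p) (Y z)) =
        (fun x => AA p x (Y z)) * (fun x => CC p x (Y z)) := by
      funext x
      exact FF_sub hp x (Y z)
    rw [hF'] at hF
    have := hF.unique hAC
    exact DD_point_ne hp (by simpa using this)

end Pool.Agent.Steklov
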