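import Mathlib
import Pool.Agent.Steklov.Defs
import Pool.Agent.Steklov.NonIsoVal

/-!
# The two plane domains are not isometric
-/

set_option autoImplicit false

open Complex Metric Set
open scoped ComplexConjugate
open Pool.Agent.Lib.RiemannMapping (mob)
open Pool.Agent.Lib

namespace Pool.Agent.Steklov

/-! ### Blaschke products on the unit circle -/

theorem norm_sub_eq_norm_den (w : ℂ) {z : ℂ} (hz : ‖z‖ = 1) : ‖z - w‖ = ‖1 - conj w * z‖ := by
  have h := RiemannMapping.sq_norm_den_sub_sq_norm_num w z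
  rw [hz] at h
  have h1 : ‖1 - conj w * z‖ ^ 2 = ‖z - w‖ ^ 2 := by linarith
  exact ((pow_left_inj₀ (norm_nonneg _) (norm_nonneg _) two_ne_zero).mp h1).symm

theorem norm_mob_circle {w z : ℂ} (hw : ‖w‖ < 1) (hz : ‖z‖ = 1) : ‖mob w z‖ = 1 := by
  have h1 := RiemannMapping.mob_den_ne_zero hw hz.le
  rw [mob, norm_div, norm_sub_eq_norm_den w hz]
  exact div_self (norm_ne_zero_iff.mpr h1)

theorem norm_mob_le {w z : ℂ} (hw : ‖w‖ < 1) (hz : ‖z‖ ≤ 1) : ‖mob w z‖ ≤ 1 := by
  rcases hz.lt_or_eq with h | h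
  · exact (RiemannMapping.norm_mob_lt_one hw h).le
  · exact (norm_mob_circle hw h).le

/-- the Poisson kernel -/
noncomputable def PK (w z : ℂ) : ℝ := (1 - ‖w‖ ^ 2) / ‖z - w‖ ^ 2

theorem PK_nonneg {w : ℂ} (hw : ‖w‖ < 1) (z : ℂ) : 0 ≤ PK w z := by
  unfold PK
  apply div_nonneg _ (by positivity)
  nlinarith [norm_nonneg w]

theorem mul_deriv_mob {w z : ℂ} (hw : ‖w‖ < 1) (hz : ‖z‖ = 1) :
    z * ((1 - (‖w‖ : ℂ) ^ 2) / (1 - conj w * z) ^ 2) = PK w z * mob w z := by
  have h1 := RiemannMapping.mob_den_ne_zero hw hz.le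
  have h2 : z - w ≠ 0 := by
    rw [← norm_ne_zero_iff, norm_sub_eq_norm_den w hz, norm_ne_zero_iff]
    exact h1
  have h3 : (1 - conj w * z) = z * conj (z - w) := by
    have : z * conj z = 1 := by
      rw [Complex.mul_conj, Complex.normSq_eq_norm_sq, hz]; norm_num
    rw [map_sub]
    linear_combination -this
  have h4 : ((‖z - w‖ : ℂ)) ^ 2 = (z - w) * conj (z - w) := by
    rw [Complex.mul_conj, Complex.normSq_eq_norm_sq]
    push_cast
    ring
  have h5 : conj (z - w) ≠ 0 := by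
    rw [Ne, map_eq_zero]; exact h2
  have h6 : z ≠ 0 := by
    rw [← norm_ne_zero_iff, hz]; exact one_ne_zero
  unfold PK mob
  push_cast
  rw [h4, h3]
  field_simp

theorem hasDerivAt_Bl {u : ℂ} {a : Fin 7 → ℂ} (ha : ∀ j, ‖a j‖ < 1) {z : ℂ} (hz : ‖z‖ ≤ 1) :
    HasDerivAt (Bl u a) (u * ∑ i, (∏ j ∈ Finset.univ.erase i, mob (a j) z) *
      ((1 - (‖a i‖ : ℂ) ^ 2) / (1 - conj (a i) * z) ^ 2)) z := by
  have h1 : HasDerivAt (fun z => ∏ j, mob (a j) z) (∑ i, (∏ j ∈ Finset.univ.erase i, mob (a j) z) •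
      ((1 - (‖a i‖ : ℂ) ^ 2) / (1 - conj (a i) * z) ^ 2)) z :=
    HasDerivAt.fun_finsetProd fun j _ => RiemannMapping.hasDerivAt_mob (ha j) hz
  simp only [smul_eq_mul] at h1
  exact h1.const_mul u

theorem norm_Bl_circle {u : ℂ} {a : Fin 7 → ℂ} (hu : ‖u‖ = 1) (ha : ∀ j, ‖a j‖ < 1) {z : ℂ}
    (hz : ‖z‖ = 1) : ‖Bl u a z‖ = 1 := by
  unfold Bl
  rw [norm_mul, hu, norm_prod, one_mul]
  exact Finset.prod_eq_one fun j _ => norm_mob_circle (ha j) hz

theorem mul_deriv_Bl {u : ℂ} {a : Fin 7 → ℂ} (ha : ∀ j, ‖a j‖ < 1) {z : ℂ}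
    (hz : ‖z‖ = 1) : z * deriv (Bl u a) z = ((∑ j, PK (a j) z : ℝ) : ℂ) * Bl u a z := by
  rw [(hasDerivAt_Bl ha hz.le).deriv]
  unfold Bl
  push_cast
  rw [Finset.sum_mul, mul_left_comm, Finset.mul_sum, Finset.mul_sum]
  apply Finset.sum_congr rfl
  intro i _
  rw [← Finset.mul_prod_erase _ _ (Finset.mem_univ i), mul_left_comm z, mul_deriv_mob (ha i) hz]
  ring

theorem norm_deriv_Bl {u : ℂ} {a : Fin 7 → ℂ} {c : Fin 6 → ℂ} {κ : ℝ} (hu : ‖u‖ = 1) {z : ℂ}
    (hz : ‖z‖ = 1) (hd : HasDerivAt (Bl u a)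
      (u * κ * ((∏ j, (z - c j)) * (∏ j, (1 - conj (c j) * z))) /
        (∏ j, (1 - conj (a j) * z)) ^ 2) z) :
    ‖deriv (Bl u a) z‖ = ‖(κ : ℂ) * dpsi a c z‖ := by
  rw [hd.deriv]
  unfold dpsi
  rw [norm_div, norm_mul, norm_mul, norm_mul, hu, norm_prod, norm_prod, norm_mul, norm_div,
    norm_pow, norm_prod, norm_pow, norm_prod]
  have h1 : ∀ j, ‖z - c j‖ = ‖1 - conj (c j) * z‖ := fun j => norm_sub_eq_norm_den _ hz
  simp only [h1]
  ring

/-- The main analytic step: a direct similarity between the two domains gives a disc automorphism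
relating the two Blaschke products. -/
theorem core {u1 u2 : ℂ} {a1 a2 : Fin 7 → ℂ} {c1 c2 : Fin 6 → ℂ} {κ1 κ2 : ℝ}
    (ha1 : ∀ j, ‖a1 j‖ < 1) (ha2 : ∀ j, ‖a2 j‖ < 1) (hu1 : ‖u1‖ = 1) (hu2 : ‖u2‖ = 1)
    (hd1 : ∀ z, ‖z‖ < 2 → HasDerivAt (Bl u1 a1)
      (u1 * κ1 * ((∏ j, (z - c1 j)) * (∏ j, (1 - conj (c1 j) * z))) /
        (∏ j, (1 - conj (a1 j) * z)) ^ 2) z)
    (hd2 : ∀ z, ‖z‖ < 2 → HasDerivAt (Bl u2 a2)
      (u2 * κ2 * ((∏ j, (z - c2 j)) * (∏ j, (1 - conj (c2 j) * z))) /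
        (∏ j, (1 - conj (a2 j) * z)) ^ 2) z)
    {ψ1 ψ2 : ℂ → ℂ}
    (h1 : ∀ z, ‖z‖ < 2 → HasDerivAt ψ1 (κ1 * dpsi a1 c1 z) z) (hi1 : InjOn ψ1 (ball 0 2))
    (h2 : ∀ z, ‖z‖ < 2 → HasDerivAt ψ2 (κ2 * dpsi a2 c2 z) z) (hi2 : InjOn ψ2 (ball 0 2))
    {lam mu : ℂ} (hlam : ‖lam‖ = 1)
    (himg : (fun z => lam * z + mu) '' (ψ1 '' ball 0 1) = ψ2 '' ball 0 1) :
    ∃ w c δ : ℂ, ‖w‖ < 1 ∧ ‖c‖ = 1 ∧ ‖δ‖ = 1 ∧
      ∀ z ∈ ball (0 : ℂ) 1, Bl u2 a2 (c * mob w z) = δ * Bl u1 a1 z := by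
  have hlam0 : lam ≠ 0 := by
    intro h0
    rw [h0] at hlam
    simp at hlam
  have hψ1 : DifferentiableOn ℂ ψ1 (ball 0 2) := fun z hz =>
    (h1 z (by simpa using hz)).differentiableAt.differentiableWithinAt
  have hψ2 : DifferentiableOn ℂ ψ2 (ball 0 2) := fun z hz =>
    (h2 z (by simpa using hz)).differentiableAt.differentiableWithinAt
  have hsub : ball (0 : ℂ) 1 ⊆ ball 0 2 := ball_subset_ball (by norm_num)
  -- the conjugated map of the disc
  obtain ⟨g, hg, hginj, hgimg, hgψ, hψg, -⟩ :=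
    Hurwitz.exists_inverse isOpen_ball (hψ2.mono hsub) (hi2.mono hsub)
  have hmap : MapsTo (fun z => lam * ψ1 z + mu) (ball 0 1) (ψ2 '' ball 0 1) := by
    intro z hz
    rw [← himg]
    exact ⟨ψ1 z, ⟨z, hz, rfl⟩, rfl⟩
  obtain ⟨w, c, hw, hc, hT⟩ := RiemannMapping.exists_eq_mul_mob
    (f := fun z => g (lam * ψ1 z + mu))
    (hg.comp (((hψ1.mono hsub).const_mul lam).add_const mu) hmap)
    (by
      intro x hx y hy hxy
      have := hginj (hmap hx) (hmap hy) hxy
      simp only at this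
      have h3 : lam * (ψ1 x - ψ1 y) = 0 := by linear_combination this
      have h4 := (mul_eq_zero.mp h3).resolve_left hlam0
      exact hi1 (hsub hx) (hsub hy) (sub_eq_zero.mp h4))
    (by
      have : (fun z => g (lam * ψ1 z + mu)) '' ball 0 1 =
          g '' ((fun z => lam * z + mu) '' (ψ1 '' ball 0 1)) := by
        rw [image_image, image_image]
      rw [this, himg, hgimg])
  have hrel : ∀ z ∈ ball (0 : ℂ) 1, ψ2 (c * mob w z) = lam * ψ1 z + mu := by
    intro z hz
    rw [← hT z hz]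
    exact hψg _ (hmap hz)
  -- the automorphism and its derivative on the closed disc
  set T' : ℂ → ℂ := fun z => c * ((1 - (‖w‖ : ℂ) ^ 2) / (1 - conj w * z) ^ 2) with hT'
  have hTd : ∀ z, ‖z‖ ≤ 1 → HasDerivAt (fun z => c * mob w z) (T' z) z := fun z hz =>
    (RiemannMapping.hasDerivAt_mob hw hz).const_mul c
  have hTn : ∀ z, ‖z‖ ≤ 1 → ‖c * mob w z‖ ≤ 1 := fun z hz => by
    rw [norm_mul, hc, one_mul]; exact norm_mob_le hw hz
  have hTn1 : ∀ z, ‖z‖ = 1 → ‖c * mob w z‖ = 1 := fun z hz => by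
    rw [norm_mul, hc, one_mul]; exact norm_mob_circle hw hz
  have hTc : ContinuousOn (fun z => c * mob w z) (closedBall 0 1) := fun z hz =>
    (hTd z (by simpa using hz)).continuousAt.continuousWithinAt
  -- derivatives of the relation
  have hder : EqOn (fun z => deriv ψ2 (c * mob w z) * T' z) (fun z => lam * deriv ψ1 z)
      (ball 0 1) := by
    intro z hz
    have hz1 : ‖z‖ < 1 := by simpa using hz
    have e1 := (h2 (c * mob w z) (by linarith [hTn z hz1.le])).differentiableAt.hasDerivAt.comp z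
      (hTd z hz1.le)
    have e2 := ((h1 z (by linarith)).differentiableAt.hasDerivAt.const_mul lam).add_const mu
    have e3 : (ψ2 ∘ fun z => c * mob w z) =ᶠ[nhds z] fun z => lam * ψ1 z + mu := by
      filter_upwards [isOpen_ball.mem_nhds hz] with x hx using hrel x hx
    exact (e1.congr_of_eventuallyEq e3.symm).unique e2
  have hderc : EqOn (fun z => deriv ψ2 (c * mob w z) * T' z) (fun z => lam * deriv ψ1 z)
      (closedBall 0 1) := by
    apply hder.of_subset_closure _ _ ball_subset_closedBall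
      (by rw [closure_ball (0:ℂ) one_ne_zero])
    · apply ContinuousOn.mul
      · refine ((hψ2.deriv isOpen_ball).continuousOn.comp hTc ?_)
        intro z hz
        rw [mem_ball_zero_iff]
        linarith [hTn z (by simpa using hz)]
      · apply ContinuousOn.mul continuousOn_const
        apply ContinuousOn.div continuousOn_const (by fun_prop)
        intro z hz
        exact pow_ne_zero 2 (RiemannMapping.mob_den_ne_zero hw (by simpa using hz))
    · exact continuousOn_const.mul ((hψ1.deriv isOpen_ball).continuousOn.mono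
        (closedBall_subset_ball (by norm_num)))
  -- the moduli of the derivatives of the two Blaschke products
  have hmod : ∀ z, ‖z‖ = 1 → ‖deriv (Bl u2 a2) (c * mob w z) * T' z‖ = ‖deriv (Bl u1 a1) z‖ := by
    intro z hz
    have e := hderc (by simpa using hz.le : z ∈ closedBall (0:ℂ) 1)
    simp only at e
    rw [norm_mul, norm_deriv_Bl hu2 (hTn1 z hz) (hd2 _ (by rw [hTn1 z hz]; norm_num)),
      norm_deriv_Bl hu1 hz (hd1 _ (by rw [hz]; norm_num)),
      ← (h2 _ (by rw [hTn1 z hz]; norm_num)).deriv, ← (h1 _ (by rw [hz]; norm_num)).deriv,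
      ← norm_mul, e, norm_mul, hlam, one_mul]
  set Bt : ℂ → ℂ := fun z => Bl u2 a2 (c * mob w z) with hBt
  have hBtd : ∀ z, ‖z‖ ≤ 1 → HasDerivAt Bt (deriv (Bl u2 a2) (c * mob w z) * T' z) z := by
    intro z hz
    exact HasDerivAt.comp (h := fun z => c * mob w z) (h₂ := Bl u2 a2) z
      (hasDerivAt_Bl ha2 (hTn z hz)).differentiableAt.hasDerivAt (hTd z hz)
  have hB1d : ∀ z, ‖z‖ ≤ 1 → HasDerivAt (Bl u1 a1) (deriv (Bl u1 a1) z) z := fun z hz =>
    (hasDerivAt_Bl ha1 hz).differentiableAt.hasDerivAt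
  -- logarithmic derivatives on the circle
  have hlog : ∀ z, ‖z‖ = 1 → ∃ S : ℝ, z * (deriv (Bl u2 a2) (c * mob w z) * T' z) = S * Bt z ∧
      z * deriv (Bl u1 a1) z = S * Bl u1 a1 z := by
    intro z hz
    have e1 : z * (deriv (Bl u2 a2) (c * mob w z) * T' z) =
        ((PK w z * ∑ j, PK (a2 j) (c * mob w z) : ℝ) : ℂ) * Bt z := by
      have e2 := mul_deriv_Bl (u := u2) ha2 (hTn1 z hz)
      have e3 := mul_deriv_mob hw hz
      rw [hT', hBt]
      simp only
      push_cast at e2 ⊢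
      linear_combination (PK w z : ℂ) * e2 + deriv (Bl u2 a2) (c * mob w z) * c * e3
    have e4 := mul_deriv_Bl (u := u1) ha1 hz
    have hn1 := congrArg norm e1
    have hn4 := congrArg norm e4
    rw [norm_mul z, hz, one_mul, hmod z hz, norm_mul, hBt] at hn1
    simp only at hn1
    rw [norm_Bl_circle hu2 ha2 (hTn1 z hz), mul_one, Complex.norm_real, Real.norm_of_nonneg
      (mul_nonneg (PK_nonneg hw z) (Finset.sum_nonneg fun j _ => PK_nonneg (ha2 j) _))] at hn1
    rw [norm_mul, norm_mul, hz, one_mul, norm_Bl_circle hu1 ha1 hz, mul_one, Complex.norm_real,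
      Real.norm_of_nonneg (Finset.sum_nonneg fun j _ => PK_nonneg (ha1 j) _)] at hn4
    refine ⟨∑ j, PK (a1 j) z, ?_, e4⟩
    rw [← hn4, hn1]
    exact e1
  -- the quotient is constant on the circle
  have hexp : ∀ θ : ℝ, ‖exp (θ * I)‖ = 1 := fun θ => Complex.norm_exp_ofReal_mul_I θ
  have hB1ne : ∀ z, ‖z‖ = 1 → Bl u1 a1 z ≠ 0 := by
    intro z hz
    rw [← norm_ne_zero_iff, norm_Bl_circle hu1 ha1 hz]
    exact one_ne_zero
  have hquot : ∀ θ : ℝ, HasDerivAt (fun θ : ℝ => Bt (exp (θ * I)) / Bl u1 a1 (exp (θ * I))) 0 θ := by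
    intro θ
    have he : HasDerivAt (fun θ : ℝ => exp (θ * I)) (exp (θ * I) * I) θ := by
      have := ((hasDerivAt_id (θ : ℂ)).mul_const I).cexp.comp_ofReal
      simpa using this
    have q1 := (hBtd _ (hexp θ).le).comp θ he
    have q2 := (hB1d _ (hexp θ).le).comp θ he
    have q3 := q1.div q2 (hB1ne _ (hexp θ))
    obtain ⟨S, hS1, hS2⟩ := hlog _ (hexp θ)
    refine q3.congr_deriv ?_
    rw [div_eq_zero_iff]
    left
    simp only [Function.comp_apply]
    linear_combination I * Bl u1 a1 (exp (θ * I)) * hS1 - I * Bt (exp (θ * I)) * hS2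
  have hconst : ∀ θ : ℝ, Bt (exp (θ * I)) / Bl u1 a1 (exp (θ * I)) =
      Bt (exp ((0:ℝ) * I)) / Bl u1 a1 (exp ((0:ℝ) * I)) := fun θ =>
    is_const_of_deriv_eq_zero (fun θ => (hquot θ).differentiableAt) (fun θ => (hquot θ).deriv) θ 0
  set δ := Bt (exp ((0:ℝ) * I)) / Bl u1 a1 (exp ((0:ℝ) * I)) with hδ
  have hcirc : ∀ z, ‖z‖ = 1 → Bt z = δ * Bl u1 a1 z := by
    intro z hz
    have hz' : exp ((arg z : ℝ) * I) = z := by
      have := Complex.norm_mul_exp_arg_mul_I z
      rwa [hz, ofReal_one, one_mul] at this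
    have := hconst (arg z)
    rw [hz', div_eq_iff (hB1ne z hz)] at this
    exact this
  refine ⟨w, c, δ, hw, hc, ?_, ?_⟩
  · have := congrArg norm (hcirc 1 (by simp))
    rw [norm_mul, norm_Bl_circle hu1 ha1 (by simp), mul_one, hBt] at this
    simp only at this
    rw [norm_Bl_circle hu2 ha2 (hTn1 1 (by simp))] at this
    exact this.symm
  · have hcl : closure (ball (0:ℂ) 1) = closedBall 0 1 := closure_ball (0:ℂ) one_ne_zero
    have := Complex.eqOn_of_eqOn_frontier (f := Bt) (g := fun z => δ * Bl u1 a1 z)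
      (U := ball (0:ℂ) 1) isBounded_ball
      (DifferentiableOn.diffContOnCl (by
        rw [hcl]
        exact fun z hz => (hBtd z (by simpa using hz)).differentiableAt.differentiableWithinAt))
      (DifferentiableOn.diffContOnCl (by
        rw [hcl]
        exact fun z hz =>
          ((hB1d z (by simpa using hz)).const_mul δ).differentiableAt.differentiableWithinAt))
      (by
        rw [frontier_ball (0:ℂ) one_ne_zero]
        intro z hz
        exact hcirc z (by simpa using hz))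
    exact this

/-! ### Complex conjugation -/

theorem mob_conj (w z : ℂ) : mob (conj w) z = conj (mob w (conj z)) := by
  unfold mob
  simp

theorem Bl_conj (u : ℂ) (a : Fin 7 → ℂ) (z : ℂ) :
    Bl (conj u) (fun j => conj (a j)) z = conj (Bl u a (conj z)) := by
  unfold Bl
  simp [mob_conj]

theorem dpsi_conj (a : Fin 7 → ℂ) (c : Fin 6 → ℂ) (z : ℂ) :
    dpsi (fun j => conj (a j)) (fun j => conj (c j)) z = conj (dpsi a c (conj z)) := by
  unfold dpsi
  simp

theorem exists_affine (e : ℂ ≃ᵢ ℂ) : ∃ lam mu : ℂ, ‖lam‖ = 1 ∧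
    ((∀ z, e z = lam * z + mu) ∨ ∀ z, e z = lam * conj z + mu) := by
  obtain ⟨a, ha⟩ := linear_isometry_complex e.toRealLinearIsometryEquiv
  refine ⟨a, e 0, Circle.norm_coe a, ?_⟩
  rcases ha with ha | ha
  · left
    intro z
    have := congrArg (fun f : ℂ ≃ₗᵢ[ℝ] ℂ => f z) ha
    simp only [IsometryEquiv.toRealLinearIsometryEquiv_apply, rotation_apply] at this
    linear_combination this
  · right
    intro z
    have := congrArg (fun f : ℂ ≃ₗᵢ[ℝ] ℂ => f z) ha
    simp only [IsometryEquiv.toRealLinearIsometryEquiv_apply, LinearIsometryEquiv.trans_apply,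
      rotation_apply, Complex.conjLIE_apply] at this
    linear_combination this

theorem mul_mob_facts {w c : ℂ} (hw : ‖w‖ < 1) (hc : ‖c‖ = 1) :
    DifferentiableOn ℂ (fun z => c * mob w z) (ball 0 1) ∧
    MapsTo (fun z => c * mob w z) (ball 0 1) (ball 0 1) ∧
    InjOn (fun z => c * mob w z) (ball 0 1) := by
  refine ⟨((RiemannMapping.differentiableOn_mob hw).mono ball_subset_closedBall).const_mul c,
    fun z hz => ?_, fun x hx y hy hxy => ?_⟩
  · rw [mem_ball_zero_iff] at hz ⊢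
    rw [norm_mul, hc, one_mul]
    exact RiemannMapping.norm_mob_lt_one hw hz
  · have hc0 : c ≠ 0 := by
      rw [← norm_ne_zero_iff, hc]; exact one_ne_zero
    exact RiemannMapping.mob_injOn hw hx hy (mul_left_cancel₀ hc0 hxy)

theorem not_isometric {p : ℂ} (hp : p ^ 2 - p + 2 = 0) (m1 : BModel (FF p))
    (m2 : BModel (FF (1 - p))) {ψ1 ψ2 : ℂ → ℂ}
    (h1 : ∀ z, ‖z‖ < 2 → HasDerivAt ψ1 (m1.κ * dpsi m1.a m1.c z) z) (hi1 : InjOn ψ1 (ball 0 2))
    (h2 : ∀ z, ‖z‖ < 2 → HasDerivAt ψ2 (m2.κ * dpsi m2.a m2.c z) z) (hi2 : InjOn ψ2 (ball 0 2)) :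
    ¬ ∃ e : ℂ ≃ᵢ ℂ, e '' (ψ1 '' ball 0 1) = ψ2 '' ball 0 1 := by
  rintro ⟨e, he⟩
  have ha1 : ∀ j, ‖m1.a j‖ < 1 := fun j => (m1.ha j).trans_lt (by norm_num)
  have ha2 : ∀ j, ‖m2.a j‖ < 1 := fun j => (m2.ha j).trans_lt (by norm_num)
  have hα2i : InjOn m2.α (ball 0 1) := fun x hx y hy hxy => by
    rw [← m2.hβα x (by simpa using hx), ← m2.hβα y (by simpa using hy), hxy]
  have hα1i : InjOn m1.α (ball 0 1) := fun x hx y hy hxy => by
    rw [← m1.hβα x (by simpa using hx), ← m1.hβα y (by simpa using hy), hxy]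
  obtain ⟨lam, mu, hlam, hcase | hcase⟩ := exists_affine e
  · -- orientation preserving
    have himg : (fun z => lam * z + mu) '' (ψ1 '' ball 0 1) = ψ2 '' ball 0 1 := by
      rw [← he]
      exact image_congr fun z _ => (hcase z).symm
    obtain ⟨w, c, δ, hw, hc, hδ, hB⟩ := core ha1 ha2 m1.hu m2.hu m1.hderiv m2.hderiv h1 hi1 h2 hi2
      hlam himg
    obtain ⟨t1, t2, t3⟩ := mul_mob_facts hw hc
    refine no_hol hp (X := m1.α) (Y := fun z => m2.α (c * mob w z)) (δ := δ) hδ m1.hα hα1i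
      (m2.hα.comp t1 t2) (hα2i.comp t3 t2) ?_ ?_
    · intro x hx
      exact ⟨m1.β x, by simpa using m1.hβm x hx, m1.hαβ x hx⟩
    · intro z hz
      have hz' : ‖z‖ < 1 := by simpa using hz
      rw [m2.hB _ (by simpa using t2 hz), m1.hB z hz', hB z hz]
      ring
  · -- orientation reversing
    have hconj : conj '' ball (0 : ℂ) 1 = ball 0 1 := by
      ext z
      constructor
      · rintro ⟨x, hx, rfl⟩
        simpa using hx
      · intro hz
        exact ⟨conj z, by simpa using hz, by simp⟩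
    have himg : (fun z => lam * z + mu) '' ((fun z => conj (ψ1 (conj z))) '' ball 0 1) =
        ψ2 '' ball 0 1 := by
      rw [← he]
      have : (fun z => conj (ψ1 (conj z))) '' ball 0 1 = conj '' (ψ1 '' (conj '' ball 0 1)) := by
        rw [image_image, image_image]
      rw [this, hconj, image_image]
      exact image_congr fun z _ => (hcase z).symm
    have hd1 : ∀ z, ‖z‖ < 2 → HasDerivAt (Bl (conj m1.u) (fun j => conj (m1.a j)))
      (conj m1.u * m1.κ * ((∏ j, (z - conj (m1.c j))) * (∏ j, (1 - conj (conj (m1.c j)) * z))) /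
        (∏ j, (1 - conj (conj (m1.a j)) * z)) ^ 2) z := by
      intro z hz
      have := (m1.hderiv (conj z) (by simpa using hz)).conj_conj
      have hf : (conj ∘ Bl m1.u m1.a ∘ conj) = Bl (conj m1.u) (fun j => conj (m1.a j)) := by
        funext x
        rw [Bl_conj]
        rfl
      rw [hf, Complex.conj_conj] at this
      refine this.congr_deriv ?_
      simp
    have h1' : ∀ z, ‖z‖ < 2 → HasDerivAt (fun z => conj (ψ1 (conj z)))
        (m1.κ * dpsi (fun j => conj (m1.a j)) (fun j => conj (m1.c j)) z) z := by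
      intro z hz
      have := (h1 (conj z) (by simpa using hz)).conj_conj
      rw [Complex.conj_conj] at this
      refine this.congr_deriv ?_
      rw [dpsi_conj]
      simp
    have hi1' : InjOn (fun z => conj (ψ1 (conj z))) (ball 0 2) := by
      intro x hx y hy hxy
      have := hi1 (by simpa using hx : conj x ∈ ball (0:ℂ) 2)
        (by simpa using hy : conj y ∈ ball (0:ℂ) 2) ((starRingEnd ℂ).injective hxy)
      exact (starRingEnd ℂ).injective this
    obtain ⟨w, c, δ, hw, hc, hδ, hB⟩ := core (u1 := conj m1.u) (u2 := m2.u)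
      (a1 := fun j => conj (m1.a j)) (a2 := m2.a) (c1 := fun j => conj (m1.c j)) (c2 := m2.c)
      (κ1 := m1.κ) (κ2 := m2.κ)
      (fun j => by simpa using ha1 j) ha2 (by simpa using m1.hu) m2.hu hd1 m2.hderiv h1' hi1' h2 hi2
      hlam himg
    obtain ⟨t1, t2, t3⟩ := mul_mob_facts hw hc
    refine no_antihol hp (X := fun z => conj (m1.α (conj z))) (Y := fun z => m2.α (c * mob w z))
      (δ := δ) hδ ?_ ?_ (m2.hα.comp t1 t2) (hα2i.comp t3 t2) ?_ ?_
    · intro z hz
      have hz' : conj z ∈ ball (0:ℂ) 1 := by simpa using hz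
      have := ((m1.hα.differentiableAt (isOpen_ball.mem_nhds hz')).conj_conj)
      rw [Complex.conj_conj] at this
      exact this.differentiableWithinAt
    · intro x hx y hy hxy
      have := hα1i (by simpa using hx : conj x ∈ ball (0:ℂ) 1)
        (by simpa using hy : conj y ∈ ball (0:ℂ) 1) ((starRingEnd ℂ).injective hxy)
      exact (starRingEnd ℂ).injective this
    · intro x hx
      rw [RCLike.norm_conj] at hx
      refine ⟨conj (m1.β (conj x)), by simpa using m1.hβm _ hx, ?_⟩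
      simp only [Complex.conj_conj]
      rw [m1.hαβ _ hx, Complex.conj_conj]
    · intro z hz
      have hz' : ‖conj z‖ < 1 := by simpa using hz
      simp only [Complex.conj_conj]
      rw [m2.hB _ (by simpa using t2 hz), m1.hB _ hz', hB z hz, Bl_conj, map_mul,
        Complex.conj_ofReal]
      ring

end Pool.Agent.Steklov
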