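import Mathlib
import Pool.Agent.Steklov.Algebra

/-!
# Orthogonal circulant operators on periodic functions
-/

set_option autoImplicit false

open Complex MeasureTheory

namespace Pool.Agent.Steklov

/-- the shift attached to an element of `ℤ/7` -/
noncomputable def sh (j : ZMod 7) : ℝ := 2 * Real.pi * (j.val : ℝ) / 7

theorem sh_zero : sh 0 = 0 := by simp [sh]

theorem shift_add {E : Type*} {φ : ℝ → E} (hφ : Function.Periodic φ (2 * Real.pi)) (j k : ZMod 7)
    (t : ℝ) : φ (t + sh (j + k)) = φ (t + sh j + sh k) := by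
  have h := ZMod.val_add j k
  rcases lt_or_ge (j.val + k.val) 7 with hlt | hge
  · rw [Nat.mod_eq_of_lt hlt] at h
    unfold sh
    rw [h]
    congr 1
    push_cast
    ring
  · have hj := ZMod.val_lt j
    have hk := ZMod.val_lt k
    have h2 : (j + k).val + 7 = j.val + k.val := by
      rw [h, Nat.mod_eq_sub_mod hge, Nat.mod_eq_of_lt (by omega)]
      omega
    have h3 : ((j + k).val : ℝ) + 7 = j.val + k.val := by exact_mod_cast h2
    have h4 : t + sh j + sh k = t + sh (j + k) + 2 * Real.pi := by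
      unfold sh
      field_simp
      linear_combination (-2 * Real.pi) * h3
    rw [h4, hφ]

theorem integral_shift {φ : ℝ → ℝ} (hφ : Function.Periodic φ (2 * Real.pi)) (s : ℝ) :
    ∫ t in (0:ℝ)..2 * Real.pi, φ (t + s) = ∫ t in (0:ℝ)..2 * Real.pi, φ t := by
  rw [intervalIntegral.integral_comp_add_right]
  have := hφ.intervalIntegral_add_eq s 0
  rw [zero_add] at this
  rw [zero_add, add_comm (2 * Real.pi) s]
  exact this

theorem circ_orth {c : ZMod 7 → ℝ} (hc : ∀ k, ∑ j, c j * c (j + k) = if k = 0 then 1 else 0)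
    {φ χ : ℝ → ℝ} (hφ : Continuous φ) (hχ : Continuous χ)
    (pφ : Function.Periodic φ (2 * Real.pi)) (pχ : Function.Periodic χ (2 * Real.pi)) :
    ∫ t in (0:ℝ)..2 * Real.pi, (∑ j, c j * φ (t + sh j)) * (∑ k, c k * χ (t + sh k)) =
      ∫ t in (0:ℝ)..2 * Real.pi, φ t * χ t := by
  have e1 : ∀ t : ℝ, (∑ j, c j * φ (t + sh j)) * (∑ k, c k * χ (t + sh k)) =
      ∑ m : ZMod 7, ∑ j : ZMod 7, (c j * c (j + m)) * (φ (t + sh j) * χ (t + sh j + sh m)) := by
    intro t
    rw [Finset.sum_mul_sum]
    have : ∀ j : ZMod 7, ∑ k, c j * φ (t + sh j) * (c k * χ (t + sh k)) =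
        ∑ m, (c j * c (j + m)) * (φ (t + sh j) * χ (t + sh j + sh m)) := by
      intro j
      rw [← Equiv.sum_comp (Equiv.addLeft j)]
      refine Finset.sum_congr rfl (fun m _ => ?_)
      simp only [Equiv.coe_addLeft]
      rw [shift_add pχ]
      ring
    simp_rw [this]
    rw [Finset.sum_comm]
  have hI : ∀ m : ZMod 7, ∀ j : ZMod 7,
      ∫ t in (0:ℝ)..2 * Real.pi, (c j * c (j + m)) * (φ (t + sh j) * χ (t + sh j + sh m)) =
      (c j * c (j + m)) * ∫ t in (0:ℝ)..2 * Real.pi, φ t * χ (t + sh m) := by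
    intro m j
    rw [intervalIntegral.integral_const_mul]
    congr 1
    have hper : Function.Periodic (fun t => φ t * χ (t + sh m)) (2 * Real.pi) := by
      intro t
      simp only
      rw [pφ, add_right_comm, pχ]
    exact integral_shift hper (sh j)
  simp_rw [e1]
  rw [intervalIntegral.integral_finsetSum]
  · have h2 : ∀ m : ZMod 7, ∫ t in (0:ℝ)..2 * Real.pi,
        ∑ j : ZMod 7, (c j * c (j + m)) * (φ (t + sh j) * χ (t + sh j + sh m)) =
        (∑ j, c j * c (j + m)) * ∫ t in (0:ℝ)..2 * Real.pi, φ t * χ (t + sh m) := by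
      intro m
      rw [intervalIntegral.integral_finsetSum, Finset.sum_mul]
      · exact Finset.sum_congr rfl (fun j _ => hI m j)
      · intro j _
        exact Continuous.intervalIntegrable (by fun_prop) _ _
    simp_rw [h2, hc]
    simp [sh_zero]
  · intro m _
    exact Continuous.intervalIntegrable (by fun_prop) _ _

/-- coefficient for incident pairs -/
noncomputable def cA : ℝ := (4 + √2) / (7 * √2)

/-- coefficient for non-incident pairs -/
noncomputable def cC : ℝ := (-3 + √2) / (7 * √2)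

open Classical in
/-- the coefficient function attached to a subset of `ℤ/7` -/
noncomputable def coef (D : Finset (ZMod 7)) (j : ZMod 7) : ℝ := if j ∈ D then cA else cC

theorem coef_orth (D : Finset (ZMod 7)) (hD : D.card = 3)
    (h : ∀ k : ZMod 7, k ≠ 0 → ∃ d ∈ D, d + k ∈ D) (k : ZMod 7) :
    ∑ j, coef D j * coef D (j + k) = if k = 0 then 1 else 0 := by
  classical
  have hN := diff_set D hD h k
  have hs2 : (√2:ℝ) ^ 2 = 2 := Real.sq_sqrt (by norm_num)
  have hs0 : (√2:ℝ) ≠ 0 := by positivity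
  have hcoef : ∀ j, coef D j = cC + (cA - cC) * (if j ∈ D then 1 else 0) := by
    intro j
    unfold coef
    split_ifs <;> ring
  have e1 : ∑ j : ZMod 7, (if j ∈ D then (1:ℝ) else 0) = 3 := by
    rw [Finset.sum_ite_mem, Finset.univ_inter]
    simp [hD]
  have e2 : ∑ j : ZMod 7, (if j + k ∈ D then (1:ℝ) else 0) = 3 := by
    rw [← e1]
    exact Equiv.sum_comp (Equiv.addRight k) (fun j => if j ∈ D then (1:ℝ) else 0)
  have e3 : ∑ j : ZMod 7, (if j ∈ D then (1:ℝ) else 0) * (if j + k ∈ D then (1:ℝ) else 0) =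
      ((D.filter (fun d => d + k ∈ D)).card : ℝ) := by
    rw [Finset.card_filter, Nat.cast_sum]
    rw [← Finset.sum_subset (Finset.subset_univ D)]
    · refine Finset.sum_congr rfl (fun j hj => ?_)
      rw [if_pos hj]; split_ifs <;> simp
    · intro j _ hj
      rw [if_neg hj, zero_mul]
  have e4 : ∑ j, coef D j * coef D (j + k) = 7 * cC ^ 2 + 6 * cC * (cA - cC) +
      (cA - cC) ^ 2 * ((D.filter (fun d => d + k ∈ D)).card : ℝ) := by
    simp_rw [hcoef]
    have : ∀ j : ZMod 7, (cC + (cA - cC) * (if j ∈ D then (1:ℝ) else 0)) *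
        (cC + (cA - cC) * (if j + k ∈ D then (1:ℝ) else 0)) =
        cC ^ 2 + cC * (cA - cC) * (if j ∈ D then (1:ℝ) else 0) +
        cC * (cA - cC) * (if j + k ∈ D then (1:ℝ) else 0) +
        (cA - cC) ^ 2 * ((if j ∈ D then (1:ℝ) else 0) * (if j + k ∈ D then (1:ℝ) else 0)) := by
      intro j; ring
    simp_rw [this]
    rw [Finset.sum_add_distrib, Finset.sum_add_distrib, Finset.sum_add_distrib,
      ← Finset.mul_sum, ← Finset.mul_sum, ← Finset.mul_sum, e1, e2, e3]
    simp only [Finset.sum_const, Finset.card_univ, ZMod.card, nsmul_eq_mul]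
    push_cast
    ring
  rw [e4, hN]
  unfold cA cC
  split_ifs
  · push_cast
    field_simp
    nlinarith [hs2]
  · push_cast
    field_simp
    nlinarith [hs2]

end Pool.Agent.Steklov
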