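import Mathlib
import Pool.Agent.Steklov.Circulant
import Pool.Agent.Steklov.AnnDefs

/-!
# The fibre over a point near the boundary of the base disc
-/

set_option autoImplicit false

open Complex Metric Set

namespace Pool.Agent.Steklov

/-! ### polynomials -/

theorem eval_eq_prod {P : Polynomial ℂ} (hP : P.Monic) {ι : Type*} (S : Finset ι) (x : ι → ℂ)
    (hinj : Set.InjOn x S) (hroot : ∀ j ∈ S, P.eval (x j) = 0) (hdeg : P.natDegree = S.card)
    (X : ℂ) : P.eval X = ∏ j ∈ S, (X - x j) := by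
  classical
  set Q : Polynomial ℂ := ∏ j ∈ S, (Polynomial.X - Polynomial.C (x j)) with hQ
  have hQm : Q.Monic := Polynomial.monic_prod_of_monic _ _ (fun j _ => Polynomial.monic_X_sub_C _)
  have hQd : Q.natDegree = S.card := by
    rw [hQ, Polynomial.natDegree_prod_of_monic _ _ (fun j _ => Polynomial.monic_X_sub_C _)]
    simp
  have hPQ : P = Q := by
    have hcard : (S.image x).card = S.card := Finset.card_image_of_injOn hinj
    by_contra hne
    refine hne (Polynomial.eq_of_degree_sub_lt_of_eval_finset_eq (S.image x) ?_ ?_)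
    · rw [hcard]
      have h1 : P.degree = Q.degree := by
        rw [Polynomial.degree_eq_natDegree hP.ne_zero, Polynomial.degree_eq_natDegree hQm.ne_zero,
          hdeg, hQd]
      have h2 := Polynomial.degree_sub_lt h1 hP.ne_zero (by rw [hP.leadingCoeff, hQm.leadingCoeff])
      rw [Polynomial.degree_eq_natDegree hP.ne_zero, hdeg] at h2
      exact h2
    · intro y hy
      obtain ⟨j, hj, rfl⟩ := Finset.mem_image.mp hy
      rw [hroot j hj, hQ, Polynomial.eval_prod]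
      symm
      exact Finset.prod_eq_zero hj (by simp)
  rw [hPQ, hQ, Polynomial.eval_prod]
  simp

theorem card_le_natDegree {P : Polynomial ℂ} (hP : P ≠ 0) {ι : Type*} (S : Finset ι) (x : ι → ℂ)
    (hinj : Set.InjOn x S) (hroot : ∀ j ∈ S, P.eval (x j) = 0) : S.card ≤ P.natDegree := by
  classical
  rw [← Finset.card_image_of_injOn hinj]
  have hsub : S.image x ⊆ P.roots.toFinset := by
    intro y hy
    obtain ⟨j, hj, rfl⟩ := Finset.mem_image.mp hy
    rw [Multiset.mem_toFinset, Polynomial.mem_roots hP]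
    exact hroot j hj
  exact (Finset.card_le_card hsub).trans ((Multiset.toFinset_card_le _).trans
    (Polynomial.card_roots' P))

theorem natDegree_X_pow_add_of_lt {n : ℕ} {q : Polynomial ℂ} (h : q.degree < n) :
    (Polynomial.X ^ n + q).natDegree = n := by
  apply Polynomial.natDegree_eq_of_degree_eq_some
  rw [Polynomial.degree_add_eq_left_of_degree_lt]
  · exact Polynomial.degree_X_pow n
  · rw [Polynomial.degree_X_pow]; exact h

open Polynomial in
/-- `FF p X - w` as a polynomial -/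
noncomputable def PF (p w : ℂ) : Polynomial ℂ :=
  X ^ 7 + (C (7 * p) * X ^ 4 + C (7 * (p - 3)) * X + C (-(1 + I) - w))

open Polynomial in
/-- `AA p X y` as a polynomial in `X` -/
noncomputable def PA (p y : ℂ) : Polynomial ℂ :=
  X ^ 3 + (C (p * y) * X ^ 2 + C (-((1 - p) * y ^ 2)) * X + C (-y ^ 3 + (2 * p - 1)))

open Polynomial in
/-- `CC p X y` as a polynomial in `X` -/
noncomputable def PC (p y : ℂ) : Polynomial ℂ :=
  X ^ 4 + (C (-(p * y)) * X ^ 3 + C (-(y ^ 2)) * X ^ 2 + C (-((1 - p) * y ^ 3) + (5 * p + 1)) * X +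
    C (y ^ 4 + (6 - 5 * p) * y))

theorem PF_eval (p w x : ℂ) : (PF p w).eval x = FF p x - w := by
  simp [PF, FF]; ring

theorem PA_eval (p y x : ℂ) : (PA p y).eval x = AA p x y := by
  simp [PA, AA]; ring

theorem PC_eval (p y x : ℂ) : (PC p y).eval x = CC p x y := by
  simp [PC, CC]; ring

theorem PF_monic (p w : ℂ) : (PF p w).Monic ∧ (PF p w).natDegree = 7 := by
  have hd : (Polynomial.C (7 * p) * Polynomial.X ^ 4 + Polynomial.C (7 * (p - 3)) * Polynomial.X +
      Polynomial.C (-(1 + I) - w) : Polynomial ℂ).degree < (7:ℕ) := by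
    refine lt_of_le_of_lt (b := ((4:ℕ) : WithBot ℕ)) ?_ (by exact_mod_cast (by norm_num))
    compute_degree
    all_goals norm_num
  constructor
  · exact Polynomial.monic_X_pow_add hd
  · exact natDegree_X_pow_add_of_lt hd

theorem PA_monic (p y : ℂ) : (PA p y).Monic ∧ (PA p y).natDegree = 3 := by
  have hd : (Polynomial.C (p * y) * Polynomial.X ^ 2 + Polynomial.C (-((1 - p) * y ^ 2)) *
      Polynomial.X + Polynomial.C (-y ^ 3 + (2 * p - 1)) : Polynomial ℂ).degree < (3:ℕ) := by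
    refine lt_of_le_of_lt (b := ((2:ℕ) : WithBot ℕ)) ?_ (by exact_mod_cast (by norm_num))
    compute_degree
    all_goals norm_num
  constructor
  · exact Polynomial.monic_X_pow_add hd
  · exact natDegree_X_pow_add_of_lt hd

theorem PC_monic (p y : ℂ) : (PC p y).Monic ∧ (PC p y).natDegree = 4 := by
  have hd : (Polynomial.C (-(p * y)) * Polynomial.X ^ 3 + Polynomial.C (-(y ^ 2)) *
      Polynomial.X ^ 2 + Polynomial.C (-((1 - p) * y ^ 3) + (5 * p + 1)) * Polynomial.X +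
      Polynomial.C (y ^ 4 + (6 - 5 * p) * y) : Polynomial ℂ).degree < (4:ℕ) := by
    refine lt_of_le_of_lt (b := ((3:ℕ) : WithBot ℕ)) ?_ (by exact_mod_cast (by norm_num))
    compute_degree
    all_goals norm_num
  constructor
  · exact Polynomial.monic_X_pow_add hd
  · exact natDegree_X_pow_add_of_lt hd

/-! ### roots of unity -/

/-- the seventh roots of unity -/
noncomputable def rt (j : ZMod 7) : ℂ := exp (sh j * I)

theorem norm_rt (j : ZMod 7) : ‖rt j‖ = 1 := Complex.norm_exp_ofReal_mul_I _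

theorem rt_zero : rt 0 = 1 := by simp [rt, sh_zero]

theorem rt_add (j k : ZMod 7) : rt (j + k) = rt j * rt k := by
  have hper : Function.Periodic (fun t : ℝ => exp (t * I)) (2 * Real.pi) := by
    intro t
    simp only
    push_cast
    rw [add_mul, Complex.exp_periodic]
  have := shift_add hper j k 0
  simp only [zero_add] at this
  rw [rt, this]
  push_cast
  rw [add_mul, Complex.exp_add]
  rfl

theorem rt_pow (j : ZMod 7) : rt j ^ 7 = 1 := by
  rw [rt, ← Complex.exp_nat_mul]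
  have : ((7:ℕ):ℂ) * (sh j * I) = (j.val : ℤ) * (2 * Real.pi * I) := by
    unfold sh
    push_cast
    ring
  rw [this, Complex.exp_int_mul_two_pi_mul_I]

theorem rt_injective : Function.Injective rt := by
  intro j k h
  have h1 : rt (j - k) = 1 := by
    have h2 := rt_add (j - k) k
    rw [sub_add_cancel] at h2
    have hk : rt k ≠ 0 := Complex.exp_ne_zero _
    rw [h] at h2
    exact (mul_right_cancel₀ hk (by rw [← h2, one_mul])).symm
  rw [rt, Complex.exp_eq_one_iff] at h1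
  obtain ⟨n, hn⟩ := h1
  have h3 : ((j - k).val : ℂ) = 7 * n := by
    unfold sh at hn
    have hpi : (Real.pi : ℂ) ≠ 0 := by exact_mod_cast Real.pi_ne_zero
    have hI := Complex.I_ne_zero
    push_cast at hn
    field_simp at hn
    have h4 : ((j - k).val : ℂ) * (2 * (Real.pi * I)) = (7 * n) * (2 * (Real.pi * I)) := by
      linear_combination (2 * Real.pi * I) * hn
    exact mul_right_cancel₀ (by simp [hpi, hI]) h4
  have h5 : ((j - k).val : ℤ) = 7 * n := by exact_mod_cast h3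
  have h6 := ZMod.val_lt (j - k)
  have h7 : (j - k).val = 0 := by omega
  exact sub_eq_zero.mp ((ZMod.val_eq_zero _).mp h7)

/-! ### the inner annulus -/

/-- the inner annulus -/
def Ain : Set ℂ := {η | 19 / 20 < ‖η‖ ∧ ‖η‖ < 1}

theorem isOpen_Ain : IsOpen Ain :=
  (isOpen_lt continuous_const continuous_norm).inter (isOpen_lt continuous_norm continuous_const)

theorem isPreconnected_Ain : IsPreconnected Ain := by
  have : Ain = (fun q : ℝ × ℝ => (q.1 : ℂ) * exp (q.2 * I)) '' (Ioo (19 / 20 : ℝ) 1 ×ˢ univ) := by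
    ext η
    simp only [Ain, mem_setOf_eq, mem_image, mem_prod, mem_Ioo, mem_univ, and_true, Prod.exists]
    constructor
    · intro h
      exact ⟨‖η‖, arg η, h, Complex.norm_mul_exp_arg_mul_I η⟩
    · rintro ⟨r, θ, h, rfl⟩
      rw [norm_mul, Complex.norm_exp_ofReal_mul_I, mul_one, Complex.norm_real,
        Real.norm_of_nonneg (by linarith)]
      exact h
  rw [this]
  refine (isPreconnected_Ioo.prod isPreconnected_univ).image _ ?_
  fun_prop

section

variable {p : ℂ} (m1 : BModel (FF p)) (m2 : BModel (FF (1 - p)))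
  (A1 : AnnCoord m1.u m1.a) (A2 : AnnCoord m2.u m2.a)

/-- the points of the first disc corresponding to `η` -/
noncomputable def zz (j : ZMod 7) (η : ℂ) : ℂ := A1.K (rt j * A2.L η)

theorem rtL_mem (j : ZMod 7) {η : ℂ} (h1 : 19 / 20 < ‖η‖) (h2 : ‖η‖ < 21 / 20) :
    9 / 10 < ‖rt j * A2.L η‖ ∧ ‖rt j * A2.L η‖ < 11 / 10 := by
  rw [norm_mul, norm_rt, one_mul]
  exact A2.hLmem η h1 h2

theorem L_zz (j : ZMod 7) {η : ℂ} (h1 : 19 / 20 < ‖η‖) (h2 : ‖η‖ < 21 / 20) :
    A1.L (zz m1 m2 A1 A2 j η) = rt j * A2.L η := by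
  have h := rtL_mem m2 A2 j h1 h2
  exact A1.hLK _ h.1 h.2

theorem norm_zz_lt (j : ZMod 7) {η : ℂ} (h1 : 19 / 20 < ‖η‖) (h2 : ‖η‖ < 1) :
    ‖zz m1 m2 A1 A2 j η‖ < 1 := by
  have h2' : ‖η‖ < 21 / 20 := by linarith
  have h := rtL_mem m2 A2 j h1 h2'
  have hm := A1.hKmem _ h.1 h.2
  have := (A1.hL1 _ hm.1 hm.2)
  refine this.mp ?_
  rw [A1.hLK _ h.1 h.2, norm_mul, norm_rt, one_mul]
  exact (A2.hL1 η (by linarith) (by linarith)).mpr h2

theorem differentiableOn_zz (j : ZMod 7) :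
    DifferentiableOn ℂ (zz m1 m2 A1 A2 j) {η | 19 / 20 < ‖η‖ ∧ ‖η‖ < 21 / 20} := by
  have hL : DifferentiableOn ℂ A2.L {η | 19 / 20 < ‖η‖ ∧ ‖η‖ < 21 / 20} :=
    A2.hL.mono (fun η hη => ⟨by linarith [hη.1], by linarith [hη.2]⟩)
  exact A1.hK.comp (hL.const_mul (rt j)) (fun η hη => rtL_mem m2 A2 j hη.1 hη.2)

/-- the corresponding points in the polynomial coordinate -/
noncomputable def xx (j : ZMod 7) (η : ℂ) : ℂ := m1.α (zz m1 m2 A1 A2 j η)

theorem FF_xx (j : ZMod 7) {η : ℂ} (hη : η ∈ Ain) :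
    FF p (xx m1 m2 A1 A2 j η) = FF (1 - p) (m2.α η) := by
  have h2' : ‖η‖ < 21 / 20 := by linarith [hη.2]
  have hz := norm_zz_lt m1 m2 A1 A2 j hη.1 hη.2
  have h := rtL_mem m2 A2 j hη.1 h2'
  have hm := A1.hKmem _ h.1 h.2
  have e : A1.L (zz m1 m2 A1 A2 j η) ^ 7 = Bl m1.u m1.a (zz m1 m2 A1 A2 j η) :=
    A1.hL7 _ hm.1 hm.2
  rw [xx, m1.hB _ hz, m2.hB _ hη.2, ← e, L_zz m1 m2 A1 A2 j hη.1 h2', mul_pow,
    rt_pow, one_mul, A2.hL7 η (by linarith [hη.1]) (by linarith)]

theorem norm_FF_xx_lt (j : ZMod 7) {η : ℂ} (hη : η ∈ Ain) :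
    ‖FF p (xx m1 m2 A1 A2 j η)‖ < RR :=
  m1.hαm _ (norm_zz_lt m1 m2 A1 A2 j hη.1 hη.2)

theorem β_xx (j : ZMod 7) {η : ℂ} (hη : η ∈ Ain) :
    m1.β (xx m1 m2 A1 A2 j η) = zz m1 m2 A1 A2 j η :=
  m1.hβα _ (norm_zz_lt m1 m2 A1 A2 j hη.1 hη.2)

theorem xx_injective {η : ℂ} (hη : η ∈ Ain) :
    Function.Injective (fun j => xx m1 m2 A1 A2 j η) := by
  intro j k hjk
  have h2' : ‖η‖ < 21 / 20 := by linarith [hη.2]
  have h1 : zz m1 m2 A1 A2 j η = zz m1 m2 A1 A2 k η := by
    rw [← β_xx m1 m2 A1 A2 j hη, ← β_xx m1 m2 A1 A2 k hη]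
    exact congrArg m1.β hjk
  have h3 := L_zz m1 m2 A1 A2 j hη.1 h2'
  rw [h1, L_zz m1 m2 A1 A2 k hη.1 h2'] at h3
  have hL0 : A2.L η ≠ 0 := by
    intro h0
    have := (A2.hLmem η hη.1 h2').1
    rw [h0, norm_zero] at this
    linarith
  exact rt_injective (mul_right_cancel₀ hL0 h3).symm

theorem continuousOn_xx (j : ZMod 7) : ContinuousOn (xx m1 m2 A1 A2 j) Ain := by
  refine m1.hα.continuousOn.comp ((differentiableOn_zz m1 m2 A1 A2 j).continuousOn.mono ?_) ?_
  · exact fun η hη => ⟨hη.1, by linarith [hη.2]⟩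
  · intro η hη
    rw [mem_ball_zero_iff]
    exact norm_zz_lt m1 m2 A1 A2 j hη.1 hη.2

theorem fiber_prod {η : ℂ} (hη : η ∈ Ain) (X : ℂ) :
    FF p X - FF (1 - p) (m2.α η) = ∏ j, (X - xx m1 m2 A1 A2 j η) := by
  rw [← PF_eval, eval_eq_prod (PF_monic p _).1 Finset.univ (fun j => xx m1 m2 A1 A2 j η)
    ((xx_injective m1 m2 A1 A2 hη).injOn)]
  · intro j _
    rw [PF_eval, FF_xx m1 m2 A1 A2 j hη, sub_self]
  · rw [(PF_monic p _).2]; rfl

variable (hp : p ^ 2 - p + 2 = 0)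

include hp

theorem AA_or_CC (j : ZMod 7) {η : ℂ} (hη : η ∈ Ain) :
    AA p (xx m1 m2 A1 A2 j η) (m2.α η) = 0 ∨ CC p (xx m1 m2 A1 A2 j η) (m2.α η) = 0 := by
  rw [← mul_eq_zero, ← FF_sub hp, FF_xx m1 m2 A1 A2 j hη, sub_self]

open Classical in
theorem card_AA {η : ℂ} (hη : η ∈ Ain) :
    (Finset.univ.filter (fun j => AA p (xx m1 m2 A1 A2 j η) (m2.α η) = 0)).card = 3 ∧
    (∀ j, ¬ (AA p (xx m1 m2 A1 A2 j η) (m2.α η) = 0 ∧
      CC p (xx m1 m2 A1 A2 j η) (m2.α η) = 0)) := by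
  set SA := Finset.univ.filter (fun j => AA p (xx m1 m2 A1 A2 j η) (m2.α η) = 0) with hSA
  set SC := Finset.univ.filter (fun j => CC p (xx m1 m2 A1 A2 j η) (m2.α η) = 0) with hSC
  have hinj := xx_injective m1 m2 A1 A2 hη
  have h1 : SA.card ≤ 3 := by
    have := card_le_natDegree (PA_monic p (m2.α η)).1.ne_zero SA
      (fun j => xx m1 m2 A1 A2 j η) hinj.injOn (fun j hj => by
        rw [PA_eval]; exact (Finset.mem_filter.mp hj).2)
    rwa [(PA_monic p _).2] at this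
  have h2 : SC.card ≤ 4 := by
    have := card_le_natDegree (PC_monic p (m2.α η)).1.ne_zero SC
      (fun j => xx m1 m2 A1 A2 j η) hinj.injOn (fun j hj => by
        rw [PC_eval]; exact (Finset.mem_filter.mp hj).2)
    rwa [(PC_monic p _).2] at this
  have h3 : SA ∪ SC = Finset.univ := by
    ext j
    simp only [hSA, hSC, Finset.mem_union, Finset.mem_filter, Finset.mem_univ, true_and,
      iff_true]
    exact AA_or_CC m1 m2 A1 A2 hp j hη
  have h4 := Finset.card_union_add_card_inter SA SC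
  rw [h3, Finset.card_univ, ZMod.card] at h4
  refine ⟨by omega, fun j hj => ?_⟩
  have h5 : (SA ∩ SC).card = 0 := by omega
  rw [Finset.card_eq_zero] at h5
  have : j ∈ SA ∩ SC := by
    simp only [hSA, hSC, Finset.mem_inter, Finset.mem_filter, Finset.mem_univ, true_and]
    exact hj
  rw [h5] at this
  exact absurd this (Finset.notMem_empty j)

theorem AA_const (j : ZMod 7) :
    (∀ η ∈ Ain, AA p (xx m1 m2 A1 A2 j η) (m2.α η) = 0) ∨
    (∀ η ∈ Ain, AA p (xx m1 m2 A1 A2 j η) (m2.α η) ≠ 0) := by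
  have hx := continuousOn_xx m1 m2 A1 A2 j
  have hy : ContinuousOn m2.α Ain := m2.hα.continuousOn.mono (fun η hη => by
    rw [mem_ball_zero_iff]; exact hη.2)
  have hcA : ContinuousOn (fun η => AA p (xx m1 m2 A1 A2 j η) (m2.α η)) Ain := by
    unfold AA; fun_prop
  have hcC : ContinuousOn (fun η => CC p (xx m1 m2 A1 A2 j η) (m2.α η)) Ain := by
    unfold CC; fun_prop
  have hu := hcA.isOpen_inter_preimage isOpen_Ain (isOpen_compl_singleton (x := (0:ℂ)))
  have hv := hcC.isOpen_inter_preimage isOpen_Ain (isOpen_compl_singleton (x := (0:ℂ)))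
  have hcov : Ain ⊆ (Ain ∩ (fun η => AA p (xx m1 m2 A1 A2 j η) (m2.α η)) ⁻¹' {0}ᶜ) ∪
      (Ain ∩ (fun η => CC p (xx m1 m2 A1 A2 j η) (m2.α η)) ⁻¹' {0}ᶜ) := by
    intro η hη
    by_cases h : AA p (xx m1 m2 A1 A2 j η) (m2.α η) = 0
    · right
      refine ⟨hη, fun h' => (card_AA m1 m2 A1 A2 hp hη).2 j ⟨h, h'⟩⟩
    · left
      exact ⟨hη, h⟩
  have hdisj : Ain ∩ ((Ain ∩ (fun η => AA p (xx m1 m2 A1 A2 j η) (m2.α η)) ⁻¹' {0}ᶜ) ∩
      (Ain ∩ (fun η => CC p (xx m1 m2 A1 A2 j η) (m2.α η)) ⁻¹' {0}ᶜ)) = ∅ := by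
    rw [Set.eq_empty_iff_forall_notMem]
    rintro η ⟨hη, ⟨-, h1⟩, -, h2⟩
    rcases AA_or_CC m1 m2 A1 A2 hp j hη with h | h
    · exact h1 h
    · exact h2 h
  rcases (isPreconnected_iff_subset_of_disjoint.mp isPreconnected_Ain) _ _ hu hv hcov hdisj with
    h | h
  · right
    intro η hη
    exact (h hη).2
  · left
    intro η hη
    rcases AA_or_CC m1 m2 A1 A2 hp j hη with h' | h'
    · exact h'
    · exact absurd h' (h hη).2

theorem exists_D : ∃ D : Finset (ZMod 7), D.card = 3 ∧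
    (∀ η ∈ Ain, ∀ j, (j ∈ D ↔ AA p (xx m1 m2 A1 A2 j η) (m2.α η) = 0)) := by
  classical
  have h0 : (39 / 40 : ℂ) ∈ Ain := by
    have : ‖(39 / 40 : ℂ)‖ = 39 / 40 := by
      rw [show (39 / 40 : ℂ) = ((39 / 40 : ℝ) : ℂ) by push_cast; ring, Complex.norm_real]
      norm_num
    constructor <;> rw [this] <;> norm_num
  refine ⟨_, (card_AA m1 m2 A1 A2 hp h0).1, fun η hη j => ?_⟩
  rw [Finset.mem_filter]
  simp only [Finset.mem_univ, true_and]
  rcases AA_const m1 m2 A1 A2 hp j with h | h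
  · exact ⟨fun _ => h η hη, fun _ => h _ h0⟩
  · exact ⟨fun h' => absurd h' (h _ h0), fun h' => absurd h' (h η hη)⟩

end

end Pool.Agent.Steklov
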