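import Mathlib
import Pool.Agent.Steklov.Fiber

/-!
# The difference set attached to the fibre
-/

set_option autoImplicit false

open Complex Metric Set Filter Topology

namespace Pool.Agent.Steklov

section

variable {u : ℂ} {a : Fin 7 → ℂ} (A : AnnCoord u a)

include A

theorem norm_L_one : ‖A.L 1‖ = 1 := by
  have h := A.hLτ 0
  rw [ofReal_zero, zero_mul, Complex.exp_zero] at h
  rw [h, Complex.norm_exp_ofReal_mul_I]

theorem one_le_norm_K {W : ℂ} (hW : ‖W‖ = 1) : 1 ≤ ‖A.K W‖ := by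
  have h1 : 9 / 10 < ‖W‖ := by rw [hW]; norm_num
  have h2 : ‖W‖ < 11 / 10 := by rw [hW]; norm_num
  have hm := A.hKmem W h1 h2
  have h3 := A.hL1 _ hm.1 hm.2
  rw [A.hLK W h1 h2, hW] at h3
  by_contra h
  push Not at h
  exact absurd (h3.mpr h) (lt_irrefl 1)

theorem norm_K_lt {W : ℂ} (h1 : 9 / 10 < ‖W‖) (h2 : ‖W‖ < 1) : ‖A.K W‖ < 1 := by
  have h2' : ‖W‖ < 11 / 10 := by linarith
  have hm := A.hKmem W h1 h2'
  have h3 := A.hL1 _ hm.1 hm.2
  rw [A.hLK W h1 h2'] at h3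
  exact h3.mp h2

theorem isOpen_ring (a b : ℝ) : IsOpen {z : ℂ | a < ‖z‖ ∧ ‖z‖ < b} :=
  (isOpen_lt continuous_const continuous_norm).inter (isOpen_lt continuous_norm continuous_const)

theorem eventually_K (i : ZMod 7) :
    ∀ᶠ η in 𝓝 (1:ℂ), 19 / 20 < ‖A.K (rt i * A.L η)‖ := by
  have hL : ContinuousAt A.L 1 :=
    (A.hL.differentiableAt ((isOpen_ring A _ _).mem_nhds
      (by constructor <;> norm_num))).continuousAt
  have hW : ‖rt i * A.L 1‖ = 1 := by rw [norm_mul, norm_rt, norm_L_one, one_mul]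
  have hK : ContinuousAt A.K (rt i * A.L 1) :=
    (A.hK.differentiableAt ((isOpen_ring A _ _).mem_nhds
      (by constructor <;> rw [hW] <;> norm_num))).continuousAt
  have h : ContinuousAt (fun η => ‖A.K (rt i * A.L η)‖) 1 :=
    (ContinuousAt.comp (f := fun η => rt i * A.L η) hK (hL.const_mul (rt i))).norm
  have h1 : 19 / 20 < ‖A.K (rt i * A.L 1)‖ := by
    have := one_le_norm_K A hW
    linarith
  exact h.eventually_const_lt h1

theorem exists_good_point : ∃ η ∈ Ain, ∀ i : ZMod 7, A.K (rt i * A.L η) ∈ Ain ∧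
    A.L (A.K (rt i * A.L η)) = rt i * A.L η := by
  have h := eventually_all.mpr (eventually_K A)
  have hc : Tendsto (fun t : ℝ => (t : ℂ)) (𝓝[<] 1) (𝓝 (1:ℂ)) := by
    have : Tendsto (fun t : ℝ => (t : ℂ)) (𝓝 1) (𝓝 ((1:ℝ):ℂ)) :=
      Complex.continuous_ofReal.tendsto 1
    rw [ofReal_one] at this
    exact this.mono_left nhdsWithin_le_nhds
  have h2 := hc.eventually h
  have h3 : ∀ᶠ t : ℝ in 𝓝[<] 1, t ∈ Ioo (19 / 20 : ℝ) 1 := Ioo_mem_nhdsLT (by norm_num)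
  obtain ⟨t, ht1, ht2⟩ := (h2.and h3).exists
  have hη : (t : ℂ) ∈ Ain := by
    have : ‖(t : ℂ)‖ = t := by
      rw [Complex.norm_real, Real.norm_of_nonneg (by linarith [ht2.1])]
    constructor
    · rw [this]; exact ht2.1
    · rw [this]; exact ht2.2
  refine ⟨t, hη, fun i => ?_⟩
  have hm := A.hLmem t hη.1 (by linarith [hη.2])
  have hL1 : ‖A.L t‖ < 1 :=
    (A.hL1 t (by linarith [hη.1]) (by linarith [hη.2])).mpr hη.2
  have hW1 : 9 / 10 < ‖rt i * A.L t‖ := by rw [norm_mul, norm_rt, one_mul]; exact hm.1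
  have hW2 : ‖rt i * A.L t‖ < 1 := by rw [norm_mul, norm_rt, one_mul]; exact hL1
  exact ⟨⟨ht1 i, norm_K_lt A hW1 hW2⟩, A.hLK _ hW1 (by linarith)⟩

end

section

variable {p : ℂ} (m1 : BModel (FF p)) (m2 : BModel (FF (1 - p)))
  (A1 : AnnCoord m1.u m1.a) (A2 : AnnCoord m2.u m2.a)

variable (hp : p ^ 2 - p + 2 = 0)

include hp

theorem diff_prop {D : Finset (ZMod 7)}
    (hD : ∀ η ∈ Ain, ∀ j, (j ∈ D ↔ AA p (xx m1 m2 A1 A2 j η) (m2.α η) = 0)) :
    ∀ k : ZMod 7, k ≠ 0 → ∃ d ∈ D, d + k ∈ D := by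
  intro k hk
  obtain ⟨η, hη, hi⟩ := exists_good_point A2
  set E : ZMod 7 → ℂ := fun i => A2.K (rt i * A2.L η) with hE
  have hEm : ∀ i, E i ∈ Ain := fun i => (hi i).1
  have hEL : ∀ i, A2.L (E i) = rt i * A2.L η := fun i => (hi i).2
  have hxE : ∀ i j, xx m1 m2 A1 A2 j (E i) = xx m1 m2 A1 A2 (j + i) η := by
    intro i j
    rw [xx, xx, zz, zz, hEL, rt_add, mul_assoc]
  have hLE : ∀ i, A2.L (E i) ^ 7 = A2.L η ^ 7 := by
    intro i
    rw [hEL, mul_pow, rt_pow, one_mul]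
  set w : ℂ := FF (1 - p) (m2.α η) with hw
  have hFE : ∀ i, FF (1 - p) (m2.α (E i)) = w := by
    intro i
    have h1 := hEm i
    rw [hw, m2.hB _ h1.2, m2.hB _ hη.2, ← A2.hL7 _ (by linarith [h1.1]) (by linarith [h1.2]),
      ← A2.hL7 _ (by linarith [hη.1]) (by linarith [hη.2]), hLE]
  have hL0 : A2.L η ≠ 0 := by
    intro h0
    have := (A2.hLmem η hη.1 (by linarith [hη.2])).1
    rw [h0, norm_zero] at this
    linarith
  have hyinj : Function.Injective (fun i => m2.α (E i)) := by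
    intro i j hij
    have h1 : E i = E j := by
      rw [← m2.hβα _ (hEm i).2, ← m2.hβα _ (hEm j).2]
      exact congrArg m2.β hij
    have h2 := hEL i
    rw [h1, hEL j] at h2
    exact (rt_injective (mul_right_cancel₀ hL0 h2)).symm
  have hne : xx m1 m2 A1 A2 0 η ≠ xx m1 m2 A1 A2 k η := by
    intro h
    exact hk (xx_injective m1 m2 A1 A2 hη h).symm
  have hFeq : FF p (xx m1 m2 A1 A2 0 η) = FF p (xx m1 m2 A1 A2 k η) := by
    rw [FF_xx m1 m2 A1 A2 0 hη, FF_xx m1 m2 A1 A2 k hη]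
  obtain ⟨y, hy0, hyk⟩ := common_line hp hFeq hne
  have hFy : FF (1 - p) y = w := by
    have h := FF_sub hp (xx m1 m2 A1 A2 0 η) y
    rw [hy0, zero_mul, FF_xx m1 m2 A1 A2 0 hη] at h
    exact (sub_eq_zero.mp h).symm
  have hprod := eval_eq_prod (PF_monic (1 - p) w).1 Finset.univ (fun i => m2.α (E i))
    hyinj.injOn (fun i _ => by rw [PF_eval, hFE i, sub_self])
    (by rw [(PF_monic _ _).2]; rfl) y
  rw [PF_eval, hFy, sub_self] at hprod
  obtain ⟨i, -, hi0⟩ := Finset.prod_eq_zero_iff.mp hprod.symm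
  have hyi : y = m2.α (E i) := sub_eq_zero.mp hi0
  refine ⟨-i, ?_, ?_⟩
  · rw [hD (E i) (hEm i), hxE, neg_add_cancel, ← hyi]
    exact hy0
  · rw [hD (E i) (hEm i), hxE, ← hyi]
    have : -i + k + i = k := by ring
    rw [this]
    exact hyk

theorem AA_prod {D : Finset (ZMod 7)} (hcard : D.card = 3)
    (hD : ∀ η ∈ Ain, ∀ j, (j ∈ D ↔ AA p (xx m1 m2 A1 A2 j η) (m2.α η) = 0))
    {η : ℂ} (hη : η ∈ Ain) (X : ℂ) :
    AA p X (m2.α η) = ∏ j ∈ D, (X - xx m1 m2 A1 A2 j η) := by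
  rw [← PA_eval]
  exact eval_eq_prod (PA_monic p _).1 D (fun j => xx m1 m2 A1 A2 j η)
    ((xx_injective m1 m2 A1 A2 hη).injOn) (fun j hj => by
      rw [PA_eval]; exact (hD η hη j).mp hj)
    (by rw [(PA_monic p _).2, hcard]) X

theorem CC_prod {D : Finset (ZMod 7)} (hcard : D.card = 3)
    (hD : ∀ η ∈ Ain, ∀ j, (j ∈ D ↔ AA p (xx m1 m2 A1 A2 j η) (m2.α η) = 0))
    {η : ℂ} (hη : η ∈ Ain) (X : ℂ) :
    CC p X (m2.α η) = ∏ j ∈ Dᶜ, (X - xx m1 m2 A1 A2 j η) := by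
  rw [← PC_eval]
  refine eval_eq_prod (PC_monic p _).1 Dᶜ (fun j => xx m1 m2 A1 A2 j η)
    ((xx_injective m1 m2 A1 A2 hη).injOn) (fun j hj => ?_)
    (by rw [(PC_monic p _).2, Finset.card_compl, hcard]; rfl) X
  rw [PC_eval]
  rcases AA_or_CC m1 m2 A1 A2 hp j hη with h | h
  · exact absurd ((hD η hη j).mpr h) (Finset.mem_compl.mp hj)
  · exact h

end

end Pool.Agent.Steklov
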