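import Mathlib
import Pool.Agent.Steklov.Fiber2

/-!
# Power sums of the roots of the two factors
-/

set_option autoImplicit false

open Complex Metric Set

namespace Pool.Agent.Steklov

/-- power sums of the roots of `X^3 + a X^2 + b X + c` -/
noncomputable def P3 (a b c : ℂ) : ℕ → ℂ
  | 0 => 3
  | 1 => -a
  | 2 => a ^ 2 - 2 * b
  | (n + 3) => -(a * P3 a b c (n + 2) + b * P3 a b c (n + 1) + c * P3 a b c n)

/-- power sums of the roots of `X^4 + a X^3 + b X^2 + c X + d` -/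
noncomputable def P4 (a b c d : ℂ) : ℕ → ℂ
  | 0 => 4
  | 1 => -a
  | 2 => a ^ 2 - 2 * b
  | 3 => -a ^ 3 + 3 * a * b - 3 * c
  | (n + 4) => -(a * P4 a b c d (n + 3) + b * P4 a b c d (n + 2) + c * P4 a b c d (n + 1) +
      d * P4 a b c d n)

theorem P3_eq {a b c r1 r2 r3 : ℂ}
    (h : ∀ X : ℂ, X ^ 3 + a * X ^ 2 + b * X + c = (X - r1) * ((X - r2) * (X - r3))) (n : ℕ) :
    P3 a b c n = r1 ^ n + r2 ^ n + r3 ^ n := by
  have h0 := h 0
  have h1 := h 1
  have h2 := h (-1)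
  have ec : c = -(r1 * r2 * r3) := by linear_combination h0
  have ea : a = -(r1 + r2 + r3) := by linear_combination (1 / 2) * (h1 + h2) - h0
  have eb : b = r1 * r2 + r1 * r3 + r2 * r3 := by linear_combination (1 / 2) * (h1 - h2)
  have key : ∀ n : ℕ, P3 a b c n = r1 ^ n + r2 ^ n + r3 ^ n ∧
      P3 a b c (n + 1) = r1 ^ (n + 1) + r2 ^ (n + 1) + r3 ^ (n + 1) ∧
      P3 a b c (n + 2) = r1 ^ (n + 2) + r2 ^ (n + 2) + r3 ^ (n + 2) := by
    intro n
    induction n with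
    | zero =>
      refine ⟨?_, ?_, ?_⟩
      · rw [P3]; norm_num
      · rw [zero_add, P3, ea]; ring
      · rw [zero_add, P3, ea, eb]; ring
    | succ k ih =>
      obtain ⟨i0, i1, i2⟩ := ih
      refine ⟨i1, i2, ?_⟩
      rw [show k + 1 + 2 = k + 3 by ring, P3, i0, i1, i2, ea, eb, ec]
      ring
  exact (key n).1

theorem P4_eq {a b c d r1 r2 r3 r4 : ℂ}
    (h : ∀ X : ℂ, X ^ 4 + a * X ^ 3 + b * X ^ 2 + c * X + d =
      (X - r1) * ((X - r2) * ((X - r3) * (X - r4)))) (n : ℕ) :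
    P4 a b c d n = r1 ^ n + r2 ^ n + r3 ^ n + r4 ^ n := by
  have h0 := h 0
  have h1 := h 1
  have h2 := h (-1)
  have h3 := h 2
  have ed : d = r1 * r2 * r3 * r4 := by linear_combination h0
  have eb : b = r1 * r2 + r1 * r3 + r1 * r4 + r2 * r3 + r2 * r4 + r3 * r4 := by
    linear_combination (1 / 2) * (h1 + h2) - h0
  have ea : a = -(r1 + r2 + r3 + r4) := by
    linear_combination (1 / 6) * h3 - (1 / 2) * h1 + (1 / 2) * h0 - (1 / 6) * h2
  have ec : c = -(r1 * r2 * r3 + r1 * r2 * r4 + r1 * r3 * r4 + r2 * r3 * r4) := by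
    linear_combination (1 / 2) * (h1 - h2) -
      ((1 / 6) * h3 - (1 / 2) * h1 + (1 / 2) * h0 - (1 / 6) * h2)
  have key : ∀ n : ℕ, P4 a b c d n = r1 ^ n + r2 ^ n + r3 ^ n + r4 ^ n ∧
      P4 a b c d (n + 1) = r1 ^ (n + 1) + r2 ^ (n + 1) + r3 ^ (n + 1) + r4 ^ (n + 1) ∧
      P4 a b c d (n + 2) = r1 ^ (n + 2) + r2 ^ (n + 2) + r3 ^ (n + 2) + r4 ^ (n + 2) ∧
      P4 a b c d (n + 3) = r1 ^ (n + 3) + r2 ^ (n + 3) + r3 ^ (n + 3) + r4 ^ (n + 3) := by
    intro n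
    induction n with
    | zero =>
      refine ⟨?_, ?_, ?_, ?_⟩
      · rw [P4]; norm_num
      · rw [zero_add, P4, ea]; ring
      · rw [zero_add, P4, ea, eb]; ring
      · rw [zero_add, P4, ea, eb, ec]; ring
    | succ k ih =>
      obtain ⟨i0, i1, i2, i3⟩ := ih
      refine ⟨i1, i2, i3, ?_⟩
      rw [show k + 1 + 3 = k + 4 by ring, P4, i0, i1, i2, i3, ea, eb, ec, ed]
      ring
  exact (key n).1

theorem differentiable_P3 {a b c : ℂ → ℂ} (ha : Differentiable ℂ a) (hb : Differentiable ℂ b)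
    (hc : Differentiable ℂ c) (n : ℕ) : Differentiable ℂ (fun y => P3 (a y) (b y) (c y) n) := by
  have key : ∀ n : ℕ, Differentiable ℂ (fun y => P3 (a y) (b y) (c y) n) ∧
      Differentiable ℂ (fun y => P3 (a y) (b y) (c y) (n + 1)) ∧
      Differentiable ℂ (fun y => P3 (a y) (b y) (c y) (n + 2)) := by
    intro n
    induction n with
    | zero =>
      refine ⟨?_, ?_, ?_⟩
      · simp only [P3]; fun_prop
      · simp only [zero_add, P3]; fun_prop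
      · simp only [zero_add, P3]; fun_prop
    | succ k ih =>
      obtain ⟨i0, i1, i2⟩ := ih
      refine ⟨i1, i2, ?_⟩
      simp only [show k + 1 + 2 = k + 3 by ring, P3]
      fun_prop
  exact (key n).1

theorem differentiable_P4 {a b c d : ℂ → ℂ} (ha : Differentiable ℂ a) (hb : Differentiable ℂ b)
    (hc : Differentiable ℂ c) (hd : Differentiable ℂ d) (n : ℕ) :
    Differentiable ℂ (fun y => P4 (a y) (b y) (c y) (d y) n) := by
  have key : ∀ n : ℕ, Differentiable ℂ (fun y => P4 (a y) (b y) (c y) (d y) n) ∧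
      Differentiable ℂ (fun y => P4 (a y) (b y) (c y) (d y) (n + 1)) ∧
      Differentiable ℂ (fun y => P4 (a y) (b y) (c y) (d y) (n + 2)) ∧
      Differentiable ℂ (fun y => P4 (a y) (b y) (c y) (d y) (n + 3)) := by
    intro n
    induction n with
    | zero =>
      refine ⟨?_, ?_, ?_, ?_⟩
      · simp only [P4]; fun_prop
      · simp only [zero_add, P4]; fun_prop
      · simp only [zero_add, P4]; fun_prop
      · simp only [zero_add, P4]; fun_prop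
    | succ k ih =>
      obtain ⟨i0, i1, i2, i3⟩ := ih
      refine ⟨i1, i2, i3, ?_⟩
      simp only [show k + 1 + 3 = k + 4 by ring, P4]
      fun_prop
  exact (key n).1

/-- power sums of the roots of `AA p X y` -/
noncomputable def PPA (p : ℂ) (n : ℕ) (y : ℂ) : ℂ :=
  P3 (p * y) (-((1 - p) * y ^ 2)) (-y ^ 3 + (2 * p - 1)) n

/-- power sums of the roots of `CC p X y` -/
noncomputable def PPC (p : ℂ) (n : ℕ) (y : ℂ) : ℂ :=
  P4 (-(p * y)) (-(y ^ 2)) (-((1 - p) * y ^ 3) + (5 * p + 1)) (y ^ 4 + (6 - 5 * p) * y) n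

theorem differentiable_PPA (p : ℂ) (n : ℕ) : Differentiable ℂ (PPA p n) :=
  differentiable_P3 (by fun_prop) (by fun_prop) (by fun_prop) n

theorem differentiable_PPC (p : ℂ) (n : ℕ) : Differentiable ℂ (PPC p n) :=
  differentiable_P4 (by fun_prop) (by fun_prop) (by fun_prop) (by fun_prop) n

theorem PPA_eq_sum {p y : ℂ} {ι : Type*} [DecidableEq ι] {D : Finset ι} (hD : D.card = 3)
    {x : ι → ℂ} (h : ∀ X, AA p X y = ∏ j ∈ D, (X - x j)) (n : ℕ) :
    PPA p n y = ∑ j ∈ D, x j ^ n := by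
  obtain ⟨i, j, k, hij, hik, hjk, rfl⟩ := Finset.card_eq_three.mp hD
  have h1 : i ∉ ({j, k} : Finset ι) := by simp [hij, hik]
  have h2 : j ∉ ({k} : Finset ι) := by simp [hjk]
  rw [Finset.sum_insert h1, Finset.sum_insert h2, Finset.sum_singleton, ← add_assoc]
  refine P3_eq (fun X => ?_) n
  have := h X
  rw [Finset.prod_insert h1, Finset.prod_insert h2, Finset.prod_singleton] at this
  rw [← this]
  unfold AA
  ring

theorem PPC_eq_sum {p y : ℂ} {ι : Type*} [DecidableEq ι] {D : Finset ι} (hD : D.card = 4)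
    {x : ι → ℂ} (h : ∀ X, CC p X y = ∏ j ∈ D, (X - x j)) (n : ℕ) :
    PPC p n y = ∑ j ∈ D, x j ^ n := by
  obtain ⟨i, j, k, l, hij, hik, hil, hjk, hjl, hkl, rfl⟩ := Finset.card_eq_four.mp hD
  have h1 : i ∉ ({j, k, l} : Finset ι) := by simp [hij, hik, hil]
  have h2 : j ∉ ({k, l} : Finset ι) := by simp [hjk, hjl]
  have h3 : k ∉ ({l} : Finset ι) := by simp [hkl]
  rw [Finset.sum_insert h1, Finset.sum_insert h2, Finset.sum_insert h3, Finset.sum_singleton,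
    ← add_assoc, ← add_assoc]
  refine P4_eq (fun X => ?_) n
  have := h X
  rw [Finset.prod_insert h1, Finset.prod_insert h2, Finset.prod_insert h3,
    Finset.prod_singleton] at this
  rw [← this]
  unfold CC
  ring

theorem norm_PPA_le {p y : ℂ} {ρ : ℝ} (h : ∀ X, AA p X y = 0 → ‖X‖ ≤ ρ) (n : ℕ) :
    ‖PPA p n y‖ ≤ 3 * ρ ^ n := by
  have hs : (PA p y).Splits := IsAlgClosed.splits _
  have hc := hs.natDegree_eq_card_roots
  rw [(PA_monic p y).2] at hc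
  obtain ⟨r1, r2, r3, hr⟩ := Multiset.card_eq_three.mp hc.symm
  have he : ∀ X, AA p X y = (X - r1) * ((X - r2) * (X - r3)) := by
    intro X
    have := hs.eval_eq_prod_roots_of_monic (PA_monic p y).1 X
    rw [PA_eval, hr] at this
    rw [this]
    simp
  have h1 : ‖r1‖ ≤ ρ := h r1 (by rw [he]; ring)
  have h2 : ‖r2‖ ≤ ρ := h r2 (by rw [he]; ring)
  have h3 : ‖r3‖ ≤ ρ := h r3 (by rw [he]; ring)
  have e : PPA p n y = r1 ^ n + r2 ^ n + r3 ^ n := by
    refine P3_eq (fun X => ?_) n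
    rw [← he]
    unfold AA
    ring
  rw [e]
  have g : ∀ r : ℂ, ‖r‖ ≤ ρ → ‖r ^ n‖ ≤ ρ ^ n := by
    intro r hr
    rw [norm_pow]
    exact pow_le_pow_left₀ (norm_nonneg _) hr n
  calc ‖r1 ^ n + r2 ^ n + r3 ^ n‖ ≤ ‖r1 ^ n‖ + ‖r2 ^ n‖ + ‖r3 ^ n‖ := norm_add₃_le
    _ ≤ ρ ^ n + ρ ^ n + ρ ^ n := by linarith [g r1 h1, g r2 h2, g r3 h3]
    _ = 3 * ρ ^ n := by ring

theorem norm_PPC_le {p y : ℂ} {ρ : ℝ} (h : ∀ X, CC p X y = 0 → ‖X‖ ≤ ρ) (n : ℕ) :
    ‖PPC p n y‖ ≤ 4 * ρ ^ n := by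
  have hs : (PC p y).Splits := IsAlgClosed.splits _
  have hc := hs.natDegree_eq_card_roots
  rw [(PC_monic p y).2] at hc
  obtain ⟨r1, r2, r3, r4, hr⟩ := Multiset.card_eq_four.mp hc.symm
  have he : ∀ X, CC p X y = (X - r1) * ((X - r2) * ((X - r3) * (X - r4))) := by
    intro X
    have := hs.eval_eq_prod_roots_of_monic (PC_monic p y).1 X
    rw [PC_eval, hr] at this
    rw [this]
    simp
  have h1 : ‖r1‖ ≤ ρ := h r1 (by rw [he]; ring)
  have h2 : ‖r2‖ ≤ ρ := h r2 (by rw [he]; ring)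
  have h3 : ‖r3‖ ≤ ρ := h r3 (by rw [he]; ring)
  have h4 : ‖r4‖ ≤ ρ := h r4 (by rw [he]; ring)
  have e : PPC p n y = r1 ^ n + r2 ^ n + r3 ^ n + r4 ^ n := by
    refine P4_eq (fun X => ?_) n
    rw [← he]
    unfold CC
    ring
  rw [e]
  have g : ∀ r : ℂ, ‖r‖ ≤ ρ → ‖r ^ n‖ ≤ ρ ^ n := by
    intro r hr
    rw [norm_pow]
    exact pow_le_pow_left₀ (norm_nonneg _) hr n
  calc ‖r1 ^ n + r2 ^ n + r3 ^ n + r4 ^ n‖ ≤ ‖r1 ^ n + r2 ^ n + r3 ^ n‖ + ‖r4 ^ n‖ :=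
        norm_add_le _ _
    _ ≤ ‖r1 ^ n‖ + ‖r2 ^ n‖ + ‖r3 ^ n‖ + ‖r4 ^ n‖ := by
        linarith [norm_add₃_le (a := r1 ^ n) (b := r2 ^ n) (c := r3 ^ n)]
    _ ≤ ρ ^ n + ρ ^ n + ρ ^ n + ρ ^ n := by linarith [g r1 h1, g r2 h2, g r3 h3, g r4 h4]
    _ = 4 * ρ ^ n := by ring

end Pool.Agent.Steklov
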