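import Mathlib
import Pool.Agent.Steklov.PowerSum

/-!
# Holomorphic extension to the interior
-/

set_option autoImplicit false

open Complex Metric Set
open scoped ComplexConjugate Nat
open Pool.Agent.Lib.RiemannMapping (mob)

namespace Pool.Agent.Steklov

/-! ### elementary estimates -/

theorem norm_p_le {p : ℂ} (hp : p ^ 2 - p + 2 = 0) : ‖p‖ ≤ 2 := by
  have h1 : p ^ 2 = p - 2 := by linear_combination hp
  have h2 : ‖p‖ ^ 2 ≤ ‖p‖ + 2 := by
    rw [← norm_pow, h1]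
    calc ‖p - 2‖ ≤ ‖p‖ + ‖(2:ℂ)‖ := norm_sub_le _ _
      _ = ‖p‖ + 2 := by norm_num
  nlinarith [norm_nonneg p]

theorem norm_one_add_I_le_two : ‖(1 + I : ℂ)‖ ≤ 2 := by
  calc ‖(1 + I : ℂ)‖ ≤ ‖(1:ℂ)‖ + ‖I‖ := norm_add_le _ _
    _ = 2 := by norm_num

theorem norm_lower_le {p : ℂ} (hp : p ^ 2 - p + 2 = 0) (x : ℂ) :
    ‖7 * p * x ^ 4 + 7 * (p - 3) * x - (1 + I)‖ ≤ 14 * ‖x‖ ^ 4 + 35 * ‖x‖ + 2 := by
  have h1 := norm_p_le hp
  have h2 : ‖p - 3‖ ≤ 5 := by
    calc ‖p - 3‖ ≤ ‖p‖ + ‖(3:ℂ)‖ := norm_sub_le _ _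
      _ ≤ 2 + 3 := by
        have : ‖(3:ℂ)‖ = 3 := by norm_num
        linarith
      _ = 5 := by norm_num
  have e1 : ‖7 * p * x ^ 4‖ ≤ 14 * ‖x‖ ^ 4 := by
    rw [norm_mul, norm_mul, norm_pow]
    have : ‖(7:ℂ)‖ = 7 := by norm_num
    rw [this]
    have := pow_nonneg (norm_nonneg x) 4
    nlinarith
  have e2 : ‖7 * (p - 3) * x‖ ≤ 35 * ‖x‖ := by
    rw [norm_mul, norm_mul]
    have : ‖(7:ℂ)‖ = 7 := by norm_num
    rw [this]
    have := norm_nonneg x
    nlinarith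
  calc ‖7 * p * x ^ 4 + 7 * (p - 3) * x - (1 + I)‖
      ≤ ‖7 * p * x ^ 4 + 7 * (p - 3) * x‖ + ‖(1 + I : ℂ)‖ := norm_sub_le _ _
    _ ≤ ‖7 * p * x ^ 4‖ + ‖7 * (p - 3) * x‖ + ‖(1 + I : ℂ)‖ := by
        linarith [norm_add_le (7 * p * x ^ 4) (7 * (p - 3) * x)]
    _ ≤ 14 * ‖x‖ ^ 4 + 35 * ‖x‖ + 2 := by linarith [norm_one_add_I_le_two]

theorem FF_eq (p x : ℂ) : FF p x = x ^ 7 + (7 * p * x ^ 4 + 7 * (p - 3) * x - (1 + I)) := by
  unfold FF; ring

theorem norm_FF_lt {p : ℂ} (hp : p ^ 2 - p + 2 = 0) {x : ℂ} (hx : ‖x‖ < 999) :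
    ‖FF p x‖ < RR := by
  have h1 := norm_lower_le hp x
  have h0 := norm_nonneg x
  have h4 : ‖x‖ ^ 4 ≤ 999 ^ 4 := pow_le_pow_left₀ h0 hx.le 4
  have h7 : ‖x‖ ^ 7 ≤ 999 ^ 7 := pow_le_pow_left₀ h0 hx.le 7
  calc ‖FF p x‖ ≤ ‖x ^ 7‖ + ‖7 * p * x ^ 4 + 7 * (p - 3) * x - (1 + I)‖ := by
        rw [FF_eq]; exact norm_add_le _ _
    _ ≤ 999 ^ 7 + (14 * 999 ^ 4 + 35 * 999 + 2) := by
        rw [norm_pow]; linarith
    _ < RR := by unfold RR; norm_num

theorem norm_le_of_FF {p : ℂ} (hp : p ^ 2 - p + 2 = 0) {x : ℂ}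
    (hx : ‖FF p x‖ ≤ 81 / 100 * RR) : ‖x‖ ≤ 980 := by
  by_contra h
  push Not at h
  have h1 := norm_lower_le hp x
  have h2 : ‖x‖ ^ 7 ≤ ‖FF p x‖ + ‖7 * p * x ^ 4 + 7 * (p - 3) * x - (1 + I)‖ := by
    rw [← norm_pow]
    have : x ^ 7 = FF p x - (7 * p * x ^ 4 + 7 * (p - 3) * x - (1 + I)) := by rw [FF_eq]; ring
    calc ‖x ^ 7‖ = ‖FF p x - (7 * p * x ^ 4 + 7 * (p - 3) * x - (1 + I))‖ := by rw [← this]
      _ ≤ _ := norm_sub_le _ _
  set t := ‖x‖ with ht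
  have h3 : (980:ℝ) ^ 3 ≤ t ^ 3 := pow_le_pow_left₀ (by norm_num) h.le 3
  have e : t ^ 7 - 14 * t ^ 4 - 35 * t = t * (t ^ 3 * (t ^ 3 - 14) - 35) := by ring
  have h5 : (980:ℝ) ^ 3 * (980 ^ 3 - 14) ≤ t ^ 3 * (t ^ 3 - 14) :=
    mul_le_mul h3 (by linarith) (by norm_num) (by positivity)
  have h6 : (980:ℝ) * (980 ^ 3 * (980 ^ 3 - 14) - 35) ≤ t * (t ^ 3 * (t ^ 3 - 14) - 35) :=
    mul_le_mul h.le (by linarith) (by norm_num) (by linarith)
  have h7 : (980:ℝ) * (980 ^ 3 * (980 ^ 3 - 14) - 35) ≤ 81 / 100 * RR + 2 := by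
    rw [← e] at h6
    linarith
  unfold RR at h7
  norm_num at h7

theorem norm_Bl_le {u : ℂ} {a : Fin 7 → ℂ} (hu : ‖u‖ = 1) (ha : ∀ j, ‖a j‖ ≤ 1 / 200) {z : ℂ}
    (hz : ‖z‖ ≤ 96 / 100) : ‖Bl u a z‖ ≤ 81 / 100 := by
  have hm : ∀ j, ‖mob (a j) z‖ ≤ 97 / 100 := by
    intro j
    have hj := ha j
    have h0 := norm_nonneg (a j)
    have h0z := norm_nonneg z
    have h1 : ‖conj (a j) * z‖ ≤ 1 / 200 * (96 / 100) := by
      rw [norm_mul, RCLike.norm_conj]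
      exact mul_le_mul hj hz h0z (by norm_num)
    have h2 : 1 - 1 / 200 * (96 / 100) ≤ ‖1 - conj (a j) * z‖ := by
      have := norm_sub_norm_le (1:ℂ) (conj (a j) * z)
      rw [norm_one] at this
      linarith
    have h3 : ‖z - a j‖ ≤ 96 / 100 + 1 / 200 := (norm_sub_le _ _).trans (by linarith)
    rw [mob, norm_div, div_le_iff₀ (by linarith)]
    linarith
  rw [Bl, norm_mul, hu, one_mul, norm_prod]
  calc ∏ j, ‖mob (a j) z‖ ≤ ∏ _j : Fin 7, (97 / 100 : ℝ) :=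
        Finset.prod_le_prod (fun j _ => norm_nonneg _) (fun j _ => hm j)
    _ = (97 / 100) ^ 7 := by rw [Finset.prod_const, Finset.card_univ, Fintype.card_fin]
    _ ≤ 81 / 100 := by norm_num

/-! ### Taylor coefficients -/

/-- Taylor coefficients at the origin -/
noncomputable def tc (g : ℂ → ℂ) (n : ℕ) : ℂ := (n ! : ℂ)⁻¹ * iteratedDeriv n g 0

theorem hasSum_tc {g : ℂ → ℂ} (hg : DifferentiableOn ℂ g (ball 0 999)) {x : ℂ}
    (hx : ‖x‖ < 999) : HasSum (fun n => tc g n * x ^ n) (g x) := by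
  have h := Complex.hasSum_taylorSeries_on_ball hg
    (z := x) (by rw [mem_ball_zero_iff]; exact hx)
  refine h.congr_fun ?_
  intro n
  simp only [tc, sub_zero, smul_eq_mul]
  ring

theorem summable_tc {g : ℂ → ℂ} (hg : DifferentiableOn ℂ g (ball 0 999)) :
    Summable (fun n => ‖tc g n‖ * 980 ^ n) := by
  have h := (hasSum_tc hg (x := 980) (by norm_num)).summable.norm
  refine h.congr ?_
  intro n
  rw [norm_mul, norm_pow]
  norm_num

section

variable {p : ℂ} (m1 : BModel (FF p)) (m2 : BModel (FF (1 - p)))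
  (A1 : AnnCoord m1.u m1.a) (A2 : AnnCoord m2.u m2.a)

/-- the interior function -/
noncomputable def Vin (H : Polynomial ℂ) (η : ℂ) : ℂ :=
  ∑' n, tc (fun x => H.eval (m1.β x)) n * (cA * PPA p n (m2.α η) + cC * PPC p n (m2.α η))

/-- the function near the boundary -/
noncomputable def Vout (D : Finset (ZMod 7)) (H : Polynomial ℂ) (η : ℂ) : ℂ :=
  ∑ j, (coef D j : ℂ) * H.eval (zz m1 m2 A1 A2 j η)

theorem differentiableOn_g (hp : p ^ 2 - p + 2 = 0) (H : Polynomial ℂ) :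
    DifferentiableOn ℂ (fun x => H.eval (m1.β x)) (ball 0 999) := by
  have h1 : DifferentiableOn ℂ m1.β (ball 0 999) := m1.hβ.mono (fun x hx => by
    rw [mem_ball_zero_iff] at hx
    exact norm_FF_lt hp hx)
  exact H.differentiable.comp_differentiableOn h1

theorem root_bound (hp : p ^ 2 - p + 2 = 0) {η : ℂ} (hη : ‖η‖ ≤ 96 / 100) {X : ℂ}
    (hX : FF p X = FF (1 - p) (m2.α η)) : ‖X‖ ≤ 980 := by
  apply norm_le_of_FF hp
  rw [hX, m2.hB η (by linarith), norm_mul]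
  have h1 := norm_Bl_le m2.hu m2.ha hη
  have h2 : ‖(RR:ℂ)‖ = RR := by
    rw [Complex.norm_real]
    exact Real.norm_of_nonneg (by unfold RR; positivity)
  rw [h2, mul_comm]
  exact mul_le_mul_of_nonneg_right h1 (by unfold RR; positivity)

theorem term_bound (hp : p ^ 2 - p + 2 = 0) (n : ℕ) {η : ℂ} (hη : ‖η‖ ≤ 96 / 100) :
    ‖(cA : ℂ) * PPA p n (m2.α η) + cC * PPC p n (m2.α η)‖ ≤
      (|cA| * 3 + |cC| * 4) * 980 ^ n := by
  have h1 : ‖PPA p n (m2.α η)‖ ≤ 3 * 980 ^ n := norm_PPA_le (fun X hX => by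
    apply root_bound m2 hp hη
    have := FF_sub hp X (m2.α η)
    rw [hX, zero_mul] at this
    exact sub_eq_zero.mp this) n
  have h2 : ‖PPC p n (m2.α η)‖ ≤ 4 * 980 ^ n := norm_PPC_le (fun X hX => by
    apply root_bound m2 hp hη
    have := FF_sub hp X (m2.α η)
    rw [hX, mul_zero] at this
    exact sub_eq_zero.mp this) n
  calc ‖(cA : ℂ) * PPA p n (m2.α η) + cC * PPC p n (m2.α η)‖
      ≤ ‖(cA : ℂ) * PPA p n (m2.α η)‖ + ‖(cC : ℂ) * PPC p n (m2.α η)‖ := norm_add_le _ _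
    _ = |cA| * ‖PPA p n (m2.α η)‖ + |cC| * ‖PPC p n (m2.α η)‖ := by
        rw [norm_mul, norm_mul, Complex.norm_real, Complex.norm_real, Real.norm_eq_abs,
          Real.norm_eq_abs]
    _ ≤ |cA| * (3 * 980 ^ n) + |cC| * (4 * 980 ^ n) := by gcongr
    _ = _ := by ring

theorem summable_Vin (hp : p ^ 2 - p + 2 = 0) (H : Polynomial ℂ) {η : ℂ}
    (hη : ‖η‖ ≤ 96 / 100) :
    Summable (fun n => tc (fun x => H.eval (m1.β x)) n *
      ((cA : ℂ) * PPA p n (m2.α η) + cC * PPC p n (m2.α η))) := by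
  have hs := (summable_tc (differentiableOn_g m1 hp H)).mul_left (|cA| * 3 + |cC| * 4)
  refine Summable.of_norm_bounded hs (fun n => ?_)
  rw [norm_mul]
  have h1 := term_bound m2 hp n hη
  calc _ ≤ ‖tc (fun x => H.eval (m1.β x)) n‖ * ((|cA| * 3 + |cC| * 4) * 980 ^ n) := by gcongr
    _ = _ := by ring

theorem differentiableOn_Vin (hp : p ^ 2 - p + 2 = 0) (H : Polynomial ℂ) :
    DifferentiableOn ℂ (Vin m1 m2 H) (ball 0 (96 / 100)) := by
  have hs := (summable_tc (differentiableOn_g m1 hp H)).mul_left (|cA| * 3 + |cC| * 4)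
  refine differentiableOn_tsum_of_summable_norm hs (fun n => ?_) isOpen_ball (fun n η hη => ?_)
  · have hα : DifferentiableOn ℂ m2.α (ball 0 (96 / 100)) :=
      m2.hα.mono (ball_subset_ball (by norm_num))
    have h1 : DifferentiableOn ℂ (fun η => PPA p n (m2.α η)) (ball 0 (96 / 100)) :=
      (differentiable_PPA p n).comp_differentiableOn hα
    have h2 : DifferentiableOn ℂ (fun η => PPC p n (m2.α η)) (ball 0 (96 / 100)) :=
      (differentiable_PPC p n).comp_differentiableOn hα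
    exact ((h1.const_mul _).add (h2.const_mul _)).const_mul _
  · rw [mem_ball_zero_iff] at hη
    rw [norm_mul]
    have h1 := term_bound m2 hp n hη.le
    calc _ ≤ ‖tc (fun x => H.eval (m1.β x)) n‖ * ((|cA| * 3 + |cC| * 4) * 980 ^ n) := by gcongr
      _ = _ := by ring

theorem Vin_eq_Vout (hp : p ^ 2 - p + 2 = 0) {D : Finset (ZMod 7)} (hcard : D.card = 3)
    (hD : ∀ η ∈ Ain, ∀ j, (j ∈ D ↔ AA p (xx m1 m2 A1 A2 j η) (m2.α η) = 0))
    (H : Polynomial ℂ) {η : ℂ} (h1 : 19 / 20 < ‖η‖) (h2 : ‖η‖ ≤ 96 / 100) :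
    Vin m1 m2 H η = Vout m1 m2 A1 A2 D H η := by
  classical
  have hη : η ∈ Ain := ⟨h1, by linarith⟩
  have hg := differentiableOn_g m1 hp H
  set g : ℂ → ℂ := fun x => H.eval (m1.β x) with hgdef
  have hgx : ∀ j, g (xx m1 m2 A1 A2 j η) = H.eval (zz m1 m2 A1 A2 j η) := by
    intro j
    rw [hgdef]
    simp only
    rw [β_xx m1 m2 A1 A2 j hη]
  have hsum : HasSum (fun n => ∑ j, (coef D j : ℂ) * (tc g n * xx m1 m2 A1 A2 j η ^ n))
      (∑ j, (coef D j : ℂ) * g (xx m1 m2 A1 A2 j η)) := by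
    apply hasSum_sum
    intro j _
    apply HasSum.mul_left
    apply hasSum_tc hg
    have := root_bound m2 hp h2 (FF_xx m1 m2 A1 A2 j hη)
    linarith
  have hA := AA_prod m1 m2 A1 A2 hp hcard hD hη
  have hC := CC_prod m1 m2 A1 A2 hp hcard hD hη
  have hcard4 : (Dᶜ).card = 4 := by rw [Finset.card_compl, hcard]; rfl
  have hterm : ∀ n, ∑ j, (coef D j : ℂ) * (tc g n * xx m1 m2 A1 A2 j η ^ n) =
      tc g n * ((cA : ℂ) * PPA p n (m2.α η) + cC * PPC p n (m2.α η)) := by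
    intro n
    rw [PPA_eq_sum hcard hA, PPC_eq_sum hcard4 hC, ← Finset.sum_add_sum_compl D,
      Finset.mul_sum, Finset.mul_sum, mul_add, Finset.mul_sum, Finset.mul_sum]
    congr 1
    · refine Finset.sum_congr rfl (fun j hj => ?_)
      rw [coef, if_pos hj]; ring
    · refine Finset.sum_congr rfl (fun j hj => ?_)
      rw [coef, if_neg (Finset.mem_compl.mp hj)]; ring
  rw [Vin, Vout]
  simp_rw [hterm, hgx] at hsum
  exact hsum.tsum_eq

theorem differentiableOn_Vout (D : Finset (ZMod 7)) (H : Polynomial ℂ) :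
    DifferentiableOn ℂ (Vout m1 m2 A1 A2 D H) {η | 19 / 20 < ‖η‖ ∧ ‖η‖ < 21 / 20} := by
  unfold Vout
  refine DifferentiableOn.fun_sum (fun j _ => ?_)
  exact (H.differentiable.comp_differentiableOn (differentiableOn_zz m1 m2 A1 A2 j)).const_mul _

/-! ### linearity -/

theorem contDiffAt_g (hp : p ^ 2 - p + 2 = 0) (H : Polynomial ℂ) (n : ℕ) :
    ContDiffAt ℂ n (fun x => H.eval (m1.β x)) 0 :=
  ((differentiableOn_g m1 hp H).analyticAt (isOpen_ball.mem_nhds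
    (mem_ball_self (by norm_num)))).contDiffAt

theorem tc_add (hp : p ^ 2 - p + 2 = 0) (H G : Polynomial ℂ) (n : ℕ) :
    tc (fun x => (H + G).eval (m1.β x)) n =
      tc (fun x => H.eval (m1.β x)) n + tc (fun x => G.eval (m1.β x)) n := by
  have e : (fun x => (H + G).eval (m1.β x)) =
      (fun x => H.eval (m1.β x)) + (fun x => G.eval (m1.β x)) := by
    funext x
    simp
  rw [tc, e, iteratedDeriv_add (contDiffAt_g m1 hp H n) (contDiffAt_g m1 hp G n)]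
  simp only [tc]
  ring

theorem tc_smul (H : Polynomial ℂ) (r : ℝ) (n : ℕ) :
    tc (fun x => (r • H).eval (m1.β x)) n = r • tc (fun x => H.eval (m1.β x)) n := by
  have e : (fun x => (r • H).eval (m1.β x)) = (r : ℂ) • (fun x => H.eval (m1.β x)) := by
    funext x
    simp only [Pi.smul_apply, smul_eq_mul]
    rw [← Complex.coe_smul, Polynomial.eval_smul, smul_eq_mul]
  rw [tc, e, iteratedDeriv_const_smul_field]
  simp only [tc, smul_eq_mul, Complex.real_smul]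
  ring

/-- the transplantation -/
noncomputable def TT (D : Finset (ZMod 7)) (H : Polynomial ℂ) (η : ℂ) : ℂ :=
  if ‖η‖ < 191 / 200 then Vin m1 m2 H η
  else if ‖η‖ < 21 / 20 then Vout m1 m2 A1 A2 D H η else 0

theorem TT_add (hp : p ^ 2 - p + 2 = 0) (D : Finset (ZMod 7)) (H G : Polynomial ℂ) :
    TT m1 m2 A1 A2 D (H + G) = TT m1 m2 A1 A2 D H + TT m1 m2 A1 A2 D G := by
  funext η
  simp only [TT, Pi.add_apply]
  split_ifs with h1 h2
  · rw [Vin, Vin, Vin, ← (summable_Vin m1 m2 hp H (by linarith)).tsum_add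
      (summable_Vin m1 m2 hp G (by linarith))]
    refine tsum_congr (fun n => ?_)
    rw [tc_add m1 hp]
    ring
  · rw [Vout, Vout, Vout, ← Finset.sum_add_distrib]
    refine Finset.sum_congr rfl (fun j _ => ?_)
    rw [Polynomial.eval_add]
    ring
  · simp

theorem TT_smul (D : Finset (ZMod 7)) (r : ℝ) (H : Polynomial ℂ) :
    TT m1 m2 A1 A2 D (r • H) = r • TT m1 m2 A1 A2 D H := by
  funext η
  simp only [TT, Pi.smul_apply]
  split_ifs with h1 h2
  · rw [Vin, Vin, Complex.real_smul, ← tsum_mul_left]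
    refine tsum_congr (fun n => ?_)
    rw [tc_smul m1, Complex.real_smul]
    ring
  · rw [Vout, Vout, Complex.real_smul, Finset.mul_sum]
    refine Finset.sum_congr rfl (fun j _ => ?_)
    rw [← Complex.coe_smul, Polynomial.eval_smul, smul_eq_mul]
    ring
  · simp

theorem differentiableOn_TT (hp : p ^ 2 - p + 2 = 0) {D : Finset (ZMod 7)} (hcard : D.card = 3)
    (hD : ∀ η ∈ Ain, ∀ j, (j ∈ D ↔ AA p (xx m1 m2 A1 A2 j η) (m2.α η) = 0))
    (H : Polynomial ℂ) : DifferentiableOn ℂ (TT m1 m2 A1 A2 D H) (ball 0 (21 / 20)) := by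
  have hV := differentiableOn_Vin m1 m2 hp H
  have hW := differentiableOn_Vout m1 m2 A1 A2 D H
  intro η hη
  rw [mem_ball_zero_iff] at hη
  rcases lt_or_ge ‖η‖ (96 / 100) with h | h
  · have h1 : DifferentiableAt ℂ (Vin m1 m2 H) η :=
      hV.differentiableAt (isOpen_ball.mem_nhds (by rw [mem_ball_zero_iff]; exact h))
    refine (h1.congr_of_eventuallyEq ?_).differentiableWithinAt
    have hn : ball (0:ℂ) (96 / 100) ∈ nhds η :=
      isOpen_ball.mem_nhds (by rw [mem_ball_zero_iff]; exact h)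
    filter_upwards [hn] with ζ hζ
    rw [mem_ball_zero_iff] at hζ
    simp only [TT]
    split_ifs with c1 c2
    · rfl
    · exact (Vin_eq_Vout m1 m2 A1 A2 hp hcard hD H (by linarith) hζ.le).symm
    · exact absurd (hζ.trans (by norm_num)) c2
  · have k1 : 191 / 200 < ‖η‖ := by linarith
    have k2 : 19 / 20 < ‖η‖ := by linarith
    have hn : {η : ℂ | 191 / 200 < ‖η‖ ∧ ‖η‖ < 21 / 20} ∈ nhds η :=
      ((isOpen_lt continuous_const continuous_norm).inter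
        (isOpen_lt continuous_norm continuous_const)).mem_nhds ⟨k1, hη⟩
    have hn' : {η : ℂ | 19 / 20 < ‖η‖ ∧ ‖η‖ < 21 / 20} ∈ nhds η :=
      ((isOpen_lt continuous_const continuous_norm).inter
        (isOpen_lt continuous_norm continuous_const)).mem_nhds ⟨k2, hη⟩
    have h1 : DifferentiableAt ℂ (Vout m1 m2 A1 A2 D H) η := hW.differentiableAt hn'
    refine (h1.congr_of_eventuallyEq ?_).differentiableWithinAt
    filter_upwards [hn] with ζ hζ
    simp only [TT]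
    rw [if_neg (by linarith [hζ.1]), if_pos hζ.2]

end

end Pool.Agent.Steklov
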