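import Mathlib
import Pool.Agent.Steklov.Interior

/-!
# Transplantation: boundary identities
-/

set_option autoImplicit false

open Complex Metric Set MeasureTheory
open scoped ComplexConjugate

namespace Pool.Agent.Steklov

theorem continuous_dB {F : ℂ → ℂ} (m : BModel F) :
    Continuous (fun θ : ℝ => ‖deriv (Bl m.u m.a) (exp (θ * I))‖) := by
  have h1 : DifferentiableOn ℂ (Bl m.u m.a) (ball 0 2) := fun z hz =>
    (m.hderiv z (by rwa [mem_ball_zero_iff] at hz)).differentiableAt.differentiableWithinAt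
  have h2 : ContinuousOn (deriv (Bl m.u m.a)) (ball 0 2) := (h1.deriv isOpen_ball).continuousOn
  have h3 : Continuous (fun θ : ℝ => exp (θ * I)) := by fun_prop
  have h4 : Continuous (fun θ : ℝ => deriv (Bl m.u m.a) (exp (θ * I))) :=
    h2.comp_continuous h3 (fun θ => by
      rw [mem_ball_zero_iff, Complex.norm_exp_ofReal_mul_I]; norm_num)
  exact h4.norm

theorem subst_tau {F : ℂ → ℂ} (m : BModel F) (A : AnnCoord m.u m.a) {G : ℝ → ℝ}
    (hG : Continuous G) (pG : Function.Periodic G (2 * Real.pi)) :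
    ∫ θ in (0:ℝ)..2 * Real.pi, G (A.τ θ) * ‖deriv (Bl m.u m.a) (exp (θ * I))‖ =
      7 * ∫ t in (0:ℝ)..2 * Real.pi, G t := by
  have h := intervalIntegral.integral_comp_mul_deriv (a := 0) (b := 2 * Real.pi) (f := A.τ)
    (f' := fun θ => ‖deriv (Bl m.u m.a) (exp (θ * I))‖ / 7) (g := G)
    (fun θ _ => A.hτ θ) ((continuous_dB m).div_const 7).continuousOn hG
  have h2 : A.τ (2 * Real.pi) = A.τ 0 + 2 * Real.pi := by
    have := A.hτper 0
    rwa [zero_add] at this
  rw [h2] at h
  have h3 := pG.intervalIntegral_add_eq (A.τ 0) 0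
  rw [zero_add] at h3
  rw [h3] at h
  rw [← h, ← intervalIntegral.integral_const_mul]
  refine intervalIntegral.integral_congr (fun θ _ => ?_)
  simp only [Function.comp_apply]
  ring

theorem bdryN_of {F : ℂ → ℂ} (m : BModel F) (A : AnnCoord m.u m.a) {V : ℂ → ℂ} {φ : ℝ → ℂ}
    (hφ : Continuous φ) (pφ : Function.Periodic φ (2 * Real.pi))
    (hV : ∀ θ : ℝ, V (exp (θ * I)) = φ (A.τ θ)) :
    bdryN m.u m.a (fun z => (V z).re) = 7 * ∫ t in (0:ℝ)..2 * Real.pi, (φ t).re * (φ t).re := by
  have hc : Continuous (fun t => (φ t).re * (φ t).re) := by fun_prop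
  have hp : Function.Periodic (fun t => (φ t).re * (φ t).re) (2 * Real.pi) := fun t => by
    simp only [pφ t]
  rw [← subst_tau m A hc hp, bdryN]
  refine intervalIntegral.integral_congr (fun θ _ => ?_)
  simp only [hV θ]
  ring

theorem dirE_of {F : ℂ → ℂ} (m : BModel F) (A : AnnCoord m.u m.a) {V : ℂ → ℂ} {φ φ' : ℝ → ℂ}
    (hφ : ∀ t, HasDerivAt φ (φ' t) t) (hφ' : Continuous φ')
    (pφ : Function.Periodic φ (2 * Real.pi)) (pφ' : Function.Periodic φ' (2 * Real.pi))
    (hVd : ∀ θ : ℝ, DifferentiableAt ℂ V (exp (θ * I)))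
    (hV : ∀ θ : ℝ, V (exp (θ * I)) = φ (A.τ θ)) :
    dirE V = ∫ t in (0:ℝ)..2 * Real.pi, (φ t).re * (φ' t).im := by
  have hφc : Continuous φ := continuous_iff_continuousAt.mpr fun t => (hφ t).continuousAt
  have hc : Continuous (fun t => (φ t).re * (φ' t).im) := by fun_prop
  have hp : Function.Periodic (fun t => (φ t).re * (φ' t).im) (2 * Real.pi) := fun t => by
    simp only [pφ t, pφ' t]
  have h7 := subst_tau m A hc hp
  have h8 : ∫ t in (0:ℝ)..2 * Real.pi, (φ t).re * (φ' t).im = (1 / 7) *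
      ∫ θ in (0:ℝ)..2 * Real.pi, ((φ (A.τ θ)).re * (φ' (A.τ θ)).im) *
        ‖deriv (Bl m.u m.a) (exp (θ * I))‖ := by
    rw [h7]; ring
  rw [h8, dirE, ← intervalIntegral.integral_const_mul]
  refine intervalIntegral.integral_congr (fun θ _ => ?_)
  -- the derivative along the circle
  have he : HasDerivAt (fun θ : ℝ => exp (θ * I)) (exp (θ * I) * I) θ := by
    have h1 : HasDerivAt (fun z : ℂ => exp (z * I)) (exp (θ * I) * I) (θ : ℂ) := by
      have := ((hasDerivAt_id (θ : ℂ)).mul_const I).cexp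
      simpa using this
    exact h1.comp_ofReal
  have h1 : HasDerivAt (fun θ : ℝ => V (exp (θ * I))) (deriv V (exp (θ * I)) * (exp (θ * I) * I))
      θ := (hVd θ).hasDerivAt.comp θ he
  have h2 : HasDerivAt (fun θ : ℝ => V (exp (θ * I)))
      ((‖deriv (Bl m.u m.a) (exp (θ * I))‖ / 7 : ℝ) • φ' (A.τ θ)) θ := by
    have h3 := (hφ (A.τ θ)).scomp θ (A.hτ θ)
    refine h3.congr_of_eventuallyEq (Filter.Eventually.of_forall fun t => ?_)
    exact hV t
  have h4 := h1.unique h2
  have h5 : (exp (θ * I) * deriv V (exp (θ * I))).re =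
      (deriv V (exp (θ * I)) * (exp (θ * I) * I)).im := by
    simp only [mul_re, mul_im, I_re, I_im]
    ring
  rw [h5, h4, Complex.smul_im, hV θ, smul_eq_mul]
  ring

section

variable {p : ℂ} (m1 : BModel (FF p)) (m2 : BModel (FF (1 - p)))
  (A1 : AnnCoord m1.u m1.a) (A2 : AnnCoord m2.u m2.a)

/-- the values of a polynomial in the boundary parameter -/
noncomputable def hh (H : Polynomial ℂ) (t : ℝ) : ℂ := H.eval (A1.K (exp (t * I)))

/-- its derivative -/
noncomputable def hh' (H : Polynomial ℂ) (t : ℝ) : ℂ :=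
  H.derivative.eval (A1.K (exp (t * I))) * (deriv A1.K (exp (t * I)) * (exp (t * I) * I))

theorem ring_mem (t : ℝ) : exp (t * I) ∈ {W : ℂ | 9 / 10 < ‖W‖ ∧ ‖W‖ < 11 / 10} := by
  constructor <;> rw [Complex.norm_exp_ofReal_mul_I] <;> norm_num

theorem isOpen_ring' (a b : ℝ) : IsOpen {z : ℂ | a < ‖z‖ ∧ ‖z‖ < b} :=
  (isOpen_lt continuous_const continuous_norm).inter (isOpen_lt continuous_norm continuous_const)

theorem hasDerivAt_hh (H : Polynomial ℂ) (t : ℝ) :
    HasDerivAt (hh m1 A1 H) (hh' m1 A1 H t) t := by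
  have he : HasDerivAt (fun θ : ℝ => exp (θ * I)) (exp (t * I) * I) t := by
    have h1 : HasDerivAt (fun z : ℂ => exp (z * I)) (exp (t * I) * I) (t : ℂ) := by
      have := ((hasDerivAt_id (t : ℂ)).mul_const I).cexp
      simpa using this
    exact h1.comp_ofReal
  have hK : HasDerivAt A1.K (deriv A1.K (exp (t * I))) (exp (t * I)) :=
    (A1.hK.differentiableAt ((isOpen_ring' _ _).mem_nhds (ring_mem t))).hasDerivAt
  have h1 : HasDerivAt (fun θ : ℝ => A1.K (exp (θ * I)))
      (deriv A1.K (exp (t * I)) * (exp (t * I) * I)) t := hK.comp t he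
  exact (H.hasDerivAt (A1.K (exp (t * I)))).comp t h1

theorem continuous_hh' (H : Polynomial ℂ) : Continuous (hh' m1 A1 H) := by
  have he : Continuous (fun θ : ℝ => exp (θ * I)) := by fun_prop
  have hK : Continuous (fun θ : ℝ => A1.K (exp (θ * I))) :=
    A1.hK.continuousOn.comp_continuous he ring_mem
  have hK' : Continuous (fun θ : ℝ => deriv A1.K (exp (θ * I))) :=
    (A1.hK.deriv (isOpen_ring' _ _)).continuousOn.comp_continuous he ring_mem
  unfold hh'
  exact (H.derivative.continuous.comp hK).mul (hK'.mul (he.mul continuous_const))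

theorem exp_periodic' (t : ℝ) : exp (((t + 2 * Real.pi : ℝ) : ℂ) * I) = exp (t * I) := by
  push_cast
  rw [add_mul, Complex.exp_periodic]

theorem periodic_hh (H : Polynomial ℂ) : Function.Periodic (hh m1 A1 H) (2 * Real.pi) := by
  intro t
  rw [hh, hh, exp_periodic']

theorem periodic_hh' (H : Polynomial ℂ) : Function.Periodic (hh' m1 A1 H) (2 * Real.pi) := by
  intro t
  rw [hh', hh', exp_periodic']

theorem eval_exp_hh (H : Polynomial ℂ) (θ : ℝ) :
    H.eval (exp (θ * I)) = hh m1 A1 H (A1.τ θ) := by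
  rw [hh, ← A1.hLτ θ, A1.hKL]
  · rw [Complex.norm_exp_ofReal_mul_I]; norm_num
  · rw [Complex.norm_exp_ofReal_mul_I]; norm_num

theorem TT_exp (D : Finset (ZMod 7)) (H : Polynomial ℂ) (θ : ℝ) :
    TT m1 m2 A1 A2 D H (exp (θ * I)) =
      ∑ j, (coef D j : ℂ) * hh m1 A1 H (A2.τ θ + sh j) := by
  rw [TT, if_neg (by rw [Complex.norm_exp_ofReal_mul_I]; norm_num),
    if_pos (by rw [Complex.norm_exp_ofReal_mul_I]; norm_num), Vout]
  refine Finset.sum_congr rfl (fun j _ => ?_)
  rw [zz, hh, A2.hLτ θ, rt, ← Complex.exp_add]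
  congr 4
  push_cast
  ring

/-- the transplantation as a linear map -/
noncomputable def TL (hp : p ^ 2 - p + 2 = 0) (D : Finset (ZMod 7)) :
    Polynomial ℂ →ₗ[ℝ] (ℂ → ℂ) where
  toFun H := TT m1 m2 A1 A2 D H
  map_add' H G := TT_add m1 m2 A1 A2 hp D H G
  map_smul' r H := TT_smul m1 m2 A1 A2 D r H

include m1 m2 A1 A2 in
theorem transplant_aux (hp : p ^ 2 - p + 2 = 0) :
    ∃ T : Polynomial ℂ →ₗ[ℝ] (ℂ → ℂ), ∀ H : Polynomial ℂ,
      DifferentiableOn ℂ (T H) (ball 0 (21 / 20)) ∧
      bdryN m2.u m2.a (fun z => (T H z).re) = bdryN m1.u m1.a (fun z => (H.eval z).re) ∧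
      dirE (T H) = dirE (fun z => H.eval z) := by
  obtain ⟨D, hcard, hD⟩ := exists_D m1 m2 A1 A2 hp
  have hdiff := diff_prop m1 m2 A1 A2 hp hD
  have horth := coef_orth D hcard hdiff
  refine ⟨TL m1 m2 A1 A2 hp D, fun H => ?_⟩
  change DifferentiableOn ℂ (TT m1 m2 A1 A2 D H) (ball 0 (21 / 20)) ∧
      bdryN m2.u m2.a (fun z => (TT m1 m2 A1 A2 D H z).re) =
        bdryN m1.u m1.a (fun z => (H.eval z).re) ∧
      dirE (TT m1 m2 A1 A2 D H) = dirE (fun z => H.eval z)
  have hTd := differentiableOn_TT m1 m2 A1 A2 hp hcard hD H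
  have hhd := hasDerivAt_hh m1 A1 H
  have hhc : Continuous (hh m1 A1 H) :=
    continuous_iff_continuousAt.mpr fun t => (hhd t).continuousAt
  have hhc' := continuous_hh' m1 A1 H
  have php := periodic_hh m1 A1 H
  have php' := periodic_hh' m1 A1 H
  -- the sum functions
  set φ : ℝ → ℂ := fun t => ∑ j, (coef D j : ℂ) * hh m1 A1 H (t + sh j) with hφ
  set φ' : ℝ → ℂ := fun t => ∑ j, (coef D j : ℂ) * hh' m1 A1 H (t + sh j) with hφ'
  have hφd : ∀ t, HasDerivAt φ (φ' t) t := by
    intro t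
    apply HasDerivAt.fun_sum
    intro j _
    apply HasDerivAt.const_mul
    exact HasDerivAt.comp_add_const t (sh j) (hhd (t + sh j))
  have hφc : Continuous φ := by rw [hφ]; fun_prop
  have hφc' : Continuous φ' := by rw [hφ']; fun_prop
  have pφ : Function.Periodic φ (2 * Real.pi) := by
    intro t
    simp only [hφ]
    refine Finset.sum_congr rfl (fun j _ => ?_)
    rw [add_right_comm, php]
  have pφ' : Function.Periodic φ' (2 * Real.pi) := by
    intro t
    simp only [hφ']
    refine Finset.sum_congr rfl (fun j _ => ?_)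
    rw [add_right_comm, php']
  have hre : ∀ t, (φ t).re = ∑ j, coef D j * (hh m1 A1 H (t + sh j)).re := by
    intro t
    simp only [hφ, Complex.re_sum, Complex.re_ofReal_mul]
  have him : ∀ t, (φ' t).im = ∑ j, coef D j * (hh' m1 A1 H (t + sh j)).im := by
    intro t
    simp only [hφ', Complex.im_sum, Complex.im_ofReal_mul]
  have pre : Function.Periodic (fun t => (hh m1 A1 H t).re) (2 * Real.pi) := fun t => by
    simp only [php t]
  have pim : Function.Periodic (fun t => (hh' m1 A1 H t).im) (2 * Real.pi) := fun t => by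
    simp only [php' t]
  have cre : Continuous (fun t => (hh m1 A1 H t).re) := by fun_prop
  have cim : Continuous (fun t => (hh' m1 A1 H t).im) := Complex.continuous_im.comp hhc'
  refine ⟨hTd, ?_, ?_⟩
  · rw [bdryN_of m2 A2 hφc pφ (fun θ => TT_exp m1 m2 A1 A2 D H θ),
      bdryN_of m1 A1 (V := fun z => H.eval z) hhc php (fun θ => eval_exp_hh m1 A1 H θ)]
    congr 1
    have h := circ_orth horth cre cre pre pre
    rw [← h]
    refine intervalIntegral.integral_congr (fun t _ => ?_)
    simp only [hre]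
  · rw [dirE_of m2 A2 hφd hφc' pφ pφ' (fun θ => hTd.differentiableAt
        (isOpen_ball.mem_nhds (by
          rw [mem_ball_zero_iff, Complex.norm_exp_ofReal_mul_I]; norm_num)))
        (fun θ => TT_exp m1 m2 A1 A2 D H θ),
      dirE_of m1 A1 (V := fun z => H.eval z) hhd hhc' php php'
        (fun θ => H.differentiable _) (fun θ => eval_exp_hh m1 A1 H θ)]
    have h := circ_orth horth cre cim pre pim
    rw [← h]
    refine intervalIntegral.integral_congr (fun t _ => ?_)
    simp only [hre, him]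

end

end Pool.Agent.Steklov
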