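import Mathlib
import Pool.Agent.Steklov.Transplant
import Pool.Agent.Steklov.Fourier
import Pool.Agent.Steklov.Domain
import Pool.Agent.Steklov.Hausdorff
import Pool.Agent.Steklov.NonIso
import Pool.Agent.Steklov.Annulus

/-!
# Comparison of the sets of suprema of Rayleigh quotients
-/

set_option autoImplicit false

open Complex Metric Set MeasureTheory
open scoped ComplexConjugate

namespace Pool.Agent.Steklov

/-- On a finite dimensional space of continuously differentiable functions with positive boundary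
norm, the Rayleigh quotients are bounded above. -/
theorem bddAbove_ratio {Ω : Set ℂ} (hΩ : Bornology.IsBounded Ω)
    {V : Submodule ℝ (ℂ → ℝ)} [FiniteDimensional ℝ V] (hC : ∀ u ∈ V, ContDiff ℝ 1 u)
    {γ : ℝ → ℂ} (hγ : Continuous γ) {w : ℝ → ℝ} (hw : Continuous w)
    (hB : ∀ u ∈ V, bdry Ω u = ∫ θ in (0:ℝ)..2 * Real.pi, u (γ θ) ^ 2 * w θ)
    (hpos : ∀ u ∈ V, u ≠ 0 → 0 < bdry Ω u) :
    BddAbove {t : ℝ | ∃ u ∈ V, u ≠ 0 ∧ t = engy Ω u / bdry Ω u} := by
  classical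
  set b := Module.finBasis ℝ V with hb
  set n := Module.finrank ℝ V with hn
  have hCb : ∀ i, ContDiff ℝ 1 (b i : ℂ → ℝ) := fun i => hC _ (b i).2
  have hcb : ∀ i, Continuous (b i : ℂ → ℝ) := fun i => (hCb i).continuous
  have hcf : ∀ i, Continuous (fderiv ℝ (b i : ℂ → ℝ)) := fun i =>
    (hCb i).continuous_fderiv one_ne_zero
  set E' : (Fin n → ℝ) → ℝ := fun c =>
    ∫ x in closure Ω, ‖∑ i, c i • fderiv ℝ (b i : ℂ → ℝ) x‖ ^ 2 with hE'
  set B' : (Fin n → ℝ) → ℝ := fun c =>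
    ∫ θ in (0:ℝ)..2 * Real.pi, (∑ i, c i * (b i : ℂ → ℝ) (γ θ)) ^ 2 * w θ with hB'
  have hcompact : IsCompact (closure Ω) := hΩ.isCompact_closure
  have hEc : Continuous E' := by
    apply continuous_parametric_integral_of_continuous _ hcompact
    have : Function.uncurry (fun (c : Fin n → ℝ) (x : ℂ) =>
        ‖∑ i, c i • fderiv ℝ (b i : ℂ → ℝ) x‖ ^ 2) =
        fun p : (Fin n → ℝ) × ℂ => ‖∑ i, p.1 i • fderiv ℝ (b i : ℂ → ℝ) p.2‖ ^ 2 := rfl
    rw [this]
    apply Continuous.pow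
    apply Continuous.norm
    apply continuous_finsetSum
    intro i _
    exact ((continuous_apply i).comp continuous_fst).smul ((hcf i).comp continuous_snd)
  have hBc : Continuous B' := by
    apply intervalIntegral.continuous_parametric_intervalIntegral_of_continuous'
    have : Function.uncurry (fun (c : Fin n → ℝ) (θ : ℝ) =>
        (∑ i, c i * (b i : ℂ → ℝ) (γ θ)) ^ 2 * w θ) =
        fun p : (Fin n → ℝ) × ℝ => (∑ i, p.1 i * (b i : ℂ → ℝ) (γ p.2)) ^ 2 * w p.2 := rfl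
    rw [this]
    apply Continuous.mul
    · apply Continuous.pow
      apply continuous_finsetSum
      intro i _
      apply Continuous.mul
      · exact (continuous_apply i).comp continuous_fst
      · exact (hcb i).comp (hγ.comp continuous_snd)
    · exact hw.comp continuous_snd
  -- evaluation
  have hsum : ∀ (c : Fin n → ℝ) (x : ℂ), ((∑ i, c i • b i : V) : ℂ → ℝ) x =
      ∑ i, c i * (b i : ℂ → ℝ) x := by
    intro c x
    simp [Finset.sum_apply]
  have hbd : ∀ c : Fin n → ℝ, bdry Ω ((∑ i, c i • b i : V) : ℂ → ℝ) = B' c := by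
    intro c
    rw [hB _ (Subtype.mem _), hB']
    simp only [hsum]
  have hen : ∀ c : Fin n → ℝ, engy Ω ((∑ i, c i • b i : V) : ℂ → ℝ) ≤ E' c := by
    intro c
    have h1 : ∀ x, fderiv ℝ ((∑ i, c i • b i : V) : ℂ → ℝ) x =
        ∑ i, c i • fderiv ℝ (b i : ℂ → ℝ) x := by
      intro x
      have h2 : ((∑ i, c i • b i : V) : ℂ → ℝ) = fun x => ∑ i, c i * (b i : ℂ → ℝ) x := by
        ext x
        exact hsum c x
      rw [h2, fderiv_fun_sum]
      · apply Finset.sum_congr rfl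
        intro i _
        rw [fderiv_const_mul]
        exact ((hCb i).differentiable one_ne_zero) x
      · intro i _
        exact ((hCb i).differentiable one_ne_zero x).const_mul (c i)
    unfold engy
    simp only [h1]
    rw [hE']
    apply setIntegral_mono_set
    · apply ContinuousOn.integrableOn_compact hcompact
      apply Continuous.continuousOn
      apply Continuous.pow
      apply Continuous.norm
      apply continuous_finsetSum
      intro i _
      exact (hcf i).const_smul (c i)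
    · exact Filter.Eventually.of_forall fun x => by positivity
    · exact LE.le.eventuallyLE subset_closure
  have hEs : ∀ (r : ℝ) (c : Fin n → ℝ), E' (r • c) = r ^ 2 * E' c := by
    intro r c
    simp only [hE']
    rw [← integral_const_mul]
    congr 1
    ext x
    have : ∑ i, (r • c) i • fderiv ℝ (b i : ℂ → ℝ) x =
        r • ∑ i, c i • fderiv ℝ (b i : ℂ → ℝ) x := by
      rw [Finset.smul_sum]
      apply Finset.sum_congr rfl
      intro i _
      rw [Pi.smul_apply, smul_eq_mul, mul_smul]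
    rw [this, norm_smul, mul_pow, Real.norm_eq_abs, sq_abs]
  have hBs : ∀ (r : ℝ) (c : Fin n → ℝ), B' (r • c) = r ^ 2 * B' c := by
    intro r c
    simp only [hB']
    rw [← intervalIntegral.integral_const_mul]
    congr 1
    ext x
    have : ∑ i, (r • c) i * (b i : ℂ → ℝ) (γ x) = r * ∑ i, c i * (b i : ℂ → ℝ) (γ x) := by
      rw [Finset.mul_sum]
      apply Finset.sum_congr rfl
      intro i _
      rw [Pi.smul_apply, smul_eq_mul, mul_assoc]
    rw [this]
    ring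
  have hBpos : ∀ c : Fin n → ℝ, c ≠ 0 → 0 < B' c := by
    intro c hc
    rw [← hbd]
    apply hpos _ (Subtype.mem _)
    intro h
    apply hc
    have h1 : (∑ i, c i • b i : V) = 0 := Subtype.ext h
    ext i
    exact Fintype.linearIndependent_iff.mp b.linearIndependent c h1 i
  have hK : IsCompact (sphere (0 : Fin n → ℝ) 1) := isCompact_sphere _ _
  have hcont : ContinuousOn (fun c => E' c / B' c) (sphere (0 : Fin n → ℝ) 1) := by
    apply ContinuousOn.div hEc.continuousOn hBc.continuousOn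
    intro c hc
    apply (hBpos c _).ne'
    intro h
    rw [h] at hc
    simp at hc
  obtain ⟨M, hM⟩ := (hK.image_of_continuousOn hcont).bddAbove
  refine ⟨M, ?_⟩
  rintro t ⟨u, hu, hu0, rfl⟩
  set c : Fin n → ℝ := fun i => b.repr ⟨u, hu⟩ i with hc
  have huc : ((∑ i, c i • b i : V) : ℂ → ℝ) = u := by
    rw [hc, b.sum_repr]
  have hc0 : c ≠ 0 := by
    intro h
    apply hu0
    rw [← huc, h]
    simp
  have hcn : 0 < ‖c‖ := norm_pos_iff.mpr hc0
  have h1 : engy Ω u ≤ E' c := by rw [← huc]; exact hen c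
  have h2 : bdry Ω u = B' c := by rw [← huc]; exact hbd c
  have h3 : E' (‖c‖⁻¹ • c) / B' (‖c‖⁻¹ • c) ≤ M := by
    apply hM
    refine ⟨‖c‖⁻¹ • c, ?_, rfl⟩
    rw [mem_sphere_zero_iff_norm, norm_smul, norm_inv, norm_norm, inv_mul_cancel₀ hcn.ne']
  rw [hEs, hBs, mul_div_mul_left _ _ (by positivity)] at h3
  refine le_trans ?_ h3
  rw [h2]
  exact div_le_div_of_nonneg_right h1 (hBpos c hc0).le

/-- the density on the circle is bounded between positive constants -/
theorem exists_bounds {F : ℂ → ℂ} (m : BModel F) : ∃ lo hi : ℝ, 0 < lo ∧ 0 < hi ∧ ∀ θ : ℝ,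
    lo ≤ ‖deriv (Bl m.u m.a) (exp (θ * I))‖ ∧ ‖deriv (Bl m.u m.a) (exp (θ * I))‖ ≤ hi := by
  have hper : Function.Periodic (fun θ : ℝ => ‖deriv (Bl m.u m.a) (exp (θ * I))‖)
      (2 * Real.pi) := by
    intro θ
    have h1 : exp (((θ + 2 * Real.pi : ℝ) : ℂ) * I) = exp (θ * I) := by
      push_cast
      rw [add_mul, Complex.exp_add, Complex.exp_two_pi_mul_I, mul_one]
    simp only [h1]
  have hcont := continuous_dB m
  have hpos : ∀ θ : ℝ, 0 < ‖deriv (Bl m.u m.a) (exp (θ * I))‖ := by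
    intro θ
    have hz : ‖exp (θ * I)‖ = 1 := norm_exp_ofReal_mul_I θ
    rw [norm_deriv_Bl m.hu hz (m.hderiv _ (by rw [hz]; norm_num)), norm_pos_iff]
    have hne : ∀ {N : ℕ} (a : Fin N → ℂ), (∀ j, ‖a j‖ ≤ 1 / 200) →
        (∏ j, (1 - conj (a j) * exp (θ * I))) ≠ 0 := by
      intro N a ha
      rw [Finset.prod_ne_zero_iff]
      intro j _ h
      have h1 : conj (a j) * exp (θ * I) = 1 := (sub_eq_zero.mp h).symm
      have h2 : ‖conj (a j) * exp (θ * I)‖ = 1 := by rw [h1, norm_one]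
      rw [norm_mul, hz, RCLike.norm_conj, mul_one] at h2
      have := ha j
      rw [h2] at this
      norm_num at this
    unfold dpsi
    apply mul_ne_zero
    · exact_mod_cast m.hκ.ne'
    · exact div_ne_zero (pow_ne_zero _ (hne m.c m.hc)) (pow_ne_zero _ (hne m.a m.ha))
  have hK : IsCompact (Icc (0:ℝ) (2 * Real.pi)) := isCompact_Icc
  have hne : (Icc (0:ℝ) (2 * Real.pi)).Nonempty := ⟨0, by simp [Real.pi_pos.le]⟩
  obtain ⟨x, hx, hxmin⟩ := hK.exists_isMinOn hne hcont.continuousOn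
  obtain ⟨y, hy, hymax⟩ := hK.exists_isMaxOn hne hcont.continuousOn
  refine ⟨_, _, hpos x, hpos y, ?_⟩
  intro θ
  obtain ⟨t, ht, hte⟩ := hper.exists_mem_Ico₀ Real.two_pi_pos θ
  have ht' : t ∈ Icc (0:ℝ) (2 * Real.pi) := Ico_subset_Icc_self ht
  rw [hte]
  exact ⟨hxmin ht', hymax ht'⟩

theorem ratio_le {s ε : ℝ} (hs : 0 ≤ s) (hε : 0 < ε) : ∃ δ : ℝ, 0 < δ ∧ 2 * δ < 1 ∧
    s / (1 - 2 * δ) ≤ s + ε := by
  refine ⟨ε / (2 * (s + ε) + 2 * ε), by positivity, ?_, ?_⟩
  · rw [mul_div_assoc', div_lt_one (by positivity)]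
    linarith
  · have h1 : 0 < 2 * (s + ε) + 2 * ε := by positivity
    have h2 : 1 - 2 * (ε / (2 * (s + ε) + 2 * ε)) = (2 * (s + ε)) / (2 * (s + ε) + 2 * ε) := by
      field_simp
      ring
    rw [h2, div_div_eq_mul_div, div_le_iff₀ (by positivity)]
    nlinarith

theorem raySet_approx {p : ℂ} (hp : p ^ 2 - p + 2 = 0) (m1 : BModel (FF p))
    (m2 : BModel (FF (1 - p))) {ψ1 ψ2 : ℂ → ℂ}
    (h1 : ∀ z, ‖z‖ < 2 → HasDerivAt ψ1 (m1.κ * dpsi m1.a m1.c z) z) (hi1 : InjOn ψ1 (ball 0 2))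
    (h2 : ∀ z, ‖z‖ < 2 → HasDerivAt ψ2 (m2.κ * dpsi m2.a m2.c z) z) (hi2 : InjOn ψ2 (ball 0 2))
    (k : ℕ) {s : ℝ} (hs : s ∈ raySet (ψ1 '' ball 0 1) k) {ε : ℝ} (hε : 0 < ε) :
    ∃ s' ∈ raySet (ψ2 '' ball 0 1) k, s' ≤ s + ε := by
  classical
  obtain ⟨V, hVC, hVr, hVpos, hVs⟩ := hs
  have hfin : FiniteDimensional ℝ V := by
    apply Module.finite_of_finrank_pos
    rw [hVr]
    exact Nat.succ_pos k
  have hd1 : DifferentiableOn ℂ ψ1 (ball 0 2) := fun z hz =>
    (h1 z (by rwa [mem_ball_zero_iff] at hz)).differentiableAt.differentiableWithinAt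
  have hd2 : DifferentiableOn ℂ ψ2 (ball 0 2) := fun z hz =>
    (h2 z (by rwa [mem_ball_zero_iff] at hz)).differentiableAt.differentiableWithinAt
  have hcirc : ∀ θ : ℝ, ‖exp (θ * I)‖ = 1 := fun θ => norm_exp_ofReal_mul_I θ
  have hcirc2 : ∀ θ : ℝ, ‖exp (θ * I)‖ < 2 := fun θ => by rw [hcirc]; norm_num
  have hexpc : Continuous (fun θ : ℝ => exp (θ * I)) := by fun_prop
  have hw1 : ∀ θ : ℝ, ‖deriv ψ1 (exp (θ * I))‖ = ‖deriv (Bl m1.u m1.a) (exp (θ * I))‖ := by
    intro θ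
    rw [(h1 _ (hcirc2 θ)).deriv, norm_deriv_Bl m1.hu (hcirc θ) (m1.hderiv _ (hcirc2 θ))]
  have hw2 : ∀ θ : ℝ, ‖deriv ψ2 (exp (θ * I))‖ = ‖deriv (Bl m2.u m2.a) (exp (θ * I))‖ := by
    intro θ
    rw [(h2 _ (hcirc2 θ)).deriv, norm_deriv_Bl m2.hu (hcirc θ) (m2.hderiv _ (hcirc2 θ))]
  have hψ1c : Continuous (fun θ : ℝ => ψ1 (exp (θ * I))) :=
    hd1.continuousOn.comp_continuous hexpc (fun θ => by
      rw [mem_ball_zero_iff]; exact hcirc2 θ)
  -- boundary norms as integrals over the circle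
  have hb1 : ∀ u : ℂ → ℝ, ContDiff ℝ 1 u → bdry (ψ1 '' ball 0 1) u =
      ∫ θ in (0:ℝ)..2 * Real.pi, u (ψ1 (exp (θ * I))) ^ 2 *
        ‖deriv (Bl m1.u m1.a) (exp (θ * I))‖ := by
    intro u hu
    unfold bdry
    rw [integral_frontier_image (by norm_num : (1:ℝ) < 2) hd1 hi1 (g := fun x => u x ^ 2)
      (hu.continuous.pow 2)]
    simp only [hw1]
  have hb2 : ∀ u : ℂ → ℝ, ContDiff ℝ 1 u → bdry (ψ2 '' ball 0 1) u =
      bdryN m2.u m2.a (fun z => u (ψ2 z)) := by
    intro u hu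
    unfold bdry bdryN
    rw [integral_frontier_image (by norm_num : (1:ℝ) < 2) hd2 hi2 (g := fun x => u x ^ 2)
      (hu.continuous.pow 2)]
    simp only [hw2]
  obtain ⟨lo, hi, hlo, hhi, hbounds⟩ := exists_bounds m1
  have hwc := continuous_dB m1
  set w : ℝ → ℝ := fun θ => ‖deriv (Bl m1.u m1.a) (exp (θ * I))‖ with hw
  -- bounded ratio
  have hbdd := bddAbove_ratio (isBounded_image (by norm_num : (1:ℝ) < 2) hd1 hi1) hVC
    hψ1c hwc (fun u hu => hb1 u (hVC u hu)) hVpos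
  have hs0 : 0 ≤ s := by
    rw [hVs]
    apply Real.sSup_nonneg
    rintro t ⟨u, hu, hu0, rfl⟩
    apply div_nonneg
    · unfold engy
      exact integral_nonneg fun x => by positivity
    · exact (hVpos u hu hu0).le
  obtain ⟨δ, hδ, hδ1, hδs⟩ := ratio_le hs0 hε
  -- the linear map
  set ι : V →ₗ[ℝ] (ℂ → ℝ) :=
    { toFun := fun u z => (u : ℂ → ℝ) (ψ1 z)
      map_add' := fun u v => rfl
      map_smul' := fun c u => rfl } with hι
  have hιC : ∀ u : V, ContDiffOn ℝ 1 (ι u) (ball 0 2) := by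
    intro u
    have h3 : ContDiffOn ℝ 1 ψ1 (ball 0 2) := by
      have h4 : ContDiffOn ℂ 1 ψ1 (ball 0 2) := hd1.contDiffOn isOpen_ball
      exact h4.restrict_scalars ℝ
    exact (hVC u u.2).comp_contDiffOn h3
  have hιc : ∀ u : V, Continuous (fun θ : ℝ => ι u (exp (θ * I))) := fun u =>
    (hVC u u.2).continuous.comp hψ1c
  have hB1 : ∀ u : V, bdry (ψ1 '' ball 0 1) (u : ℂ → ℝ) =
      ∫ θ in (0:ℝ)..2 * Real.pi, ι u (exp (θ * I)) ^ 2 * w θ := fun u => hb1 u (hVC u u.2)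
  have hle1 : ∀ u : V, bdry (ψ1 '' ball 0 1) (u : ℂ → ℝ) ≤
      hi * ∫ θ in (0:ℝ)..2 * Real.pi, ι u (exp (θ * I)) ^ 2 := by
    intro u
    rw [hB1, ← intervalIntegral.integral_const_mul]
    apply intervalIntegral.integral_mono_on Real.two_pi_pos.le
    · exact (((hιc u).pow 2).mul hwc).intervalIntegrable _ _
    · exact (continuous_const.mul ((hιc u).pow 2)).intervalIntegrable _ _
    · intro θ _
      rw [mul_comm hi]
      exact mul_le_mul_of_nonneg_left (hbounds θ).2 (sq_nonneg _)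
  have hle2 : ∀ u : V, lo * ∫ θ in (0:ℝ)..2 * Real.pi, ι u (exp (θ * I)) ^ 2 ≤
      bdry (ψ1 '' ball 0 1) (u : ℂ → ℝ) := by
    intro u
    rw [hB1, ← intervalIntegral.integral_const_mul]
    apply intervalIntegral.integral_mono_on Real.two_pi_pos.le
    · exact (continuous_const.mul ((hιc u).pow 2)).intervalIntegrable _ _
    · exact (((hιc u).pow 2).mul hwc).intervalIntegrable _ _
    · intro θ _
      rw [mul_comm lo]
      exact mul_le_mul_of_nonneg_left (hbounds θ).1 (sq_nonneg _)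
  have hιpos : ∀ u : V, u ≠ 0 → 0 < ∫ θ in (0:ℝ)..2 * Real.pi, ι u (exp (θ * I)) ^ 2 := by
    intro u hu
    have h3 : 0 < bdry (ψ1 '' ball 0 1) (u : ℂ → ℝ) :=
      hVpos u u.2 (fun h => hu (Subtype.ext h))
    have h4 := h3.trans_le (hle1 u)
    exact (mul_pos_iff_of_pos_left hhi).mp h4
  obtain ⟨P, hP⟩ := fourier_approx ι (by norm_num : (1:ℝ) < 2) hιC hιpos
    (ε := δ ^ 2 * lo / hi) (by positivity)
  obtain ⟨A1⟩ := exists_annCoord m1.hu m1.ha
  obtain ⟨A2⟩ := exists_annCoord m2.hu m2.ha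
  obtain ⟨T, hT⟩ := transplant_aux m1 m2 A1 A2 hp
  obtain ⟨Ext, hExt⟩ := exists_extension (by norm_num : (1:ℝ) < 2) hd2 hi2
    (by norm_num : (1:ℝ) < 21 / 20)
  set Φ : V →ₗ[ℝ] (ℂ → ℝ) :=
    Ext ∘ₗ (Complex.reLm.compLeft ℂ) ∘ₗ T ∘ₗ P with hΦ
  have hre : ∀ u : V, ContDiffOn ℝ 1 (fun z => (T (P u) z).re) (ball 0 (21 / 20)) := fun u =>
    contDiffOn_re (hT (P u)).1
  have hΦC : ∀ u : V, ContDiff ℝ 1 (Φ u) := fun u => (hExt _ (hre u)).1
  have hΦe : ∀ (u : V) (z : ℂ), ‖z‖ ≤ 1 → Φ u (ψ2 z) = (T (P u) z).re := fun u z hz =>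
    (hExt _ (hre u)).2 z hz
  -- boundary norm
  have hΦb : ∀ u : V, bdry (ψ2 '' ball 0 1) (Φ u) =
      bdryN m1.u m1.a (fun z => ((P u).eval z).re) := by
    intro u
    rw [hb2 _ (hΦC u), ← (hT (P u)).2.1]
    unfold bdryN
    refine intervalIntegral.integral_congr (fun θ _ => ?_)
    simp only
    rw [hΦe u _ (hcirc θ).le]
  have hΦe2 : ∀ u : V, engy (ψ2 '' ball 0 1) (Φ u) ≤ engy (ψ1 '' ball 0 1) (u : ℂ → ℝ) := by
    intro u
    rw [engy_image (by norm_num : (1:ℝ) < 2) hd2 hi2 (hΦC u),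
      engy_image (by norm_num : (1:ℝ) < 2) hd1 hi1 (hVC u u.2)]
    have h3 : ∫ z in ball (0:ℂ) 1, ‖fderiv ℝ (fun z => Φ u (ψ2 z)) z‖ ^ 2 =
        ∫ z in ball (0:ℂ) 1, ‖fderiv ℝ (fun z => (T (P u) z).re) z‖ ^ 2 := by
      apply setIntegral_congr_fun measurableSet_ball
      intro z hz
      simp only
      congr 2
      apply Filter.EventuallyEq.fderiv_eq
      filter_upwards [isOpen_ball.mem_nhds hz] with y hy
      exact hΦe u y (mem_ball_zero_iff.mp hy).le
    rw [h3, green_self (by norm_num : (1:ℝ) < 21 / 20) (hT (P u)).1, (hT (P u)).2.2]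
    exact (hP u).1
  have hkey : ∀ u : V, (1 - 2 * δ) * bdry (ψ1 '' ball 0 1) (u : ℂ → ℝ) ≤
      bdry (ψ2 '' ball 0 1) (Φ u) := by
    intro u
    rw [hΦb u]
    set f : ℝ → ℝ := fun θ => ι u (exp (θ * I)) with hf
    set g : ℝ → ℝ := fun θ => ((P u).eval (exp (θ * I))).re with hg
    have hfc : Continuous f := hιc u
    have hgc : Continuous g := by
      have : Continuous (fun θ : ℝ => (P u).eval (exp (θ * I))) :=
        (P u).continuous.comp hexpc
      exact Complex.continuous_re.comp this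
    have hB : bdry (ψ1 '' ball 0 1) (u : ℂ → ℝ) = ∫ θ in (0:ℝ)..2 * Real.pi, f θ ^ 2 * w θ :=
      hB1 u
    have hN : bdryN m1.u m1.a (fun z => ((P u).eval z).re) =
        ∫ θ in (0:ℝ)..2 * Real.pi, g θ ^ 2 * w θ := rfl
    have herr : ∫ θ in (0:ℝ)..2 * Real.pi, (g θ - f θ) ^ 2 * w θ ≤
        δ ^ 2 * ∫ θ in (0:ℝ)..2 * Real.pi, f θ ^ 2 * w θ := by
      have h4 : ∫ θ in (0:ℝ)..2 * Real.pi, (g θ - f θ) ^ 2 * w θ ≤
          hi * ∫ θ in (0:ℝ)..2 * Real.pi, (g θ - f θ) ^ 2 := by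
        rw [← intervalIntegral.integral_const_mul]
        apply intervalIntegral.integral_mono_on Real.two_pi_pos.le
        · exact (((hgc.sub hfc).pow 2).mul hwc).intervalIntegrable _ _
        · exact (continuous_const.mul ((hgc.sub hfc).pow 2)).intervalIntegrable _ _
        · intro θ _
          rw [mul_comm hi]
          exact mul_le_mul_of_nonneg_left (hbounds θ).2 (sq_nonneg _)
      have h5 := (hP u).2
      have h6 := hle2 u
      rw [hB] at h6
      calc ∫ θ in (0:ℝ)..2 * Real.pi, (g θ - f θ) ^ 2 * w θ ≤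
          hi * ∫ θ in (0:ℝ)..2 * Real.pi, (g θ - f θ) ^ 2 := h4
        _ ≤ hi * (δ ^ 2 * lo / hi * ∫ θ in (0:ℝ)..2 * Real.pi, f θ ^ 2) :=
          mul_le_mul_of_nonneg_left h5 hhi.le
        _ = δ ^ 2 * (lo * ∫ θ in (0:ℝ)..2 * Real.pi, f θ ^ 2) := by field_simp
        _ ≤ _ := mul_le_mul_of_nonneg_left h6 (sq_nonneg _)
    rw [hB, hN]
    have hmain : (1 - δ) * ∫ θ in (0:ℝ)..2 * Real.pi, f θ ^ 2 * w θ ≤
        (∫ θ in (0:ℝ)..2 * Real.pi, g θ ^ 2 * w θ) +
          (1 / δ) * ∫ θ in (0:ℝ)..2 * Real.pi, (g θ - f θ) ^ 2 * w θ := by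
      rw [← intervalIntegral.integral_const_mul, ← intervalIntegral.integral_const_mul,
        ← intervalIntegral.integral_add]
      · apply intervalIntegral.integral_mono_on Real.two_pi_pos.le
        · exact (continuous_const.mul ((hfc.pow 2).mul hwc)).intervalIntegrable _ _
        · exact (((hgc.pow 2).mul hwc).add (continuous_const.mul
            (((hgc.sub hfc).pow 2).mul hwc))).intervalIntegrable _ _
        · intro θ _
          have hwn : 0 ≤ w θ := norm_nonneg _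
          have h7 : (1 - δ) * f θ ^ 2 ≤ g θ ^ 2 + (1 / δ) * (g θ - f θ) ^ 2 := by
            have h8 : 0 ≤ (δ * g θ + (1 - δ) * (g θ - f θ)) ^ 2 / δ + (g θ - f θ) ^ 2 := by
              positivity
            have h9 : g θ ^ 2 + (1 / δ) * (g θ - f θ) ^ 2 - (1 - δ) * f θ ^ 2 =
                (δ * g θ + (1 - δ) * (g θ - f θ)) ^ 2 / δ + (g θ - f θ) ^ 2 := by
              field_simp
              ring
            linarith
          nlinarith [mul_le_mul_of_nonneg_right h7 hwn]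
      · exact ((hgc.pow 2).mul hwc).intervalIntegrable _ _
      · exact (continuous_const.mul (((hgc.sub hfc).pow 2).mul hwc)).intervalIntegrable _ _
    have h10 : (1 / δ) * ∫ θ in (0:ℝ)..2 * Real.pi, (g θ - f θ) ^ 2 * w θ ≤
        δ * ∫ θ in (0:ℝ)..2 * Real.pi, f θ ^ 2 * w θ := by
      calc (1 / δ) * ∫ θ in (0:ℝ)..2 * Real.pi, (g θ - f θ) ^ 2 * w θ ≤
          (1 / δ) * (δ ^ 2 * ∫ θ in (0:ℝ)..2 * Real.pi, f θ ^ 2 * w θ) :=
            mul_le_mul_of_nonneg_left herr (by positivity)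
        _ = _ := by field_simp
    linarith
  have hΦpos : ∀ u : V, u ≠ 0 → 0 < bdry (ψ2 '' ball 0 1) (Φ u) := by
    intro u hu
    refine lt_of_lt_of_le ?_ (hkey u)
    apply mul_pos (by linarith)
    exact hVpos u u.2 (fun h => hu (Subtype.ext h))
  have hΦinj : Function.Injective Φ := by
    rw [injective_iff_map_eq_zero]
    intro u hu
    by_contra hne
    have h3 := hΦpos u hne
    rw [hu] at h3
    simp [bdry] at h3
  refine ⟨_, ⟨LinearMap.range Φ, ?_, ?_, ?_, rfl⟩, ?_⟩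
  · rintro _ ⟨u, rfl⟩
    exact hΦC u
  · rw [LinearMap.finrank_range_of_inj hΦinj, hVr]
  · rintro _ ⟨u, rfl⟩ hne
    apply hΦpos
    rintro rfl
    exact hne (map_zero Φ)
  · refine le_trans (Real.sSup_le ?_ ?_) hδs
    · rintro _ ⟨_, ⟨u, rfl⟩, hne, rfl⟩
      have hu0 : u ≠ 0 := by
        rintro rfl
        exact hne (map_zero Φ)
      have hup : 0 < bdry (ψ1 '' ball 0 1) (u : ℂ → ℝ) :=
        hVpos u u.2 (fun h => hu0 (Subtype.ext h))
      have hrat : engy (ψ1 '' ball 0 1) (u : ℂ → ℝ) / bdry (ψ1 '' ball 0 1) (u : ℂ → ℝ) ≤ s := by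
        rw [hVs]
        exact le_csSup hbdd ⟨u, u.2, fun h => hu0 (Subtype.ext h), rfl⟩
      rw [div_le_iff₀ hup] at hrat
      rw [div_le_div_iff₀ (hΦpos u hu0) (by linarith)]
      have h3 := hΦe2 u
      have h4 := hkey u
      have h5 : 0 ≤ 1 - 2 * δ := by linarith
      nlinarith [mul_le_mul_of_nonneg_left h4 hs0]
    · apply div_nonneg hs0
      linarith

end Pool.Agent.Steklov
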