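import Mathlib
import Pool.Agent.Steklov.Defs

/-!
# Module M1, part 2: generic tools (roots, maximum principle, derivative of a Blaschke product)
-/

set_option autoImplicit false

open Complex Metric Set
open scoped ComplexConjugate Topology
open Pool.Agent.Lib.RiemannMapping (mob)

namespace Pool.Agent.Steklov.M1

/-- the roots of a monic polynomial as a family -/
theorem exists_roots_monic (P : Polynomial ℂ) (hP : P.Monic) {n : ℕ} (hn : P.natDegree = n) :
    ∃ x : Fin n → ℂ, ∀ z, P.eval z = ∏ j, (z - x j) := by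
  have hs := IsAlgClosed.splits P
  have hcard : P.roots.card = n := by
    rw [← hn]
    exact hs.natDegree_eq_card_roots.symm
  obtain ⟨l, hl⟩ := Quotient.exists_rep P.roots
  have hl' : (l : Multiset ℂ) = P.roots := hl
  have hlen : l.length = n := by
    rw [← hcard, ← hl', Multiset.coe_card]
  subst hlen
  refine ⟨fun j => l.get j, fun z => ?_⟩
  rw [hs.eval_eq_prod_roots_of_monic hP z, ← hl', Multiset.map_coe, Multiset.prod_coe]
  have h1 := Fin.prod_univ_fun_getElem l (fun a => z - a)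
  rw [← h1]
  rfl

/-- maximum principle on the open unit disc -/
theorem norm_le_one_of_boundary {h : ℂ → ℂ} (hd : DifferentiableOn ℂ h (ball 0 1))
    (hlim : ∀ ε : ℝ, 0 < ε → ∃ s : ℝ, s < 1 ∧ ∀ z, s < ‖z‖ → ‖z‖ < 1 → ‖h z‖ ≤ 1 + ε) :
    ∀ z ∈ ball (0:ℂ) 1, ‖h z‖ ≤ 1 := by
  intro z hz
  rw [mem_ball_zero_iff] at hz
  refine le_of_forall_pos_le_add fun ε hε => ?_
  obtain ⟨s, hs1, hs⟩ := hlim ε hε
  set t : ℝ := (max s ‖z‖ + 1) / 2 with ht
  have h1 : max s ‖z‖ < 1 := max_lt hs1 hz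
  have h2 : max s ‖z‖ < t := by rw [ht]; linarith
  have h3 : t < 1 := by rw [ht]; linarith
  have h0 : 0 < t := lt_of_le_of_lt (norm_nonneg z) (lt_of_le_of_lt (le_max_right _ _) h2)
  have hsub : closedBall (0:ℂ) t ⊆ ball 0 1 := closedBall_subset_ball h3
  have hdc : DiffContOnCl ℂ h (ball 0 t) := by
    apply DifferentiableOn.diffContOnCl
    rw [closure_ball (0:ℂ) h0.ne']
    exact hd.mono hsub
  refine Complex.norm_le_of_forall_mem_frontier_norm_le isBounded_ball hdc ?_ ?_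
  · intro w hw
    rw [frontier_ball (0:ℂ) h0.ne', mem_sphere_zero_iff_norm] at hw
    exact hs w (by rw [hw]; exact (le_max_left _ _).trans_lt h2) (by rw [hw]; exact h3)
  · rw [closure_ball (0:ℂ) h0.ne', mem_closedBall_zero_iff]
    exact ((le_max_right _ _).trans_lt h2).le

/-- a holomorphic function on the disc whose modulus tends to `1` at the boundary, and which does
not vanish, is a unimodular constant -/
theorem const_of_boundary {h : ℂ → ℂ} (hd : DifferentiableOn ℂ h (ball 0 1))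
    (h0 : ∀ z ∈ ball (0:ℂ) 1, h z ≠ 0)
    (hlim : ∀ ε : ℝ, 0 < ε → ∃ s : ℝ, s < 1 ∧ ∀ z, s < ‖z‖ → ‖z‖ < 1 →
      ‖h z‖ ≤ 1 + ε ∧ ‖(h z)⁻¹‖ ≤ 1 + ε) :
    ‖h 0‖ = 1 ∧ ∀ z ∈ ball (0:ℂ) 1, h z = h 0 := by
  have h1 : ∀ z ∈ ball (0:ℂ) 1, ‖h z‖ ≤ 1 := by
    refine norm_le_one_of_boundary hd fun ε hε => ?_
    obtain ⟨s, hs1, hs⟩ := hlim ε hε
    exact ⟨s, hs1, fun z h1 h2 => (hs z h1 h2).1⟩
  have h2 : ∀ z ∈ ball (0:ℂ) 1, ‖(h z)⁻¹‖ ≤ 1 := by
    refine norm_le_one_of_boundary (h := fun z => (h z)⁻¹) (hd.inv h0) fun ε hε => ?_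
    obtain ⟨s, hs1, hs⟩ := hlim ε hε
    exact ⟨s, hs1, fun z h1 h2 => (hs z h1 h2).2⟩
  have h3 : ∀ z ∈ ball (0:ℂ) 1, ‖h z‖ = 1 := by
    intro z hz
    refine le_antisymm (h1 z hz) ?_
    have := h2 z hz
    rw [norm_inv] at this
    have hpos : 0 < ‖h z‖ := norm_pos_iff.2 (h0 z hz)
    exact (inv_le_one₀ hpos).1 this
  have hmem : (0:ℂ) ∈ ball (0:ℂ) 1 := mem_ball_self one_pos
  refine ⟨h3 0 hmem, ?_⟩
  have h4 := Complex.eqOn_of_isPreconnected_of_isMaxOn_norm (convex_ball (0:ℂ) 1).isPreconnected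
    isOpen_ball hd hmem (fun z hz => by
      change ‖h z‖ ≤ ‖h 0‖
      rw [h3 z hz, h3 0 hmem])
  exact fun z hz => h4 hz

/-- division of a polynomial by linear factors, detected on the disc -/
theorem exists_poly_quotient : ∀ {m : ℕ} (n : Polynomial ℂ) (c : Fin m → ℂ)
    (_ : ∀ j, ‖c j‖ < 1) (G : ℂ → ℂ) (_ : ContinuousOn G (ball 0 1))
    (_ : ∀ z ∈ ball (0:ℂ) 1, n.eval z = G z * ∏ j, (z - c j)),
    ∃ Q : Polynomial ℂ, ∀ z, n.eval z = Q.eval z * ∏ j, (z - c j)
  | 0, n, c, _, G, _, _ => ⟨n, fun z => by simp⟩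
  | m + 1, n, c, hc, G, hG, h => by
    have hc0 : c 0 ∈ ball (0:ℂ) 1 := mem_ball_zero_iff.2 (hc 0)
    have hroot : n.eval (c 0) = 0 := by
      rw [h (c 0) hc0, Fin.prod_univ_succ]
      simp
    obtain ⟨n1, hn1⟩ := Polynomial.dvd_iff_isRoot.2 hroot
    have h1 : ∀ z ∈ ball (0:ℂ) 1, n1.eval z = G z * ∏ j : Fin m, (z - c j.succ) := by
      have hne : ∀ z ∈ ball (0:ℂ) 1, z ≠ c 0 → n1.eval z = G z * ∏ j : Fin m, (z - c j.succ) := by
        intro z hz hzc
        have h2 := h z hz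
        rw [hn1, Polynomial.eval_mul, Fin.prod_univ_succ] at h2
        simp only [Polynomial.eval_sub, Polynomial.eval_X, Polynomial.eval_C] at h2
        have h3 : z - c 0 ≠ 0 := sub_ne_zero.2 hzc
        apply mul_left_cancel₀ h3
        rw [h2]
        ring
      intro z hz
      rcases eq_or_ne z (c 0) with rfl | hzc
      · have hA : ContinuousAt (fun z => n1.eval z) (c 0) := n1.continuous.continuousAt
        have hB : ContinuousAt (fun z => G z * ∏ j : Fin m, (z - c j.succ)) (c 0) := by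
          apply ContinuousAt.mul (hG.continuousAt (isOpen_ball.mem_nhds hc0))
          apply Continuous.continuousAt
          fun_prop
        have hev : (fun z => n1.eval z) =ᶠ[𝓝[≠] (c 0)]
            (fun z => G z * ∏ j : Fin m, (z - c j.succ)) := by
          filter_upwards [self_mem_nhdsWithin,
            mem_nhdsWithin_of_mem_nhds (isOpen_ball.mem_nhds hc0)] with w hw hw'
          exact hne w hw' hw
        exact tendsto_nhds_unique_of_eventuallyEq
          (hA.tendsto.mono_left nhdsWithin_le_nhds) (hB.tendsto.mono_left nhdsWithin_le_nhds) hev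
      · exact hne z hz hzc
    obtain ⟨Q, hQ⟩ := exists_poly_quotient n1 (fun j : Fin m => c j.succ) (fun j => hc _) G hG h1
    refine ⟨Q, fun z => ?_⟩
    rw [hn1, Polynomial.eval_mul, hQ z, Fin.prod_univ_succ]
    simp only [Polynomial.eval_sub, Polynomial.eval_X, Polynomial.eval_C]
    ring

/-- numerator of the derivative of a Blaschke product -/
noncomputable def bnum (a : Fin 7 → ℂ) : Polynomial ℂ :=
  ∑ j, Polynomial.C (1 - conj (a j) * a j) *
    ∏ i ∈ Finset.univ.erase j, ((Polynomial.X - Polynomial.C (a i)) *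
      (1 - Polynomial.C (conj (a i)) * Polynomial.X))

theorem bnum_eval (a : Fin 7 → ℂ) (z : ℂ) : (bnum a).eval z =
    ∑ j, (1 - conj (a j) * a j) *
      ∏ i ∈ Finset.univ.erase j, ((z - a i) * (1 - conj (a i) * z)) := by
  unfold bnum
  rw [Polynomial.eval_finsetSum]
  refine Finset.sum_congr rfl fun j _ => ?_
  rw [Polynomial.eval_mul, Polynomial.eval_C, Polynomial.eval_prod]
  congr 1
  refine Finset.prod_congr rfl fun i _ => ?_
  simp

theorem den_ne_zero_of_small {a z : ℂ} (ha : ‖a‖ ≤ 1 / 200) (hz : ‖z‖ < 2) :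
    1 - conj a * z ≠ 0 := by
  intro h
  have h1 : conj a * z = 1 := (sub_eq_zero.1 h).symm
  have h2 : ‖conj a * z‖ = 1 := by rw [h1, norm_one]
  rw [norm_mul, Complex.norm_conj] at h2
  nlinarith [norm_nonneg a, norm_nonneg z]

theorem hasDerivAt_mob' {a z : ℂ} (h : 1 - conj a * z ≠ 0) :
    HasDerivAt (mob a) ((1 - conj a * a) / (1 - conj a * z) ^ 2) z := by
  have h1 : HasDerivAt (fun z => z - a) 1 z := (hasDerivAt_id z).sub_const a
  have h2 : HasDerivAt (fun z => 1 - conj a * z) (-conj a) z := by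
    have := ((hasDerivAt_id z).const_mul (conj a)).const_sub 1
    simpa using this
  have h3 := h1.div h2 h
  have h4 : (1 * (1 - conj a * z) - (z - a) * -conj a) / (1 - conj a * z) ^ 2 =
      (1 - conj a * a) / (1 - conj a * z) ^ 2 := by
    congr 1
    ring
  rw [h4] at h3
  exact h3

theorem hasDerivAt_Bl {u : ℂ} {a : Fin 7 → ℂ} {z : ℂ} (h : ∀ j, 1 - conj (a j) * z ≠ 0) :
    HasDerivAt (Bl u a) (u * (bnum a).eval z / (∏ j, (1 - conj (a j) * z)) ^ 2) z := by
  have h1 := HasDerivAt.fun_finsetProd (u := Finset.univ) (f := fun j => mob (a j))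
    (f' := fun j => (1 - conj (a j) * a j) / (1 - conj (a j) * z) ^ 2) (x := z)
    (fun j _ => hasDerivAt_mob' (h j))
  have h2 := h1.const_mul u
  have h3 : u * ∑ j, (∏ i ∈ Finset.univ.erase j, mob (a i) z) •
      ((1 - conj (a j) * a j) / (1 - conj (a j) * z) ^ 2) =
      u * (bnum a).eval z / (∏ j, (1 - conj (a j) * z)) ^ 2 := by
    rw [mul_div_assoc, bnum_eval, Finset.sum_div]
    congr 1
    refine Finset.sum_congr rfl fun j _ => ?_
    rw [smul_eq_mul]
    have hP : (∏ i, (1 - conj (a i) * z)) ^ 2 =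
        (1 - conj (a j) * z) ^ 2 * (∏ i ∈ Finset.univ.erase j, (1 - conj (a i) * z)) ^ 2 := by
      rw [← Finset.mul_prod_erase Finset.univ _ (Finset.mem_univ j), mul_pow]
    have hne : (∏ i ∈ Finset.univ.erase j, (1 - conj (a i) * z)) ≠ 0 :=
      Finset.prod_ne_zero_iff.2 fun i _ => h i
    rw [hP]
    unfold mob
    rw [Finset.prod_div_distrib, Finset.prod_mul_distrib]
    field_simp [h j]
  rw [h3] at h2
  exact h2

end Pool.Agent.Steklov.M1
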