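import Mathlib
import Pool.Agent.Steklov.ModelTools

/-!
# Module M1, part 3: the numerator of the derivative of a Blaschke product
-/

set_option autoImplicit false

open Complex Metric Set
open scoped ComplexConjugate Topology
open Pool.Agent.Lib.RiemannMapping (mob)

namespace Pool.Agent.Steklov.M1

theorem circle_factor {a z : ℂ} (hz : ‖z‖ = 1) :
    (z - a) * (1 - conj a * z) = z * ((‖1 - conj a * z‖ ^ 2 : ℝ) : ℂ) := by
  have h1 : z * conj z = 1 := by
    rw [Complex.mul_conj, Complex.normSq_eq_norm_sq, hz]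
    norm_num
  rw [← Complex.normSq_eq_norm_sq, ← Complex.mul_conj]
  simp only [map_sub, map_one, map_mul, Complex.conj_conj]
  linear_combination (a * (1 - conj a * z)) * h1

theorem bnum_circle {a : Fin 7 → ℂ} (ha : ∀ j, ‖a j‖ < 1) {z : ℂ} (hz : ‖z‖ = 1) :
    ∃ S : ℝ, 0 < S ∧ (bnum a).eval z = z ^ 6 * (S : ℂ) := by
  have hpos : ∀ j, 0 < ‖1 - conj (a j) * z‖ := by
    intro j
    rw [norm_pos_iff]
    intro h
    have h1 : conj (a j) * z = 1 := (sub_eq_zero.1 h).symm
    have h2 : ‖conj (a j) * z‖ = 1 := by rw [h1, norm_one]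
    rw [norm_mul, Complex.norm_conj, hz, mul_one] at h2
    exact absurd h2 (ha j).ne
  refine ⟨∑ j, (1 - ‖a j‖ ^ 2) * ∏ i ∈ Finset.univ.erase j, ‖1 - conj (a i) * z‖ ^ 2, ?_, ?_⟩
  · apply Finset.sum_pos _ Finset.univ_nonempty
    intro j _
    apply mul_pos
    · have := ha j
      nlinarith [norm_nonneg (a j)]
    · exact Finset.prod_pos fun i _ => pow_pos (hpos i) 2
  · rw [bnum_eval, Complex.ofReal_sum, Finset.mul_sum]
    refine Finset.sum_congr rfl fun j _ => ?_
    have h1 : (1 - conj (a j) * a j) = ((1 - ‖a j‖ ^ 2 : ℝ) : ℂ) := by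
      rw [← Complex.normSq_eq_norm_sq, Complex.ofReal_sub, Complex.normSq_eq_conj_mul_self]
      norm_num
    have h2 : ∏ i ∈ Finset.univ.erase j, ((z - a i) * (1 - conj (a i) * z)) =
        z ^ 6 * ((∏ i ∈ Finset.univ.erase j, ‖1 - conj (a i) * z‖ ^ 2 : ℝ) : ℂ) := by
      rw [Finset.prod_congr rfl fun i _ => circle_factor hz, Finset.prod_mul_distrib,
        Finset.prod_const, Finset.card_erase_of_mem (Finset.mem_univ j), Finset.card_univ,
        Fintype.card_fin, Complex.ofReal_prod]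
    rw [h1, h2, Complex.ofReal_mul]
    ring

theorem const_of_circle_real {q : ℂ → ℂ} (hq : DiffContOnCl ℂ q (ball 0 1))
    (hreal : ∀ z, ‖z‖ = 1 → (q z).im = 0) :
    ∃ k : ℂ, ∀ z ∈ closedBall (0:ℂ) 1, q z = k := by
  have hfr : frontier (ball (0:ℂ) 1) = sphere 0 1 := frontier_ball _ one_ne_zero
  have hcl : closure (ball (0:ℂ) 1) = closedBall 0 1 := closure_ball _ one_ne_zero
  have key : ∀ w : ℂ, w.re = 0 → ∀ z ∈ ball (0:ℂ) 1, 0 ≤ w.im * (q z).im := by
    intro w hw z hz
    have hd : DiffContOnCl ℂ (fun z => exp (w * q z)) (ball 0 1) := by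
      have he : Differentiable ℂ (fun x : ℂ => exp (w * x)) := by fun_prop
      exact he.comp_diffContOnCl hq
    have hn : ∀ z, ‖exp (w * q z)‖ = Real.exp (-(w.im * (q z).im)) := by
      intro z
      rw [Complex.norm_exp, Complex.mul_re, hw]
      ring_nf
    have h1 := Complex.norm_le_of_forall_mem_frontier_norm_le (C := 1) isBounded_ball hd
      (fun x hx => by
        rw [hfr, mem_sphere_zero_iff_norm] at hx
        rw [hn, hreal x hx]
        simp) (subset_closure hz)
    rw [hn, ← Real.exp_zero] at h1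
    have := Real.exp_le_exp.1 h1
    linarith
  have him : ∀ z ∈ ball (0:ℂ) 1, (q z).im = 0 := by
    intro z hz
    have h1 := key I (by simp) z hz
    have h2 := key (-I) (by simp) z hz
    simp at h1 h2
    linarith
  have han : AnalyticOnNhd ℂ q (ball 0 1) := hq.differentiableOn.analyticOnNhd isOpen_ball
  obtain ⟨k, hk⟩ := han.eq_const_of_im_eq_const him isOpen_ball
    ((convex_ball (0:ℂ) 1).isConnected ⟨0, mem_ball_self one_pos⟩)
  refine ⟨k, fun z hz => ?_⟩
  rw [← hcl] at hz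
  have h3 : EqOn q (fun _ => k) (closure (ball (0:ℂ) 1)) :=
    EqOn.of_subset_closure (s := ball (0:ℂ) 1) hk hq.continuousOn continuousOn_const
      subset_closure Subset.rfl
  exact h3 hz

theorem bnum_factor {a : Fin 7 → ℂ} {c : Fin 6 → ℂ} (ha : ∀ j, ‖a j‖ ≤ 1 / 200)
    (hc : ∀ j, ‖c j‖ ≤ 1 / 200) {G : ℂ → ℂ} (hG : ContinuousOn G (ball 0 1))
    (h : ∀ z ∈ ball (0:ℂ) 1, (bnum a).eval z = G z * ∏ j, (z - c j)) :
    ∃ κ : ℝ, 0 < κ ∧ ∀ z, (bnum a).eval z =
      κ * ((∏ j, (z - c j)) * ∏ j, (1 - conj (c j) * z)) := by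
  obtain ⟨Q, hQ⟩ := exists_poly_quotient (bnum a) c (fun j => by
    have := hc j; linarith) G hG h
  have hcden : ∀ z : ℂ, ‖z‖ < 2 → ∏ j, (1 - conj (c j) * z) ≠ 0 := fun z hz =>
    Finset.prod_ne_zero_iff.2 fun j _ => den_ne_zero_of_small (hc j) hz
  set q : ℂ → ℂ := fun z => Q.eval z / ∏ j, (1 - conj (c j) * z) with hq
  have hqd : DifferentiableOn ℂ q (ball 0 2) := by
    intro z hz
    rw [mem_ball_zero_iff] at hz
    apply DifferentiableAt.differentiableWithinAt
    apply DifferentiableAt.div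
    · exact Q.differentiable z
    · fun_prop
    · exact hcden z hz
  have hqc : DiffContOnCl ℂ q (ball 0 1) := by
    apply DifferentiableOn.diffContOnCl
    rw [closure_ball (0:ℂ) one_ne_zero]
    exact hqd.mono (closedBall_subset_ball (by norm_num))
  have hval : ∀ z, ‖z‖ = 1 → ∃ t : ℝ, 0 < t ∧ q z = t := by
    intro z hz
    obtain ⟨S, hS, hSe⟩ := bnum_circle (a := a) (fun j => by
      have := ha j; linarith) hz
    have hprod : (∏ j, (z - c j)) * ∏ j, (1 - conj (c j) * z) =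
        z ^ 6 * ((∏ j, ‖1 - conj (c j) * z‖ ^ 2 : ℝ) : ℂ) := by
      rw [← Finset.prod_mul_distrib, Finset.prod_congr rfl fun i _ => circle_factor hz,
        Finset.prod_mul_distrib, Finset.prod_const, Finset.card_univ, Fintype.card_fin,
        Complex.ofReal_prod]
    set T : ℝ := ∏ j, ‖1 - conj (c j) * z‖ ^ 2 with hT
    have hTpos : 0 < T := by
      refine Finset.prod_pos fun j _ => pow_pos (norm_pos_iff.2 ?_) 2
      exact den_ne_zero_of_small (hc j) (by rw [hz]; norm_num)
    have hz0 : z ≠ 0 := by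
      intro h0
      rw [h0, norm_zero] at hz
      exact zero_ne_one hz
    refine ⟨S / T, div_pos hS hTpos, ?_⟩
    have h1 := hQ z
    rw [hSe] at h1
    have hD := hcden z (by rw [hz]; norm_num)
    have h2 : q z * (z ^ 6 * (T : ℂ)) = z ^ 6 * (S : ℂ) := by
      rw [← hprod, h1]
      have h3 : q z * ∏ j, (1 - conj (c j) * z) = Q.eval z := div_mul_cancel₀ _ hD
      linear_combination (∏ j, (z - c j)) * h3
    have hT0 : (T : ℂ) ≠ 0 := Complex.ofReal_ne_zero.2 hTpos.ne'
    have hz6 : z ^ 6 ≠ 0 := pow_ne_zero _ hz0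
    rw [Complex.ofReal_div, eq_div_iff hT0]
    apply mul_left_cancel₀ hz6
    linear_combination h2
  obtain ⟨k, hk⟩ := const_of_circle_real hqc (fun z hz => by
    obtain ⟨t, -, ht⟩ := hval z hz
    rw [ht, Complex.ofReal_im])
  obtain ⟨κ, hκ, hκe⟩ := hval 1 norm_one
  have hkκ : k = κ := by
    rw [← hκe, hk 1 (mem_closedBall_zero_iff.2 (by rw [norm_one]))]
  refine ⟨κ, hκ, ?_⟩
  have hball : ∀ z ∈ ball (0:ℂ) 1, (bnum a).eval z =
      κ * ((∏ j, (z - c j)) * ∏ j, (1 - conj (c j) * z)) := by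
    intro z hz
    have h1 := hk z (ball_subset_closedBall hz)
    rw [hkκ] at h1
    rw [mem_ball_zero_iff] at hz
    have hD := hcden z (by linarith)
    simp only [hq] at h1
    rw [div_eq_iff hD] at h1
    rw [hQ z, h1]
    ring
  set P : Polynomial ℂ := Polynomial.C (κ : ℂ) *
    ((∏ j, (Polynomial.X - Polynomial.C (c j))) *
      ∏ j, (1 - Polynomial.C (conj (c j)) * Polynomial.X)) with hP
  have hPe : ∀ z, P.eval z = κ * ((∏ j, (z - c j)) * ∏ j, (1 - conj (c j) * z)) := by
    intro z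
    simp [hP, Polynomial.eval_prod]
  have heq : bnum a = P := by
    apply Polynomial.eq_of_infinite_eval_eq
    apply Set.Infinite.mono (s := ball (0:ℂ) 1)
    · intro z hz
      change (bnum a).eval z = P.eval z
      rw [hball z hz, hPe]
    · exact infinite_of_mem_nhds (0:ℂ) (ball_mem_nhds 0 one_pos)
  intro z
  rw [heq, hPe]

end Pool.Agent.Steklov.M1
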