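import Mathlib
import Pool.Agent.Steklov.Defs

/-!
# Module M1, part 1: the set `{‖F‖ < R}` (size estimates, star shape)
-/

set_option autoImplicit false

open Complex Metric Set
open scoped ComplexConjugate

namespace Pool.Agent.Steklov.M1

section norms

variable {p : ℂ} (hp : p ^ 2 - p + 2 = 0)

include hp

theorem p_re_im : p.re = 1 / 2 ∧ p.im ^ 2 = 7 / 4 := by
  have h1 := congrArg Complex.re hp
  have h2 := congrArg Complex.im hp
  simp [pow_two] at h1 h2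
  have h3 : p.im * (2 * p.re - 1) = 0 := by linarith
  rcases mul_eq_zero.1 h3 with h | h
  · rw [h] at h1
    nlinarith [sq_nonneg (p.re - 1 / 2)]
  · have h4 : p.re = 1 / 2 := by linarith
    refine ⟨h4, ?_⟩
    rw [h4] at h1
    nlinarith

theorem norm_p_le : ‖p‖ ≤ 10 / 7 := by
  obtain ⟨h1, h2⟩ := p_re_im hp
  have h3 : ‖p‖ ^ 2 = 2 := by
    rw [← Complex.normSq_eq_norm_sq, Complex.normSq_apply, h1]
    nlinarith
  by_contra h
  push Not at h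
  nlinarith

theorem norm_p3_le : ‖p - 3‖ ≤ 20 / 7 := by
  obtain ⟨h1, h2⟩ := p_re_im hp
  have h3 : ‖p - 3‖ ^ 2 = 8 := by
    rw [← Complex.normSq_eq_norm_sq, Complex.normSq_apply]
    simp [h1]
    nlinarith
  by_contra h
  push Not at h
  nlinarith

omit hp in
theorem norm_w0_le : ‖(1 + I : ℂ)‖ ≤ 2 := by
  calc ‖(1 + I : ℂ)‖ ≤ ‖(1 : ℂ)‖ + ‖I‖ := norm_add_le _ _
    _ = 2 := by norm_num [Complex.norm_I]

theorem norm_7p_le : ‖7 * p‖ ≤ 10 := by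
  rw [norm_mul]
  have := norm_p_le hp
  norm_num at this ⊢
  linarith

theorem norm_7p3_le : ‖7 * (p - 3)‖ ≤ 20 := by
  rw [norm_mul]
  have := norm_p3_le hp
  norm_num at this ⊢
  linarith

theorem norm_FF_sub_le (x : ℂ) : ‖FF p x - x ^ 7‖ ≤ 10 * ‖x‖ ^ 4 + 20 * ‖x‖ + 2 := by
  have h1 : FF p x - x ^ 7 = 7 * p * x ^ 4 + 7 * (p - 3) * x - (1 + I) := by
    unfold FF; ring
  rw [h1]
  calc ‖7 * p * x ^ 4 + 7 * (p - 3) * x - (1 + I)‖
      ≤ ‖7 * p * x ^ 4‖ + ‖7 * (p - 3) * x‖ + ‖(1 + I : ℂ)‖ :=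
        (norm_sub_le _ _).trans (by gcongr; exact norm_add_le _ _)
    _ ≤ 10 * ‖x‖ ^ 4 + 20 * ‖x‖ + 2 := by
        rw [norm_mul (7 * p), norm_mul (7 * (p - 3)), norm_pow]
        gcongr
        · exact norm_7p_le hp
        · exact norm_7p3_le hp
        · exact norm_w0_le

theorem norm_FF_le (x : ℂ) : ‖FF p x‖ ≤ ‖x‖ ^ 7 + (10 * ‖x‖ ^ 4 + 20 * ‖x‖ + 2) := by
  have h1 := norm_FF_sub_le hp x
  have h2 : ‖FF p x‖ ≤ ‖x ^ 7‖ + ‖FF p x - x ^ 7‖ := by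
    calc ‖FF p x‖ = ‖x ^ 7 + (FF p x - x ^ 7)‖ := by ring_nf
      _ ≤ _ := norm_add_le _ _
  rw [norm_pow] at h2
  linarith

theorem le_norm_FF (x : ℂ) : ‖x‖ ^ 7 - (10 * ‖x‖ ^ 4 + 20 * ‖x‖ + 2) ≤ ‖FF p x‖ := by
  have h1 := norm_FF_sub_le hp x
  have h2 : ‖x ^ 7‖ ≤ ‖FF p x‖ + ‖FF p x - x ^ 7‖ := by
    calc ‖x ^ 7‖ = ‖FF p x - (FF p x - x ^ 7)‖ := by ring_nf
      _ ≤ _ := norm_sub_le _ _
  rw [norm_pow] at h2
  linarith

theorem closedBall_subset_sublevel : closedBall (0:ℂ) 999 ⊆ {x | ‖FF p x‖ < RR} := by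
  intro x hx
  rw [mem_closedBall_zero_iff] at hx
  have h1 := norm_FF_le hp x
  have h2 : ‖x‖ ^ 7 ≤ 999 ^ 7 := pow_le_pow_left₀ (norm_nonneg _) hx 7
  have h3 : ‖x‖ ^ 4 ≤ 999 ^ 4 := pow_le_pow_left₀ (norm_nonneg _) hx 4
  change ‖FF p x‖ < RR
  unfold RR
  norm_num at h2 h3 ⊢
  linarith

theorem sublevel_subset_ball : {x | ‖FF p x‖ < RR} ⊆ ball (0:ℂ) 1001 := by
  intro x hx
  rw [mem_ball_zero_iff]
  by_contra h
  push Not at h
  have h1 := le_norm_FF hp x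
  have hx' : ‖FF p x‖ < 10 ^ 21 := hx
  have h4 : (1001:ℝ) ^ 4 ≤ ‖x‖ ^ 4 := pow_le_pow_left₀ (by norm_num) h 4
  have h3 : (1001:ℝ) ^ 3 ≤ ‖x‖ ^ 3 := pow_le_pow_left₀ (by norm_num) h 3
  have h5 : ‖x‖ ^ 7 = ‖x‖ ^ 4 * ‖x‖ ^ 3 := by ring
  have h6 : ‖x‖ ≤ ‖x‖ ^ 4 := by
    calc ‖x‖ = ‖x‖ ^ 1 := (pow_one _).symm
      _ ≤ ‖x‖ ^ 4 := pow_le_pow_right₀ (by linarith) (by norm_num)
  have h7 : ‖x‖ ^ 4 * 1001 ^ 3 ≤ ‖x‖ ^ 7 := by
    rw [h5]; gcongr
  norm_num at h4 h3 h7 hx'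
  linarith

omit hp in
theorem isOpen_sublevel : IsOpen {x | ‖FF p x‖ < RR} := by
  have : Continuous fun x => ‖FF p x‖ := by unfold FF; fun_prop
  exact isOpen_lt this continuous_const

omit hp in
/-- the derivative of `FF p` -/
theorem hasDerivAt_FF (x : ℂ) :
    HasDerivAt (FF p) (7 * (x ^ 6 + 4 * p * x ^ 3 + (p - 3))) x := by
  have h1 := (((hasDerivAt_pow 7 x).add ((hasDerivAt_pow 4 x).const_mul (7 * p))).add
    ((hasDerivAt_id x).const_mul (7 * (p - 3)))).sub_const (1 + I)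
  have h2 : HasDerivAt (FF p) ((7:ℕ) * x ^ (7 - 1) + 7 * p * ((4:ℕ) * x ^ (4 - 1)) +
      7 * (p - 3) * 1) x := h1
  have h3 : ((7:ℕ) : ℂ) * x ^ (7 - 1) + 7 * p * (((4:ℕ) : ℂ) * x ^ (4 - 1)) +
      7 * (p - 3) * 1 = 7 * (x ^ 6 + 4 * p * x ^ 3 + (p - 3)) := by
    norm_num
    ring
  rwa [h3] at h2

theorem re_pos_of_ten_le {z : ℂ} (hz : 10 ≤ ‖z‖) :
    0 ≤ (conj (FF p z) * (z * (7 * (z ^ 6 + 4 * p * z ^ 3 + (p - 3))))).re := by
  set D : ℂ := z * (7 * (z ^ 6 + 4 * p * z ^ 3 + (p - 3))) - 7 * FF p z with hD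
  have h1 : D = -3 * (7 * p * z ^ 4) - 6 * (7 * (p - 3) * z) + 7 * (1 + I) := by
    rw [hD]; unfold FF; ring
  have h2 : ‖D‖ ≤ 30 * ‖z‖ ^ 4 + 120 * ‖z‖ + 14 := by
    rw [h1]
    calc ‖-3 * (7 * p * z ^ 4) - 6 * (7 * (p - 3) * z) + 7 * (1 + I)‖
        ≤ ‖-3 * (7 * p * z ^ 4)‖ + ‖6 * (7 * (p - 3) * z)‖ + ‖7 * (1 + I : ℂ)‖ :=
          (norm_add_le _ _).trans (by gcongr; exact norm_sub_le _ _)
      _ ≤ 3 * (10 * ‖z‖ ^ 4) + 6 * (20 * ‖z‖) + 7 * 2 := by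
          have e1 : ‖(-3 : ℂ)‖ = 3 := by norm_num
          have e2 : ‖(6 : ℂ)‖ = 6 := by norm_num
          have e3 : ‖(7 : ℂ)‖ = 7 := by norm_num
          have f1 : ‖7 * p * z ^ 4‖ ≤ 10 * ‖z‖ ^ 4 := by
            rw [norm_mul, norm_pow]
            gcongr
            exact norm_7p_le hp
          have f2 : ‖7 * (p - 3) * z‖ ≤ 20 * ‖z‖ := by
            rw [norm_mul]
            gcongr
            exact norm_7p3_le hp
          have f3 := norm_w0_le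
          rw [norm_mul (-3), norm_mul 6, norm_mul 7 (1 + I), e1, e2, e3]
          gcongr
      _ = 30 * ‖z‖ ^ 4 + 120 * ‖z‖ + 14 := by ring
  have h3 := le_norm_FF hp z
  have h4 : (10:ℝ) ^ 3 ≤ ‖z‖ ^ 3 := pow_le_pow_left₀ (by norm_num) hz 3
  have h6 : ‖z‖ ≤ ‖z‖ ^ 4 := by
    calc ‖z‖ = ‖z‖ ^ 1 := (pow_one _).symm
      _ ≤ ‖z‖ ^ 4 := pow_le_pow_right₀ (by linarith) (by norm_num)
  have h7 : ‖z‖ ^ 4 * 10 ^ 3 ≤ ‖z‖ ^ 7 := by
    have : ‖z‖ ^ 7 = ‖z‖ ^ 4 * ‖z‖ ^ 3 := by ring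
    rw [this]; gcongr
  have h8 : ‖D‖ ≤ 7 * ‖FF p z‖ := by
    norm_num at h7
    linarith
  have h9 : conj (FF p z) * (z * (7 * (z ^ 6 + 4 * p * z ^ 3 + (p - 3)))) =
      7 * (conj (FF p z) * FF p z) + conj (FF p z) * D := by
    rw [hD]; ring
  rw [h9, Complex.add_re]
  have h10 : (7 * (conj (FF p z) * FF p z)).re = 7 * ‖FF p z‖ ^ 2 := by
    rw [← Complex.normSq_eq_conj_mul_self, Complex.normSq_eq_norm_sq]
    norm_cast
  have h11 : -(‖FF p z‖ * ‖D‖) ≤ (conj (FF p z) * D).re := by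
    have := Complex.abs_re_le_norm (conj (FF p z) * D)
    rw [norm_mul, Complex.norm_conj] at this
    exact (abs_le.1 this).1
  rw [h10]
  nlinarith [norm_nonneg (FF p z)]

theorem starConvex_sublevel : StarConvex ℝ (0:ℂ) {x | ‖FF p x‖ < RR} := by
  intro x hx a t ha ht hat
  rw [smul_zero, zero_add]
  change ‖FF p (t • x)‖ < RR
  have ht1 : t ≤ 1 := by linarith
  by_cases hlt : ‖t • x‖ ≤ 999
  · exact closedBall_subset_sublevel hp (mem_closedBall_zero_iff.2 hlt)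
  push Not at hlt
  have hmono : MonotoneOn (fun s : ℝ => ‖FF p (s • x)‖ ^ 2) (Icc t 1) := by
    have hd : ∀ s : ℝ, HasDerivAt (fun s : ℝ => ‖FF p (s • x)‖ ^ 2)
        (2 * (conj (FF p (s • x)) * (x * (7 * ((s • x) ^ 6 + 4 * p * (s • x) ^ 3 + (p - 3))))).re)
        s := by
      intro s
      have h1 : HasDerivAt (fun s : ℝ => s • x) x s := by
        simpa using (hasDerivAt_id s).smul_const x
      have h2 : HasDerivAt (fun s : ℝ => FF p (s • x))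
          ((7 * ((s • x) ^ 6 + 4 * p * (s • x) ^ 3 + (p - 3))) * x) s :=
        HasDerivAt.comp_of_eq (h := fun s : ℝ => s • x) s (hasDerivAt_FF (s • x)) h1 rfl
      have h3 := h2.norm_sq
      convert h3 using 1
      rw [Complex.inner]
      congr 2
      ring
    apply monotoneOn_of_deriv_nonneg (convex_Icc _ _)
    · exact fun s _ => (hd s).continuousAt.continuousWithinAt
    · exact fun s _ => (hd s).differentiableAt.differentiableWithinAt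
    · intro s hs
      rw [interior_Icc] at hs
      rw [(hd s).deriv]
      have hs0 : 0 < s := ht.trans_lt hs.1
      have h1 : 10 ≤ ‖s • x‖ := by
        rw [norm_smul, Real.norm_eq_abs, abs_of_pos hs0]
        rw [norm_smul, Real.norm_eq_abs, abs_of_nonneg ht] at hlt
        nlinarith [norm_nonneg x, hs.1]
      have h2 := re_pos_of_ten_le hp h1
      have h3 : conj (FF p (s • x)) *
          ((s • x) * (7 * ((s • x) ^ 6 + 4 * p * (s • x) ^ 3 + (p - 3)))) =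
          (s : ℂ) * (conj (FF p (s • x)) *
            (x * (7 * ((s • x) ^ 6 + 4 * p * (s • x) ^ 3 + (p - 3))))) := by
        rw [Complex.real_smul]
        ring
      rw [h3, Complex.re_ofReal_mul] at h2
      have h4 := nonneg_of_mul_nonneg_right h2 hs0
      positivity
  have h1 := hmono (left_mem_Icc.2 ht1) (right_mem_Icc.2 ht1) ht1
  simp only [one_smul] at h1
  have h2 : ‖FF p (t • x)‖ ≤ ‖FF p x‖ := by
    exact (pow_le_pow_iff_left₀ (norm_nonneg _) (norm_nonneg _) two_ne_zero).1 h1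
  exact h2.trans_lt hx

theorem isSimplyConnected_sublevel : IsSimplyConnected {x | ‖FF p x‖ < RR} := by
  have h0 : (0:ℂ) ∈ {x | ‖FF p x‖ < RR} :=
    closedBall_subset_sublevel hp (mem_closedBall_self (by norm_num))
  have : ContractibleSpace {x | ‖FF p x‖ < RR} :=
    (starConvex_sublevel hp).contractibleSpace ⟨0, h0⟩
  exact SimplyConnectedSpace.ofContractible _

end norms

end Pool.Agent.Steklov.M1
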