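import Mathlib
import Pool.Agent.Steklov.ModelSet
import Pool.Agent.Steklov.ModelFactor
import Pool.Agent.Lib.Hurwitz

/-!
# Module M1: the disc model of `{‖F‖ < R}`
-/

set_option autoImplicit false

open Complex Metric Set
open scoped ComplexConjugate Topology
open Pool.Agent.Lib.RiemannMapping (mob)

namespace Pool.Agent.Steklov.M1

theorem norm_mob_ge {a z : ℂ} (ha : ‖a‖ ≤ 1 / 200) (hz : ‖z‖ < 1) :
    1 - 3 * (1 - ‖z‖) ≤ ‖mob a z‖ := by
  have ha1 : ‖a‖ < 1 := by linarith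
  have h1 := Pool.Agent.Lib.RiemannMapping.sq_norm_den_sub_sq_norm_num a z
  have h2 : 199 / 200 ≤ ‖1 - conj a * z‖ := by
    have h3 : ‖conj a * z‖ ≤ 1 / 200 := by
      rw [norm_mul, Complex.norm_conj]
      nlinarith [norm_nonneg a, norm_nonneg z]
    have h4 : ‖(1:ℂ)‖ - ‖conj a * z‖ ≤ ‖1 - conj a * z‖ := norm_sub_norm_le _ _
    rw [norm_one] at h4
    linarith
  have hlt := Pool.Agent.Lib.RiemannMapping.norm_mob_lt_one ha1 hz
  have h5 : ‖mob a z‖ = ‖z - a‖ / ‖1 - conj a * z‖ := norm_div _ _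
  have hD : 0 < ‖1 - conj a * z‖ := by linarith
  have h6 : ‖mob a z‖ ^ 2 * ‖1 - conj a * z‖ ^ 2 = ‖z - a‖ ^ 2 := by
    rw [h5, div_pow, div_mul_cancel₀ _ (pow_ne_zero 2 hD.ne')]
  have h7 : 1 - 3 * (1 - ‖z‖) ≤ ‖mob a z‖ ^ 2 := by
    by_contra hcon
    push Not at hcon
    have h8 : (0:ℝ) < ‖1 - conj a * z‖ ^ 2 := by positivity
    have h9 : ‖z - a‖ ^ 2 < (1 - 3 * (1 - ‖z‖)) * ‖1 - conj a * z‖ ^ 2 := by
      rw [← h6]
      exact mul_lt_mul_of_pos_right hcon h8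
    have h10 : (199 / 200 : ℝ) ^ 2 ≤ ‖1 - conj a * z‖ ^ 2 := by
      gcongr
    have h11 : (1 - ‖a‖ ^ 2) * (1 - ‖z‖ ^ 2) ≤ 2 * (1 - ‖z‖) := by
      have e1 : 0 ≤ 1 - ‖z‖ := by linarith
      have e2 : 0 ≤ ‖a‖ ^ 2 := by positivity
      have e3 : 0 ≤ 1 - ‖z‖ ^ 2 := by nlinarith [norm_nonneg z]
      nlinarith [norm_nonneg z, mul_nonneg e2 e3, sq_nonneg (1 - ‖z‖)]
    nlinarith
  nlinarith [norm_nonneg (mob a z)]

theorem prod_norm_mob_ge {a : Fin 7 → ℂ} (ha : ∀ j, ‖a j‖ ≤ 1 / 200) {z : ℂ} (hz : ‖z‖ < 1)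
    (hz' : 2 / 3 ≤ ‖z‖) :
    1 - 21 * (1 - ‖z‖) ≤ ‖∏ j, mob (a j) z‖ := by
  rw [norm_prod]
  have h0 : 0 ≤ 1 - 3 * (1 - ‖z‖) := by linarith
  calc 1 - 21 * (1 - ‖z‖) = 1 + ((7:ℕ):ℝ) * (-(3 * (1 - ‖z‖))) := by push_cast; ring
    _ ≤ (1 + -(3 * (1 - ‖z‖))) ^ 7 := one_add_mul_le_pow (by linarith) 7
    _ = ∏ _j : Fin 7, (1 - 3 * (1 - ‖z‖)) := by
        rw [Finset.prod_const, Finset.card_univ, Fintype.card_fin]
        ring
    _ ≤ ∏ j, ‖mob (a j) z‖ :=
        Finset.prod_le_prod (fun _ _ => h0) fun j _ => norm_mob_ge (ha j) hz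

section

variable {p : ℂ} (hp : p ^ 2 - p + 2 = 0)

include hp

omit hp in
theorem exists_roots_FF : ∃ x : Fin 7 → ℂ, ∀ z, FF p z = ∏ j, (z - x j) := by
  set P : Polynomial ℂ := Polynomial.X ^ 7 + (Polynomial.C (7 * p) * Polynomial.X ^ 4 +
    Polynomial.C (7 * (p - 3)) * Polynomial.X - Polynomial.C (1 + I)) with hP
  have hdeg : (Polynomial.C (7 * p) * Polynomial.X ^ 4 +
    Polynomial.C (7 * (p - 3)) * Polynomial.X - Polynomial.C (1 + I)).degree < ((7:ℕ) : WithBot ℕ) := by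
    refine lt_of_le_of_lt (b := ((4:ℕ) : WithBot ℕ)) ?_ (by norm_cast)
    compute_degree
    norm_num
  have hm : P.Monic := Polynomial.monic_X_pow_add hdeg
  have hn : P.natDegree = 7 := by
    apply Polynomial.natDegree_eq_of_degree_eq_some
    rw [hP, Polynomial.degree_add_eq_left_of_degree_lt]
    · exact Polynomial.degree_X_pow 7
    · rw [Polynomial.degree_X_pow]; exact hdeg
  obtain ⟨x, hx⟩ := exists_roots_monic P hm hn
  refine ⟨x, fun z => ?_⟩
  rw [← hx z, hP]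
  simp [FF]
  ring

omit hp in
theorem exists_roots_FF' : ∃ k : Fin 6 → ℂ, ∀ z, z ^ 6 + 4 * p * z ^ 3 + (p - 3) =
    ∏ j, (z - k j) := by
  set P : Polynomial ℂ := Polynomial.X ^ 6 + (Polynomial.C (4 * p) * Polynomial.X ^ 3 +
    Polynomial.C (p - 3)) with hP
  have hdeg : (Polynomial.C (4 * p) * Polynomial.X ^ 3 +
    Polynomial.C (p - 3)).degree < ((6:ℕ) : WithBot ℕ) := by
    refine lt_of_le_of_lt (b := ((3:ℕ) : WithBot ℕ)) ?_ (by norm_cast)
    compute_degree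
    norm_num
  have hm : P.Monic := Polynomial.monic_X_pow_add hdeg
  have hn : P.natDegree = 6 := by
    apply Polynomial.natDegree_eq_of_degree_eq_some
    rw [hP, Polynomial.degree_add_eq_left_of_degree_lt]
    · exact Polynomial.degree_X_pow 6
    · rw [Polynomial.degree_X_pow]; exact hdeg
  obtain ⟨k, hk⟩ := exists_roots_monic P hm hn
  refine ⟨k, fun z => ?_⟩
  rw [← hk z, hP]
  simp
  ring

theorem norm_root_lt {x : ℂ} (hx : FF p x = 0) : ‖x‖ < 4 := by
  by_contra h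
  push Not at h
  have h1 := le_norm_FF hp x
  rw [hx, norm_zero] at h1
  have h3 : (4:ℝ) ^ 3 ≤ ‖x‖ ^ 3 := pow_le_pow_left₀ (by norm_num) h 3
  have h6 : ‖x‖ ≤ ‖x‖ ^ 4 := by
    calc ‖x‖ = ‖x‖ ^ 1 := (pow_one _).symm
      _ ≤ ‖x‖ ^ 4 := pow_le_pow_right₀ (by linarith) (by norm_num)
  have h7 : ‖x‖ ^ 4 * 4 ^ 3 ≤ ‖x‖ ^ 7 := by
    have : ‖x‖ ^ 7 = ‖x‖ ^ 4 * ‖x‖ ^ 3 := by ring
    rw [this]; gcongr
  norm_num at h7
  linarith

theorem norm_root_lt' {x : ℂ} (hx : x ^ 6 + 4 * p * x ^ 3 + (p - 3) = 0) : ‖x‖ < 5 / 2 := by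
  by_contra h
  push Not at h
  have h1 : x ^ 6 = -(4 * p * x ^ 3 + (p - 3)) := by linear_combination hx
  have h2 : ‖x‖ ^ 6 ≤ 4 * (10 / 7) * ‖x‖ ^ 3 + 20 / 7 := by
    rw [← norm_pow, h1, norm_neg]
    calc ‖4 * p * x ^ 3 + (p - 3)‖ ≤ ‖4 * p * x ^ 3‖ + ‖p - 3‖ := norm_add_le _ _
      _ ≤ 4 * (10 / 7) * ‖x‖ ^ 3 + 20 / 7 := by
          rw [norm_mul, norm_mul, norm_pow]
          have e1 : ‖(4 : ℂ)‖ = 4 := by norm_num
          rw [e1]
          gcongr
          · exact norm_p_le hp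
          · exact norm_p3_le hp
  have h3 : (5 / 2 : ℝ) ^ 3 ≤ ‖x‖ ^ 3 := pow_le_pow_left₀ (by norm_num) h 3
  have h4 : ‖x‖ ^ 6 = ‖x‖ ^ 3 * ‖x‖ ^ 3 := by ring
  norm_num at h3
  nlinarith

theorem exists_bmodel : Nonempty (BModel (FF p)) := by
  set U : Set ℂ := {x | ‖FF p x‖ < RR} with hU
  have hUo : IsOpen U := isOpen_sublevel
  have hRR : (0:ℝ) < RR := by unfold RR; positivity
  have hsub999 : closedBall (0:ℂ) 999 ⊆ U := closedBall_subset_sublevel hp
  have hU1001 : U ⊆ ball (0:ℂ) 1001 := sublevel_subset_ball hp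
  have h0U : (0:ℂ) ∈ U := hsub999 (mem_closedBall_self (by norm_num))
  have hne : U ≠ univ := by
    intro h
    have h1 : (1001:ℂ) ∈ ball (0:ℂ) 1001 := hU1001 (by rw [h]; exact mem_univ _)
    rw [mem_ball_zero_iff] at h1
    norm_num at h1
  obtain ⟨α, β, hα, hαinj, hαimg, hα0, -, hβ, hβinj, hβimg, hβ0, hβα, hαβ⟩ :=
    Pool.Agent.Lib.RiemannMapping.riemann_mapping hUo (isSimplyConnected_sublevel hp) hne h0U
  have hαm : ∀ z ∈ ball (0:ℂ) 1, α z ∈ U := fun z hz => hαimg ▸ mem_image_of_mem α hz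
  have hβm : ∀ x ∈ U, β x ∈ ball (0:ℂ) 1 := fun x hx => hβimg ▸ mem_image_of_mem β hx
  -- Schwarz lemma
  have hschw : ∀ x : ℂ, ‖x‖ < 999 → ‖β x‖ ≤ ‖x‖ / 999 := by
    intro x hx
    have hsub : ball (0:ℂ) 999 ⊆ U := ball_subset_closedBall.trans hsub999
    have h1 := Complex.dist_le_div_mul_dist_of_mapsTo_ball (c := 0) (R₁ := 999) (R₂ := 1)
      (hβ.mono hsub) (fun w hw => by
        rw [hβ0]
        exact ball_subset_closedBall (hβm w (hsub hw))) (mem_ball_zero_iff.2 hx)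
    rw [hβ0, dist_zero_right, dist_zero_right] at h1
    linarith
  obtain ⟨x, hx⟩ := exists_roots_FF (p := p)
  obtain ⟨k, hk⟩ := exists_roots_FF' (p := p)
  have hx4 : ∀ j, ‖x j‖ < 4 := by
    intro j
    apply norm_root_lt hp
    rw [hx]
    exact Finset.prod_eq_zero (Finset.mem_univ j) (sub_self _)
  have hk3 : ∀ j, ‖k j‖ < 5 / 2 := by
    intro j
    apply norm_root_lt' hp
    rw [hk]
    exact Finset.prod_eq_zero (Finset.mem_univ j) (sub_self _)
  have hxU : ∀ j, x j ∈ U := fun j => hsub999 (mem_closedBall_zero_iff.2 (by linarith [hx4 j]))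
  have hkU : ∀ j, k j ∈ U := fun j => hsub999 (mem_closedBall_zero_iff.2 (by linarith [hk3 j]))
  set a : Fin 7 → ℂ := fun j => β (x j) with ha_def
  set c : Fin 6 → ℂ := fun j => β (k j) with hc_def
  have ha : ∀ j, ‖a j‖ ≤ 1 / 200 := by
    intro j
    have h1 := hschw (x j) (by linarith [hx4 j])
    have h2 := hx4 j
    calc ‖a j‖ ≤ ‖x j‖ / 999 := h1
      _ ≤ 1 / 200 := by rw [div_le_iff₀ (by norm_num)]; linarith
  have hc : ∀ j, ‖c j‖ ≤ 1 / 200 := by
    intro j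
    have h1 := hschw (k j) (by linarith [hk3 j])
    have h2 := hk3 j
    calc ‖c j‖ ≤ ‖k j‖ / 999 := h1
      _ ≤ 1 / 200 := by rw [div_le_iff₀ (by norm_num)]; linarith
  have haB : ∀ j, a j ∈ ball (0:ℂ) 1 := fun j => hβm _ (hxU j)
  have hcB : ∀ j, c j ∈ ball (0:ℂ) 1 := fun j => hβm _ (hkU j)
  have hαa : ∀ j, α (a j) = x j := fun j => hαβ _ (hxU j)
  have hαc : ∀ j, α (c j) = k j := fun j => hαβ _ (hkU j)
  have hdsl : ∀ b ∈ ball (0:ℂ) 1, DifferentiableOn ℂ (dslope α b) (ball 0 1) := fun b hb =>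
    (Complex.differentiableOn_dslope (isOpen_ball.mem_nhds hb)).2 hα
  have hdsl0 : ∀ b ∈ ball (0:ℂ) 1, ∀ z ∈ ball (0:ℂ) 1, dslope α b z ≠ 0 := by
    intro b hb z hz
    rcases eq_or_ne z b with rfl | hzb
    · rw [dslope_same]
      exact Pool.Agent.Lib.Hurwitz.deriv_ne_zero_of_injOn isOpen_ball hα hαinj hb
    · intro h
      have h1 := sub_smul_dslope α b z
      rw [h, smul_zero] at h1
      exact hzb (hαinj hz hb (sub_eq_zero.1 h1.symm))
  have haden : ∀ z : ℂ, ‖z‖ < 2 → ∀ j, 1 - conj (a j) * z ≠ 0 := fun z hz j =>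
    den_ne_zero_of_small (ha j) hz
  -- the unimodular function
  set h : ℂ → ℂ := fun z => (∏ j, (dslope α (a j) z * (1 - conj (a j) * z))) / RR with hh
  have hhd : DifferentiableOn ℂ h (ball 0 1) := by
    apply DifferentiableOn.div_const
    apply DifferentiableOn.fun_finsetProd
    intro j _
    apply (hdsl _ (haB j)).mul
    fun_prop
  have hRRc : (RR : ℂ) ≠ 0 := Complex.ofReal_ne_zero.2 hRR.ne'
  have hh0 : ∀ z ∈ ball (0:ℂ) 1, h z ≠ 0 := by
    intro z hz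
    apply div_ne_zero _ hRRc
    refine Finset.prod_ne_zero_iff.2 fun j _ => mul_ne_zero (hdsl0 _ (haB j) z hz) ?_
    rw [mem_ball_zero_iff] at hz
    exact haden z (by linarith) j
  have hfac : ∀ z ∈ ball (0:ℂ) 1, FF p (α z) = RR * (h z * ∏ j, mob (a j) z) := by
    intro z hz
    have hz2 : ‖z‖ < 2 := by
      rw [mem_ball_zero_iff] at hz; linarith
    rw [hx (α z)]
    simp only [hh]
    rw [div_mul_eq_mul_div, mul_div_cancel₀ _ hRRc, ← Finset.prod_mul_distrib]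
    refine Finset.prod_congr rfl fun j _ => ?_
    have h1 := sub_smul_dslope α (a j) z
    rw [hαa j, smul_eq_mul] at h1
    rw [← h1]
    unfold mob
    have h2 := haden z hz2 j
    rw [mul_assoc (dslope α (a j) z), mul_div_cancel₀ _ h2, mul_comm]
  have hlim : ∀ ε : ℝ, 0 < ε → ∃ s : ℝ, s < 1 ∧ ∀ z, s < ‖z‖ → ‖z‖ < 1 →
      ‖h z‖ ≤ 1 + ε ∧ ‖(h z)⁻¹‖ ≤ 1 + ε := by
    intro ε hε
    -- compactness
    set K : Set ℂ := {x | ‖FF p x‖ ≤ RR / (1 + ε)} with hK
    have hltRR : RR / (1 + ε) < RR := div_lt_self hRR (by linarith)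
    have hKU : K ⊆ U := fun y hy => lt_of_le_of_lt hy hltRR
    have hFc : Continuous fun x => ‖FF p x‖ := by unfold FF; fun_prop
    have hKc : IsCompact K := by
      apply Metric.isCompact_of_isClosed_isBounded
      · exact isClosed_le hFc continuous_const
      · exact isBounded_ball.subset (hKU.trans hU1001)
    obtain ⟨s1, hs1, hs1'⟩ : ∃ s1 : ℝ, s1 < 1 ∧ ∀ y ∈ K, ‖β y‖ ≤ s1 := by
      rcases K.eq_empty_or_nonempty with hKe | hKn
      · exact ⟨0, one_pos, fun y hy => by rw [hKe] at hy; exact absurd hy (notMem_empty y)⟩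
      · obtain ⟨y0, hy0, hmax⟩ := hKc.exists_isMaxOn hKn (hβ.continuousOn.mono hKU).norm
        refine ⟨‖β y0‖, ?_, fun y hy => hmax hy⟩
        have := hβm y0 (hKU hy0)
        rwa [mem_ball_zero_iff] at this
    have hε1 : 0 < 1 + ε := by linarith
    refine ⟨max s1 (max (2 / 3) (1 - ε / (1 + ε) / 21)), ?_, ?_⟩
    · refine max_lt hs1 (max_lt (by norm_num) ?_)
      have : 0 < ε / (1 + ε) / 21 := by positivity
      linarith
    intro z hz1 hz2
    have hza : s1 < ‖z‖ := lt_of_le_of_lt (le_max_left _ _) hz1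
    have hzb : 2 / 3 < ‖z‖ :=
      lt_of_le_of_lt ((le_max_left _ _).trans (le_max_right _ _)) hz1
    have hzc : 1 - ε / (1 + ε) / 21 < ‖z‖ :=
      lt_of_le_of_lt ((le_max_right _ _).trans (le_max_right _ _)) hz1
    have hz : z ∈ ball (0:ℂ) 1 := mem_ball_zero_iff.2 hz2
    have hzK : RR / (1 + ε) < ‖FF p (α z)‖ := by
      by_contra hcon
      push Not at hcon
      have h1 := hs1' (α z) hcon
      rw [hβα z hz] at h1
      linarith
    have hzU : ‖FF p (α z)‖ < RR := hαm z hz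
    have hP1 := prod_norm_mob_ge ha hz2 hzb.le
    have hP2 : ‖∏ j, mob (a j) z‖ ≤ 1 := by
      rw [norm_prod]
      apply Finset.prod_le_one (fun _ _ => norm_nonneg _)
      intro j _
      exact (Pool.Agent.Lib.RiemannMapping.norm_mob_lt_one
        (mem_ball_zero_iff.1 (haB j)) hz2).le
    have hP3 : 1 / (1 + ε) ≤ ‖∏ j, mob (a j) z‖ := by
      have h1 : 21 * (1 - ‖z‖) ≤ ε / (1 + ε) := by linarith
      have h2 : 1 / (1 + ε) = 1 - ε / (1 + ε) := by field_simp; ring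
      rw [h2]
      linarith
    have hfz := congrArg norm (hfac z hz)
    rw [norm_mul, norm_mul, Complex.norm_real, Real.norm_of_nonneg hRR.le] at hfz
    have hhpos : 0 < ‖h z‖ := norm_pos_iff.2 (hh0 z hz)
    constructor
    · rw [hfz] at hzU
      have h1 : ‖h z‖ * ‖∏ j, mob (a j) z‖ < 1 := by
        by_contra hcon
        push Not at hcon
        nlinarith
      have h2 : ‖h z‖ * (1 / (1 + ε)) < 1 :=
        lt_of_le_of_lt (mul_le_mul_of_nonneg_left hP3 hhpos.le) h1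
      rw [mul_one_div, div_lt_one hε1] at h2
      exact h2.le
    · rw [norm_inv]
      rw [hfz] at hzK
      have h1 : RR / (1 + ε) < RR * ‖h z‖ := by
        refine lt_of_lt_of_le hzK ?_
        have : ‖h z‖ * ‖∏ j, mob (a j) z‖ ≤ ‖h z‖ * 1 :=
          mul_le_mul_of_nonneg_left hP2 hhpos.le
        rw [mul_one] at this
        exact mul_le_mul_of_nonneg_left this hRR.le
      have h2 : 1 < (1 + ε) * ‖h z‖ := by
        rw [div_lt_iff₀ hε1] at h1
        by_contra hcon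
        push Not at hcon
        nlinarith
      rw [inv_le_comm₀ hhpos hε1, inv_le_iff_one_le_mul₀ hε1]
      linarith
  obtain ⟨hu, hconst⟩ := const_of_boundary hhd hh0 hlim
  set u : ℂ := h 0 with hu_def
  have hu0 : u ≠ 0 := norm_ne_zero_iff.1 (by rw [hu]; exact one_ne_zero)
  have hB : ∀ z, ‖z‖ < 1 → FF p (α z) = RR * Bl u a z := by
    intro z hz
    rw [hfac z (mem_ball_zero_iff.2 hz), hconst z (mem_ball_zero_iff.2 hz)]
    rfl
  -- the derivative
  set G : ℂ → ℂ := fun z => 7 / (RR * u) * deriv α z * (∏ j, dslope α (c j) z) *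
    (∏ j, (1 - conj (a j) * z)) ^ 2 with hG_def
  have hGc : ContinuousOn G (ball 0 1) := by
    apply ContinuousOn.mul
    · apply ContinuousOn.mul
      · exact continuousOn_const.mul (hα.deriv isOpen_ball).continuousOn
      · exact continuousOn_finsetProd _ fun j _ => (hdsl _ (hcB j)).continuousOn
    · fun_prop
  have hfactor : ∀ z ∈ ball (0:ℂ) 1, (bnum a).eval z = G z * ∏ j, (z - c j) := by
    intro z hz
    have hz2 : ‖z‖ < 2 := by
      rw [mem_ball_zero_iff] at hz; linarith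
    have hD : ∏ j, (1 - conj (a j) * z) ≠ 0 :=
      Finset.prod_ne_zero_iff.2 fun j _ => haden z hz2 j
    have h1 : HasDerivAt (fun z => RR * Bl u a z)
        (RR * (u * (bnum a).eval z / (∏ j, (1 - conj (a j) * z)) ^ 2)) z :=
      (hasDerivAt_Bl (haden z hz2)).const_mul _
    have h2 : HasDerivAt (fun z => FF p (α z))
        (7 * ((α z) ^ 6 + 4 * p * (α z) ^ 3 + (p - 3)) * deriv α z) z :=
      HasDerivAt.comp_of_eq (h := α) z (hasDerivAt_FF (α z))
        ((hα.differentiableAt (isOpen_ball.mem_nhds hz)).hasDerivAt) rfl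
    have h3 : (fun z => FF p (α z)) =ᶠ[𝓝 z] fun z => RR * Bl u a z := by
      filter_upwards [isOpen_ball.mem_nhds hz] with w hw
      exact hB w (mem_ball_zero_iff.1 hw)
    have h4 := h2.unique (h1.congr_of_eventuallyEq h3)
    rw [hk (α z)] at h4
    have h5 : ∏ j, (α z - k j) = (∏ j, (z - c j)) * ∏ j, dslope α (c j) z := by
      rw [← Finset.prod_mul_distrib]
      refine Finset.prod_congr rfl fun j _ => ?_
      have h6 := sub_smul_dslope α (c j) z
      rw [hαc j, smul_eq_mul] at h6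
      exact h6.symm
    rw [h5] at h4
    have h7 : (bnum a).eval z = (7 * ((∏ j, (z - c j)) * ∏ j, dslope α (c j) z) * deriv α z) *
        (∏ j, (1 - conj (a j) * z)) ^ 2 / (RR * u) := by
      rw [h4]
      generalize (∏ j, (1 - conj (a j) * z)) = D at hD ⊢
      field_simp
    rw [h7]
    simp only [hG_def]
    generalize (∏ j, (1 - conj (a j) * z)) = D
    generalize (∏ j, dslope α (c j) z) = E
    generalize (∏ j, (z - c j)) = E'
    field_simp
  obtain ⟨κ, hκ, hκe⟩ := bnum_factor ha hc hGc hfactor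
  exact ⟨{
    α := α
    β := β
    a := a
    c := c
    u := u
    κ := κ
    hα := hα
    hβ := hβ
    hαm := fun z hz => hαm z (mem_ball_zero_iff.2 hz)
    hβm := fun y hy => mem_ball_zero_iff.1 (hβm y hy)
    hβα := fun z hz => hβα z (mem_ball_zero_iff.2 hz)
    hαβ := fun y hy => hαβ y hy
    ha := ha
    hc := hc
    hu := hu
    hκ := hκ
    hB := hB
    hderiv := by
      intro z hz
      have h1 := hasDerivAt_Bl (u := u) (haden z hz)
      rw [hκe z] at h1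
      have h2 : u * (↑κ * ((∏ j, (z - c j)) * ∏ j, (1 - conj (c j) * z))) /
          (∏ j, (1 - conj (a j) * z)) ^ 2 =
          (u * κ * ((∏ j, (z - c j)) * (∏ j, (1 - conj (c j) * z))) /
          (∏ j, (1 - conj (a j) * z)) ^ 2) := by ring
      rw [h2] at h1
      exact h1 }⟩

end

end Pool.Agent.Steklov.M1

namespace Pool.Agent.Steklov

theorem exists_bmodel {p : ℂ} (hp : p ^ 2 - p + 2 = 0) : Nonempty (BModel (FF p)) :=
  M1.exists_bmodel hp

end Pool.Agent.Steklov
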