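import Mathlib
import Pool.Agent.Steklov.Defs

/-! # Transfer from the complex plane to the Euclidean plane -/

set_option autoImplicit false

open Complex Metric Set MeasureTheory
open scoped ComplexConjugate

namespace Pool.Agent.Steklov

/-- the isometry from the complex plane to the Euclidean plane -/
noncomputable def toE : ℂ ≃ₗᵢ[ℝ] EuclideanSpace ℝ (Fin 2) := Complex.orthonormalBasisOneI.repr

theorem frontier_toE (Ω : Set ℂ) : frontier (toE '' Ω) = toE '' frontier Ω :=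
  (toE.toHomeomorph.image_frontier Ω).symm

theorem transfer_lip {Ω : Set ℂ} (h : LipBdry Ω) :
    ∀ p ∈ frontier (toE '' Ω), ∃ r : ℝ, 0 < r ∧
      ∃ a b : EuclideanSpace ℝ (Fin 2), ‖a‖ = 1 ∧ ‖b‖ = 1 ∧ inner ℝ a b = 0 ∧
      ∃ g : ℝ → ℝ, ∃ K : NNReal, LipschitzWith K g ∧
        ∀ x ∈ Metric.ball p r, (x ∈ toE '' Ω ↔ g (inner ℝ (x - p) a) < inner ℝ (x - p) b) := by
  intro p hp
  rw [frontier_toE] at hp
  obtain ⟨p', hp', rfl⟩ := hp
  obtain ⟨r, hr, a, b, ha, hb, hab, g, K, hg, hx⟩ := h p' hp'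
  refine ⟨r, hr, toE a, toE b, by rw [toE.norm_map, ha], by rw [toE.norm_map, hb], ?_, g, K, hg, ?_⟩
  · rw [toE.inner_map_map]
    exact hab
  · intro x hx'
    obtain ⟨z, rfl⟩ := toE.surjective x
    have hz : z ∈ ball p' r := by
      rw [mem_ball] at hx' ⊢
      rwa [toE.dist_map] at hx'
    rw [toE.injective.mem_set_image, hx z hz, ← map_sub, toE.inner_map_map, toE.inner_map_map]

theorem measurePreserving_toE : MeasurePreserving toE volume volume :=
  toE.measurePreserving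

theorem engy_toE (Ω : Set ℂ) (u : EuclideanSpace ℝ (Fin 2) → ℝ) :
    ∫ x in toE '' Ω, ‖fderiv ℝ u x‖ ^ 2 = engy Ω (u ∘ toE) := by
  unfold engy
  rw [measurePreserving_toE.setIntegral_image_emb toE.toHomeomorph.measurableEmbedding]
  congr 1
  ext z
  have h : fderiv ℝ (u ∘ toE) z = (fderiv ℝ u (toE z)).comp
      (toE.toContinuousLinearEquiv : ℂ →L[ℝ] EuclideanSpace ℝ (Fin 2)) :=
    toE.toContinuousLinearEquiv.comp_right_fderiv
  rw [h]
  congr 1
  exact ((fderiv ℝ u (toE z)).opNorm_comp_linearIsometryEquiv toE).symm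

theorem bdry_toE (Ω : Set ℂ) (u : EuclideanSpace ℝ (Fin 2) → ℝ) :
    ∫ x in frontier (toE '' Ω), u x ^ 2 ∂μH[1] = bdry Ω (u ∘ toE) := by
  unfold bdry
  rw [frontier_toE]
  have h := toE.toIsometryEquiv.measurePreserving_hausdorffMeasure 1
  exact h.setIntegral_image_emb toE.toHomeomorph.measurableEmbedding (fun x => u x ^ 2) (frontier Ω)

/-- composition with `toE` as a linear equivalence -/
noncomputable def pull : (EuclideanSpace ℝ (Fin 2) → ℝ) ≃ₗ[ℝ] (ℂ → ℝ) :=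
  LinearEquiv.funCongrLeft ℝ ℝ toE.toEquiv

theorem pull_apply (u : EuclideanSpace ℝ (Fin 2) → ℝ) : pull u = u ∘ toE := rfl

theorem contDiff_pull (u : EuclideanSpace ℝ (Fin 2) → ℝ) : ContDiff ℝ 1 (pull u) ↔ ContDiff ℝ 1 u := by
  rw [pull_apply]
  exact toE.toContinuousLinearEquiv.contDiff_comp_iff

theorem transfer_raySet (Ω : Set ℂ) (k : ℕ) :
    {s : ℝ | ∃ V : Submodule ℝ (EuclideanSpace ℝ (Fin 2) → ℝ),
        (∀ u ∈ V, ContDiff ℝ 1 u) ∧ Module.finrank ℝ V = k + 1 ∧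
        (∀ u ∈ V, u ≠ 0 → 0 < ∫ x in frontier (toE '' Ω), u x ^ 2 ∂μH[1]) ∧
        s = sSup {t : ℝ | ∃ u ∈ V, u ≠ 0 ∧
          t = (∫ x in toE '' Ω, ‖fderiv ℝ u x‖ ^ 2) /
            ∫ x in frontier (toE '' Ω), u x ^ 2 ∂μH[1]}} = raySet Ω k := by
  have key : ∀ V : Submodule ℝ (EuclideanSpace ℝ (Fin 2) → ℝ),
      (((∀ u ∈ V, ContDiff ℝ 1 u) ∧ Module.finrank ℝ V = k + 1 ∧
        (∀ u ∈ V, u ≠ 0 → 0 < ∫ x in frontier (toE '' Ω), u x ^ 2 ∂μH[1])) ↔
      ((∀ u ∈ V.map pull.toLinearMap, ContDiff ℝ 1 u) ∧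
        Module.finrank ℝ (V.map pull.toLinearMap) = k + 1 ∧
        (∀ u ∈ V.map pull.toLinearMap, u ≠ 0 → 0 < bdry Ω u))) ∧
      {t : ℝ | ∃ u ∈ V, u ≠ 0 ∧
          t = (∫ x in toE '' Ω, ‖fderiv ℝ u x‖ ^ 2) /
            ∫ x in frontier (toE '' Ω), u x ^ 2 ∂μH[1]} =
      {t : ℝ | ∃ u ∈ V.map pull.toLinearMap, u ≠ 0 ∧ t = engy Ω u / bdry Ω u} := by
    intro V
    refine ⟨?_, ?_⟩
    · apply and_congr
      · constructor
        · rintro h _ ⟨u, hu, rfl⟩
          exact (contDiff_pull u).2 (h u hu)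
        · intro h u hu
          exact (contDiff_pull u).1 (h _ ⟨u, hu, rfl⟩)
      apply and_congr
      · rw [← (pull.submoduleMap V).finrank_eq]
      · constructor
        · rintro h _ ⟨u, hu, rfl⟩ hne
          have hu0 : u ≠ 0 := by
            rintro rfl
            apply hne
            simp
          have := h u hu hu0
          rw [bdry_toE] at this
          exact this
        · intro h u hu hne
          rw [bdry_toE]
          apply h _ ⟨u, hu, rfl⟩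
          intro h0
          apply hne
          exact pull.map_eq_zero_iff.1 h0
    · ext t
      constructor
      · rintro ⟨u, hu, hne, rfl⟩
        refine ⟨pull u, ⟨u, hu, rfl⟩, fun h0 => hne (pull.map_eq_zero_iff.1 h0), ?_⟩
        rw [engy_toE, bdry_toE]
        rfl
      · rintro ⟨_, ⟨u, hu, rfl⟩, hne, rfl⟩
        refine ⟨u, hu, ?_, ?_⟩
        · rintro rfl
          apply hne
          simp
        · rw [engy_toE, bdry_toE]
          rfl
  ext s
  constructor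
  · rintro ⟨V, h1, h2, h3, h4⟩
    obtain ⟨k1, k2⟩ := key V
    obtain ⟨g1, g2, g3⟩ := k1.1 ⟨h1, h2, h3⟩
    refine ⟨V.map pull.toLinearMap, g1, g2, g3, ?_⟩
    rw [h4, k2]
  · rintro ⟨W, h1, h2, h3, h4⟩
    have hW : (W.comap pull.toLinearMap).map pull.toLinearMap = W :=
      Submodule.map_comap_eq_of_surjective pull.surjective W
    obtain ⟨k1, k2⟩ := key (W.comap pull.toLinearMap)
    rw [hW] at k1 k2
    obtain ⟨g1, g2, g3⟩ := k1.2 ⟨h1, h2, h3⟩
    refine ⟨W.comap pull.toLinearMap, g1, g2, g3, ?_⟩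
    rw [h4, k2]

theorem transfer_iso {Ω₁ Ω₂ : Set ℂ} (h : ¬ ∃ e : ℂ ≃ᵢ ℂ, e '' Ω₁ = Ω₂) :
    ¬ ∃ f : EuclideanSpace ℝ (Fin 2) ≃ᵢ EuclideanSpace ℝ (Fin 2),
      f '' (toE '' Ω₁) = toE '' Ω₂ := by
  rintro ⟨f, hf⟩
  apply h
  refine ⟨(toE.toIsometryEquiv.trans f).trans toE.symm.toIsometryEquiv, ?_⟩
  have h1 : ((toE.toIsometryEquiv.trans f).trans toE.symm.toIsometryEquiv : ℂ → ℂ) '' Ω₁
      = toE.symm '' (f '' (toE '' Ω₁)) := by
    rw [Set.image_image, Set.image_image]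
    rfl
  rw [h1, hf, Set.image_image]
  simp

end Pool.Agent.Steklov
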