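import Mathlib
import Pool.Agent.Steklov.Defs

/-!
# A univalent primitive
-/

set_option autoImplicit false

open Complex Metric Set MeasureTheory
open scoped ComplexConjugate

namespace Pool.Agent.Steklov

theorem norm_prod_one_sub_sub_one_le {n : ℕ} {b : Fin n → ℂ} (hb : ∀ j, ‖b j‖ ≤ 1 / 200)
    {z : ℂ} (hz : ‖z‖ < 2) :
    ‖(∏ j, (1 - conj (b j) * z)) - 1‖ ≤ Real.exp (n / 100) - 1 := by
  have h := Finset.univ.norm_prod_one_add_sub_one_le (fun j => -(conj (b j) * z))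
  have h1 : (∏ j, (1 + -(conj (b j) * z))) = ∏ j, (1 - conj (b j) * z) :=
    Finset.prod_congr rfl fun j _ => by ring
  rw [h1] at h
  refine h.trans ?_
  have h2 : ∑ j, ‖-(conj (b j) * z)‖ ≤ n / 100 := by
    calc ∑ j, ‖-(conj (b j) * z)‖ ≤ ∑ _j : Fin n, (1 / 100 : ℝ) := by
          refine Finset.sum_le_sum fun j _ => ?_
          rw [norm_neg, norm_mul, RCLike.norm_conj]
          nlinarith [hb j, norm_nonneg (b j), norm_nonneg z]
      _ = n / 100 := by simp; ring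
  have := Real.exp_le_exp.2 h2
  linarith

theorem exp_small : Real.exp ((6 : ℕ) / 100) - 1 ≤ 62 / 1000 ∧
    Real.exp ((7 : ℕ) / 100) - 1 ≤ 73 / 1000 := by
  constructor
  · have := Real.exp_bound' (x := (6 : ℕ) / 100) (by norm_num) (by norm_num) (n := 3) (by norm_num)
    refine (sub_le_sub_right this 1).trans ?_
    simp [Finset.sum_range_succ, Nat.factorial]
    norm_num
  · have := Real.exp_bound' (x := (7 : ℕ) / 100) (by norm_num) (by norm_num) (n := 3) (by norm_num)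
    refine (sub_le_sub_right this 1).trans ?_
    simp [Finset.sum_range_succ, Nat.factorial]
    norm_num

theorem sq_sub_one_le {P : ℂ} {e : ℝ} (he : ‖P - 1‖ ≤ e) : ‖P ^ 2 - 1‖ ≤ e * (2 + e) := by
  have h0 : (0:ℝ) ≤ e := (norm_nonneg _).trans he
  have h1 : P ^ 2 - 1 = (P - 1) * ((P - 1) + 2) := by ring
  rw [h1, norm_mul]
  have h2 : ‖(P - 1) + 2‖ ≤ e + 2 := by
    refine (norm_add_le _ _).trans ?_
    have : ‖(2:ℂ)‖ = 2 := by simp
    rw [this]; linarith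
  calc ‖P - 1‖ * ‖(P - 1) + 2‖ ≤ e * (e + 2) := by gcongr
    _ = e * (2 + e) := by ring

theorem dpsi_facts {a : Fin 7 → ℂ} {c : Fin 6 → ℂ} (ha : ∀ j, ‖a j‖ ≤ 1 / 200)
    (hc : ∀ j, ‖c j‖ ≤ 1 / 200) {z : ℂ} (hz : ‖z‖ < 2) :
    (∏ j, (1 - conj (a j) * z)) ^ 2 ≠ 0 ∧ ‖dpsi a c z - 1‖ ≤ 1 / 2 := by
  have hP := norm_prod_one_sub_sub_one_le hc hz
  have hQ := norm_prod_one_sub_sub_one_le ha hz
  have hP' := sq_sub_one_le (hP.trans exp_small.1)
  have hQ' := sq_sub_one_le (hQ.trans exp_small.2)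
  set N := (∏ j, (1 - conj (c j) * z)) ^ 2
  set D := (∏ j, (1 - conj (a j) * z)) ^ 2
  have hD : 84 / 100 ≤ ‖D‖ := by
    have : ‖(1:ℂ)‖ ≤ ‖D‖ + ‖D - 1‖ := by
      have h := norm_sub_le D (D - 1)
      rwa [sub_sub_cancel] at h
    rw [norm_one] at this
    linarith
  have hD0 : D ≠ 0 := by
    intro h
    rw [h, norm_zero] at hD
    linarith
  refine ⟨hD0, ?_⟩
  have h1 : dpsi a c z - 1 = ((N - 1) - (D - 1)) / D := by
    have : dpsi a c z = N / D := rfl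
    rw [this]
    field_simp
    ring
  rw [h1, norm_div, div_le_iff₀ (by linarith)]
  have := norm_sub_le (N - 1) (D - 1)
  linarith

theorem exists_psi {a : Fin 7 → ℂ} {c : Fin 6 → ℂ} (ha : ∀ j, ‖a j‖ ≤ 1 / 200)
    (hc : ∀ j, ‖c j‖ ≤ 1 / 200) {κ : ℝ} (hκ : 0 < κ) :
    ∃ ψ : ℂ → ℂ, (∀ z, ‖z‖ < 2 → HasDerivAt ψ (κ * dpsi a c z) z) ∧ InjOn ψ (ball 0 2) := by
  have hd : DifferentiableOn ℂ (dpsi a c) (ball 0 2) := by
    intro z hz
    rw [mem_ball_zero_iff] at hz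
    have h0 := (dpsi_facts ha hc hz).1
    refine DifferentiableAt.differentiableWithinAt ?_
    unfold dpsi
    refine DifferentiableAt.div ?_ ?_ h0
    · fun_prop
    · fun_prop
  obtain ⟨φ, hφ⟩ := hd.isExactOn_ball
  have hφ' : ∀ z, ‖z‖ < 2 → HasDerivAt φ (dpsi a c z) z := fun z hz =>
    hφ z (mem_ball_zero_iff.2 hz)
  refine ⟨fun z => κ * φ z, fun z hz => (hφ' z hz).const_mul _, ?_⟩
  intro z hz w hw hzw
  have hκ0 : (κ : ℂ) ≠ 0 := by exact_mod_cast hκ.ne'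
  have h1 : φ z = φ w := mul_left_cancel₀ hκ0 hzw
  have h2 := (convex_ball (0:ℂ) 2).norm_image_sub_le_of_norm_hasDerivWithin_le
    (f := fun z => φ z - z) (f' := fun z => dpsi a c z - 1) (C := 1 / 2)
    (fun x hx => ((hφ' x (mem_ball_zero_iff.1 hx)).sub (hasDerivAt_id x)).hasDerivWithinAt)
    (fun x hx => (dpsi_facts ha hc (mem_ball_zero_iff.1 hx)).2) hz hw
  simp only [h1] at h2
  have h3 : φ w - w - (φ w - z) = -(w - z) := by ring
  rw [h3, norm_neg] at h2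
  have h4 : ‖w - z‖ = 0 := by
    have := norm_nonneg (w - z)
    linarith
  exact (sub_eq_zero.1 (norm_eq_zero.1 h4)).symm

end Pool.Agent.Steklov
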