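import Mathlib
import Pool.Agent.Steklov.Model
import Pool.Agent.Steklov.Annulus
import Pool.Agent.Steklov.MinMax
import Pool.Agent.Steklov.Univalent
import Pool.Agent.Steklov.Domain
import Pool.Agent.Steklov.LipBoundary
import Pool.Agent.Steklov.NonIso
import Pool.Agent.Steklov.Transfer

/-!
# Steklov isospectral, non-isometric plane domains
-/

set_option autoImplicit false

open Complex Metric Set MeasureTheory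

namespace Pool.Agent.Steklov

theorem exists_root_p : ∃ p : ℂ, p ^ 2 - p + 2 = 0 := by
  obtain ⟨z, hz⟩ := IsAlgClosed.exists_pow_nat_eq (-7 : ℂ) (n := 2) (by norm_num)
  exact ⟨(1 + z) / 2, by linear_combination (1 / 4) * hz⟩

theorem raySet_nonneg {Ω : Set ℂ} {k : ℕ} {s : ℝ} (hs : s ∈ raySet Ω k) : 0 ≤ s := by
  obtain ⟨V, -, -, -, rfl⟩ := hs
  apply Real.sSup_nonneg
  rintro t ⟨u, -, -, rfl⟩
  apply div_nonneg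
  · exact integral_nonneg (fun x => by positivity)
  · exact integral_nonneg (fun x => by positivity)

theorem sInf_raySet_le {Ω Ω' : Set ℂ} {k : ℕ}
    (h : ∀ s ∈ raySet Ω k, ∀ ε > 0, ∃ s' ∈ raySet Ω' k, s' ≤ s + ε)
    (hne : (raySet Ω k).Nonempty) : sInf (raySet Ω' k) ≤ sInf (raySet Ω k) := by
  apply le_csInf hne
  intro s hs
  apply le_of_forall_pos_le_add
  intro ε hε
  obtain ⟨s', hs', hle⟩ := h s hs ε hε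
  exact (csInf_le ⟨0, fun t ht => raySet_nonneg ht⟩ hs').trans hle

theorem sInf_raySet_eq {Ω Ω' : Set ℂ} {k : ℕ}
    (h : ∀ s ∈ raySet Ω k, ∀ ε > 0, ∃ s' ∈ raySet Ω' k, s' ≤ s + ε)
    (h' : ∀ s ∈ raySet Ω' k, ∀ ε > 0, ∃ s' ∈ raySet Ω k, s' ≤ s + ε) :
    sInf (raySet Ω k) = sInf (raySet Ω' k) := by
  rcases (raySet Ω k).eq_empty_or_nonempty with h0 | hne
  · have : raySet Ω' k = ∅ := by
      rw [Set.eq_empty_iff_forall_notMem]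
      intro s hs
      obtain ⟨s', hs', -⟩ := h' s hs 1 one_pos
      rw [h0] at hs'
      exact hs'
    rw [h0, this]
  · obtain ⟨s, hs⟩ := hne
    obtain ⟨s', hs', -⟩ := h s hs 1 one_pos
    exact le_antisymm (sInf_raySet_le h' ⟨s', hs'⟩) (sInf_raySet_le h ⟨s, hs⟩)

/-- a plane domain obtained from the model of one polynomial -/
structure Dom (p : ℂ) where
  /-- the disc model -/
  m : BModel (FF p)
  /-- the conformal map -/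
  ψ : ℂ → ℂ
  hd : ∀ z, ‖z‖ < 2 → HasDerivAt ψ (m.κ * dpsi m.a m.c z) z
  hi : InjOn ψ (ball 0 2)

theorem exists_dom {p : ℂ} (hp : p ^ 2 - p + 2 = 0) : Nonempty (Dom p) := by
  obtain ⟨m⟩ := exists_bmodel hp
  obtain ⟨ψ, h1, h2⟩ := exists_psi m.ha m.hc m.hκ
  exact ⟨⟨m, ψ, h1, h2⟩⟩

theorem Dom.diff {p : ℂ} (d : Dom p) : DifferentiableOn ℂ d.ψ (ball 0 2) := fun z hz =>
  (d.hd z (by rwa [mem_ball_zero_iff] at hz)).differentiableAt.differentiableWithinAt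

/-- the domain -/
noncomputable def Dom.Ω {p : ℂ} (d : Dom p) : Set ℂ := d.ψ '' ball 0 1

theorem exists_pair_maps : ∃ ψ₁ ψ₂ : ℂ → ℂ,
    (DifferentiableOn ℂ ψ₁ (ball 0 2) ∧ InjOn ψ₁ (ball 0 2)) ∧
    (DifferentiableOn ℂ ψ₂ (ball 0 2) ∧ InjOn ψ₂ (ball 0 2)) ∧
    (∀ k, sInf (raySet (ψ₁ '' ball 0 1) k) = sInf (raySet (ψ₂ '' ball 0 1) k)) ∧
    ¬ ∃ e : ℂ ≃ᵢ ℂ, e '' (ψ₁ '' ball 0 1) = ψ₂ '' ball 0 1 := by
  obtain ⟨p, hp⟩ := exists_root_p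
  have hq : (1 - p) ^ 2 - (1 - p) + 2 = 0 := by linear_combination hp
  obtain ⟨d1⟩ := exists_dom hp
  obtain ⟨d2⟩ := exists_dom hq
  refine ⟨d1.ψ, d2.ψ, ⟨d1.diff, d1.hi⟩, ⟨d2.diff, d2.hi⟩, fun k => ?_,
    not_isometric hp d1.m d2.m d1.hd d1.hi d2.hd d2.hi⟩
  change sInf (raySet d1.Ω k) = sInf (raySet d2.Ω k)
  apply sInf_raySet_eq
  · intro s hs ε hε
    exact raySet_approx hp d1.m d2.m d1.hd d1.hi d2.hd d2.hi k hs hε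
  · intro s hs ε hε
    have e : (1 - (1 - p)) = p := by ring
    have hd1 : ∃ d : Dom (1 - (1 - p)), d.Ω = d1.Ω := by
      rw [e]
      exact ⟨d1, rfl⟩
    obtain ⟨d, hd⟩ := hd1
    rw [← hd]
    exact raySet_approx hq d2.m d.m d2.hd d2.hi d.hd d.hi k hs hε

theorem exists_pair : ∃ Ω₁ Ω₂ : Set ℂ,
    (IsOpen Ω₁ ∧ IsConnected Ω₁ ∧ Bornology.IsBounded Ω₁ ∧ LipBdry Ω₁) ∧
    (IsOpen Ω₂ ∧ IsConnected Ω₂ ∧ Bornology.IsBounded Ω₂ ∧ LipBdry Ω₂) ∧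
    (∀ k, sInf (raySet Ω₁ k) = sInf (raySet Ω₂ k)) ∧ ¬ ∃ e : ℂ ≃ᵢ ℂ, e '' Ω₁ = Ω₂ := by
  obtain ⟨ψ₁, ψ₂, ⟨a1, a2⟩, ⟨b1, b2⟩, hk, hne⟩ := exists_pair_maps
  have h2 : (1:ℝ) < 2 := one_lt_two
  exact ⟨ψ₁ '' ball 0 1, ψ₂ '' ball 0 1, ⟨isOpen_image h2 a1 a2, isConnected_image h2 a1 a2,
    isBounded_image h2 a1 a2, lipBdry_image h2 a1 a2⟩,
    ⟨isOpen_image h2 b1 b2, isConnected_image h2 b1 b2,
    isBounded_image h2 b1 b2, lipBdry_image h2 b1 b2⟩, hk, hne⟩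

theorem exists_pair_euclidean :
    ∃ Ω₁ Ω₂ : Set (EuclideanSpace ℝ (Fin 2)),
    IsOpen Ω₁ ∧ IsConnected Ω₁ ∧ Bornology.IsBounded Ω₁ ∧
    (∀ p ∈ frontier Ω₁, ∃ r : ℝ, 0 < r ∧
      ∃ a b : EuclideanSpace ℝ (Fin 2), ‖a‖ = 1 ∧ ‖b‖ = 1 ∧ inner ℝ a b = 0 ∧
      ∃ g : ℝ → ℝ, ∃ K : NNReal, LipschitzWith K g ∧
        ∀ x ∈ Metric.ball p r, (x ∈ Ω₁ ↔ g (inner ℝ (x - p) a) < inner ℝ (x - p) b)) ∧
    IsOpen Ω₂ ∧ IsConnected Ω₂ ∧ Bornology.IsBounded Ω₂ ∧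
    (∀ p ∈ frontier Ω₂, ∃ r : ℝ, 0 < r ∧
      ∃ a b : EuclideanSpace ℝ (Fin 2), ‖a‖ = 1 ∧ ‖b‖ = 1 ∧ inner ℝ a b = 0 ∧
      ∃ g : ℝ → ℝ, ∃ K : NNReal, LipschitzWith K g ∧
        ∀ x ∈ Metric.ball p r, (x ∈ Ω₂ ↔ g (inner ℝ (x - p) a) < inner ℝ (x - p) b)) ∧
    (∀ k : ℕ,
      sInf {s : ℝ | ∃ V : Submodule ℝ (EuclideanSpace ℝ (Fin 2) → ℝ),
        (∀ u ∈ V, ContDiff ℝ 1 u) ∧ Module.finrank ℝ V = k + 1 ∧
        (∀ u ∈ V, u ≠ 0 → 0 < ∫ x in frontier Ω₁, u x ^ 2 ∂μH[1]) ∧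
        s = sSup {t : ℝ | ∃ u ∈ V, u ≠ 0 ∧
          t = (∫ x in Ω₁, ‖fderiv ℝ u x‖ ^ 2) / ∫ x in frontier Ω₁, u x ^ 2 ∂μH[1]}}
      =
      sInf {s : ℝ | ∃ V : Submodule ℝ (EuclideanSpace ℝ (Fin 2) → ℝ),
        (∀ u ∈ V, ContDiff ℝ 1 u) ∧ Module.finrank ℝ V = k + 1 ∧
        (∀ u ∈ V, u ≠ 0 → 0 < ∫ x in frontier Ω₂, u x ^ 2 ∂μH[1]) ∧
        s = sSup {t : ℝ | ∃ u ∈ V, u ≠ 0 ∧
          t = (∫ x in Ω₂, ‖fderiv ℝ u x‖ ^ 2) / ∫ x in frontier Ω₂, u x ^ 2 ∂μH[1]}}) ∧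
    ¬ ∃ f : EuclideanSpace ℝ (Fin 2) ≃ᵢ EuclideanSpace ℝ (Fin 2), f '' Ω₁ = Ω₂ := by
  obtain ⟨Ω₁, Ω₂, ⟨a1, a2, a3, a4⟩, ⟨b1, b2, b3, b4⟩, hk, hne⟩ := exists_pair
  have hop : ∀ {Ω : Set ℂ}, IsOpen Ω → IsOpen (toE '' Ω) := fun h =>
    toE.toHomeomorph.isOpenMap _ h
  have hco : ∀ {Ω : Set ℂ}, IsConnected Ω → IsConnected (toE '' Ω) := fun h =>
    h.image _ toE.continuous.continuousOn
  have hbd : ∀ {Ω : Set ℂ}, Bornology.IsBounded Ω → Bornology.IsBounded (toE '' Ω) := fun h =>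
    toE.isometry.lipschitz.isBounded_image h
  refine ⟨toE '' Ω₁, toE '' Ω₂, hop a1, hco a2, hbd a3, transfer_lip a4, hop b1, hco b2, hbd b3,
    transfer_lip b4, fun k => ?_, transfer_iso hne⟩
  rw [transfer_raySet, transfer_raySet]
  exact hk k

end Pool.Agent.Steklov
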